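import Mathlib
import Pool.Agent.Lib.MP_8d00da_gt.h42k.KD1

section

namespace Pool.Agent.Lib.MP_8d00da_gt.h25
end Pool.Agent.Lib.MP_8d00da_gt.h25
namespace Pool.Agent.Lib.MP_8d00da_gt.h42
end Pool.Agent.Lib.MP_8d00da_gt.h42
namespace Pool.Agent.Lib.MP_8d00da_gt.h42s
end Pool.Agent.Lib.MP_8d00da_gt.h42s
namespace Pool.Agent.Lib.MP_8d00da_gt.h42o
end Pool.Agent.Lib.MP_8d00da_gt.h42o


/-!
# U34: Lipschitz gradients from two convexities

Full proof. Write `D w x v = fderiv w x v`. Convexity of `w`: `w y ≥ w x + D w x (y - x)`. Convexity of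
`‖·‖²/(2σ) - w`: `w y ≤ w x + D w x (y - x) + ‖y - x‖²/(2σ)` (first order condition for
`q y = ‖y‖²/(2σ) - w y`, `D q x v = ⟨x, v⟩/σ - D w x v`, `‖y‖² - ‖x‖² - 2⟨x,y-x⟩ = ‖y-x‖²`). Fix `x, y`,
`φ z = w z - D w x z`; it is differentiable, convex, `φ z ≥ φ x` for all `z`, and
`φ z ≤ φ y + D φ y (z - y) + ‖z-y‖²/(2σ)`. With `g = gr w y - gr w x` (so `D φ y v = ⟨g, v⟩`) and
`z = y - σ g`: `φ x ≤ φ z ≤ φ y - (σ/2)‖g‖²`, that is
`(σ/2)‖g‖² ≤ w y - w x - D w x (y - x) ≤ ‖y-x‖²/(2σ)`. So `‖g‖ ≤ ‖y - x‖/σ` (`gr_sub_norm`).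
-/

namespace Pool.Agent.Lib.MP_8d00da_gt.h42u

open MeasureTheory Set Filter
open Pool.Agent.Lib.MP_8d00da_gt.h25 Pool.Agent.Lib.MP_8d00da_gt.h42
open Pool.Agent.Lib.MP_8d00da_gt.h42s Pool.Agent.Lib.MP_8d00da_gt.h42o
open scoped Topology NNReal

variable {F : Type*} [NormedAddCommGroup F] [InnerProductSpace ℝ F]
    [FiniteDimensional ℝ F] [MeasurableSpace F] [BorelSpace F]

omit [FiniteDimensional ℝ F] [MeasurableSpace F] [BorelSpace F] in
private lemma first_order {w : F → ℝ} (hc : ConvexOn ℝ univ w) {x : F}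
    {w' : F →L[ℝ] ℝ} (hd : HasFDerivAt w w' x) (y : F) : w x + w' (y - x) ≤ w y := by
  have hline : HasDerivAt (fun t : ℝ => w (x + t • (y - x))) (w' (y - x)) 0 := by
    have h1 : HasDerivAt (fun t : ℝ => x + t • (y - x)) (y - x) 0 := by
      have h2 : HasDerivAt (fun t : ℝ => t • (y - x)) ((1 : ℝ) • (y - x)) 0 :=
        (hasDerivAt_id (0 : ℝ)).smul_const (y - x)
      rw [one_smul] at h2
      exact h2.const_add x
    have h3 : HasFDerivAt w w' (x + (0 : ℝ) • (y - x)) := by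
      rw [zero_smul, add_zero]
      exact hd
    exact h3.comp_hasDerivAt (0 : ℝ) h1
  have hconv : ConvexOn ℝ univ (fun t : ℝ => w (x + t • (y - x))) := by
    refine ⟨convex_univ, ?_⟩
    intro s _ t _ a b ha hb hab
    have h1 := hc.2 (mem_univ (x + s • (y - x))) (mem_univ (x + t • (y - x))) ha hb hab
    have h2 : x + (a • s + b • t) • (y - x) =
        a • (x + s • (y - x)) + b • (x + t • (y - x)) := by
      have hx : x = (a + b) • x := by rw [hab, one_smul]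
      nth_rw 1 [hx]
      rw [add_smul, add_smul, smul_add, smul_add, smul_assoc, smul_assoc]
      abel
    simp only [h2]
    exact h1
  have h := hconv.le_slope_of_hasDerivAt (mem_univ (0 : ℝ)) (mem_univ (1 : ℝ)) one_pos hline
  rw [slope_def_field] at h
  simp only [zero_smul, add_zero, one_smul, sub_zero, div_one, add_sub_cancel] at h
  linarith

omit [MeasurableSpace F] [BorelSpace F] in
theorem grad_lip {w : F → ℝ} (hd : Differentiable ℝ w) (hc : ConvexOn ℝ univ w) {σ : ℝ}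
    (hσ : 0 < σ) (hc2 : ConvexOn ℝ univ fun y => ‖y‖ ^ 2 / (2 * σ) - w y) (x y : F) :
    ‖fderiv ℝ w x - fderiv ℝ w y‖ ≤ 1 / σ * ‖x - y‖ := by
  -- upper bound
  have hup : ∀ a b : F, w b ≤ w a + fderiv ℝ w a (b - a) + ‖b - a‖ ^ 2 / (2 * σ) := by
    intro a b
    have hq : HasFDerivAt (fun y : F => ‖y‖ ^ 2 / (2 * σ) - w y)
        (((1 / σ) • (innerSL ℝ a)) - fderiv ℝ w a) a := by
      have h1 : HasFDerivAt (fun y : F => ‖y‖ ^ 2) (2 • (innerSL ℝ a)) a :=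
        (hasStrictFDerivAt_norm_sq a).hasFDerivAt
      have h2 : HasFDerivAt (fun y : F => ‖y‖ ^ 2 / (2 * σ)) ((1 / σ) • (innerSL ℝ a)) a := by
        have h3 := h1.const_mul (1 / (2 * σ))
        have h4 : (fun y : F => 1 / (2 * σ) * ‖y‖ ^ 2) = fun y : F => ‖y‖ ^ 2 / (2 * σ) := by
          funext y
          ring
        have h5 : (1 / (2 * σ)) • (2 • (innerSL ℝ a)) = (1 / σ) • (innerSL ℝ a) := by
          rw [← Nat.cast_smul_eq_nsmul ℝ, smul_smul]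
          congr 1
          push_cast
          field_simp
        rw [h4, h5] at h3
        exact h3
      exact h2.sub (hd a).hasFDerivAt
    have h := first_order hc2 hq b
    have h6 : (((1 / σ) • (innerSL ℝ a)) - fderiv ℝ w a) (b - a) =
        (1 / σ) * inner ℝ a (b - a) - fderiv ℝ w a (b - a) := by
      simp
    rw [h6] at h
    have h7 : ‖b‖ ^ 2 = ‖a‖ ^ 2 + 2 * inner ℝ a (b - a) + ‖b - a‖ ^ 2 := by
      have := norm_add_sq_real a (b - a)
      rw [add_sub_cancel] at this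
      exact this
    have h8 : ‖b‖ ^ 2 / (2 * σ) = ‖a‖ ^ 2 / (2 * σ) + (1 / σ) * inner ℝ a (b - a) +
        ‖b - a‖ ^ 2 / (2 * σ) := by
      rw [h7]
      field_simp
    rw [h8] at h
    linarith
  have hlo : ∀ a b : F, w a + fderiv ℝ w a (b - a) ≤ w b := fun a b =>
    first_order hc (hd a).hasFDerivAt b
  obtain ⟨g, hg⟩ : ∃ g : F, ∀ v, (fderiv ℝ w y - fderiv ℝ w x) v = inner ℝ g v := by
    refine ⟨(InnerProductSpace.toDual ℝ F).symm (fderiv ℝ w y - fderiv ℝ w x), fun v => ?_⟩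
    rw [InnerProductSpace.toDual_symm_apply]
  have hnorm : ‖fderiv ℝ w x - fderiv ℝ w y‖ ≤ ‖g‖ := by
    rw [norm_sub_rev]
    refine ContinuousLinearMap.opNorm_le_bound _ (norm_nonneg _) fun v => ?_
    rw [hg v]
    exact norm_inner_le_norm g v
  have hkey : (σ / 2) * ‖g‖ ^ 2 ≤ ‖y - x‖ ^ 2 / (2 * σ) := by
    have h1 := hup y (y - σ • g)
    have h2 := hlo x (y - σ • g)
    have h3 := hup x y
    have e1 : y - σ • g - y = -(σ • g) := by abel
    have e2 : y - σ • g - x = (y - x) - σ • g := by abel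
    rw [e1] at h1
    rw [e2] at h2
    have e3 : fderiv ℝ w x ((y - x) - σ • g) = fderiv ℝ w x (y - x) - σ * fderiv ℝ w x g := by
      rw [map_sub, map_smul, smul_eq_mul]
    have e4 : fderiv ℝ w y (-(σ • g)) = - (σ * fderiv ℝ w y g) := by
      rw [map_neg, map_smul, smul_eq_mul]
    have e5 : ‖-(σ • g)‖ ^ 2 / (2 * σ) = σ / 2 * ‖g‖ ^ 2 := by
      rw [norm_neg, norm_smul, Real.norm_eq_abs, abs_of_pos hσ]
      field_simp
    have e6 : fderiv ℝ w y g - fderiv ℝ w x g = ‖g‖ ^ 2 := by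
      have := hg g
      rw [real_inner_self_eq_norm_sq] at this
      exact this
    rw [e4, e5] at h1
    rw [e3] at h2
    have e7 : σ * fderiv ℝ w y g = σ * fderiv ℝ w x g + σ * ‖g‖ ^ 2 := by
      rw [← e6]
      ring
    linarith
  have h9 : ‖g‖ ≤ 1 / σ * ‖x - y‖ := by
    rw [norm_sub_rev x y]
    have h10 : ‖g‖ ^ 2 ≤ (1 / σ * ‖y - x‖) ^ 2 := by
      have h11 : (σ / 2) * ‖g‖ ^ 2 * (2 / σ) ≤ ‖y - x‖ ^ 2 / (2 * σ) * (2 / σ) :=
        mul_le_mul_of_nonneg_right hkey (by positivity)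
      have h12 : (σ / 2) * ‖g‖ ^ 2 * (2 / σ) = ‖g‖ ^ 2 := by field_simp
      have h13 : ‖y - x‖ ^ 2 / (2 * σ) * (2 / σ) = (1 / σ * ‖y - x‖) ^ 2 := by field_simp
      rw [h12, h13] at h11
      exact h11
    exact abs_le_of_sq_le_sq' h10 (by positivity) |>.2
  exact hnorm.trans h9

end Pool.Agent.Lib.MP_8d00da_gt.h42u
end

section

/-!
# U35: Gaussian regularisation of a log-concave weight

Full proof. `Z y = cv σ h y > 0` (`Wt.Z_pos`), differentiable (`cv_differentiable`). `w = -log Z`.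
(1) `cv_logconc`: `pl_integral` (h42/PLReal) with `u z = h z ker (x - z)`, `v z = h z ker (y - z)`,
`w z = h z ker ((1-a)x + a y - z)`: `hlc` for `h` and
`ker(p)^(1-a) ker(q)^a ≤ ker((1-a)p + a q)` (convexity of the squared norm). So `w` is convex
(take logarithms).
(2) `‖y‖²/(2σ) - w y = log (∫ h x exp (⟨x,y⟩/σ - ‖x‖²/(2σ)) dx)` is convex: Hölder's inequality
(`Real.inner_le_Lp_mul_Lq`-type for integrals: `integral_mul_le_Lp_mul_Lq_of_nonneg`), or midpoint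
convexity by `cs_int` plus continuity. (`ker σ (y-x) = exp (-‖y‖²/(2σ)) exp (⟨x,y⟩/σ - ‖x‖²/(2σ))`.)
(3) `grad_lip`: the derivative of `w` is `1/σ`-Lipschitz. The derivative of `σ‖y‖²` is
`2σ`-Lipschitz. `W = w + σ‖·‖²`, `exp (-W) = Z exp (-σ‖·‖²)`.
(4) `LogConc` of the product: both factors (`exp (-σ‖y‖²)` by convexity of the squared norm).
(5) `smid`: `Z x Z y ≤ Z ((x+y)/2)²` (`cv_logconc`, `a = 1/2`, or `pl_mid`) and
`exp(-σ‖x‖²) exp(-σ‖y‖²) exp (σ‖x-y‖²/2) = exp (-σ‖(x+y)/2‖²)²` (parallelogram law).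
(6) even: `cv_comp` (h25/Chain) with `T = fl i`, `LinearIsometryEquiv.norm_map`.
-/

namespace Pool.Agent.Lib.MP_8d00da_gt.h42u

open MeasureTheory Set Filter
open Pool.Agent.Lib.MP_8d00da_gt.h25 Pool.Agent.Lib.MP_8d00da_gt.h42
open Pool.Agent.Lib.MP_8d00da_gt.h42s Pool.Agent.Lib.MP_8d00da_gt.h42o
open scoped Topology NNReal

variable {n : ℕ}

variable {h : Vn n → ℝ} {B : ℝ}

section aux

variable {F : Type*} [NormedAddCommGroup F] [InnerProductSpace ℝ F]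

private lemma norm_sq_conv (a : ℝ) (p q : F) :
    ‖(1 - a) • p + a • q‖ ^ 2 = (1 - a) * ‖p‖ ^ 2 + a * ‖q‖ ^ 2 - a * (1 - a) * ‖p - q‖ ^ 2 := by
  rw [norm_add_sq_real, norm_sub_sq_real, norm_smul, norm_smul, inner_smul_left, inner_smul_right,
    mul_pow, mul_pow, Real.norm_eq_abs, Real.norm_eq_abs, sq_abs, sq_abs]
  simp only [conj_trivial]
  ring

private lemma exp_norm_logconc {c : ℝ} (hc : 0 ≤ c) {a : ℝ} (h0 : 0 < a) (h1 : a < 1) (p q : F) :
    Real.exp (-(c * ‖p‖ ^ 2)) ^ (1 - a) * Real.exp (-(c * ‖q‖ ^ 2)) ^ a ≤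
      Real.exp (-(c * ‖(1 - a) • p + a • q‖ ^ 2)) := by
  rw [← Real.exp_mul, ← Real.exp_mul, ← Real.exp_add, Real.exp_le_exp, norm_sq_conv]
  have h2 : 0 ≤ a * (1 - a) * ‖p - q‖ ^ 2 := by
    have : 0 < 1 - a := by linarith
    positivity
  nlinarith [mul_nonneg hc h2]

end aux

private lemma ker_logconc {σ : ℝ} (hσ : 0 < σ) {a : ℝ} (h0 : 0 < a) (h1 : a < 1) (p q : Vn n) :
    h25.ker σ p ^ (1 - a) * h25.ker σ q ^ a ≤ h25.ker σ ((1 - a) • p + a • q) := by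
  have e : ∀ z : Vn n, h25.ker σ z = Real.exp (-(1 / (2 * σ) * ‖z‖ ^ 2)) := by
    intro z
    unfold h25.ker
    congr 2
    ring
  rw [e, e, e]
  exact exp_norm_logconc (by positivity) h0 h1 p q

theorem cv_logconc (H : Wt h B) (hlc : LogConc h) {σ : ℝ} (hσ : 0 < σ) : LogConc (cv σ h) := by
  intro a h0 h1 x y
  have h1a : 0 < 1 - a := by linarith
  have hi : ∀ y : Vn n, Integrable fun z => h z * h25.ker σ (y - z) := fun y =>
    cv_integrable hσ H.meas H.abs_le y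
  have hm : ∀ y : Vn n, Measurable fun z => h z * h25.ker σ (y - z) := by
    intro y
    refine H.meas.mul ?_
    unfold h25.ker
    fun_prop
  have hn : ∀ y z : Vn n, 0 ≤ h z * h25.ker σ (y - z) := fun y z =>
    mul_nonneg (H.nonneg z) (ker_pos _).le
  refine pl_integral h0 h1 (hn x) (hn y) (hn _) (hm x) (hm y) (hm _) (hi x) (hi y) (hi _) ?_
  intro z z'
  rw [Real.mul_rpow (H.nonneg z) (ker_pos _).le, Real.mul_rpow (H.nonneg z') (ker_pos _).le]
  have h3 := hlc a h0 h1 z z'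
  have h4 := ker_logconc hσ h0 h1 (x - z) (y - z')
  have e : (1 - a) • x + a • y - ((1 - a) • z + a • z') = (1 - a) • (x - z) + a • (y - z') := by
    rw [smul_sub, smul_sub]
    abel
  rw [e]
  calc h z ^ (1 - a) * h25.ker σ (x - z) ^ (1 - a) * (h z' ^ a * h25.ker σ (y - z') ^ a)
      = (h z ^ (1 - a) * h z' ^ a) * (h25.ker σ (x - z) ^ (1 - a) * h25.ker σ (y - z') ^ a) := by
        ring
    _ ≤ _ := mul_le_mul h3 h4 (mul_nonneg (Real.rpow_nonneg (ker_pos _).le _)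
        (Real.rpow_nonneg (ker_pos _).le _)) (H.nonneg _)

private lemma log_convex {G : Vn n → ℝ} (hG : ∀ y, 0 < G y)
    (hlc : ∀ a : ℝ, 0 < a → a < 1 → ∀ x y, G ((1 - a) • x + a • y) ≤ G x ^ (1 - a) * G y ^ a) :
    ConvexOn ℝ univ fun y => Real.log (G y) := by
  refine ⟨convex_univ, fun x _ y _ a b ha hb hab => ?_⟩
  rcases eq_or_lt_of_le hb with rfl | hb'
  · have : a = 1 := by linarith
    subst this
    simp
  rcases eq_or_lt_of_le ha with rfl | ha'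
  · have : b = 1 := by linarith
    subst this
    simp
  have hb1 : b < 1 := by linarith
  have h1 := hlc b hb' hb1 x y
  have ea : 1 - b = a := by linarith
  rw [ea] at h1
  have h2 := Real.log_le_log (hG _) h1
  rw [Real.log_mul (Real.rpow_pos_of_pos (hG x) _).ne' (Real.rpow_pos_of_pos (hG y) _).ne',
    Real.log_rpow (hG x), Real.log_rpow (hG y)] at h2
  simpa only [smul_eq_mul] using h2

private lemma log_concave {G : Vn n → ℝ} (hG : ∀ y, 0 < G y) (hlc : LogConc G) :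
    ConvexOn ℝ univ fun y => - Real.log (G y) := by
  refine ⟨convex_univ, fun x _ y _ a b ha hb hab => ?_⟩
  rcases eq_or_lt_of_le hb with rfl | hb'
  · have : a = 1 := by linarith
    subst this
    simp
  rcases eq_or_lt_of_le ha with rfl | ha'
  · have : b = 1 := by linarith
    subst this
    simp
  have hb1 : b < 1 := by linarith
  have h1 := hlc b hb' hb1 x y
  have ea : 1 - b = a := by linarith
  rw [ea] at h1
  have h2 := Real.log_le_log (mul_pos (Real.rpow_pos_of_pos (hG x) _)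
    (Real.rpow_pos_of_pos (hG y) _)) h1
  rw [Real.log_mul (Real.rpow_pos_of_pos (hG x) _).ne' (Real.rpow_pos_of_pos (hG y) _).ne',
    Real.log_rpow (hG x), Real.log_rpow (hG y)] at h2
  simp only [smul_eq_mul]
  linarith

/-- the weight `z ↦ h z exp (⟨z, y⟩ / σ - ‖z‖² / (2 σ))` -/
private noncomputable def tw (σ : ℝ) (h : Vn n → ℝ) (y z : Vn n) : ℝ :=
  Real.exp (‖y‖ ^ 2 / (2 * σ)) * (h z * h25.ker σ (y - z))

private lemma tw_mid {σ : ℝ} (hh : ∀ z, 0 ≤ h z) {a : ℝ} (h0 : 0 < a) (h1 : a < 1)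
    (x y z : Vn n) : tw σ h ((1 - a) • x + a • y) z = tw σ h x z ^ (1 - a) * tw σ h y z ^ a := by
  have e : ∀ y : Vn n, tw σ h y z = h z * Real.exp (‖y‖ ^ 2 / (2 * σ) - ‖y - z‖ ^ 2 / (2 * σ)) := by
    intro y
    unfold tw h25.ker
    rw [show ‖y‖ ^ 2 / (2 * σ) - ‖y - z‖ ^ 2 / (2 * σ) =
      ‖y‖ ^ 2 / (2 * σ) + -(‖y - z‖ ^ 2 / (2 * σ)) from sub_eq_add_neg _ _, Real.exp_add]
    ring
  have e2 : h z = h z ^ (1 - a) * h z ^ a := by
    rcases eq_or_lt_of_le (hh z) with hz | hz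
    · rw [← hz, Real.zero_rpow (by linarith), Real.zero_rpow h0.ne', mul_zero]
    · rw [← Real.rpow_add hz, sub_add_cancel, Real.rpow_one]
  rw [e, e, e, Real.mul_rpow (hh z) (Real.exp_pos _).le, Real.mul_rpow (hh z) (Real.exp_pos _).le,
    ← Real.exp_mul, ← Real.exp_mul]
  have e3 : h z ^ (1 - a) * Real.exp ((‖x‖ ^ 2 / (2 * σ) - ‖x - z‖ ^ 2 / (2 * σ)) * (1 - a)) *
      (h z ^ a * Real.exp ((‖y‖ ^ 2 / (2 * σ) - ‖y - z‖ ^ 2 / (2 * σ)) * a)) =
      (h z ^ (1 - a) * h z ^ a) * (Real.exp ((‖x‖ ^ 2 / (2 * σ) - ‖x - z‖ ^ 2 / (2 * σ)) * (1 - a)) *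
      Real.exp ((‖y‖ ^ 2 / (2 * σ) - ‖y - z‖ ^ 2 / (2 * σ)) * a)) := by ring
  rw [e3, ← e2, ← Real.exp_add]
  congr 2
  have e4 : (1 - a) • x + a • y - z = (1 - a) • (x - z) + a • (y - z) := by
    rw [smul_sub, smul_sub, sub_smul, sub_smul, one_smul, one_smul]
    abel
  rw [e4, norm_sq_conv, norm_sq_conv]
  have e5 : x - z - (y - z) = x - y := by abel
  rw [e5]
  ring

private lemma G_convex (H : Wt h B) {σ : ℝ} (hσ : 0 < σ) {a : ℝ} (h0 : 0 < a) (h1 : a < 1)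
    (x y : Vn n) :
    Real.exp (‖(1 - a) • x + a • y‖ ^ 2 / (2 * σ)) * cv σ h ((1 - a) • x + a • y) ≤
      (Real.exp (‖x‖ ^ 2 / (2 * σ)) * cv σ h x) ^ (1 - a) *
      (Real.exp (‖y‖ ^ 2 / (2 * σ)) * cv σ h y) ^ a := by
  have h1a : 0 < 1 - a := by linarith
  have hi : ∀ y : Vn n, Integrable fun z => tw σ h y z := fun y =>
    (cv_integrable hσ H.meas H.abs_le y).const_mul _
  have hI : ∀ y : Vn n, ∫ z, tw σ h y z = Real.exp (‖y‖ ^ 2 / (2 * σ)) * cv σ h y := by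
    intro y
    unfold tw cv
    rw [integral_const_mul]
  have hp : ∀ y : Vn n, 0 < Real.exp (‖y‖ ^ 2 / (2 * σ)) * cv σ h y := fun y =>
    mul_pos (Real.exp_pos _) (H.Z_pos hσ y)
  have hn : ∀ y z : Vn n, 0 ≤ tw σ h y z := fun y z =>
    mul_nonneg (Real.exp_pos _).le (mul_nonneg (H.nonneg z) (ker_pos _).le)
  set A := Real.exp (‖x‖ ^ 2 / (2 * σ)) * cv σ h x with hA
  set C := Real.exp (‖y‖ ^ 2 / (2 * σ)) * cv σ h y with hC
  have hA0 : 0 < A := hp x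
  have hC0 : 0 < C := hp y
  rw [← hI]
  have hpt : ∀ z, tw σ h ((1 - a) • x + a • y) z ≤
      A ^ (1 - a) * C ^ a * ((1 - a) / A * tw σ h x z + a / C * tw σ h y z) := by
    intro z
    rw [tw_mid H.nonneg h0 h1]
    have h3 := Real.geom_mean_le_arith_mean2_weighted h1a.le h0.le
      (div_nonneg (hn x z) hA0.le) (div_nonneg (hn y z) hC0.le) (by ring)
    rw [Real.div_rpow (hn x z) hA0.le, Real.div_rpow (hn y z) hC0.le] at h3
    have hA1 := Real.rpow_pos_of_pos hA0 (1 - a)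
    have hC1 := Real.rpow_pos_of_pos hC0 a
    calc tw σ h x z ^ (1 - a) * tw σ h y z ^ a
        = A ^ (1 - a) * C ^ a *
          (tw σ h x z ^ (1 - a) / A ^ (1 - a) * (tw σ h y z ^ a / C ^ a)) := by
          field_simp
      _ ≤ A ^ (1 - a) * C ^ a * ((1 - a) * (tw σ h x z / A) + a * (tw σ h y z / C)) := by
          gcongr
      _ = _ := by ring
  have hi2 : Integrable fun z =>
      A ^ (1 - a) * C ^ a * ((1 - a) / A * tw σ h x z + a / C * tw σ h y z) :=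
    (((hi x).const_mul _).add ((hi y).const_mul _)).const_mul _
  refine (integral_mono (hi _) hi2 hpt).trans (le_of_eq ?_)
  rw [integral_const_mul, integral_add ((hi x).const_mul _) ((hi y).const_mul _),
    integral_const_mul, integral_const_mul, hI, hI, ← hA, ← hC, div_mul_cancel₀ _ hA0.ne',
    div_mul_cancel₀ _ hC0.ne']
  ring

theorem gauss_UW (H : Wt h B) (hlc : LogConc h) (heven : ∀ i x, h (fl i x) = h x) {σ : ℝ}
    (hσ : 0 < σ) :
    UW (2 * σ) (1 / σ + 2 * σ) fun y => cv σ h y * Real.exp (-(σ * ‖y‖ ^ 2)) := by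
  have hZ : ∀ y, 0 < cv σ h y := fun y => H.Z_pos hσ y
  have hZd : Differentiable ℝ (cv σ h) := cv_differentiable hσ H.meas H.abs_le
  have hZlc := cv_logconc H hlc hσ
  have hd : Differentiable ℝ fun y => - Real.log (cv σ h y) :=
    (hZd.log fun y => (hZ y).ne').neg
  have hc1 : ConvexOn ℝ univ fun y => - Real.log (cv σ h y) := log_concave hZ hZlc
  have hc2 : ConvexOn ℝ univ fun y : Vn n => ‖y‖ ^ 2 / (2 * σ) - - Real.log (cv σ h y) := by
    have h1 := log_convex (G := fun y : Vn n => Real.exp (‖y‖ ^ 2 / (2 * σ)) * cv σ h y)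
      (fun y => mul_pos (Real.exp_pos _) (hZ y)) (fun a h0 h1 x y => G_convex H hσ h0 h1 x y)
    have e : (fun y : Vn n => Real.log (Real.exp (‖y‖ ^ 2 / (2 * σ)) * cv σ h y)) =
        fun y : Vn n => ‖y‖ ^ 2 / (2 * σ) - - Real.log (cv σ h y) := by
      funext y
      rw [Real.log_mul (Real.exp_pos _).ne' (hZ y).ne', Real.log_exp]
      ring
    rwa [e] at h1
  have hlip := grad_lip hd hc1 hσ hc2
  have hN : ∀ x : Vn n, HasFDerivAt (fun y : Vn n => σ * ‖y‖ ^ 2)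
      ((2 * σ) • (innerSL ℝ x : Vn n →L[ℝ] ℝ)) x := by
    intro x
    have h1 := ((hasStrictFDerivAt_norm_sq x).hasFDerivAt).const_mul σ
    have e : σ • (2 : ℕ) • (innerSL ℝ x : Vn n →L[ℝ] ℝ) =
        (2 * σ) • (innerSL ℝ x : Vn n →L[ℝ] ℝ) := by
      rw [two_nsmul, ← two_smul ℝ (innerSL ℝ x : Vn n →L[ℝ] ℝ), smul_smul, mul_comm σ 2]
    rw [← e]
    exact h1
  refine ⟨⟨fun y => - Real.log (cv σ h y) + σ * ‖y‖ ^ 2, ?_, ?_, ?_⟩, ?_, ?_, ?_⟩
  · intro x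
    rw [neg_add, neg_neg, Real.exp_add, Real.exp_log (hZ x)]
  · exact hd.add fun x => (hN x).differentiableAt
  · intro x y
    have e : ∀ x : Vn n, fderiv ℝ (fun y => - Real.log (cv σ h y) + σ * ‖y‖ ^ 2) x =
        fderiv ℝ (fun y => - Real.log (cv σ h y)) x + (2 * σ) • (innerSL ℝ x : Vn n →L[ℝ] ℝ) := by
      intro x
      exact ((hd x).hasFDerivAt.add (hN x)).fderiv
    rw [e, e]
    have e2 : fderiv ℝ (fun y => - Real.log (cv σ h y)) x + (2 * σ) • (innerSL ℝ x : Vn n →L[ℝ] ℝ) -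
        (fderiv ℝ (fun y => - Real.log (cv σ h y)) y + (2 * σ) • (innerSL ℝ y : Vn n →L[ℝ] ℝ)) =
        (fderiv ℝ (fun y => - Real.log (cv σ h y)) x - fderiv ℝ (fun y => - Real.log (cv σ h y)) y) +
        (2 * σ) • (innerSL ℝ (x - y) : Vn n →L[ℝ] ℝ) := by
      rw [map_sub, smul_sub]
      abel
    rw [e2, add_mul]
    refine (norm_add_le _ _).trans (add_le_add (hlip x y) ?_)
    rw [norm_smul, Real.norm_eq_abs, abs_of_pos (by positivity : (0:ℝ) < 2 * σ), innerSL_apply_norm]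
  · intro a h0 h1 x y
    have h2 := hZlc a h0 h1 x y
    have h3 := exp_norm_logconc (F := Vn n) hσ.le h0 h1 x y
    rw [Real.mul_rpow (hZ x).le (Real.exp_pos _).le, Real.mul_rpow (hZ y).le (Real.exp_pos _).le]
    calc cv σ h x ^ (1 - a) * Real.exp (-(σ * ‖x‖ ^ 2)) ^ (1 - a) *
        (cv σ h y ^ a * Real.exp (-(σ * ‖y‖ ^ 2)) ^ a)
        = (cv σ h x ^ (1 - a) * cv σ h y ^ a) *
          (Real.exp (-(σ * ‖x‖ ^ 2)) ^ (1 - a) * Real.exp (-(σ * ‖y‖ ^ 2)) ^ a) := by ring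
      _ ≤ _ := mul_le_mul h2 h3 (by positivity) (hZ _).le
  · intro x y
    have h2 := hZlc (1 / 2) (by norm_num) (by norm_num) x y
    have e0 : (1 - 1 / 2 : ℝ) • x + (1 / 2 : ℝ) • y = (1 / 2 : ℝ) • (x + y) := by
      rw [smul_add]; norm_num
    have e1 : (1 - 1 / 2 : ℝ) = 1 / 2 := by norm_num
    rw [e0, e1, ← Real.sqrt_eq_rpow, ← Real.sqrt_eq_rpow] at h2
    have h3 : cv σ h x * cv σ h y ≤ cv σ h ((1 / 2 : ℝ) • (x + y)) ^ 2 := by
      have h4 : (Real.sqrt (cv σ h x) * Real.sqrt (cv σ h y)) ^ 2 ≤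
          cv σ h ((1 / 2 : ℝ) • (x + y)) ^ 2 := by
        have : 0 ≤ Real.sqrt (cv σ h x) * Real.sqrt (cv σ h y) := by positivity
        gcongr
      rwa [mul_pow, Real.sq_sqrt (hZ x).le, Real.sq_sqrt (hZ y).le] at h4
    have h5 : Real.exp (-(σ * ‖x‖ ^ 2)) * Real.exp (-(σ * ‖y‖ ^ 2)) *
        Real.exp (2 * σ * ‖x - y‖ ^ 2 / 4) =
        Real.exp (-(σ * ‖(1 / 2 : ℝ) • (x + y)‖ ^ 2)) ^ 2 := by
      rw [← Real.exp_add, ← Real.exp_add, ← Real.exp_nat_mul]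
      congr 1
      have h6 := norm_sq_conv (1 / 2) x y
      rw [e0] at h6
      rw [h6]
      push_cast
      ring
    calc cv σ h x * Real.exp (-(σ * ‖x‖ ^ 2)) * (cv σ h y * Real.exp (-(σ * ‖y‖ ^ 2))) *
        Real.exp (2 * σ * ‖x - y‖ ^ 2 / 4)
        = (cv σ h x * cv σ h y) * (Real.exp (-(σ * ‖x‖ ^ 2)) * Real.exp (-(σ * ‖y‖ ^ 2)) *
          Real.exp (2 * σ * ‖x - y‖ ^ 2 / 4)) := by ring
      _ = (cv σ h x * cv σ h y) * Real.exp (-(σ * ‖(1 / 2 : ℝ) • (x + y)‖ ^ 2)) ^ 2 := by rw [h5]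
      _ ≤ cv σ h ((1 / 2 : ℝ) • (x + y)) ^ 2 *
          Real.exp (-(σ * ‖(1 / 2 : ℝ) • (x + y)‖ ^ 2)) ^ 2 := by gcongr
      _ = _ := by ring
  · intro i x
    simp only
    rw [cv_comp h (fl i) (heven i) x, LinearIsometryEquiv.norm_map]

end Pool.Agent.Lib.MP_8d00da_gt.h42u
end
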