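import Mathlib
import Pool.Agent.Lib.MP_8d00da_gt.h42u.UDefs

/-!
# U03: the asymmetry of one step of the unadjusted Langevin chain

Full proof. Write `v = w - z`, `p = gr U z`, `q = gr U w`. Since
`‖v + s p‖² / (4 s) = ‖v‖²/(4s) + ⟨v,p⟩/2 + s‖p‖²/4`, `AU U s z w = exp a` with
`a = -U z - ‖v‖²/(4s) - ⟨v,p⟩/2 - s‖p‖²/4`, and `AU U s w z = exp b` with
`b = -U w - ‖v‖²/(4s) + ⟨v,q⟩/2 - s‖q‖²/4`. So
`a - b = (U w - U z - ⟨v,p+q⟩/2) - (s/4)(‖p‖² - ‖q‖²)`.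
First bracket: `|U w - U z - ⟨v,p⟩| ≤ K‖v‖²/2` and `|U w - U z - ⟨v,q⟩| ≤ K‖v‖²/2` (mean value
inequality/fundamental theorem for `t ↦ U (z + t v)`, derivative `fderiv U (z+tv) v`, which differs
from `fderiv U z v` by at most `K t ‖v‖²`); average them (`lograt`). Second:
`|‖p‖² - ‖q‖²| = |‖p‖-‖q‖| (‖p‖+‖q‖) ≤ K‖v‖(‖p‖+‖q‖)` (`gr_sub_norm`). So `|a-b| ≤ bU`.
Finally `|exp a - exp b| ≤ |a - b| (exp a + exp b)` (mean value theorem or
`exp a - exp b ≤ (a-b) exp a` for `a ≥ b` by `add_one_le_exp (b-a)`).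
-/

namespace Pool.Agent.Lib.MP_8d00da_gt.h42u

open MeasureTheory Set Filter
open Pool.Agent.Lib.MP_8d00da_gt.h25 Pool.Agent.Lib.MP_8d00da_gt.h42
open Pool.Agent.Lib.MP_8d00da_gt.h42s Pool.Agent.Lib.MP_8d00da_gt.h42o
open scoped Topology NNReal
 
variable {F : Type*} [NormedAddCommGroup F] [InnerProductSpace ℝ F]
    [FiniteDimensional ℝ F] [MeasurableSpace F] [BorelSpace F]

/-- The target density times the density of one step of the chain. -/
noncomputable def AU (U : F → ℝ) (s : ℝ) (z w : F) : ℝ :=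
  Real.exp (-U z) * h25.ker (2 * s) (w - (z - s • gr U z))

/-- The error factor. -/
noncomputable def bU (U : F → ℝ) (K s : ℝ) (z w : F) : ℝ :=
  K / 2 * ‖w - z‖ ^ 2 + s / 4 * K * ‖w - z‖ * (‖gr U z‖ + ‖gr U w‖)

omit [FiniteDimensional ℝ F] [MeasurableSpace F] [BorelSpace F] in
private lemma ub_taylor {U : F → ℝ} (hd : Differentiable ℝ U) {K : ℝ}
    (hU : ∀ x y, ‖fderiv ℝ U x - fderiv ℝ U y‖ ≤ K * ‖x - y‖) (z v : F) :
    U (z + v) - U z - fderiv ℝ U z v ≤ K / 2 * ‖v‖ ^ 2 := by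
  obtain ⟨φ, hφ⟩ : ∃ φ : ℝ → ℝ, φ = fun t => U (z + t • v) - t * fderiv ℝ U z v -
      K / 2 * ‖v‖ ^ 2 * t ^ 2 := ⟨_, rfl⟩
  have hder : ∀ t : ℝ, HasDerivAt φ (fderiv ℝ U (z + t • v) v - fderiv ℝ U z v -
      K / 2 * ‖v‖ ^ 2 * (2 * t)) t := by
    intro t
    have hl : HasDerivAt (fun t : ℝ => z + t • v) v t := by
      have h1 : HasDerivAt (fun t : ℝ => t • v) ((1 : ℝ) • v) t := (hasDerivAt_id t).smul_const v
      rw [one_smul] at h1
      exact h1.const_add z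
    have h2 : HasDerivAt (fun t : ℝ => U (z + t • v)) (fderiv ℝ U (z + t • v) v) t :=
      (hd (z + t • v)).hasFDerivAt.comp_hasDerivAt t hl
    have h3 : HasDerivAt (fun t : ℝ => t * fderiv ℝ U z v) (fderiv ℝ U z v) t := by
      have := (hasDerivAt_id t).mul_const (fderiv ℝ U z v)
      rw [one_mul] at this
      exact this
    have h4 : HasDerivAt (fun t : ℝ => K / 2 * ‖v‖ ^ 2 * t ^ 2) (K / 2 * ‖v‖ ^ 2 * (2 * t)) t := by
      have := (hasDerivAt_pow 2 t).const_mul (K / 2 * ‖v‖ ^ 2)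
      simpa using this
    rw [hφ]
    exact (h2.sub h3).sub h4
  have hanti : AntitoneOn φ (Icc 0 1) := by
    refine antitoneOn_of_deriv_nonpos (convex_Icc 0 1)
      (fun t _ => (hder t).continuousAt.continuousWithinAt)
      (fun t _ => (hder t).differentiableAt.differentiableWithinAt) ?_
    intro t ht
    rw [interior_Icc] at ht
    rw [(hder t).deriv]
    have h1 : fderiv ℝ U (z + t • v) v - fderiv ℝ U z v ≤ K * ‖t • v‖ * ‖v‖ := by
      have h2 := (fderiv ℝ U (z + t • v) - fderiv ℝ U z).le_opNorm v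
      have h3 := hU (z + t • v) z
      rw [add_sub_cancel_left] at h3
      have h4 : (fderiv ℝ U (z + t • v) - fderiv ℝ U z) v =
          fderiv ℝ U (z + t • v) v - fderiv ℝ U z v := rfl
      rw [h4, Real.norm_eq_abs] at h2
      exact (le_abs_self _).trans (h2.trans (mul_le_mul_of_nonneg_right h3 (norm_nonneg v)))
    rw [norm_smul, Real.norm_eq_abs, abs_of_pos ht.1] at h1
    have h5 : K * (t * ‖v‖) * ‖v‖ = K / 2 * ‖v‖ ^ 2 * (2 * t) := by ring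
    linarith
  have h := hanti (left_mem_Icc.2 zero_le_one) (right_mem_Icc.2 zero_le_one) zero_le_one
  rw [hφ] at h
  simp only [one_smul, zero_smul, add_zero, zero_mul, one_mul, sub_zero] at h
  norm_num at h
  linarith

omit [FiniteDimensional ℝ F] [MeasurableSpace F] [BorelSpace F] in
private lemma ub_taylor_abs {U : F → ℝ} (hd : Differentiable ℝ U) {K : ℝ}
    (hU : ∀ x y, ‖fderiv ℝ U x - fderiv ℝ U y‖ ≤ K * ‖x - y‖) (z v : F) :
    |U (z + v) - U z - fderiv ℝ U z v| ≤ K / 2 * ‖v‖ ^ 2 := by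
  have h1 := ub_taylor hd hU z v
  have hf : ∀ x, fderiv ℝ (fun x => -U x) x = -fderiv ℝ U x := fun x => fderiv_fun_neg
  have h2 := ub_taylor (U := fun x => -U x) hd.neg (K := K) (fun x y => by
    rw [hf, hf, ← neg_sub', norm_neg]
    exact hU x y) z v
  rw [hf] at h2
  simp only [neg_apply] at h2
  rw [abs_le]
  constructor <;> linarith

private lemma ub_exp_sub (a b : ℝ) :
    |Real.exp a - Real.exp b| ≤ |a - b| * (Real.exp a + Real.exp b) := by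
  have key : ∀ a b : ℝ, b ≤ a → |Real.exp a - Real.exp b| ≤
      |a - b| * (Real.exp a + Real.exp b) := by
    intro a b h
    have h1 : 0 ≤ Real.exp a - Real.exp b := sub_nonneg.2 (Real.exp_le_exp.2 h)
    rw [abs_of_nonneg h1, abs_of_nonneg (sub_nonneg.2 h)]
    have h2 := Real.add_one_le_exp (b - a)
    have h3 : Real.exp (b - a) * Real.exp a = Real.exp b := by
      rw [← Real.exp_add]
      congr 1
      ring
    have h4 : (b - a + 1) * Real.exp a ≤ Real.exp b := by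
      rw [← h3]
      exact mul_le_mul_of_nonneg_right h2 (Real.exp_pos a).le
    have h5 : 0 ≤ (a - b) * Real.exp b := mul_nonneg (sub_nonneg.2 h) (Real.exp_pos b).le
    nlinarith
  rcases le_total b a with h | h
  · exact key a b h
  · rw [abs_sub_comm, abs_sub_comm a b, add_comm]
    exact key b a h

omit [MeasurableSpace F] [BorelSpace F] in
lemma lograt {U : F → ℝ} (hd : Differentiable ℝ U) {K : ℝ}
    (hU : ∀ x y, ‖fderiv ℝ U x - fderiv ℝ U y‖ ≤ K * ‖x - y‖) (z w : F) :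
    |U w - U z - (1 / 2) * (fderiv ℝ U z (w - z) + fderiv ℝ U w (w - z))| ≤
      K / 2 * ‖w - z‖ ^ 2 := by
  obtain ⟨v, hv⟩ : ∃ v : F, v = w - z := ⟨_, rfl⟩
  have hw : w = z + v := by rw [hv]; abel
  have hz : z = w + -v := by rw [hv]; abel
  have h1 := ub_taylor_abs hd hU z v
  have h2 := ub_taylor_abs hd hU w (-v)
  rw [← hw] at h1
  rw [← hz, norm_neg, map_neg, abs_le] at h2
  rw [abs_le] at h1
  rw [← hv, abs_le]
  constructor <;> linarith [h1.1, h1.2, h2.1, h2.2]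

omit [MeasurableSpace F] [BorelSpace F] in
theorem AU_diff {U : F → ℝ} (hd : Differentiable ℝ U) {K : ℝ} (hK : 0 ≤ K)
    (hU : ∀ x y, ‖fderiv ℝ U x - fderiv ℝ U y‖ ≤ K * ‖x - y‖) {s : ℝ} (hs : 0 < s) (z w : F) :
    |AU U s z w - AU U s w z| ≤ bU U K s z w * (AU U s z w + AU U s w z) := by
  obtain ⟨v, hv⟩ : ∃ v : F, v = w - z := ⟨_, rfl⟩
  obtain ⟨p, hp⟩ : ∃ p : F, p = gr U z := ⟨_, rfl⟩
  obtain ⟨q, hq⟩ : ∃ q : F, q = gr U w := ⟨_, rfl⟩
  obtain ⟨a, ha⟩ : ∃ a : ℝ, a = -U z - ‖v + s • p‖ ^ 2 / (4 * s) := ⟨_, rfl⟩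
  obtain ⟨b, hb⟩ : ∃ b : ℝ, b = -U w - ‖-v + s • q‖ ^ 2 / (4 * s) := ⟨_, rfl⟩
  have ea : AU U s z w = Real.exp a := by
    unfold AU h25.ker
    rw [← Real.exp_add, ha, ← hp]
    congr 1
    have e1 : w - (z - s • p) = v + s • p := by rw [hv]; abel
    rw [e1]
    ring
  have eb : AU U s w z = Real.exp b := by
    unfold AU h25.ker
    rw [← Real.exp_add, hb, ← hq]
    congr 1
    have e1 : z - (w - s • q) = -v + s • q := by rw [hv]; abel
    rw [e1]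
    ring
  have hlog := lograt hd hU z w
  rw [← hv, ← gr_inner U z, ← gr_inner U w, ← hp, ← hq] at hlog
  have n1 : ‖v + s • p‖ ^ 2 = ‖v‖ ^ 2 + 2 * (s * inner ℝ p v) + s ^ 2 * ‖p‖ ^ 2 := by
    rw [norm_add_sq_real, inner_smul_right, real_inner_comm, norm_smul, mul_pow,
      Real.norm_eq_abs, sq_abs]
  have n2 : ‖-v + s • q‖ ^ 2 = ‖v‖ ^ 2 - 2 * (s * inner ℝ q v) + s ^ 2 * ‖q‖ ^ 2 := by
    rw [norm_add_sq_real, inner_smul_right, inner_neg_left, real_inner_comm, norm_smul, mul_pow,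
      Real.norm_eq_abs, sq_abs, norm_neg]
    ring
  have eab : a - b = (U w - U z - (1 / 2) * (inner ℝ p v + inner ℝ q v)) -
      s / 4 * (‖p‖ ^ 2 - ‖q‖ ^ 2) := by
    rw [ha, hb, n1, n2]
    field_simp
    ring
  have h3 : ‖p - q‖ ≤ K * ‖v‖ := by
    rw [hp, hq, gr_sub_norm, hv, norm_sub_rev w z]
    exact hU z w
  have h4 : |‖p‖ ^ 2 - ‖q‖ ^ 2| ≤ K * ‖v‖ * (‖p‖ + ‖q‖) := by
    have e : ‖p‖ ^ 2 - ‖q‖ ^ 2 = (‖p‖ - ‖q‖) * (‖p‖ + ‖q‖) := by ring
    rw [e, abs_mul, abs_of_nonneg (by positivity : 0 ≤ ‖p‖ + ‖q‖)]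
    exact mul_le_mul_of_nonneg_right ((abs_norm_sub_norm_le p q).trans h3) (by positivity)
  have h5 : |a - b| ≤ bU U K s z w := by
    rw [eab]
    unfold bU
    rw [← hv, ← hp, ← hq]
    refine (abs_sub _ _).trans ?_
    rw [abs_mul (s / 4), abs_of_pos (by positivity : 0 < s / 4)]
    have h6 : s / 4 * |‖p‖ ^ 2 - ‖q‖ ^ 2| ≤ s / 4 * (K * ‖v‖ * (‖p‖ + ‖q‖)) :=
      mul_le_mul_of_nonneg_left h4 (by positivity)
    have h7 : s / 4 * (K * ‖v‖ * (‖p‖ + ‖q‖)) = s / 4 * K * ‖v‖ * (‖p‖ + ‖q‖) := by ring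
    linarith
  rw [ea, eb]
  exact (ub_exp_sub a b).trans (mul_le_mul_of_nonneg_right h5 (by positivity))

end Pool.Agent.Lib.MP_8d00da_gt.h42u
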