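import Mathlib
import Pool.Agent.Lib.MP_8d00da_gt.h42u.UBias1

/-!
# U06a: integrability of the two-point density

Full proof. `|φ| ≤ A`, so it suffices that `p ↦ AU U s p.1 p.2` is integrable on the product
(`Integrable.mul_bdd`/`bdd_mul`). It is continuous (`gr U` is continuous: `gr_sub_norm`, `hU`), hence
measurable; `integrable_prod_iff`: for every `z` the section `w ↦ exp (-U z) ker (2s) (w - (z - s gr U z))`
is integrable (translated Gaussian, `ker_integrable`) with integral `exp (-U z) c`, `c = ∫ ker (2s)`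
(`integral_sub_right_eq_self`), and `z ↦ exp (-U z) c` is integrable by `hg`
(`ker_sub_integrable`, `U` continuous).
-/

namespace Pool.Agent.Lib.MP_8d00da_gt.h42u

open MeasureTheory Set Filter
open Pool.Agent.Lib.MP_8d00da_gt.h25 Pool.Agent.Lib.MP_8d00da_gt.h42
open Pool.Agent.Lib.MP_8d00da_gt.h42s Pool.Agent.Lib.MP_8d00da_gt.h42o
open scoped Topology NNReal

variable {F : Type*} [NormedAddCommGroup F] [InnerProductSpace ℝ F]
    [FiniteDimensional ℝ F] [MeasurableSpace F] [BorelSpace F]

lemma AU_int1 {U : F → ℝ} (hd : Differentiable ℝ U) {K : ℝ} (hK : 0 ≤ K)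
    (hU : ∀ x y, ‖fderiv ℝ U x - fderiv ℝ U y‖ ≤ K * ‖x - y‖) {C0 τ : ℝ} (hτ : 0 < τ) (y : F)
    (hg : ∀ x, Real.exp (-U x) ≤ C0 * h25.ker τ (y - x)) {s : ℝ} (hs : 0 < s) {φ : F × F → ℝ}
    (hφ : Measurable φ) {A : ℝ} (hA : ∀ p, |φ p| ≤ A) :
    Integrable (fun p : F × F => AU U s p.1 p.2 * φ p) := by
  have hgr : Continuous (gr U) := by
    refine (LipschitzWith.of_dist_le_mul (K := K.toNNReal) fun x y => ?_).continuous
    rw [dist_eq_norm, dist_eq_norm, gr_sub_norm, Real.coe_toNNReal _ hK]
    exact hU x y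
  have hUc : Continuous U := hd.continuous
  have hG : Continuous (fun p : F × F => AU U s p.1 p.2) := by
    unfold AU
    fun_prop
  have hpos : ∀ z w, 0 ≤ AU U s z w := fun z w => mul_nonneg (Real.exp_pos _).le (ker_pos _).le
  have hexp : Integrable (fun z : F => Real.exp (-U z)) := by
    refine ((ker_sub_integrable hτ y).const_mul C0).mono' ?_ (Eventually.of_forall fun z => ?_)
    · exact (Real.continuous_exp.comp hUc.neg).aestronglyMeasurable
    · rw [Real.norm_eq_abs, abs_of_pos (Real.exp_pos _)]
      exact hg z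
  have hI : Integrable (fun p : F × F => AU U s p.1 p.2) := by
    rw [Measure.volume_eq_prod, integrable_prod_iff hG.aestronglyMeasurable]
    refine ⟨Eventually.of_forall fun z => ?_, ?_⟩
    · exact ((ker_integrable (F := F) (by positivity : 0 < 2 * s)).comp_sub_right
        (z - s • gr U z)).const_mul (Real.exp (-U z))
    · have h1 : (fun z : F => ∫ w, ‖AU U s z w‖) =
          fun z => Real.exp (-U z) * ∫ w : F, h25.ker (2 * s) w := by
        funext z
        have h2 : ∀ w, ‖AU U s z w‖ = Real.exp (-U z) * h25.ker (2 * s) (w - (z - s • gr U z)) := by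
          intro w
          rw [Real.norm_eq_abs, abs_of_nonneg (hpos z w)]
          rfl
        simp only [h2]
        rw [integral_const_mul, integral_sub_right_eq_self (fun w => h25.ker (2 * s) w)]
      rw [h1]
      exact hexp.mul_const _
  have h3 : Integrable (fun p : F × F => φ p * AU U s p.1 p.2) :=
    hI.bdd_mul hφ.aestronglyMeasurable (Eventually.of_forall fun p => by
      rw [Real.norm_eq_abs]; exact hA p)
  refine h3.congr (Eventually.of_forall fun p => ?_)
  simp only
  ring

end Pool.Agent.Lib.MP_8d00da_gt.h42u
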