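import Mathlib

namespace Pool.Agent.Lib.MP_8d00da_gt.h25
end Pool.Agent.Lib.MP_8d00da_gt.h25
namespace Pool.Agent.Lib.MP_8d00da_gt.h42
end Pool.Agent.Lib.MP_8d00da_gt.h42
namespace Pool.Agent.Lib.MP_8d00da_gt.h42s
end Pool.Agent.Lib.MP_8d00da_gt.h42s
namespace Pool.Agent.Lib.MP_8d00da_gt.h42o
end Pool.Agent.Lib.MP_8d00da_gt.h42o


/-!
# U04: the abstract symmetrisation bound

Full proof. Let `J = ∫ A z w (g w - g z)`. Swapping the two variables (`integral_prod_swap`,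
or `Measure.measurePreserving_swap`), `J = ∫ A w z (g z - g w)`, so
`2 J = ∫ (A z w - A w z) (g w - g z)` and
`2 |J| ≤ ∫ β (A z w + A w z) K ‖w - z‖ = 2 K ∫ A z w β z w ‖w - z‖` (swap again, `β` and the norm are
symmetric; integrability of the swapped functions from `i1`, `i2` by `Integrable.swap`).
-/

namespace Pool.Agent.Lib.MP_8d00da_gt.h42u

open MeasureTheory Set Filter
open Pool.Agent.Lib.MP_8d00da_gt.h25 Pool.Agent.Lib.MP_8d00da_gt.h42
open Pool.Agent.Lib.MP_8d00da_gt.h42s Pool.Agent.Lib.MP_8d00da_gt.h42o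
open scoped Topology NNReal
 
variable {F : Type*} [NormedAddCommGroup F] [InnerProductSpace ℝ F]
    [FiniteDimensional ℝ F] [MeasurableSpace F] [BorelSpace F]

theorem symm_bound {A β : F → F → ℝ} (hβs : ∀ z w, β z w = β w z)
    (hd : ∀ z w, |A z w - A w z| ≤ β z w * (A z w + A w z)) {g : F → ℝ} {K : ℝ≥0}
    (hg : LipschitzWith K g)
    (i1 : Integrable fun p : F × F => A p.1 p.2 * (g p.2 - g p.1))
    (i2 : Integrable fun p : F × F => A p.1 p.2 * (β p.1 p.2 * ‖p.2 - p.1‖)) :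
    |∫ p : F × F, A p.1 p.2 * (g p.2 - g p.1)| ≤
      K * ∫ p : F × F, A p.1 p.2 * (β p.1 p.2 * ‖p.2 - p.1‖) := by
  set J := ∫ p : F × F, A p.1 p.2 * (g p.2 - g p.1) with hJ
  set I := ∫ p : F × F, A p.1 p.2 * (β p.1 p.2 * ‖p.2 - p.1‖) with hI
  have e1 : ∫ p : F × F, A p.2 p.1 * (g p.1 - g p.2) = J :=
    integral_prod_swap (μ := (volume : Measure F)) (ν := (volume : Measure F))
      (fun p : F × F => A p.1 p.2 * (g p.2 - g p.1))
  have e2 : ∫ p : F × F, A p.2 p.1 * (β p.2 p.1 * ‖p.1 - p.2‖) = I :=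
    integral_prod_swap (μ := (volume : Measure F)) (ν := (volume : Measure F))
      (fun p : F × F => A p.1 p.2 * (β p.1 p.2 * ‖p.2 - p.1‖))
  have i1' : Integrable fun p : F × F => A p.2 p.1 * (g p.1 - g p.2) := i1.swap
  have i2' : Integrable fun p : F × F => A p.2 p.1 * (β p.2 p.1 * ‖p.1 - p.2‖) := i2.swap
  have h1 : J + J = ∫ p : F × F, (A p.1 p.2 * (g p.2 - g p.1) + A p.2 p.1 * (g p.1 - g p.2)) := by
    rw [integral_add i1 i1', e1]
  have h2 : (K : ℝ) * (I + I) = ∫ p : F × F, (K : ℝ) * (A p.1 p.2 * (β p.1 p.2 * ‖p.2 - p.1‖) +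
      A p.2 p.1 * (β p.2 p.1 * ‖p.1 - p.2‖)) := by
    rw [integral_const_mul, integral_add i2 i2', e2]
  have h3 : |J + J| ≤ K * (I + I) := by
    rw [h1, h2]
    refine (abs_integral_le_integral_abs).trans ?_
    refine integral_mono (i1.add i1').abs ((i2.add i2').const_mul _) fun p => ?_
    have h4 : |g p.2 - g p.1| ≤ K * ‖p.2 - p.1‖ := by
      have := hg.dist_le_mul p.2 p.1
      rwa [Real.dist_eq, dist_eq_norm] at this
    have h5 := hd p.1 p.2
    have h6 : 0 ≤ β p.1 p.2 * (A p.1 p.2 + A p.2 p.1) := (abs_nonneg _).trans h5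
    have h7 : A p.1 p.2 * (g p.2 - g p.1) + A p.2 p.1 * (g p.1 - g p.2) =
        (A p.1 p.2 - A p.2 p.1) * (g p.2 - g p.1) := by ring
    show |A p.1 p.2 * (g p.2 - g p.1) + A p.2 p.1 * (g p.1 - g p.2)| ≤
      (K : ℝ) * (A p.1 p.2 * (β p.1 p.2 * ‖p.2 - p.1‖) + A p.2 p.1 * (β p.2 p.1 * ‖p.1 - p.2‖))
    rw [h7, abs_mul, hβs p.2 p.1, norm_sub_rev p.1 p.2]
    calc |A p.1 p.2 - A p.2 p.1| * |g p.2 - g p.1| ≤
          (β p.1 p.2 * (A p.1 p.2 + A p.2 p.1)) * (K * ‖p.2 - p.1‖) :=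
          mul_le_mul h5 h4 (abs_nonneg _) h6
      _ = _ := by ring
  have h8 : |J + J| = 2 * |J| := by
    rw [← two_mul, abs_mul, abs_two]
  rw [h8] at h3
  linarith

end Pool.Agent.Lib.MP_8d00da_gt.h42u
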