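import Mathlib
import Pool.Agent.Lib.MP_8d00da_gt.h25.Ker

namespace Pool.Agent.Lib.MP_8d00da_gt.h42
end Pool.Agent.Lib.MP_8d00da_gt.h42
namespace Pool.Agent.Lib.MP_8d00da_gt.h42s
end Pool.Agent.Lib.MP_8d00da_gt.h42s
namespace Pool.Agent.Lib.MP_8d00da_gt.h42o
end Pool.Agent.Lib.MP_8d00da_gt.h42o


/-!
# U05: moments of the Gaussian kernel

Full proof. `ker (2 s) x = exp (-‖x‖²/(4s))`. With `t = ‖x‖/√s`:
`‖x‖^p ker (2s) x = √s^p (t^p exp(-t²/8)) exp(-t²/8)` and `exp(-t²/8) = ker (4 s) x`,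
`t^p exp(-t²/8) ≤ C_p := p! 8^p` or any explicit constant (e.g. `t^p ≤ 1 + t^(2p)`, and
`(t²/8)^p / p! ≤ exp (t²/8)` by `Real.pow_div_factorial_le_exp`). So
`‖x‖^p ker (2s) x ≤ C_p √s^p ker (4s) x`, integrable. And
`∫ ker (4s) = 2^(d/2) ∫ ker (2s)`, `d = finrank`, from
`GaussianFourier.integral_rexp_neg_mul_sq_norm`: `∫ exp (-b‖v‖²) = (π/b)^(d/2)` with `b = 1/(8s)`
and `b = 1/(4s)`.
`exp_ker_int`: integrability of (polynomial growth) times kernel with centre `y`: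
`(1 + ‖z‖^4) ker η (y - z)` (from the first part after translation,
`‖z‖^4 ≤ 8 (‖y‖^4 + ‖y-z‖^4)`).
-/

namespace Pool.Agent.Lib.MP_8d00da_gt.h42u

open MeasureTheory Set Filter
open Pool.Agent.Lib.MP_8d00da_gt.h25 Pool.Agent.Lib.MP_8d00da_gt.h42
open Pool.Agent.Lib.MP_8d00da_gt.h42s Pool.Agent.Lib.MP_8d00da_gt.h42o
open scoped Topology NNReal
 
variable {F : Type*} [NormedAddCommGroup F] [InnerProductSpace ℝ F]
    [FiniteDimensional ℝ F] [MeasurableSpace F] [BorelSpace F]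

private lemma pow_exp_le (p : ℕ) {t : ℝ} (ht : 0 ≤ t) :
    t ^ p * Real.exp (-(t ^ 2 / 8)) ≤ 1 + 8 ^ p * p.factorial := by
  have hu : 0 ≤ t ^ 2 / 8 := by positivity
  have h1 := Real.pow_div_factorial_le_exp (t ^ 2 / 8) hu p
  have hf : (0 : ℝ) < p.factorial := by exact_mod_cast p.factorial_pos
  rw [div_le_iff₀ hf] at h1
  have h2 : t ^ p ≤ 1 + 8 ^ p * (t ^ 2 / 8) ^ p := by
    have h3 : 8 ^ p * (t ^ 2 / 8) ^ p = (t ^ p) ^ 2 := by
      rw [← mul_pow, mul_div_cancel₀ _ (by norm_num : (8 : ℝ) ≠ 0), ← pow_mul, ← pow_mul, mul_comm]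
    rw [h3]
    nlinarith [sq_nonneg (t ^ p - 1 / 2)]
  have he : 0 < Real.exp (t ^ 2 / 8) := Real.exp_pos _
  have he1 : 1 ≤ Real.exp (t ^ 2 / 8) := Real.one_le_exp hu
  rw [Real.exp_neg, ← div_eq_mul_inv, div_le_iff₀ he]
  calc t ^ p ≤ 1 + 8 ^ p * (t ^ 2 / 8) ^ p := h2
    _ ≤ 1 * Real.exp (t ^ 2 / 8) + 8 ^ p * (Real.exp (t ^ 2 / 8) * p.factorial) := by
        rw [one_mul]
        gcongr
    _ = _ := by ring

omit [InnerProductSpace ℝ F] [FiniteDimensional ℝ F] [MeasurableSpace F] [BorelSpace F] in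
private lemma pow_ker_le (p : ℕ) {s : ℝ} (hs : 0 < s) (x : F) :
    ‖x‖ ^ p * h25.ker (2 * s) x ≤
      (1 + 8 ^ p * p.factorial) * Real.sqrt s ^ p * h25.ker (2 * (2 * s)) x := by
  have hq : 0 < Real.sqrt s := Real.sqrt_pos.2 hs
  have h1 : h25.ker (2 * s) x = h25.ker (2 * (2 * s)) x * h25.ker (2 * (2 * s)) x := by
    unfold h25.ker
    rw [← Real.exp_add]
    congr 1
    field_simp
    ring
  have h2 : h25.ker (2 * (2 * s)) x = Real.exp (-((‖x‖ / Real.sqrt s) ^ 2 / 8)) := by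
    unfold h25.ker
    rw [div_pow, Real.sq_sqrt hs.le]
    congr 2
    field_simp
    ring
  have h3 := pow_exp_le p (t := ‖x‖ / Real.sqrt s) (by positivity)
  rw [← h2] at h3
  have h4 : ‖x‖ ^ p = Real.sqrt s ^ p * (‖x‖ / Real.sqrt s) ^ p := by
    rw [← mul_pow, mul_div_cancel₀ _ hq.ne']
  have h5 : 0 < h25.ker (2 * (2 * s)) x := ker_pos x
  calc ‖x‖ ^ p * h25.ker (2 * s) x = Real.sqrt s ^ p *
        ((‖x‖ / Real.sqrt s) ^ p * h25.ker (2 * (2 * s)) x) * h25.ker (2 * (2 * s)) x := by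
        rw [h1, h4]
        ring
    _ ≤ Real.sqrt s ^ p * (1 + 8 ^ p * p.factorial) * h25.ker (2 * (2 * s)) x := by gcongr
    _ = _ := by ring

private lemma ker_int_eq {η : ℝ} (hη : 0 < η) :
    ∫ x : F, h25.ker η x = (2 * Real.pi * η) ^ ((Module.finrank ℝ F : ℝ) / 2) := by
  have hb : 0 < 1 / (2 * η) := by positivity
  have h := GaussianFourier.integral_rexp_neg_mul_sq_norm (V := F) hb
  have h3 : (fun v : F => Real.exp (-(1 / (2 * η)) * ‖v‖ ^ 2)) = h25.ker η := by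
    ext v; unfold h25.ker; congr 1; ring
  rw [← h3, h]
  congr 1
  field_simp

theorem ker_mom (p : ℕ) : ∃ C : ℝ, 0 ≤ C ∧ ∀ s : ℝ, 0 < s →
    Integrable (fun x : F => ‖x‖ ^ p * h25.ker (2 * s) x) ∧
      ∫ x : F, ‖x‖ ^ p * h25.ker (2 * s) x ≤ C * Real.sqrt s ^ p * ∫ x : F, h25.ker (2 * s) x := by
  refine ⟨(1 + 8 ^ p * p.factorial) * 2 ^ ((Module.finrank ℝ F : ℝ) / 2), by positivity,
    fun s hs => ?_⟩
  have hi : Integrable (fun x : F => (1 + 8 ^ p * p.factorial) * Real.sqrt s ^ p *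
      h25.ker (2 * (2 * s)) x) := (ker_integrable (by positivity)).const_mul _
  have hI : Integrable (fun x : F => ‖x‖ ^ p * h25.ker (2 * s) x) := by
    refine hi.mono' ?_ (Eventually.of_forall fun x => ?_)
    · have hc : Continuous (fun x : F => ‖x‖ ^ p * h25.ker (2 * s) x) := by fun_prop
      exact hc.aestronglyMeasurable
    · rw [Real.norm_eq_abs, abs_of_nonneg (mul_nonneg (by positivity) (ker_pos x).le)]
      exact pow_ker_le p hs x
  refine ⟨hI, ?_⟩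
  refine (integral_mono hI hi fun x => pow_ker_le p hs x).trans (le_of_eq ?_)
  rw [integral_const_mul, ker_int_eq (by positivity), ker_int_eq (by positivity)]
  have h1 : 2 * Real.pi * (2 * (2 * s)) = 2 * (2 * Real.pi * (2 * s)) := by ring
  rw [h1, Real.mul_rpow (by norm_num) (by positivity)]
  ring

lemma ker_poly_int {η : ℝ} (hη : 0 < η) (y : F) :
    Integrable fun z : F => (1 + ‖z‖ ^ 4) * h25.ker η (y - z) := by
  obtain ⟨C, -, hC⟩ := ker_mom (F := F) 4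
  have h1 := (hC (η / 2) (by positivity)).1
  rw [mul_div_cancel₀ _ (by norm_num : (2 : ℝ) ≠ 0)] at h1
  have h2 : Integrable fun z : F => ‖y - z‖ ^ 4 * h25.ker η (y - z) := h1.comp_sub_left y
  have h3 : Integrable fun z : F => (1 + 8 * ‖y‖ ^ 4) * h25.ker η (y - z) +
      8 * (‖y - z‖ ^ 4 * h25.ker η (y - z)) :=
    ((ker_sub_integrable hη y).const_mul _).add (h2.const_mul _)
  refine h3.mono' ?_ (Eventually.of_forall fun z => ?_)
  · have hc : Continuous (fun z : F => (1 + ‖z‖ ^ 4) * h25.ker η (y - z)) := by fun_prop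
    exact hc.aestronglyMeasurable
  · have hk : 0 < h25.ker η (y - z) := ker_pos _
    rw [Real.norm_eq_abs, abs_of_nonneg (mul_nonneg (by positivity) hk.le)]
    have h4 : ‖z‖ ≤ ‖y‖ + ‖y - z‖ := by
      have := norm_sub_le y (y - z)
      rwa [sub_sub_cancel] at this
    have h5 : ‖z‖ ^ 4 ≤ 8 * (‖y‖ ^ 4 + ‖y - z‖ ^ 4) := by
      have h6 : ‖z‖ ^ 4 ≤ (‖y‖ + ‖y - z‖) ^ 4 := pow_le_pow_left₀ (norm_nonneg _) h4 4
      have h7 : (‖y‖ + ‖y - z‖) ^ 2 ≤ 2 * (‖y‖ ^ 2 + ‖y - z‖ ^ 2) := by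
        nlinarith [sq_nonneg (‖y‖ - ‖y - z‖)]
      have h8 : (‖y‖ + ‖y - z‖) ^ 4 ≤ (2 * (‖y‖ ^ 2 + ‖y - z‖ ^ 2)) ^ 2 := by
        have h9 := pow_le_pow_left₀ (sq_nonneg (‖y‖ + ‖y - z‖)) h7 2
        rwa [← pow_mul] at h9
      nlinarith [sq_nonneg (‖y‖ ^ 2 - ‖y - z‖ ^ 2)]
    nlinarith

end Pool.Agent.Lib.MP_8d00da_gt.h42u
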