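import Mathlib
import Pool.Agent.Lib.MP_8d00da_gt.h42u.UKerMom
import Pool.Agent.Lib.MP_8d00da_gt.h42u.UBias1

/-!
# U06: the moment bound for one step of the chain

Full proof. `D z := ‖gr U z‖ = ‖fderiv U z‖ ≤ D 0 + K ‖z‖` (`gr_norm`). Substitute
`w = z - s gr U z + x` (translation in the inner integral; `x` has the weight `ker (2 s) x`):
`‖w - z‖ ≤ s D z + ‖x‖`, `‖gr U w‖ ≤ D z + K ‖w - z‖` (`gr_sub_norm`). Hence
`bU ‖w-z‖ ≤ (K/2 + s K²/4)‖w-z‖³ + (s K/2) D z ‖w-z‖²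
  ≤ (K/2 + K²/4) 4 (s³ (D z)³ + ‖x‖³) + s K D z (s² (D z)² + ‖x‖²)`   (`s ≤ 1`).
Multiply with `exp (-U z) ker (2s) x` and integrate in `x` (`ker_mom` with p = 0, 2, 3:
`∫ ‖x‖³ ker ≤ C s√s ∫ ker`, `∫ ‖x‖² ker ≤ C s ∫ ker`; `s³ ≤ s√s`, `s² ≤ s√s` for `s ≤ 1`):
`≤ C' (s√s) (1 + (D z)³) exp (-U z) ∫ ker (2s)`; then integrate in `z`:
`(1 + (D z)³) ≤ C'' (1 + ‖z‖^4)` and `exp (-U z) ≤ C0 ker τ (y - z)`, `ker_poly_int`.
Integrability on the product: `integrable_prod_iff` (the function is continuous and nonnegative: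
`gr U` is continuous since `fderiv U` is Lipschitz), with the bounds above.
-/

namespace Pool.Agent.Lib.MP_8d00da_gt.h42u

open MeasureTheory Set Filter
open Pool.Agent.Lib.MP_8d00da_gt.h25 Pool.Agent.Lib.MP_8d00da_gt.h42
open Pool.Agent.Lib.MP_8d00da_gt.h42s Pool.Agent.Lib.MP_8d00da_gt.h42o
open scoped Topology NNReal

variable {F : Type*} [NormedAddCommGroup F] [InnerProductSpace ℝ F]
    [FiniteDimensional ℝ F] [MeasurableSpace F] [BorelSpace F]

private lemma am_pt {K s a r D : ℝ} (hK : 0 ≤ K) (hs : 0 < s) (hs1 : s ≤ 1) (ha : 0 ≤ a)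
    (hr : 0 ≤ r) (hD : 0 ≤ D) (har : a ≤ s * D + r) {Dw : ℝ} (hDw : Dw ≤ D + K * a) :
    (K / 2 * a ^ 2 + s / 4 * K * a * (D + Dw)) * a ≤
      (3 * K + K ^ 2) * (s ^ 3 * D ^ 3) + K * s * D * r ^ 2 + (2 * K + K ^ 2) * r ^ 3 := by
  have h1 : (K / 2 * a ^ 2 + s / 4 * K * a * (D + Dw)) * a ≤
      (K / 2 * a ^ 2 + s / 4 * K * a * (D + (D + K * a))) * a := by gcongr
  refine h1.trans ?_
  have h2 : (K / 2 * a ^ 2 + s / 4 * K * a * (D + (D + K * a))) * a =
      (K / 2 + s * K ^ 2 / 4) * a ^ 3 + s * K / 2 * D * a ^ 2 := by ring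
  rw [h2]
  have h3 : a ^ 3 ≤ 4 * (s ^ 3 * D ^ 3 + r ^ 3) := by
    have h4 : a ^ 3 ≤ (s * D + r) ^ 3 := by gcongr
    have h5 : 0 ≤ s * D := by positivity
    have h6 : (s * D + r) ^ 3 ≤ 4 * ((s * D) ^ 3 + r ^ 3) := by
      nlinarith [mul_nonneg (add_nonneg h5 hr) (sq_nonneg (s * D - r))]
    have h7 : (s * D) ^ 3 = s ^ 3 * D ^ 3 := by ring
    rw [h7] at h6
    exact h4.trans h6
  have h4 : a ^ 2 ≤ 2 * (s ^ 2 * D ^ 2 + r ^ 2) := by
    have h5 : a ^ 2 ≤ (s * D + r) ^ 2 := by gcongr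
    nlinarith [sq_nonneg (s * D - r)]
  have h5 : s * K ^ 2 / 4 ≤ K ^ 2 / 4 := by
    have := sq_nonneg K
    nlinarith
  have h6 : 0 ≤ a ^ 3 := by positivity
  calc (K / 2 + s * K ^ 2 / 4) * a ^ 3 + s * K / 2 * D * a ^ 2
      ≤ (K / 2 + K ^ 2 / 4) * (4 * (s ^ 3 * D ^ 3 + r ^ 3)) +
        s * K / 2 * D * (2 * (s ^ 2 * D ^ 2 + r ^ 2)) := by gcongr
    _ = _ := by ring

theorem AU_moment {U : F → ℝ} (hd : Differentiable ℝ U) {K : ℝ} (hK : 0 ≤ K)
    (hU : ∀ x y, ‖fderiv ℝ U x - fderiv ℝ U y‖ ≤ K * ‖x - y‖) {C0 τ : ℝ} (hτ : 0 < τ) (y : F)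
    (hg : ∀ x, Real.exp (-U x) ≤ C0 * h25.ker τ (y - x)) :
    ∃ C : ℝ, 0 ≤ C ∧ ∀ s : ℝ, 0 < s → s ≤ 1 →
      Integrable (fun p : F × F => AU U s p.1 p.2 * (bU U K s p.1 p.2 * ‖p.2 - p.1‖)) ∧
      ∫ p : F × F, AU U s p.1 p.2 * (bU U K s p.1 p.2 * ‖p.2 - p.1‖) ≤
        C * (s * Real.sqrt s) * ∫ z : F, h25.ker (2 * s) z := by
  obtain ⟨C2, hC2, hm2⟩ := ker_mom (F := F) 2
  obtain ⟨C3, hC3, hm3⟩ := ker_mom (F := F) 3
  have hC0 : 0 ≤ C0 := by
    have h1 := (Real.exp_pos (-U 0)).trans_le (hg 0)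
    have h2 := h25.ker_pos (η := τ) (y - 0)
    by_contra h3
    push Not at h3
    nlinarith
  set D0 : ℝ := ‖gr U 0‖ with hD0
  have hD0' : 0 ≤ D0 := norm_nonneg _
  set C' : ℝ := (3 * K + K ^ 2) + (2 * K + K ^ 2) * C3 + K * C2 with hC'
  have hC'0 : 0 ≤ C' := by positivity
  set C'' : ℝ := 1 + 4 * D0 ^ 3 + 4 * K ^ 3 with hC''
  have hC''0 : 0 ≤ C'' := by positivity
  have hint := ker_poly_int hτ y
  set I4 : ℝ := ∫ z : F, (1 + ‖z‖ ^ 4) * h25.ker τ (y - z) with hI4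
  have hI40 : 0 ≤ I4 := integral_nonneg fun z => mul_nonneg (by positivity) (h25.ker_pos _).le
  have hgl : ∀ z w, ‖gr U z - gr U w‖ ≤ K * ‖z - w‖ := fun z w => by
    rw [gr_sub_norm]; exact hU z w
  have hgc : Continuous (gr U) := by
    have : LipschitzWith K.toNNReal (gr U) := by
      refine LipschitzWith.of_dist_le_mul fun a b => ?_
      rw [dist_eq_norm, dist_eq_norm, Real.coe_toNNReal _ hK]
      exact hgl a b
    exact this.continuous
  have hUc : Continuous U := hd.continuous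
  refine ⟨C' * C'' * C0 * I4, by positivity, fun s hs hs1 => ?_⟩
  have h2s : 0 < 2 * s := by linarith
  set I0 : ℝ := ∫ z : F, h25.ker (2 * s) z with hI0
  have hI00 : 0 ≤ I0 := integral_nonneg fun z => (h25.ker_pos _).le
  set q : ℝ := s * Real.sqrt s with hq
  have hsq0 : 0 ≤ Real.sqrt s := Real.sqrt_nonneg _
  have hsq : Real.sqrt s ^ 2 = s := Real.sq_sqrt hs.le
  have hsq1 : Real.sqrt s ≤ 1 := by
    rw [Real.sqrt_le_one]; exact hs1
  have hq0 : 0 ≤ q := by positivity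
  have hs2q : s ^ 2 ≤ q := by
    rw [hq]
    have : s ≤ Real.sqrt s := by nlinarith
    nlinarith
  have hs3q : s ^ 3 ≤ q := by
    refine le_trans ?_ hs2q
    nlinarith [sq_nonneg s]
  have hm3' : Real.sqrt s ^ 3 = q := by
    rw [hq, pow_succ, hsq]
  -- the function
  set f : F × F → ℝ := fun p => AU U s p.1 p.2 * (bU U K s p.1 p.2 * ‖p.2 - p.1‖) with hf
  have hfc : Continuous f := by
    rw [hf]
    unfold AU bU
    have hk : Continuous (h25.ker (2 * s) : F → ℝ) := h25.ker_cont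
    fun_prop
  have hf0 : ∀ p, 0 ≤ f p := by
    intro p
    simp only [hf]
    unfold AU bU
    have := (h25.ker_pos (η := 2 * s) (p.2 - (p.1 - s • gr U p.1))).le
    positivity
  -- majorant for the slices
  set G : F → F → ℝ := fun z x => Real.exp (-U z) * (((3 * K + K ^ 2) * (s ^ 3 * ‖gr U z‖ ^ 3)) *
    h25.ker (2 * s) x + (K * s * ‖gr U z‖) * (‖x‖ ^ 2 * h25.ker (2 * s) x) +
    (2 * K + K ^ 2) * (‖x‖ ^ 3 * h25.ker (2 * s) x)) with hG
  have hfG : ∀ z w, f (z, w) ≤ G z (w - (z - s • gr U z)) := by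
    intro z w
    simp only [hf, hG]
    set x := w - (z - s • gr U z) with hx
    have hwz : w - z = x - s • gr U z := by rw [hx]; abel
    have ha : ‖w - z‖ ≤ s * ‖gr U z‖ + ‖x‖ := by
      rw [hwz]
      refine (norm_sub_le _ _).trans ?_
      rw [norm_smul, Real.norm_eq_abs, abs_of_pos hs]
      linarith
    have hDw : ‖gr U w‖ ≤ ‖gr U z‖ + K * ‖w - z‖ := by
      have h1 := hgl w z
      have h2 := norm_le_norm_add_norm_sub' (gr U w) (gr U z)
      linarith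
    have h1 := am_pt hK hs hs1 (norm_nonneg (w - z)) (norm_nonneg x) (norm_nonneg (gr U z)) ha hDw
    have h2 := (h25.ker_pos (η := 2 * s) x).le
    have h3 := (Real.exp_pos (-U z)).le
    unfold AU bU
    rw [← hx]
    calc Real.exp (-U z) * h25.ker (2 * s) x * ((K / 2 * ‖w - z‖ ^ 2 + s / 4 * K * ‖w - z‖ *
          (‖gr U z‖ + ‖gr U w‖)) * ‖w - z‖) ≤ Real.exp (-U z) * h25.ker (2 * s) x *
          ((3 * K + K ^ 2) * (s ^ 3 * ‖gr U z‖ ^ 3) + K * s * ‖gr U z‖ * ‖x‖ ^ 2 +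
            (2 * K + K ^ 2) * ‖x‖ ^ 3) := by gcongr
      _ = _ := by ring
  have hki : Integrable (h25.ker (2 * s) : F → ℝ) := h25.ker_integrable h2s
  have hGi : ∀ z, Integrable (G z) := by
    intro z
    simp only [hG]
    exact (((hki.const_mul _).add ((hm2 s hs).1.const_mul _)).add
      ((hm3 s hs).1.const_mul _)).const_mul _
  have hGint : ∀ z, ∫ x, G z x ≤ Real.exp (-U z) * (C' * q * I0 * (1 + ‖gr U z‖ ^ 3)) := by
    intro z
    simp only [hG]
    have i1 : Integrable fun x : F => (3 * K + K ^ 2) * (s ^ 3 * ‖gr U z‖ ^ 3) *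
        h25.ker (2 * s) x := hki.const_mul _
    have i2 : Integrable fun x : F => K * s * ‖gr U z‖ * (‖x‖ ^ 2 * h25.ker (2 * s) x) :=
      (hm2 s hs).1.const_mul _
    have i3 : Integrable fun x : F => (2 * K + K ^ 2) * (‖x‖ ^ 3 * h25.ker (2 * s) x) :=
      (hm3 s hs).1.const_mul _
    have i12 : Integrable fun x : F => (3 * K + K ^ 2) * (s ^ 3 * ‖gr U z‖ ^ 3) *
        h25.ker (2 * s) x + K * s * ‖gr U z‖ * (‖x‖ ^ 2 * h25.ker (2 * s) x) := i1.add i2
    rw [integral_const_mul, integral_add i12 i3, integral_add i1 i2,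
      integral_const_mul, integral_const_mul, integral_const_mul]
    refine mul_le_mul_of_nonneg_left ?_ (Real.exp_pos _).le
    have e2 := (hm2 s hs).2
    have e3 := (hm3 s hs).2
    rw [hsq] at e2
    rw [hm3'] at e3
    rw [← hI0] at e2 e3 ⊢
    set D := ‖gr U z‖ with hD
    have hDn : 0 ≤ D := norm_nonneg _
    have hD3 : D ≤ 1 + D ^ 3 := by
      rcases le_total D 1 with h | h
      · have : 0 ≤ D ^ 3 := by positivity
        linarith
      · have : D ≤ D ^ 3 := by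
          calc D = D * 1 := by ring
            _ ≤ D * D ^ 2 := by gcongr; nlinarith
            _ = D ^ 3 := by ring
        linarith
    have t1 : (3 * K + K ^ 2) * (s ^ 3 * D ^ 3) * I0 ≤
        (3 * K + K ^ 2) * q * I0 * (1 + D ^ 3) := by
      calc (3 * K + K ^ 2) * (s ^ 3 * D ^ 3) * I0 ≤ (3 * K + K ^ 2) * (q * (1 + D ^ 3)) * I0 := by
            gcongr; linarith
        _ = _ := by ring
    have t2 : K * s * D * ∫ x : F, ‖x‖ ^ 2 * h25.ker (2 * s) x ≤ K * C2 * q * I0 * (1 + D ^ 3) := by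
      calc K * s * D * ∫ x : F, ‖x‖ ^ 2 * h25.ker (2 * s) x ≤ K * s * D * (C2 * s * I0) := by
            gcongr
        _ = K * C2 * s ^ 2 * I0 * D := by ring
        _ ≤ K * C2 * q * I0 * (1 + D ^ 3) := by gcongr
    have t3 : (2 * K + K ^ 2) * ∫ x : F, ‖x‖ ^ 3 * h25.ker (2 * s) x ≤
        (2 * K + K ^ 2) * C3 * q * I0 * (1 + D ^ 3) := by
      calc (2 * K + K ^ 2) * ∫ x : F, ‖x‖ ^ 3 * h25.ker (2 * s) x ≤
            (2 * K + K ^ 2) * (C3 * q * I0) := by gcongr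
        _ = (2 * K + K ^ 2) * C3 * q * I0 * 1 := by ring
        _ ≤ _ := by
            gcongr
            have : 0 ≤ D ^ 3 := by positivity
            linarith
    calc _ ≤ (3 * K + K ^ 2) * q * I0 * (1 + D ^ 3) + K * C2 * q * I0 * (1 + D ^ 3) +
          (2 * K + K ^ 2) * C3 * q * I0 * (1 + D ^ 3) := by linarith
      _ = C' * q * I0 * (1 + D ^ 3) := by rw [hC']; ring
  -- the bound in z
  have hz : ∀ z, Real.exp (-U z) * (C' * q * I0 * (1 + ‖gr U z‖ ^ 3)) ≤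
      (C' * C'' * C0 * (q * I0)) * ((1 + ‖z‖ ^ 4) * h25.ker τ (y - z)) := by
    intro z
    have h1 : ‖gr U z‖ ≤ D0 + K * ‖z‖ := by
      have h1 := hgl z 0
      rw [sub_zero] at h1
      have h2 := norm_le_norm_add_norm_sub' (gr U z) (gr U 0)
      rw [hD0]
      linarith
    have hzn : 0 ≤ ‖z‖ := norm_nonneg z
    have h2 : ‖gr U z‖ ^ 3 ≤ 4 * (D0 ^ 3 + K ^ 3 * ‖z‖ ^ 3) := by
      have h3 : ‖gr U z‖ ^ 3 ≤ (D0 + K * ‖z‖) ^ 3 := by gcongr
      have h4 : 0 ≤ K * ‖z‖ := by positivity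
      have h5 : (D0 + K * ‖z‖) ^ 3 ≤ 4 * (D0 ^ 3 + (K * ‖z‖) ^ 3) := by
        nlinarith [mul_nonneg (add_nonneg hD0' h4) (sq_nonneg (D0 - K * ‖z‖))]
      rw [mul_pow] at h5
      exact h3.trans h5
    have h3 : ‖z‖ ^ 3 ≤ 1 + ‖z‖ ^ 4 := by
      rcases le_total ‖z‖ 1 with h | h
      · have : ‖z‖ ^ 3 ≤ 1 := pow_le_one₀ hzn h
        have : 0 ≤ ‖z‖ ^ 4 := by positivity
        linarith
      · have : ‖z‖ ^ 3 ≤ ‖z‖ ^ 4 := pow_le_pow_right₀ h (by norm_num)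
        linarith
    have h4 : 1 + ‖gr U z‖ ^ 3 ≤ C'' * (1 + ‖z‖ ^ 4) := by
      have h5 : 0 ≤ ‖z‖ ^ 4 := by positivity
      have h6 : 0 ≤ D0 ^ 3 := by positivity
      have h7 : 0 ≤ K ^ 3 := by positivity
      rw [hC'']
      nlinarith [mul_nonneg h6 h5, mul_nonneg h7 (sub_nonneg.2 h3)]
    calc Real.exp (-U z) * (C' * q * I0 * (1 + ‖gr U z‖ ^ 3)) ≤
          (C0 * h25.ker τ (y - z)) * (C' * q * I0 * (C'' * (1 + ‖z‖ ^ 4))) := by
          have := hg z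
          have hexp := (Real.exp_pos (-U z)).le
          have hkn : 0 ≤ C0 * h25.ker τ (y - z) := mul_nonneg hC0 (h25.ker_pos _).le
          gcongr
      _ = _ := by ring
  have hslice : ∀ z, Integrable fun w => f (z, w) := by
    intro z
    refine ((hGi z).comp_sub_right (z - s • gr U z)).mono'
      (hfc.comp (by fun_prop : Continuous fun w : F => (z, w))).aestronglyMeasurable
      (Eventually.of_forall fun w => ?_)
    rw [Real.norm_eq_abs, abs_of_nonneg (hf0 _)]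
    exact hfG z w
  have hsint : ∀ z, ∫ w, f (z, w) ≤
      (C' * C'' * C0 * (q * I0)) * ((1 + ‖z‖ ^ 4) * h25.ker τ (y - z)) := by
    intro z
    have h1 : ∫ w, f (z, w) ≤ ∫ w, G z (w - (z - s • gr U z)) :=
      integral_mono (hslice z) ((hGi z).comp_sub_right _) (fun w => hfG z w)
    rw [integral_sub_right_eq_self (G z)] at h1
    exact h1.trans ((hGint z).trans (hz z))
  have hfm : AEStronglyMeasurable f (volume : Measure (F × F)) := hfc.aestronglyMeasurable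
  have hfi : Integrable f (volume : Measure (F × F)) := by
    rw [Measure.volume_eq_prod] at hfm ⊢
    rw [integrable_prod_iff hfm]
    refine ⟨Eventually.of_forall hslice, ?_⟩
    refine (hint.const_mul (C' * C'' * C0 * (q * I0))).mono' hfm.norm.integral_prod_right'
      (Eventually.of_forall fun z => ?_)
    have h1 : (fun w => ‖f (z, w)‖) = fun w => f (z, w) := by
      ext w
      rw [Real.norm_eq_abs, abs_of_nonneg (hf0 _)]
    rw [h1, Real.norm_eq_abs, abs_of_nonneg (integral_nonneg fun w => hf0 _)]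
    exact hsint z
  refine ⟨hfi, ?_⟩
  have h1 : ∫ p, f p = ∫ z, ∫ w, f (z, w) := by
    rw [Measure.volume_eq_prod] at hfi ⊢
    exact integral_prod f hfi
  rw [h1]
  have h2 : Integrable fun z => ∫ w, f (z, w) := by
    rw [Measure.volume_eq_prod] at hfi
    exact hfi.integral_prod_left
  calc ∫ z, ∫ w, f (z, w) ≤
        ∫ z, (C' * C'' * C0 * (q * I0)) * ((1 + ‖z‖ ^ 4) * h25.ker τ (y - z)) :=
        integral_mono h2 (hint.const_mul _) hsint
    _ = C' * C'' * C0 * I4 * q * I0 := by rw [integral_const_mul, ← hI4]; ring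

end Pool.Agent.Lib.MP_8d00da_gt.h42u
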