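import Mathlib
import Pool.Agent.Lib.MP_8d00da_gt.h42u.UBias2
import Pool.Agent.Lib.MP_8d00da_gt.h42u.UBInt
import Pool.Agent.Lib.MP_8d00da_gt.h42u.UBias3

/-!
# U07: the one step bias

Full proof. Put `U z = W z + ‖z - y‖²/(2η)`. It is differentiable,
`gr U z = gr W z + (1/η) • (z - y)`, `fderiv U` is `K`-Lipschitz with `K = L + 1/η`,
`exp (-U z) = h z * ker η (y - z) ≤ B * ker η (y - z)`, and `GU W η s y z = z - s • gr U z`.
With `c = ∫ ker (2s) > 0`, `SS_mul` gives
`c * QU W η s y u z = cv (2s) u (GU ..) = ∫ w, u w * ker (2s) (GU z - w)` and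
`c * u z = ∫ w, u z * ker (2s) (GU z - w)`, so
`c * ∫ (QU u z - u z) (h z ker η (y-z)) dz = ∫ p : F × F, AU U s p.1 p.2 * (u p.2 - u p.1)`
(`integral_prod`, `AU_int1`; `ker_comm`). By `symm_bound` (with `AU_diff`; `bU` is symmetric) and
`AU_moment`: `≤ K_u * C (s√s) c`. Divide by `c`. The constant `C` of `AU_moment` does not depend on
`s` and `u`.
-/

namespace Pool.Agent.Lib.MP_8d00da_gt.h42u

open MeasureTheory Set Filter
open Pool.Agent.Lib.MP_8d00da_gt.h25 Pool.Agent.Lib.MP_8d00da_gt.h42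
open Pool.Agent.Lib.MP_8d00da_gt.h42s Pool.Agent.Lib.MP_8d00da_gt.h42o
open scoped Topology NNReal
 
variable {F : Type*} [NormedAddCommGroup F] [InnerProductSpace ℝ F]
    [FiniteDimensional ℝ F] [MeasurableSpace F] [BorelSpace F]

variable {h W : F → ℝ} {B L η : ℝ}

omit [MeasurableSpace F] [BorelSpace F] in
private lemma gr_tilt {W : F → ℝ} (hW : Differentiable ℝ W) {η : ℝ} (y z : F) :
    Differentiable ℝ (fun z : F => W z + ‖z - y‖ ^ 2 / (2 * η)) ∧
    gr (fun z : F => W z + ‖z - y‖ ^ 2 / (2 * η)) z = gr W z + (1 / η) • (z - y) := by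
  have h1 : ∀ z : F, HasFDerivAt (fun z : F => ‖z - y‖ ^ 2)
      (2 • (innerSL ℝ (z - y) : F →L[ℝ] ℝ)) z := by
    intro z
    have h2 := (hasStrictFDerivAt_norm_sq (z - y)).hasFDerivAt.comp z
      ((hasFDerivAt_id z).sub_const y)
    refine h2.congr_fderiv ?_
    ext w
    rfl
  have h3 : ∀ z : F, HasFDerivAt (fun z : F => W z + ‖z - y‖ ^ 2 / (2 * η))
      (fderiv ℝ W z + (2 * η)⁻¹ • (2 • (innerSL ℝ (z - y) : F →L[ℝ] ℝ))) z := by
    intro z
    have h4 := (hW z).hasFDerivAt.add ((h1 z).const_mul (2 * η)⁻¹)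
    refine h4.congr_of_eventuallyEq (Eventually.of_forall fun w => ?_)
    simp only [Pi.add_apply]
    rw [div_eq_inv_mul]
  refine ⟨fun z => (h3 z).differentiableAt, ?_⟩
  refine ext_inner_right ℝ fun v => ?_
  rw [gr_inner, (h3 z).fderiv, inner_add_left, gr_inner, inner_smul_left]
  simp only [add_apply, smul_apply, innerSL_apply_apply, smul_eq_mul, nsmul_eq_mul,
    Nat.cast_ofNat]
  congr 1
  rw [mul_inv]
  simp only [conj_trivial]
  ring

theorem bias (H : PW L B h W) (hL : 0 ≤ L) (hη : 0 < η) (y : F) :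
    ∃ C : ℝ, 0 ≤ C ∧ ∀ s : ℝ, 0 < s → s ≤ 1 → ∀ (u : F → ℝ) (K : ℝ≥0) (A : ℝ),
      LipschitzWith K u → (∀ x, |u x| ≤ A) →
        |∫ z, (QU W η s y u z - u z) * (h z * h25.ker η (y - z))| ≤
          C * (s * Real.sqrt s) * K := by
  set U : F → ℝ := fun z => W z + ‖z - y‖ ^ 2 / (2 * η) with hUdef
  have hd : Differentiable ℝ U := (gr_tilt (η := η) H.diff y 0).1
  have hgr : ∀ z, gr U z = gr W z + (1 / η) • (z - y) := fun z => (gr_tilt (η := η) H.diff y z).2
  have hK0 : 0 ≤ L + 1 / η := by positivity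
  have hU : ∀ x x', ‖fderiv ℝ U x - fderiv ℝ U x'‖ ≤ (L + 1 / η) * ‖x - x'‖ := by
    intro x x'
    rw [← gr_sub_norm, hgr, hgr]
    have h1 : gr W x + (1 / η) • (x - y) - (gr W x' + (1 / η) • (x' - y)) =
        (gr W x - gr W x') + (1 / η) • (x - x') := by
      rw [smul_sub, smul_sub, smul_sub]
      abel
    rw [h1]
    refine (norm_add_le _ _).trans ?_
    rw [gr_sub_norm, norm_smul, Real.norm_eq_abs, abs_of_pos (by positivity), add_mul]
    gcongr
    exact H.lip x x'
  have hexp : ∀ z, Real.exp (-U z) = h z * h25.ker η (y - z) := by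
    intro z
    rw [H.eq z]
    unfold h25.ker
    rw [← Real.exp_add, norm_sub_rev y z]
    congr 1
    simp only [hUdef]
    ring
  have hg : ∀ x, Real.exp (-U x) ≤ B * h25.ker η (y - x) := by
    intro x
    rw [hexp]
    exact mul_le_mul_of_nonneg_right (H.wt.bdd x) (ker_pos _).le
  obtain ⟨C, hC0, hC⟩ := AU_moment hd hK0 hU hη y hg
  refine ⟨C, hC0, fun s hs hs1 u K A hu hA => ?_⟩
  obtain ⟨i2, hm⟩ := hC s hs hs1
  have h2s : 0 < 2 * s := by positivity
  set c : ℝ := ∫ z : F, h25.ker (2 * s) z with hc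
  have hc0 : 0 < c := ker_int_pos h2s
  have hum : Measurable u := hu.continuous.measurable
  have hφ : Measurable fun p : F × F => u p.2 - u p.1 :=
    (hum.comp measurable_snd).sub (hum.comp measurable_fst)
  have i1 := AU_int1 hd hK0 hU hη y hg hs hφ (A := A + A) fun p =>
    (abs_sub _ _).trans (add_le_add (hA _) (hA _))
  have hsymm : ∀ z w, bU U (L + 1 / η) s z w = bU U (L + 1 / η) s w z := by
    intro z w
    unfold bU
    rw [norm_sub_rev z w]
    ring
  have hb := symm_bound (A := AU U s) (β := bU U (L + 1 / η) s) hsymm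
    (fun z w => AU_diff hd hK0 hU hs z w) hu i1 i2
  have hGU : ∀ z, GU W η s y z = z - s • gr U z := fun z => by rw [hgr]; rfl
  have key : ∀ z, c * ((QU W η s y u z - u z) * (h z * h25.ker η (y - z))) =
      ∫ w, AU U s z w * (u w - u z) := by
    intro z
    have e1 : c * QU W η s y u z = ∫ w, u w * h25.ker (2 * s) (GU W η s y z - w) := by
      unfold QU
      rw [mul_comm, SS_mul h2s]
      rfl
    have e2 : c * u z = ∫ w, u z * h25.ker (2 * s) (GU W η s y z - w) := by
      rw [integral_const_mul, integral_sub_left_eq_self (fun w => h25.ker (2 * s) w) volume,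
        mul_comm]
    have j1 : Integrable fun w => u w * h25.ker (2 * s) (GU W η s y z - w) :=
      cv_integrable h2s hum hA _
    have j2 : Integrable fun w => u z * h25.ker (2 * s) (GU W η s y z - w) :=
      (ker_sub_integrable h2s _).const_mul _
    have e3 : ∀ w, AU U s z w * (u w - u z) = Real.exp (-U z) *
        (u w * h25.ker (2 * s) (GU W η s y z - w) - u z * h25.ker (2 * s) (GU W η s y z - w)) := by
      intro w
      unfold AU
      rw [← hGU z, ker_comm w]
      ring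
    simp only [e3]
    rw [integral_const_mul, integral_sub j1 j2, ← e1, ← e2, hexp]
    ring
  have h3 : c * ∫ z, (QU W η s y u z - u z) * (h z * h25.ker η (y - z)) =
      ∫ p : F × F, AU U s p.1 p.2 * (u p.2 - u p.1) := by
    rw [← integral_const_mul]
    simp only [key]
    rw [Measure.volume_eq_prod, integral_prod _ (by rw [← Measure.volume_eq_prod]; exact i1)]
  have h4 : c * |∫ z, (QU W η s y u z - u z) * (h z * h25.ker η (y - z))| ≤
      c * (C * (s * Real.sqrt s) * K) := by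
    rw [← abs_of_pos hc0, ← abs_mul, abs_of_pos hc0, h3]
    refine hb.trans ?_
    calc (K : ℝ) * ∫ p : F × F, AU U s p.1 p.2 * (bU U (L + 1 / η) s p.1 p.2 * ‖p.2 - p.1‖)
        ≤ K * (C * (s * Real.sqrt s) * c) := by gcongr
      _ = _ := by ring
  exact le_of_mul_le_mul_left h4 hc0

end Pool.Agent.Lib.MP_8d00da_gt.h42u
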