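import Mathlib
import Pool.Agent.Lib.MP_8d00da_gt.h42u.UDefs

/-!
# U02: contraction of the drift of the unadjusted Langevin chain, elementary properties of `QU`

Full proof. `gr_mono`: `W` is convex: from `LogConc h`, `h = exp (-W)`, taking logarithms,
`W ((1-a) x + a y) ≤ (1-a) W x + a W y`. Hence the derivative of `t ↦ W (x + t (y - x))` is
monotone, in particular `fderiv W x (y - x) ≤ W y - W x` and `fderiv W y (x - y) ≤ W x - W y`; add.

`GU_contr`: with `a = z - z'`, `b = gr W z - gr W z'`: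
`GU y z - GU y' z' = ((1 - s/η) a - s b) + (s/η) (y - y')` and
`‖(1-s/η)a - s b‖² = (1-s/η)²‖a‖² - 2 s (1-s/η) ⟨a,b⟩ + s²‖b‖² ≤ ((1-s/η)² + s²L²) ‖a‖²`
(`⟨a,b⟩ ≥ 0`, `1 - s/η ≥ 0`, `‖b‖ ≤ L‖a‖`).

`SS_comp`: `SS η u x * c = ∫ u (x - z) ker η z` with `c = ∫ ker η > 0` (`SS_mul`, translation of
the integral, as in `SS_fderiv` of h25/Chain); compare the integrands:
`‖(x - z) - (x' - z)‖ = ‖x - x'‖ ≤ b`.

`SS_lip`: same representation, `|u (x-z) - u (x'-z)| ≤ K ‖x-x'‖`.
`QU_lip`, `QU_abs`: combine (`wt_one.AA_abs_le` for the bound). For `QU_lip` use `GU_contr` with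
`y = y'`.
-/

namespace Pool.Agent.Lib.MP_8d00da_gt.h42u

open MeasureTheory Set Filter
open Pool.Agent.Lib.MP_8d00da_gt.h25 Pool.Agent.Lib.MP_8d00da_gt.h42
open Pool.Agent.Lib.MP_8d00da_gt.h42s Pool.Agent.Lib.MP_8d00da_gt.h42o
open scoped Topology NNReal
 
variable {F : Type*} [NormedAddCommGroup F] [InnerProductSpace ℝ F]
    [FiniteDimensional ℝ F] [MeasurableSpace F] [BorelSpace F]

variable {h W : F → ℝ} {B L η : ℝ}

private lemma ud_conv (H : PW L B h W) : ConvexOn ℝ univ W := by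
  refine ⟨convex_univ, ?_⟩
  intro x _ y _ a b ha hb hab
  rcases eq_or_lt_of_le ha with h0 | ha
  · have hb1 : b = 1 := by linarith
    subst hb1
    rw [← h0]
    simp
  rcases eq_or_lt_of_le hb with h0 | hb
  · have ha1 : a = 1 := by linarith
    subst ha1
    rw [← h0]
    simp
  have ha' : a = 1 - b := by linarith
  have h1 := H.lc b hb (by linarith) x y
  rw [← ha', H.eq, H.eq, H.eq, ← Real.exp_mul, ← Real.exp_mul, ← Real.exp_add,
    Real.exp_le_exp] at h1
  rw [smul_eq_mul, smul_eq_mul]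
  linarith

lemma gr_mono (H : PW L B h W) (x y : F) : 0 ≤ inner ℝ (gr W x - gr W y) (x - y) := by
  have hc : ConvexOn ℝ univ (fun t : ℝ => W (x + t • (y - x))) := by
    refine ⟨convex_univ, ?_⟩
    intro s _ t _ a b ha hb hab
    have h1 := (ud_conv H).2 (mem_univ (x + s • (y - x))) (mem_univ (x + t • (y - x))) ha hb hab
    have h2 : a • (x + s • (y - x)) + b • (x + t • (y - x)) =
        x + (a • s + b • t) • (y - x) := by
      rw [show b = 1 - a by linarith]
      simp only [smul_eq_mul]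
      module
    rw [h2] at h1
    exact h1
  have hd : ∀ t : ℝ, HasDerivAt (fun t : ℝ => W (x + t • (y - x)))
      (fderiv ℝ W (x + t • (y - x)) (y - x)) t := by
    intro t
    have h1 : HasDerivAt (fun t : ℝ => x + t • (y - x)) (y - x) t := by
      have := ((hasDerivAt_id t).smul_const (y - x)).const_add x
      simpa using this
    exact ((H.diff (x + t • (y - x))).hasFDerivAt).comp_hasDerivAt t h1
  have h1 := hc.deriv_le_slope (mem_univ 0) (mem_univ 1) zero_lt_one (hd 0).differentiableAt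
  have h2 := hc.slope_le_deriv (mem_univ 0) (mem_univ 1) zero_lt_one (hd 1).differentiableAt
  have h3 := h1.trans h2
  rw [(hd 0).deriv, (hd 1).deriv] at h3
  simp only [zero_smul, add_zero, one_smul, add_sub_cancel] at h3
  rw [inner_sub_left, gr_inner, gr_inner]
  have h4 : fderiv ℝ W x (x - y) = - fderiv ℝ W x (y - x) := by rw [← map_neg, neg_sub]
  have h5 : fderiv ℝ W y (x - y) = - fderiv ℝ W y (y - x) := by rw [← map_neg, neg_sub]
  rw [h4, h5]
  linarith

theorem GU_contr (H : PW L B h W) (hL : 0 ≤ L) (hη : 0 < η) {s : ℝ} (hs : 0 < s) (hsη : s ≤ η)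
    (y y' z z' : F) :
    ‖GU W η s y z - GU W η s y' z'‖ ≤
      Real.sqrt ((1 - s / η) ^ 2 + s ^ 2 * L ^ 2) * ‖z - z'‖ + (s / η) * ‖y - y'‖ := by
  have hsη0 : 0 ≤ 1 - s / η := by
    rw [sub_nonneg, div_le_one hη]
    exact hsη
  set a := z - z' with ha
  set b := gr W z - gr W z' with hb
  have e : GU W η s y z - GU W η s y' z' =
      ((1 - s / η) • a - s • b) + (s / η) • (y - y') := by
    unfold GU
    rw [ha, hb, show s / η = s * (1 / η) by ring]
    module
  have hb1 : ‖b‖ ≤ L * ‖a‖ := by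
    rw [hb, gr_sub_norm]
    exact H.lip z z'
  have hb0 : 0 ≤ inner ℝ a b := by
    rw [real_inner_comm]
    exact gr_mono H z z'
  have h1 : ‖(1 - s / η) • a - s • b‖ ^ 2 ≤
      ((1 - s / η) ^ 2 + s ^ 2 * L ^ 2) * ‖a‖ ^ 2 := by
    rw [norm_sub_sq_real, norm_smul, norm_smul, inner_smul_left, inner_smul_right,
      Real.norm_eq_abs, Real.norm_eq_abs, mul_pow, mul_pow, sq_abs, sq_abs]
    have h2 : ‖b‖ ^ 2 ≤ L ^ 2 * ‖a‖ ^ 2 := by
      rw [← mul_pow]
      exact pow_le_pow_left₀ (norm_nonneg _) hb1 2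
    have h3 : 0 ≤ (1 - s / η) * (s * inner ℝ a b) :=
      mul_nonneg hsη0 (mul_nonneg hs.le hb0)
    have h4 : s ^ 2 * ‖b‖ ^ 2 ≤ s ^ 2 * (L ^ 2 * ‖a‖ ^ 2) :=
      mul_le_mul_of_nonneg_left h2 (sq_nonneg _)
    simp only [conj_trivial]
    nlinarith
  have h5 : ‖(1 - s / η) • a - s • b‖ ≤ Real.sqrt ((1 - s / η) ^ 2 + s ^ 2 * L ^ 2) * ‖a‖ := by
    have h6 := Real.sqrt_le_sqrt h1
    rw [Real.sqrt_sq (norm_nonneg _), Real.sqrt_mul (by positivity),
      Real.sqrt_sq (norm_nonneg _)] at h6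
    exact h6
  rw [e]
  refine (norm_add_le _ _).trans (add_le_add h5 ?_)
  rw [norm_smul, Real.norm_eq_abs, abs_of_nonneg (by positivity)]

private lemma ud_rep (hη : 0 < η) (u : F → ℝ) (x : F) :
    SS η u x * (∫ z : F, ker η z) = ∫ z : F, u (x - z) * ker η z := by
  rw [SS_mul hη]
  unfold cv
  have := integral_sub_left_eq_self (fun y => u y * ker η (x - y)) (volume : Measure F) x
  rw [← this]
  simp

private lemma ud_int (hη : 0 < η) {u : F → ℝ} (hu : Measurable u) {A : ℝ}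
    (hA : ∀ x, |u x| ≤ A) (x : F) : Integrable fun z : F => u (x - z) * ker η z :=
  (ker_integrable hη).bdd_mul (c := A)
    (hu.comp (measurable_const.sub measurable_id)).aestronglyMeasurable
    (Eventually.of_forall fun z => by rw [Real.norm_eq_abs]; exact hA _)

lemma SS_comp (hη : 0 < η) {u v : F → ℝ} (hu : BL u) (hv : BL v) {b : ℝ}
    (huv : ∀ z z', ‖z - z'‖ ≤ b → u z ≤ v z') {x x' : F} (hx : ‖x - x'‖ ≤ b) :
    SS η u x ≤ SS η v x' := by
  obtain ⟨⟨Lu, hLu⟩, Au, hAu⟩ := hu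
  obtain ⟨⟨Lv, hLv⟩, Av, hAv⟩ := hv
  have hc0 : 0 < ∫ z : F, ker η z := ker_int_pos hη
  refine le_of_mul_le_mul_right ?_ hc0
  rw [ud_rep hη, ud_rep hη]
  refine integral_mono (ud_int hη hLu.continuous.measurable hAu x)
    (ud_int hη hLv.continuous.measurable hAv x') fun z => ?_
  refine mul_le_mul_of_nonneg_right (huv _ _ ?_) (ker_pos z).le
  rw [sub_sub_sub_cancel_right]
  exact hx

lemma SS_lip (hη : 0 < η) {u : F → ℝ} {K : ℝ≥0} (hu : LipschitzWith K u) {A : ℝ}
    (hA : ∀ x, |u x| ≤ A) : LipschitzWith K (SS η u) := by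
  have hc0 : 0 < ∫ z : F, ker η z := ker_int_pos hη
  have hum : Measurable u := hu.continuous.measurable
  refine LipschitzWith.of_le_add_mul K fun x x' => ?_
  refine le_of_mul_le_mul_right ?_ hc0
  rw [add_mul, ud_rep hη, ud_rep hη, ← integral_const_mul,
    ← integral_add (ud_int hη hum hA x') ((ker_integrable hη).const_mul _)]
  refine integral_mono (ud_int hη hum hA x)
    ((ud_int hη hum hA x').add ((ker_integrable hη).const_mul _)) fun z => ?_
  have h1 := hu.dist_le_mul (x - z) (x' - z)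
  rw [Real.dist_eq, dist_sub_right] at h1
  have h2 := (le_abs_self _).trans h1
  have h3 := (ker_pos (η := η) z).le
  have h4 : u (x - z) ≤ u (x' - z) + K * dist x x' := by linarith
  calc u (x - z) * ker η z ≤ (u (x' - z) + K * dist x x') * ker η z :=
        mul_le_mul_of_nonneg_right h4 h3
    _ = u (x' - z) * ker η z + K * dist x x' * ker η z := by ring

lemma QU_abs {s : ℝ} (hs : 0 < s) (y : F) {u : F → ℝ} (hu : Measurable u) {A : ℝ}
    (hA : ∀ x, |u x| ≤ A) (x : F) : |QU W η s y u x| ≤ A := by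
  unfold QU SS
  exact wt_one.AA_abs_le (by positivity) hu hA _

lemma QU_lip (H : PW L B h W) (hL : 0 ≤ L) (hη : 0 < η) {s : ℝ} (hs : 0 < s) (hsη : s ≤ η)
    (y : F) {u : F → ℝ} {K : ℝ≥0} (hu : LipschitzWith K u) {A : ℝ} (hA : ∀ x, |u x| ≤ A) :
    LipschitzWith (Real.toNNReal (Real.sqrt ((1 - s / η) ^ 2 + s ^ 2 * L ^ 2)) * K)
      (QU W η s y u) := by
  have h1 : LipschitzWith (Real.toNNReal (Real.sqrt ((1 - s / η) ^ 2 + s ^ 2 * L ^ 2)))
      (GU W η s y) := by
    refine LipschitzWith.of_dist_le_mul fun z z' => ?_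
    rw [dist_eq_norm, dist_eq_norm, Real.coe_toNNReal _ (Real.sqrt_nonneg _)]
    have h2 := GU_contr H hL hη hs hsη y y z z'
    simpa using h2
  have h3 : LipschitzWith K (SS (2 * s) u) := SS_lip (by positivity) hu hA
  have h4 := h3.comp h1
  rw [mul_comm] at h4
  exact h4

end Pool.Agent.Lib.MP_8d00da_gt.h42u
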