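import Mathlib
import Pool.Agent.Lib.MP_8d00da_gt.h42o.OTilt
import Pool.Agent.Lib.MP_8d00da_gt.h42u.UDrift
import Pool.Agent.Lib.MP_8d00da_gt.h42u.UBias

/-!
# U08: convergence of the unadjusted Langevin chain

Full proof. `ρ = √((1 - s/η)² + s² L²)`. For `s ≤ min (η) ((1/η)/(1/η² + L²))` (and `s ≤ 1`):
`ρ² = 1 - 2s/η + s²(1/η² + L²) ≤ 1 - s/η ≤ (1 - s/(2η))²`, so `ρ ≤ 1 - s/(2η) < 1`.
Let `K` be a Lipschitz constant and `A` a bound of `u`; `u_j = (QU W η s y)^[j] u` has Lipschitz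
constant `ρ^j K` and bound `A` (`QU_lip`, `QU_abs`, induction). Let `k z = h z * ker η (y - z)`,
`Z = ∫ k = cv η h y > 0` (`Wt.Z_pos`), `D = ∫ ‖z - z0‖ k z` (finite: `tilt_poly` of h42o/OTilt).
(1) `|∫ u_N k - u_N z0 * Z| ≤ ρ^N K D`.
(2) `∫ (u_{j+1} - u_j) k` is at most `C s√s ρ^j K` in absolute value (`bias`, note
`u_{j+1} = QU u_j`: `Function.iterate_succ_apply'`), so
`|∫ u_N k - ∫ u k| ≤ C s√s K ∑_{j<N} ρ^j ≤ C s√s K (2η/s) = 2 η C K √s`.
(3) `∫ u k = AA h η u y * Z`.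
Hence `|u_N z0 - AA h η u y| ≤ (ρ^N K D + 2 η C K √s)/Z`. Choose `s0` such that
`2 η C K √s ≤ ε Z/2` for `s ≤ s0`, then `N0` with `ρ^N K D ≤ ε Z / 2` for `N ≥ N0`
(`tendsto_pow_atTop_nhds_zero_of_lt_one`).
-/

namespace Pool.Agent.Lib.MP_8d00da_gt.h42u

open MeasureTheory Set Filter
open Pool.Agent.Lib.MP_8d00da_gt.h25 Pool.Agent.Lib.MP_8d00da_gt.h42
open Pool.Agent.Lib.MP_8d00da_gt.h42s Pool.Agent.Lib.MP_8d00da_gt.h42o
open scoped Topology NNReal
 
variable {F : Type*} [NormedAddCommGroup F] [InnerProductSpace ℝ F]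
    [FiniteDimensional ℝ F] [MeasurableSpace F] [BorelSpace F]

variable {h W : F → ℝ} {B L η : ℝ}

private lemma uconv_iter (H : PW L B h W) (hL : 0 ≤ L) (hη : 0 < η) {s : ℝ} (hs : 0 < s)
    (hsη : s ≤ η) (y : F) {u : F → ℝ} {K : ℝ≥0} (hu : LipschitzWith K u) {A : ℝ}
    (hA : ∀ x, |u x| ≤ A) (N : ℕ) :
    LipschitzWith (Real.toNNReal (Real.sqrt ((1 - s / η) ^ 2 + s ^ 2 * L ^ 2)) ^ N * K)
      ((QU W η s y)^[N] u) ∧ ∀ x, |(QU W η s y)^[N] u x| ≤ A := by
  induction N with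
  | zero => simpa using ⟨hu, hA⟩
  | succ N ih =>
    obtain ⟨h1, h2⟩ := ih
    have e : (QU W η s y)^[N + 1] u = QU W η s y ((QU W η s y)^[N] u) :=
      Function.iterate_succ_apply' _ _ _
    rw [e]
    refine ⟨?_, fun x => QU_abs hs y h1.continuous.measurable h2 x⟩
    have h3 := QU_lip H hL hη hs hsη y h1 h2
    rw [pow_succ', mul_assoc]
    exact h3

lemma QU_iter_BL (H : PW L B h W) (hL : 0 ≤ L) (hη : 0 < η) {s : ℝ} (hs : 0 < s) (hsη : s ≤ η)
    (y : F) {u : F → ℝ} (hu : BL u) (N : ℕ) : BL ((QU W η s y)^[N] u) := by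
  obtain ⟨⟨K, hK⟩, A, hA⟩ := hu
  obtain ⟨h1, h2⟩ := uconv_iter H hL hη hs hsη y hK hA N
  exact ⟨⟨_, h1⟩, A, h2⟩

private lemma uconv_rho (hη : 0 < η) {s : ℝ} (hs : 0 < s) (hsη : s ≤ η)
    (hs2 : s * (1 / η ^ 2 + L ^ 2) ≤ 1 / η) :
    Real.sqrt ((1 - s / η) ^ 2 + s ^ 2 * L ^ 2) ≤ 1 - s / (2 * η) := by
  have h1 : s / η ≤ 1 := (div_le_one hη).2 hsη
  have h2 : s / (2 * η) = (s / η) / 2 := by field_simp
  have h3 : 0 ≤ s / η := by positivity
  apply Real.sqrt_le_iff.2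
  refine ⟨by rw [h2]; linarith, ?_⟩
  rw [h2]
  have h4 : (1 - s / η) ^ 2 + s ^ 2 * L ^ 2 = 1 - 2 * (s / η) + s * (s * (1 / η ^ 2 + L ^ 2)) := by
    field_simp
    ring
  have h5 : s * (s * (1 / η ^ 2 + L ^ 2)) ≤ s * (1 / η) := mul_le_mul_of_nonneg_left hs2 hs.le
  have h6 : s * (1 / η) = s / η := by ring
  rw [h4]
  nlinarith [sq_nonneg (s / η)]

theorem ula_conv (H : PW L B h W) (hL : 0 ≤ L) (hη : 0 < η) (y z0 : F) {u : F → ℝ} (hu : BL u)
    {ε : ℝ} (hε : 0 < ε) :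
    ∃ s0 : ℝ, 0 < s0 ∧ ∀ s : ℝ, 0 < s → s ≤ s0 → ∃ N0 : ℕ, ∀ N : ℕ, N0 ≤ N →
      |(QU W η s y)^[N] u z0 - AA h η u y| ≤ ε := by
  obtain ⟨C, hC0, hbias⟩ := bias H hL hη y
  obtain ⟨⟨K, hK⟩, A, hA⟩ := hu
  have hZ : 0 < cv η h y := H.wt.Z_pos hη y
  set Z : ℝ := cv η h y with hZdef
  have hZi : ∫ z, (1 : ℝ) * (h z * h25.ker η (y - z)) = Z := by
    rw [Wt.tilt_eq]
    simp only [one_mul]
    rfl
  have hK0 : (0 : ℝ) ≤ K := K.coe_nonneg
  -- the moment
  have hDi : Integrable fun z => ‖z - z0‖ * (h z * h25.ker η (y - z)) := by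
    refine tilt_poly H.wt hη y (φ := fun z => ‖z - z0‖) (by fun_prop) (C := 1 + ‖z0‖) fun z => ?_
    rw [abs_of_nonneg (norm_nonneg _)]
    have h1 := norm_sub_le z z0
    have h2 := norm_nonneg z0
    have h3 : ‖z‖ ≤ 1 + ‖z‖ ^ 2 := by nlinarith [sq_nonneg (‖z‖ - 1), norm_nonneg z]
    nlinarith [sq_nonneg ‖z‖]
  set D : ℝ := ∫ z, ‖z - z0‖ * (h z * h25.ker η (y - z)) with hD
  have hkn : ∀ z, 0 ≤ h z * h25.ker η (y - z) := fun z => mul_nonneg (H.wt.nonneg z) (ker_pos _).le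
  have hD0 : 0 ≤ D := integral_nonneg fun z => mul_nonneg (norm_nonneg _) (hkn z)
  -- the choice of the step
  set q : ℝ := ε * Z / (2 * (2 * η * C * K + 1)) with hq
  have hq0 : 0 < q := by positivity
  set s1 : ℝ := (1 / η) / (1 / η ^ 2 + L ^ 2) with hs1
  have hs10 : 0 < s1 := by positivity
  refine ⟨min (min 1 η) (min s1 (q ^ 2)), by positivity, fun s hs hss => ?_⟩
  have hs_one : s ≤ 1 := hss.trans ((min_le_left _ _).trans (min_le_left _ _))
  have hsη : s ≤ η := hss.trans ((min_le_left _ _).trans (min_le_right _ _))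
  have hss1 : s ≤ s1 := hss.trans ((min_le_right _ _).trans (min_le_left _ _))
  have hsq : s ≤ q ^ 2 := hss.trans ((min_le_right _ _).trans (min_le_right _ _))
  have hsqrt : Real.sqrt s ≤ q := by
    rw [Real.sqrt_le_left hq0.le]
    exact hsq
  have hs2 : s * (1 / η ^ 2 + L ^ 2) ≤ 1 / η := by
    rw [hs1, le_div_iff₀ (by positivity)] at hss1
    exact hss1
  have hρ := uconv_rho (L := L) hη hs hsη hs2
  set r : ℝ := Real.sqrt ((1 - s / η) ^ 2 + s ^ 2 * L ^ 2) with hr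
  have hr0 : 0 ≤ r := Real.sqrt_nonneg _
  have hr1 : r < 1 := by
    have : 0 < s / (2 * η) := by positivity
    linarith
  -- Lipschitz and boundedness
  have hit := fun N => uconv_iter H hL hη hs hsη y hK hA N
  have hlipR : ∀ N x x', |(QU W η s y)^[N] u x - (QU W η s y)^[N] u x'| ≤ r ^ N * K * ‖x - x'‖ := by
    intro N x x'
    have h1 := (hit N).1.dist_le_mul x x'
    rw [Real.dist_eq, dist_eq_norm] at h1
    refine h1.trans (le_of_eq ?_)
    push_cast
    rw [Real.coe_toNNReal _ hr0]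
  have hmeas : ∀ N, Measurable ((QU W η s y)^[N] u) := fun N => (hit N).1.continuous.measurable
  have hint : ∀ N, Integrable fun z => (QU W η s y)^[N] u z * (h z * h25.ker η (y - z)) := fun N =>
    H.wt.tilt_integrable hη (hmeas N) (hit N).2 y
  -- step (1)
  have st1 : ∀ N, |(∫ z, (QU W η s y)^[N] u z * (h z * h25.ker η (y - z))) -
      (QU W η s y)^[N] u z0 * Z| ≤ r ^ N * K * D := by
    intro N
    have e1 : (QU W η s y)^[N] u z0 * Z =
        ∫ z, (QU W η s y)^[N] u z0 * (h z * h25.ker η (y - z)) := by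
      rw [integral_const_mul, ← hZi]
      simp only [one_mul]
    have i0 : Integrable fun z => (QU W η s y)^[N] u z0 * (h z * h25.ker η (y - z)) := by
      have := H.wt.tilt_integrable hη (φ := fun _ => (QU W η s y)^[N] u z0) measurable_const
        (M := A) (fun _ => (hit N).2 z0) y
      exact this
    rw [e1, ← integral_sub (hint N) i0]
    have e2 : r ^ N * K * D = ∫ z, r ^ N * K * (‖z - z0‖ * (h z * h25.ker η (y - z))) := by
      rw [integral_const_mul]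
    rw [e2, ← Real.norm_eq_abs]
    refine norm_integral_le_of_norm_le (hDi.const_mul _) (Eventually.of_forall fun z => ?_)
    rw [← sub_mul, Real.norm_eq_abs, abs_mul, abs_of_nonneg (hkn z), ← mul_assoc (r ^ N * (K : ℝ))]
    exact mul_le_mul_of_nonneg_right (hlipR N z z0) (hkn z)
  -- step (2)
  have st2 : ∀ N, |(∫ z, (QU W η s y)^[N] u z * (h z * h25.ker η (y - z))) -
      ∫ z, u z * (h z * h25.ker η (y - z))| ≤
        C * (s * Real.sqrt s) * K * ∑ j ∈ Finset.range N, r ^ j := by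
    intro N
    induction N with
    | zero => simp
    | succ N ih =>
      have h1 := hbias s hs hs_one _ _ A (hit N).1 (hit N).2
      have e : (QU W η s y)^[N + 1] u = QU W η s y ((QU W η s y)^[N] u) :=
        Function.iterate_succ_apply' _ _ _
      have e3 : ∫ z, (QU W η s y ((QU W η s y)^[N] u) z - (QU W η s y)^[N] u z) *
          (h z * h25.ker η (y - z)) =
          (∫ z, (QU W η s y)^[N + 1] u z * (h z * h25.ker η (y - z))) -
            ∫ z, (QU W η s y)^[N] u z * (h z * h25.ker η (y - z)) := by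
        rw [← integral_sub (hint (N + 1)) (hint N), e]
        refine integral_congr_ae (Eventually.of_forall fun z => ?_)
        simp only
        ring
      rw [e3] at h1
      push_cast at h1
      rw [Real.coe_toNNReal _ hr0] at h1
      rw [Finset.sum_range_succ, mul_add]
      have h2 : C * (s * Real.sqrt s) * (r ^ N * K) = C * (s * Real.sqrt s) * K * r ^ N := by ring
      rw [h2] at h1
      have h3 := abs_sub_le (∫ z, (QU W η s y)^[N + 1] u z * (h z * h25.ker η (y - z)))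
        (∫ z, (QU W η s y)^[N] u z * (h z * h25.ker η (y - z)))
        (∫ z, u z * (h z * h25.ker η (y - z)))
      linarith
  have hgeo : ∀ N, ∑ j ∈ Finset.range N, r ^ j ≤ 2 * η / s := by
    intro N
    have h1 : (∑ j ∈ Finset.range N, r ^ j) * (1 - r) = 1 - r ^ N := by
      have := geom_sum_mul r N
      linarith
    have h2 : s / (2 * η) ≤ 1 - r := by linarith
    have h3 : 0 ≤ ∑ j ∈ Finset.range N, r ^ j := Finset.sum_nonneg fun j _ => pow_nonneg hr0 j
    have h4 : (∑ j ∈ Finset.range N, r ^ j) * (s / (2 * η)) ≤ 1 := by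
      have h5 := mul_le_mul_of_nonneg_left h2 h3
      have h6 : 0 ≤ r ^ N := pow_nonneg hr0 N
      linarith
    have h7 : 0 < s / (2 * η) := by positivity
    have h8 : 2 * η / s = 1 / (s / (2 * η)) := by field_simp
    rw [h8, le_div_iff₀ h7]
    exact h4
  have hCK : 0 ≤ C * (s * Real.sqrt s) * K := by positivity
  have st2' : ∀ N, |(∫ z, (QU W η s y)^[N] u z * (h z * h25.ker η (y - z))) -
      ∫ z, u z * (h z * h25.ker η (y - z))| ≤ ε * Z / 2 := by
    intro N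
    refine (st2 N).trans ((mul_le_mul_of_nonneg_left (hgeo N) hCK).trans ?_)
    have h1 : C * (s * Real.sqrt s) * K * (2 * η / s) = 2 * η * C * K * Real.sqrt s := by
      field_simp
    rw [h1]
    have h2 : 2 * η * C * K * Real.sqrt s ≤ (2 * η * C * K + 1) * q := by
      have h3 : 0 ≤ 2 * η * C * K := by positivity
      nlinarith [Real.sqrt_nonneg s]
    refine h2.trans (le_of_eq ?_)
    rw [hq]
    have : (2 * η * C * K + 1) ≠ 0 := by positivity
    field_simp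
  -- step (3)
  have st3 : ∫ z, u z * (h z * h25.ker η (y - z)) = AA h η u y * Z := by
    rw [Wt.tilt_eq, H.wt.AA_mul hη]
  obtain ⟨N0, hN0⟩ := exists_pow_lt_of_lt_one (show 0 < ε * Z / 2 / (K * D + 1) by positivity) hr1
  refine ⟨N0, fun N hN => ?_⟩
  have h1 : r ^ N * K * D ≤ ε * Z / 2 := by
    have h2 : r ^ N ≤ r ^ N0 := pow_le_pow_of_le_one hr0 hr1.le hN
    have h3 : r ^ N * (K * D + 1) ≤ ε * Z / 2 := by
      rw [lt_div_iff₀ (by positivity)] at hN0
      have h5 : 0 ≤ (K : ℝ) * D + 1 := by positivity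
      have := mul_le_mul_of_nonneg_right h2 h5
      linarith
    have h4 : 0 ≤ r ^ N := pow_nonneg hr0 N
    nlinarith
  have h5 := st1 N
  have h6 := st2' N
  rw [st3] at h6
  have h7 : |(QU W η s y)^[N] u z0 - AA h η u y| * Z ≤ ε * Z := by
    rw [← abs_of_pos hZ, ← abs_mul, abs_of_pos hZ, sub_mul]
    rw [abs_le] at h5 h6 ⊢
    constructor <;> linarith [h5.1, h5.2, h6.1, h6.2]
  exact le_of_mul_le_mul_right h7 hZ

end Pool.Agent.Lib.MP_8d00da_gt.h42u
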