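import Mathlib
import Pool.Agent.Lib.MP_8d00da_gt.h42u.UConv

/-!
# U09: the contraction theorem (Wasserstein infinity contraction of the posterior measures)

Full proof. Let `r = ‖y - y'‖ < b`. For small `s` (`s ≤ η`, `s (1/η²+L²) b / 2 ≤ (b - r)/η`),
`ρ = √((1-s/η)²+s²L²) ≤ 1 - s/η + s²(1/η²+L²)/2` (square both sides: `ρ² = 1 - 2a ≤ (1-a)²` with
`a = s/η - s²(1/η²+L²)/2`, `a ≤ 1`), so by `GU_contr`, for `‖z - z'‖ ≤ b`:
`‖GU y z - GU y' z'‖ ≤ ρ b + (s/η) r ≤ b`. By `SS_comp` and induction on `N` (the iterates are `BL` by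
`QU_iter_BL`): `(QU W η s y)^[N] u z ≤ (QU W η s y')^[N] v z'` whenever `‖z - z'‖ ≤ b`.
Now fix `z0 = z0' = 0` and `ε > 0`; choose `s` smaller than the two `s0` of `ula_conv` (for `u, y` and
`v, y'`) and `N` larger than both `N0`: `AA u y ≤ AA v y' + 2ε`. Let `ε → 0`
(`le_of_forall_pos_le_add`).
-/

namespace Pool.Agent.Lib.MP_8d00da_gt.h42u

open MeasureTheory Set Filter
open Pool.Agent.Lib.MP_8d00da_gt.h25 Pool.Agent.Lib.MP_8d00da_gt.h42
open Pool.Agent.Lib.MP_8d00da_gt.h42s Pool.Agent.Lib.MP_8d00da_gt.h42o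
open scoped Topology NNReal
 
variable {F : Type*} [NormedAddCommGroup F] [InnerProductSpace ℝ F]
    [FiniteDimensional ℝ F] [MeasurableSpace F] [BorelSpace F]

variable {h W : F → ℝ} {B L η : ℝ}

theorem contr (H : PW L B h W) (hL : 0 ≤ L) (hη : 0 < η) {u v : F → ℝ} (hu : BL u) (hv : BL v)
    {b : ℝ} (huv : ∀ z z', ‖z - z'‖ ≤ b → u z ≤ v z') {y y' : F} (hy : ‖y - y'‖ < b) :
    AA h η u y ≤ AA h η v y' := by
  set r : ℝ := ‖y - y'‖ with hr
  have hr0 : 0 ≤ r := norm_nonneg _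
  have hb0 : 0 < b := lt_of_le_of_lt hr0 hy
  -- one step
  set M : ℝ := 1 / η ^ 2 + L ^ 2 with hM
  have hM0 : 0 < M := by positivity
  have step : ∀ s : ℝ, 0 < s → s ≤ η → s * M * b / 2 ≤ (b - r) / η → s * M ≤ 2 / η →
      ∀ z z' : F, ‖z - z'‖ ≤ b → ‖GU W η s y z - GU W η s y' z'‖ ≤ b := by
    intro s hs hsη hs1 hs2 z z' hz
    refine (GU_contr H hL hη hs hsη y y' z z').trans ?_
    have h1 : Real.sqrt ((1 - s / η) ^ 2 + s ^ 2 * L ^ 2) ≤ 1 - (s / η - s ^ 2 * M / 2) := by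
      have ha : s / η - s ^ 2 * M / 2 ≤ 1 := by
        have h2 : s / η ≤ 1 := (div_le_one hη).2 hsη
        have h3 : 0 ≤ s ^ 2 * M / 2 := by positivity
        linarith
      refine Real.sqrt_le_iff.2 ⟨by linarith, ?_⟩
      have h4 : (1 - s / η) ^ 2 + s ^ 2 * L ^ 2 = 1 - 2 * (s / η - s ^ 2 * M / 2) := by
        rw [hM]
        field_simp
        ring
      rw [h4]
      nlinarith [sq_nonneg (s / η - s ^ 2 * M / 2)]
    have h5 : Real.sqrt ((1 - s / η) ^ 2 + s ^ 2 * L ^ 2) * ‖z - z'‖ ≤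
        (1 - (s / η - s ^ 2 * M / 2)) * b :=
      mul_le_mul h1 hz (norm_nonneg _) ((Real.sqrt_nonneg _).trans h1)
    have h6 : (1 - (s / η - s ^ 2 * M / 2)) * b + s / η * r =
        b + s * (s * M * b / 2 - (b - r) / η) := by
      field_simp
      ring
    have h7 : s * (s * M * b / 2 - (b - r) / η) ≤ 0 :=
      mul_nonpos_of_nonneg_of_nonpos hs.le (by linarith)
    calc Real.sqrt ((1 - s / η) ^ 2 + s ^ 2 * L ^ 2) * ‖z - z'‖ + s / η * ‖y - y'‖
        ≤ (1 - (s / η - s ^ 2 * M / 2)) * b + s / η * r := by rw [← hr]; gcongr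
      _ = b + s * (s * M * b / 2 - (b - r) / η) := h6
      _ ≤ b := by linarith
  have iter : ∀ s : ℝ, 0 < s → s ≤ η → s * M * b / 2 ≤ (b - r) / η → s * M ≤ 2 / η →
      ∀ N : ℕ, ∀ z z' : F, ‖z - z'‖ ≤ b →
        (QU W η s y)^[N] u z ≤ (QU W η s y')^[N] v z' := by
    intro s hs hsη hs1 hs2 N
    induction N with
    | zero => exact huv
    | succ N ih =>
      intro z z' hz
      rw [Function.iterate_succ_apply', Function.iterate_succ_apply']
      unfold QU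
      exact SS_comp (by positivity) (QU_iter_BL H hL hη hs hsη y hu N)
        (QU_iter_BL H hL hη hs hsη y' hv N) ih (step s hs hsη hs1 hs2 z z' hz)
  refine le_of_forall_pos_le_add fun ε hε => ?_
  obtain ⟨s1, hs1, H1⟩ := ula_conv H hL hη y 0 hu (ε := ε / 2) (by positivity)
  obtain ⟨s2, hs2, H2⟩ := ula_conv H hL hη y' 0 hv (ε := ε / 2) (by positivity)
  have hbr : 0 < (b - r) / η := div_pos (by linarith) hη
  obtain ⟨s, hs, hss1, hss2, hsη, hsa, hsb⟩ : ∃ s : ℝ, 0 < s ∧ s ≤ s1 ∧ s ≤ s2 ∧ s ≤ η ∧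
      s * M * b / 2 ≤ (b - r) / η ∧ s * M ≤ 2 / η := by
    refine ⟨min (min s1 s2) (min η (min ((b - r) / η / (M * b / 2)) (2 / η / M))), ?_,
      (min_le_left _ _).trans (min_le_left _ _), (min_le_left _ _).trans (min_le_right _ _),
      (min_le_right _ _).trans (min_le_left _ _), ?_, ?_⟩
    · refine lt_min (lt_min hs1 hs2) (lt_min hη (lt_min ?_ ?_)) <;> positivity
    · have h1 : min (min s1 s2) (min η (min ((b - r) / η / (M * b / 2)) (2 / η / M))) ≤
          (b - r) / η / (M * b / 2) :=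
        (min_le_right _ _).trans ((min_le_right _ _).trans (min_le_left _ _))
      rw [le_div_iff₀ (by positivity)] at h1
      linarith
    · have h1 : min (min s1 s2) (min η (min ((b - r) / η / (M * b / 2)) (2 / η / M))) ≤
          2 / η / M :=
        (min_le_right _ _).trans ((min_le_right _ _).trans (min_le_right _ _))
      rwa [le_div_iff₀ hM0] at h1
  obtain ⟨N1, hN1⟩ := H1 s hs hss1
  obtain ⟨N2, hN2⟩ := H2 s hs hss2
  have h1 := hN1 (max N1 N2) (le_max_left _ _)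
  have h2 := hN2 (max N1 N2) (le_max_right _ _)
  have h3 := iter s hs hsη hsa hsb (max N1 N2) 0 0 (by simpa using hb0.le)
  rw [abs_le] at h1 h2
  linarith [h1.1, h2.2]

end Pool.Agent.Lib.MP_8d00da_gt.h42u
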