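import Pool.Agent.Lib.MP_8d00da_gt.h42u.URTalg

/-!
# U25b: upper bound for the powers of the round trip operator on a parity class

Full proof. `P = RT h η`, `x = η lam`, `c = ∫ ker η`. (1) For `g ∈ Par S`, `BL`: `RT h η g` is `BL` and in
`Par S` (`RT_dir`/`RT_iter_BL`, `Par.RT` of h42o/OPar), so `lam ∫ (Pg)² h ≤ En h (P g)` by `hlow`;
since `∫ (P g) h = 0` (`Par.mean_zero`), `Vr h (P g) = ∫ (Pg)² h` (`Vr_of_mean` of h42o/OStep) `≤
(1/lam) En h (P g)`, and `VV_lower` (h42o/OVV) with `K = 1/lam` gives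
`c η ∫ g² h ≤ (2 η + 1/lam) ∫ VV h η g` (`Vr h g = ∫ g² h` too), and `∫ VV = c (∫ g² h - ∫ g (Pg) h)`
(`RT_defect`). So `∫ g (P g) h ≤ κ ∫ g² h` with `κ = 1 - x/(1 + 2x) = (1+x)/(1+2x)`.
(2) `∫ (P g)² h = ∫ (P g) (P g) h = ⟨P g, g⟩_P`; by `RT_cs`
`(∫ (Pg)² h)² ≤ (∫ (Pg) P(Pg) h) (∫ g (Pg) h) ≤ κ (∫ (Pg)² h) κ ∫ g² h` (by (1) for `P g` and `g`), so
`∫ (P g)² h ≤ κ² ∫ g² h`. (3) Iterate: `∫ (P^k f)² h ≤ κ^(2k) ∫ f² h`.
-/

namespace Pool.Agent.Lib.MP_8d00da_gt.h42u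

open MeasureTheory Set Filter
open Pool.Agent.Lib.MP_8d00da_gt.h25 Pool.Agent.Lib.MP_8d00da_gt.h42
open Pool.Agent.Lib.MP_8d00da_gt.h42s Pool.Agent.Lib.MP_8d00da_gt.h42o
open scoped Topology NNReal

variable {m : ℕ} {δ L : ℝ} {h : Vn m → ℝ}

private lemma urtup_form (H : UW δ L h) (hδ : 0 < δ) {η : ℝ} (hη : 0 < η) {S : Finset (Fin m)}
    (hS : S ≠ ∅) {lam : ℝ} (hl : 0 < lam) (hlow : Low S h lam) {g : Vn m → ℝ} (hp : Par S g)
    (hg : BL g) :
    ∫ x, g x * RT h η g x * h x ≤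
      ((1 + η * lam) / (1 + 2 * (η * lam))) * ∫ x, g x ^ 2 * h x := by
  have hwt := H.wt hδ
  have hi := H.int hδ
  have hPp : Par S (RT h η g) := hp.RT H.even
  have hPB : BL (RT h η g) := RT_iter_BL hwt hη hg 1
  have h0 : ∫ x, RT h η g x * h x = 0 := hPp.mean_zero H.even hS
  have h1 := hlow _ hPp hPB
  have h2 : Vr h (RT h η g) ≤ (1 / lam) * En h (RT h η g) := by
    rw [Vr_of_mean h0, div_mul_eq_mul_div, one_mul, le_div_iff₀ hl, mul_comm]
    exact h1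
  have h3 := VV_lower hwt hi (H.mass hδ) hη hg (K := 1 / lam) (by positivity) h2
  have h4 := (RT_defect hwt hi hη hg).1
  rw [Vr_of_mean (hp.mean_zero H.even hS), ← h4] at h3
  have hc0 : 0 < ∫ z : Vn m, h25.ker η z := ker_int_pos hη
  set c : ℝ := ∫ z : Vn m, h25.ker η z with hc
  set G : ℝ := ∫ x, g x ^ 2 * h x with hG
  set Q : ℝ := ∫ x, g x * RT h η g x * h x with hQ
  have h5 : η * G ≤ (2 * η + 1 / lam) * (G - Q) := by
    have h6 : c * (η * G) ≤ c * ((2 * η + 1 / lam) * (G - Q)) := by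
      refine h3.trans (le_of_eq ?_)
      ring
    exact le_of_mul_le_mul_left h6 hc0
  have h7 : lam * (η * G) ≤ lam * ((2 * η + 1 / lam) * (G - Q)) :=
    mul_le_mul_of_nonneg_left h5 hl.le
  have h8 : lam * ((2 * η + 1 / lam) * (G - Q)) = (2 * (η * lam) + 1) * (G - Q) := by
    field_simp
  rw [h8] at h7
  have hx : 0 < 1 + 2 * (η * lam) := by positivity
  rw [div_mul_eq_mul_div, le_div_iff₀ hx]
  linarith

private lemma urtup_step (H : UW δ L h) (hδ : 0 < δ) {η : ℝ} (hη : 0 < η) {S : Finset (Fin m)}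
    (hS : S ≠ ∅) {lam : ℝ} (hl : 0 < lam) (hlow : Low S h lam) {g : Vn m → ℝ} (hp : Par S g)
    (hg : BL g) :
    ∫ x, (RT h η g x) ^ 2 * h x ≤
      ((1 + η * lam) / (1 + 2 * (η * lam))) ^ 2 * ∫ x, g x ^ 2 * h x := by
  have hwt := H.wt hδ
  have hi := H.int hδ
  have hPp : Par S (RT h η g) := hp.RT H.even
  have hPB : BL (RT h η g) := RT_iter_BL hwt hη hg 1
  have h1 := RT_cs hwt hi hη hPB hg
  have h2 := urtup_form H hδ hη hS hl hlow hp hg
  have h3 := urtup_form H hδ hη hS hl hlow hPp hPB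
  have h4 : ∫ x, RT h η g x * RT h η g x * h x = ∫ x, RT h η g x ^ 2 * h x := by
    congr 1
    ext x
    ring
  rw [h4] at h1
  have hκ : 0 < (1 + η * lam) / (1 + 2 * (η * lam)) := by positivity
  set κ : ℝ := (1 + η * lam) / (1 + 2 * (η * lam)) with hκd
  have hN0 : 0 ≤ ∫ x, RT h η g x ^ 2 * h x :=
    integral_nonneg fun x => mul_nonneg (sq_nonneg _) (H.pos x).le
  have hG0 : 0 ≤ ∫ x, g x ^ 2 * h x :=
    integral_nonneg fun x => mul_nonneg (sq_nonneg _) (H.pos x).le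
  have hQ0 := RT_nonneg hwt hi hη hg
  have hQ1 := RT_nonneg hwt hi hη hPB
  set N : ℝ := ∫ x, RT h η g x ^ 2 * h x with hN
  set G : ℝ := ∫ x, g x ^ 2 * h x with hG
  have h5 : N ^ 2 ≤ (κ * N) * (κ * G) :=
    h1.trans (mul_le_mul h3 h2 hQ0 (mul_nonneg hκ.le hN0))
  rcases hN0.eq_or_lt with h6 | h6
  · rw [← h6]
    positivity
  · have h7 : N * N ≤ N * (κ ^ 2 * G) := by
      refine le_trans (le_of_eq (by ring)) (h5.trans (le_of_eq (by ring)))
    exact le_of_mul_le_mul_left h7 h6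

theorem RT_pow_upper (H : UW δ L h) (hδ : 0 < δ) {η : ℝ} (hη : 0 < η) {S : Finset (Fin m)}
    (hS : S ≠ ∅) {lam : ℝ} (hl : 0 < lam) (hlow : Low S h lam) {f : Vn m → ℝ} (hp : Par S f)
    (hf : BL f) (k : ℕ) :
    ∫ x, ((RT h η)^[k] f x) ^ 2 * h x ≤
      ((1 + η * lam) / (1 + 2 * (η * lam))) ^ (2 * k) * ∫ x, f x ^ 2 * h x := by
  have hwt := H.wt hδ
  have hPar : ∀ k, Par S ((RT h η)^[k] f) := by
    intro k
    induction k with
    | zero => exact hp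
    | succ k ih =>
      rw [Function.iterate_succ_apply']
      exact ih.RT H.even
  induction k with
  | zero => simp
  | succ k ih =>
    rw [Function.iterate_succ_apply']
    have h1 := urtup_step H hδ hη hS hl hlow (hPar k) (RT_iter_BL hwt hη hf k)
    refine h1.trans ?_
    have hκ : 0 < (1 + η * lam) / (1 + 2 * (η * lam)) := by positivity
    refine (mul_le_mul_of_nonneg_left ih (by positivity)).trans (le_of_eq ?_)
    ring

end Pool.Agent.Lib.MP_8d00da_gt.h42u
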