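import Pool.Agent.Lib.MP_8d00da_gt.h42u.URTlow
import Pool.Agent.Lib.MP_8d00da_gt.h42u.URTup

/-!
# U26: near-extremal functions are almost eigenfunctions of the semigroup

Full proof. For `k ≥ 1` let `η = t/k`, `x = η lam = lam t/k`, `P = RT h η`, `κ = (1+x)/(1+2x)`,
`V = ∫ f² h`, `e = f - κ^(-k) P^k f` (`BL`). Expanding the square and using `RT_pow_lower`,
`RT_pow_upper` (for `x (1+ε) ≤ 1`):
`∫ e² h = V - 2 κ^(-k) ∫ f (P^k f) h + κ^(-2k) ∫ (P^k f)² h ≤ 2 V (1 - ((1 - x(1+ε))/κ)^k)`.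
Bernoulli (`one_add_mul_le_pow`: `1 + k y ≤ (1+y)^k` for `y ≥ -1`... `y = (1-x(1+ε))/κ - 1 ≥ -1`):
`1 - ((1-x(1+ε))/κ)^k ≤ k (1 - (1-x(1+ε))(1+2x)/(1+x)) = k (2x² + xε + 2x²ε)/(1+x)
≤ k x (2 x + ε (1 + 2x)) = lam t (2x + ε(1+2x))`.
Choose `ε = min 1 (τ/(12 lam t))`-like and `k` so large that `x ≤ 1/4` and `2 x lam t ≤ τ/4`; then
`2 lam t (2x + ε (1+2x)) ≤ τ`.
`κ^(-k) = (1 + x/(1+x))^k ≤ exp (k x) = exp (lam t)`. `|P^k f| ≤ P^k |f|` pointwise (`RT` is monotone and
linear: `AA` and `SS` are integrals against positive kernels; `-|f| ≤ f ≤ |f|`, induction on `k`), so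
`|f| ≤ |e| + κ^(-k) |P^k f| ≤ |e| + exp (lam t) P^k |f|`.
-/

namespace Pool.Agent.Lib.MP_8d00da_gt.h42u

open MeasureTheory Set Filter
open Pool.Agent.Lib.MP_8d00da_gt.h25 Pool.Agent.Lib.MP_8d00da_gt.h42
open Pool.Agent.Lib.MP_8d00da_gt.h42s Pool.Agent.Lib.MP_8d00da_gt.h42o
open scoped Topology NNReal

variable {m : ℕ} {δ L : ℝ} {h : Vn m → ℝ}

private lemma ap_AA_mono {F : Type*} [NormedAddCommGroup F] [InnerProductSpace ℝ F]
    [FiniteDimensional ℝ F] [MeasurableSpace F] [BorelSpace F] {h : F → ℝ} {B η : ℝ}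
    (H : Wt h B) (hη : 0 < η) {f g : F → ℝ} (hf : BL f) (hg : BL g)
    (hfg : ∀ x, f x ≤ g x) (y : F) : AA h η f y ≤ AA h η g y := by
  obtain ⟨⟨K, hK⟩, A, hA⟩ := hf
  obtain ⟨⟨K', hK'⟩, A', hA'⟩ := hg
  have i1 := cv_integrable hη (hK.continuous.measurable.mul H.meas) (H.mul_bdd hA) y
  have i2 := cv_integrable hη (hK'.continuous.measurable.mul H.meas) (H.mul_bdd hA') y
  unfold AA
  refine div_le_div_of_nonneg_right ?_ (H.Z_pos hη y).le
  unfold cv
  refine integral_mono i1 i2 fun x => ?_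
  have h1 : 0 ≤ h25.ker η (y - x) := (ker_pos _).le
  have h2 := H.nonneg x
  have h3 := hfg x
  simp only [Pi.mul_apply]
  gcongr

private lemma ap_AA_BL {F : Type*} [NormedAddCommGroup F] [InnerProductSpace ℝ F]
    [FiniteDimensional ℝ F] [MeasurableSpace F] [BorelSpace F] {h : F → ℝ} {B η : ℝ}
    (H : Wt h B) (hη : 0 < η) {f : F → ℝ} (hf : BL f) : BL (AA h η f) := by
  obtain ⟨⟨K, hK⟩, A, hA⟩ := hf
  have hm := hK.continuous.measurable
  exact ⟨⟨_, H.AA_lip hη hm ((abs_nonneg _).trans (hA 0)) hA⟩, A, H.AA_abs_le hη hm hA⟩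

lemma RT_mono {B η : ℝ} (H : Wt h B) (hη : 0 < η) {f g : Vn m → ℝ} (hf : BL f) (hg : BL g)
    (hfg : ∀ x, f x ≤ g x) (x : Vn m) : RT h η f x ≤ RT h η g x := by
  unfold RT SS
  exact ap_AA_mono wt_one hη (ap_AA_BL H hη hf) (ap_AA_BL H hη hg)
    (ap_AA_mono H hη hf hg hfg) x

private lemma ap_AA_neg {F : Type*} [NormedAddCommGroup F] [InnerProductSpace ℝ F]
    [FiniteDimensional ℝ F] [MeasurableSpace F] [BorelSpace F] {h : F → ℝ} {η : ℝ}
    (f : F → ℝ) : AA h η (fun x => -f x) = fun y => -AA h η f y := by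
  ext y
  unfold AA cv
  rw [← neg_div, ← integral_neg]
  congr 1
  refine integral_congr_ae (Eventually.of_forall fun x => ?_)
  simp only
  ring

private lemma ap_RT_neg {η : ℝ} (f : Vn m → ℝ) (x : Vn m) :
    RT h η (fun x => -f x) x = -RT h η f x := by
  unfold RT SS
  rw [ap_AA_neg, ap_AA_neg]

private lemma ap_abs {f : Vn m → ℝ} (hf : BL f) : BL (fun z => |f z|) := by
  obtain ⟨⟨K, hK⟩, A, hA⟩ := hf
  refine ⟨⟨K, ?_⟩, A, fun x => by rw [abs_abs]; exact hA x⟩
  refine LipschitzWith.of_dist_le_mul fun x y => ?_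
  have h1 := hK.dist_le_mul x y
  rw [Real.dist_eq] at h1 ⊢
  exact (abs_abs_sub_abs_le_abs_sub _ _).trans h1

lemma RT_iter_abs {B η : ℝ} (H : Wt h B) (hη : 0 < η) {f : Vn m → ℝ} (hf : BL f) (k : ℕ)
    (x : Vn m) : |(RT h η)^[k] f x| ≤ (RT h η)^[k] (fun z => |f z|) x := by
  induction k generalizing x with
  | zero => exact le_rfl
  | succ k ih =>
    rw [Function.iterate_succ_apply', Function.iterate_succ_apply']
    have hk := RT_iter_BL H hη hf k
    have hk' := RT_iter_BL H hη (ap_abs hf) k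
    have h1 : |RT h η ((RT h η)^[k] f) x| ≤ RT h η (fun z => |(RT h η)^[k] f z|) x := by
      rw [abs_le]
      constructor
      · rw [← ap_RT_neg]
        exact RT_mono H hη (ap_abs hk).neg hk (fun z => neg_abs_le _) x
      · exact RT_mono H hη hk (ap_abs hk) (fun z => le_abs_self _) x
    exact h1.trans (RT_mono H hη (ap_abs hk) hk' ih x)

theorem approx (H : UW δ L h) (hδ : 0 < δ) {S : Finset (Fin m)} (hS : S ≠ ∅) {lam : ℝ}
    (hl : 0 < lam) (hlow : Low S h lam) {t τ : ℝ} (ht : 0 < t) (hτ : 0 < τ) :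
    ∃ ε : ℝ, 0 < ε ∧ ∃ k : ℕ, 1 ≤ k ∧ ∀ f : Vn m → ℝ, Par S f → BL f →
      En h f ≤ (1 + ε) * lam * ∫ x, f x ^ 2 * h x →
      ∃ e : Vn m → ℝ, BL e ∧
        (∀ x, |f x| ≤ Real.exp (lam * t) * (RT h (t / k))^[k] (fun z => |f z|) x + |e x|) ∧
        ∫ x, e x ^ 2 * h x ≤ τ * ∫ x, f x ^ 2 * h x := by
  have hT : 0 < lam * t := mul_pos hl ht
  set T := lam * t with hTd
  obtain ⟨k, hk⟩ := exists_nat_ge (max 1 (max (4 * T) (16 * T ^ 2 / τ)))
  have hk1 : (1 : ℝ) ≤ k := (le_max_left _ _).trans hk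
  have hk4 : 4 * T ≤ k := (le_max_left _ _).trans ((le_max_right _ _).trans hk)
  have hk16 : 16 * T ^ 2 / τ ≤ k := (le_max_right _ _).trans ((le_max_right _ _).trans hk)
  have hk0 : (0 : ℝ) < k := by linarith
  set ε : ℝ := min 1 (τ / (12 * T)) with hε
  have hε0 : 0 < ε := lt_min one_pos (by positivity)
  have hε1 : ε ≤ 1 := min_le_left _ _
  have hε2 : T * ε ≤ τ / 12 := by
    have h1 : ε ≤ τ / (12 * T) := min_le_right _ _
    calc T * ε ≤ T * (τ / (12 * T)) := mul_le_mul_of_nonneg_left h1 hT.le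
      _ = τ / 12 := by field_simp
  refine ⟨ε, hε0, k, by exact_mod_cast hk1, fun f hp hf hE => ?_⟩
  have hη : 0 < t / k := div_pos ht hk0
  set x : ℝ := (t / k) * lam with hx
  have hxT : k * x = T := by
    rw [hx, hTd]
    field_simp
  have hx0 : 0 < x := mul_pos hη hl
  have hx4 : x ≤ 1 / 4 := by
    have h1 : 4 * (k * x) ≤ k * 1 := by rw [hxT]; linarith
    nlinarith
  have hx16 : 16 * T * x ≤ τ := by
    rw [div_le_iff₀ hτ] at hk16
    have h1 : k * (16 * T * x) ≤ k * τ := by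
      have : k * (16 * T * x) = 16 * T ^ 2 := by rw [← hxT]; ring
      rw [this]
      linarith
    exact le_of_mul_le_mul_left h1 hk0
  have hqx : (t / k) * lam * (1 + ε) ≤ 1 := by
    rw [← hx]
    nlinarith
  have low := RT_pow_lower H hδ hη hf hE hqx k
  have upp := RT_pow_upper H hδ hη hS hl hlow hp hf k
  rw [← hx] at low upp
  have hPB := RT_iter_BL (H.wt hδ) hη hf k
  set u := (RT h (t / k))^[k] f with hu
  set V := ∫ x, f x ^ 2 * h x with hV
  have hV0 : 0 ≤ V := integral_nonneg fun x => mul_nonneg (sq_nonneg _) (H.pos x).le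
  set κ : ℝ := (1 + x) / (1 + 2 * x) with hκ
  have hκ0 : 0 < κ := by positivity
  set c : ℝ := (κ ^ k)⁻¹ with hc
  have hc0 : 0 < c := by positivity
  have hcT : c ≤ Real.exp T := by
    have h1 : κ⁻¹ ≤ Real.exp x := by
      have h2 : κ⁻¹ ≤ 1 + x := by
        rw [hκ, inv_div, div_le_iff₀ (by positivity)]
        nlinarith
      have := Real.add_one_le_exp x
      linarith
    rw [hc, ← inv_pow, ← hxT, Real.exp_nat_mul]
    exact pow_le_pow_left₀ (by positivity) h1 k
  refine ⟨fun z => f z - c * u z, hf.sub ((BL.const c).mul hPB), fun z => ?_, ?_⟩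
  · have h1 : |f z| ≤ |f z - c * u z| + c * |u z| := by
      have h2 : f z = (f z - c * u z) + c * u z := by ring
      calc |f z| = |(f z - c * u z) + c * u z| := by rw [← h2]
        _ ≤ |f z - c * u z| + |c * u z| := abs_add_le _ _
        _ = _ := by rw [abs_mul, abs_of_pos hc0]
    have h3 : |u z| ≤ (RT h (t / k))^[k] (fun z => |f z|) z := RT_iter_abs (H.wt hδ) hη hf k z
    have h4 : c * |u z| ≤ Real.exp T * (RT h (t / k))^[k] (fun z => |f z|) z :=
      mul_le_mul hcT h3 (abs_nonneg _) (Real.exp_pos _).le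
    linarith
  · obtain ⟨⟨K, hK⟩, A, hA⟩ := hf
    obtain ⟨⟨K', hK'⟩, A', hA'⟩ := hPB
    have i1 : Integrable fun z => f z ^ 2 * h z :=
      bdd_int (H.int hδ) (hK.continuous.measurable.pow_const 2) (Wt.sq_bdd hA)
    have i2 : Integrable fun z => f z * u z * h z :=
      bdd_int (H.int hδ) (hK.continuous.measurable.mul hK'.continuous.measurable)
        (M := A * A') (fun z => by
          rw [abs_mul]
          exact mul_le_mul (hA z) (hA' z) (abs_nonneg _) ((abs_nonneg _).trans (hA z)))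
    have i3 : Integrable fun z => u z ^ 2 * h z :=
      bdd_int (H.int hδ) (hK'.continuous.measurable.pow_const 2) (Wt.sq_bdd hA')
    have h1 : ∫ z, (f z - c * u z) ^ 2 * h z =
        V - 2 * c * (∫ z, f z * u z * h z) + c ^ 2 * ∫ z, u z ^ 2 * h z := by
      have h2 : ∀ z, (f z - c * u z) ^ 2 * h z =
          f z ^ 2 * h z - 2 * c * (f z * u z * h z) + c ^ 2 * (u z ^ 2 * h z) := fun z => by ring
      simp only [h2]
      have i4 : Integrable fun z => f z ^ 2 * h z - 2 * c * (f z * u z * h z) :=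
        i1.sub (i2.const_mul _)
      rw [integral_add i4 (i3.const_mul _), integral_sub i1 (i2.const_mul _),
        integral_const_mul, integral_const_mul]
    rw [h1]
    set q : ℝ := 1 - x * (1 + ε) with hq
    have hq0 : 0 ≤ q := by
      rw [hq]
      linarith
    have h3 : c ^ 2 * ∫ z, u z ^ 2 * h z ≤ V := by
      have h4 : c ^ 2 * ∫ z, u z ^ 2 * h z ≤ c ^ 2 * (κ ^ (2 * k) * V) :=
        mul_le_mul_of_nonneg_left upp (sq_nonneg _)
      have h5 : c ^ 2 * (κ ^ (2 * k) * V) = V := by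
        have hκk : κ ^ k ≠ 0 := (pow_pos hκ0 k).ne'
        have h5' : c * κ ^ k = 1 := by rw [hc, inv_mul_cancel₀ hκk]
        calc c ^ 2 * (κ ^ (2 * k) * V) = (c * κ ^ k) ^ 2 * V := by ring
          _ = V := by rw [h5']; ring
      linarith
    have h6 : c * q ^ k * V ≤ c * ∫ z, f z * u z * h z := by
      have := mul_le_mul_of_nonneg_left low hc0.le
      calc c * q ^ k * V = c * (q ^ k * V) := by ring
        _ ≤ _ := this
    have h7 : c * q ^ k = (q / κ) ^ k := by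
      rw [div_pow, div_eq_mul_inv, hc]
      exact mul_comm _ _
    have h8 : 1 + k * (q / κ - 1) ≤ (q / κ) ^ k := by
      have h9 : -2 ≤ q / κ - 1 := by
        have : 0 ≤ q / κ := by positivity
        linarith
      have := one_add_mul_le_pow h9 k
      simpa using this
    have h10 : 1 - q / κ ≤ x * (2 * x + ε * (1 + 2 * x)) := by
      have h11 : q / κ = q * (1 + 2 * x) / (1 + x) := by
        rw [hκ]
        field_simp
      rw [h11, sub_le_iff_le_add, ← sub_le_iff_le_add', le_div_iff₀ (by positivity), hq]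
      have : 0 ≤ x * (x * (2 * x + ε * (1 + 2 * x))) := by positivity
      nlinarith
    have h12 : k * (1 - q / κ) ≤ T * (2 * x + ε * (1 + 2 * x)) := by
      calc k * (1 - q / κ) ≤ k * (x * (2 * x + ε * (1 + 2 * x))) :=
            mul_le_mul_of_nonneg_left h10 hk0.le
        _ = (k * x) * (2 * x + ε * (1 + 2 * x)) := by ring
        _ = _ := by rw [hxT]
    have h13 : T * (2 * x + ε * (1 + 2 * x)) ≤ τ / 2 := by
      have h14 : T * (ε * (1 + 2 * x)) ≤ τ / 12 * (3 / 2) := by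
        rw [← mul_assoc]
        exact mul_le_mul hε2 (by linarith) (by positivity) (by positivity)
      linarith
    have h15 : 1 - c * q ^ k ≤ τ / 2 := by
      rw [h7]
      linarith
    have h16 : (1 - c * q ^ k) * V ≤ τ / 2 * V := mul_le_mul_of_nonneg_right h15 hV0
    linarith

end Pool.Agent.Lib.MP_8d00da_gt.h42u
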