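import Pool.Agent.Lib.MP_8d00da_gt.h42u.UStr

/-!
# U19: the stretched weight is in the class

Full proof. `h = exp (-W)`, `sh S h = exp (-(W ∘ (str S).symm))`. Let
`e = (str S).symm.toContinuousLinearEquiv`, `‖e x‖ ≤ ‖x‖` (`str_norm`), so the operator norm is at most
`1`. The derivative of `W ∘ e` is `fderiv W (e x) ∘ e`, and
`‖(fderiv W (e x) - fderiv W (e y)) ∘ e‖ ≤ L ‖e x - e y‖ ≤ L ‖x - y‖` (`0 ≤ L`). `LogConc` and `smid` by
linearity, with `‖(str S).symm x - (str S).symm y‖ ≥ ‖x - y‖/4` (so the exponent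
`(δ/16) ‖x-y‖²/4 ≤ δ ‖(str S).symm (x-y)‖²/4`, `0 ≤ δ`). `even`: `str_symm_fl`.
-/

namespace Pool.Agent.Lib.MP_8d00da_gt.h42u

open MeasureTheory Set Filter
open Pool.Agent.Lib.MP_8d00da_gt.h25 Pool.Agent.Lib.MP_8d00da_gt.h42
open Pool.Agent.Lib.MP_8d00da_gt.h42s Pool.Agent.Lib.MP_8d00da_gt.h42o
open scoped Topology NNReal

variable {m : ℕ} {δ L : ℝ} {h : Vn m → ℝ}

theorem sh_UW (H : UW δ L h) (hδ : 0 ≤ δ) (hL : 0 ≤ L) (S : Finset (Fin m)) :
    UW (δ / 16) L (sh S h) := by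
  obtain ⟨W, hW, hdiff, hlip⟩ := H.reg
  set e : Vn m →L[ℝ] Vn m := ((str S).symm.toContinuousLinearEquiv : Vn m →L[ℝ] Vn m) with he
  have hea : ∀ x, e x = (str S).symm x := fun x => rfl
  have hen : ‖e‖ ≤ 1 := by
    refine ContinuousLinearMap.opNorm_le_bound _ zero_le_one fun x => ?_
    rw [one_mul, hea]
    exact (str_norm S x).1
  have hd : ∀ x, fderiv ℝ (fun z => W (e z)) x = (fderiv ℝ W (e x)).comp e := by
    intro x
    have h1 : HasFDerivAt (fun z => W (e z)) ((fderiv ℝ W (e x)).comp e) x :=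
      (hdiff (e x)).hasFDerivAt.comp x e.hasFDerivAt
    exact h1.fderiv
  refine ⟨⟨fun x => W (e x), ?_, ?_, ?_⟩, ?_, ?_, ?_⟩
  · intro x
    exact hW _
  · exact hdiff.comp e.differentiable
  · intro x y
    rw [hd, hd, ← ContinuousLinearMap.sub_comp]
    calc ‖(fderiv ℝ W (e x) - fderiv ℝ W (e y)).comp e‖
        ≤ ‖fderiv ℝ W (e x) - fderiv ℝ W (e y)‖ * ‖e‖ := ContinuousLinearMap.opNorm_comp_le _ _
      _ ≤ ‖fderiv ℝ W (e x) - fderiv ℝ W (e y)‖ * 1 := by gcongr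
      _ ≤ L * ‖e x - e y‖ := by rw [mul_one]; exact hlip _ _
      _ ≤ L * ‖x - y‖ := by
        rw [← map_sub]
        have := (str_norm S (x - y)).1
        rw [← hea] at this
        gcongr
  · intro a ha0 ha1 x y
    have := H.lc a ha0 ha1 ((str S).symm x) ((str S).symm y)
    simpa only [sh, map_add, map_smul] using this
  · intro x y
    have h1 := H.smid ((str S).symm x) ((str S).symm y)
    have h2 : ‖x - y‖ ≤ 4 * ‖(str S).symm x - (str S).symm y‖ := by
      rw [← map_sub]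
      exact (str_norm S (x - y)).2
    have h3 : δ / 16 * ‖x - y‖ ^ 2 / 4 ≤ δ * ‖(str S).symm x - (str S).symm y‖ ^ 2 / 4 := by
      have h4 : ‖x - y‖ ^ 2 ≤ (4 * ‖(str S).symm x - (str S).symm y‖) ^ 2 := by gcongr
      nlinarith
    simp only [sh, map_smul, map_add]
    refine le_trans ?_ h1
    have h5 := (H.pos ((str S).symm x)).le
    have h6 := (H.pos ((str S).symm y)).le
    gcongr
  · intro i x
    simp only [sh]
    rw [str_symm_fl, H.even]

end Pool.Agent.Lib.MP_8d00da_gt.h42u
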