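import Pool.Agent.Lib.MP_8d00da_gt.h42u.UExpoStr
import Pool.Agent.Lib.MP_8d00da_gt.h42u.UShUW

/-!
# U22: concentration for the stretched weight

Full proof. `h' = sh S h`, `κ = (7/4)/√Λ > 0`. Let `A`, `a > 0`, `r ≥ 0`, `a ∫ h' ≤ ∫_A h'`,
`log (1/a) + 35 k ≤ κ r`, `k = S.card ≥ 1`. By `str_cov` (constant `J > 0`; `h' (str S x) = h x`):
`∫ Φ (str S x) h x dx = J ∫ Φ h'` for all `Φ`, in particular `0 < ∫ h'`. So `A` is nonempty.
`g x = min (infDist x A) (r + 1)` is bounded by `r+1`, nonnegative and `1`-Lipschitz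
(`Metric.lipschitz_infDist_pt`, `LipschitzWith.min_const`). `expo_str` says
`∫ exp (±κ(g - c)) h' ≤ E ∫ h'`, `E = e^(17k)`. On `A`, `g = 0`:
`exp (κ c) a ∫ h' ≤ ∫_A exp (κ c) h' ≤ ∫ exp (-κ (g - c)) h' ≤ E ∫ h'`, so `exp (κ c) ≤ E/a`. On
`{r ≤ infDist x A}`, `g ≥ r`: `exp (κ (r - c)) ∫_{r ≤ infDist} h' ≤ E ∫ h'`, so
`∫_{..} h' ≤ exp (-κ r) (E²/a) ∫ h' = exp (34 k + log (1/a) - κ r) ∫ h' ≤ exp (-k) ∫ h' ≤ (1/2) ∫ h'`
(`exp (-1) ≤ 1/2`).
-/

namespace Pool.Agent.Lib.MP_8d00da_gt.h42u

open MeasureTheory Set Filter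
open Pool.Agent.Lib.MP_8d00da_gt.h25 Pool.Agent.Lib.MP_8d00da_gt.h42
open Pool.Agent.Lib.MP_8d00da_gt.h42s Pool.Agent.Lib.MP_8d00da_gt.h42o
open scoped Topology NNReal

variable {m : ℕ} {δ L : ℝ} {h : Vn m → ℝ}

theorem conc_str (H : SWt δ L h) (hδ : 0 < δ) (hL : 0 ≤ L) {Λ : ℝ} (hΛ : 10 ^ 12 ≤ Λ)
    (hP : ∀ q : Vn m → ℝ, BL q → Vr h q ≤ Λ * En h q) {S : Finset (Fin m)} (hS : S.Nonempty) :
    Conc (7 / 4 / Real.sqrt Λ) (35 * S.card) (sh S h) := by
  intro A hA a ha r hr haA hlog
  have H' : UW (δ / 16) L (sh S h) := sh_UW H.toUW hδ.le hL S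
  have hδ' : 0 < δ / 16 := by positivity
  have hΛ0 : 0 < Λ := lt_of_lt_of_le (by positivity) hΛ
  set κ : ℝ := 7 / 4 / Real.sqrt Λ with hκ
  have hκ0 : 0 < κ := by
    have := Real.sqrt_pos.mpr hΛ0
    positivity
  have hk1 : (1 : ℝ) ≤ S.card := by exact_mod_cast hS.card_pos
  set E : ℝ := Real.exp (17 * S.card) with hE
  have hE0 : 0 < E := Real.exp_pos _
  set M : ℝ := ∫ x, sh S h x with hM
  have hM0 : 0 < M := H'.mass hδ'
  -- the function
  set g : Vn m → ℝ := fun x => min (Metric.infDist x A) (r + 1) with hg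
  have hgl : LipschitzWith 1 g := (Metric.lipschitz_infDist_pt A).min_const (r + 1)
  have hg0 : ∀ x, 0 ≤ g x := fun x => le_min Metric.infDist_nonneg (by linarith)
  have hg1 : ∀ x, |g x| ≤ r + 1 := fun x => by
    rw [abs_of_nonneg (hg0 x)]
    exact min_le_right _ _
  obtain ⟨c, h1, h2⟩ := expo_str H hδ hΛ hP hS hgl hg1
  obtain ⟨J, hJ, hcov⟩ := str_cov S
  have hcov' : ∀ Φ : Vn m → ℝ, ∫ x, Φ (str S x) * h x = J * ∫ x, Φ x * sh S h x := by
    intro Φ
    rw [← hcov fun x => Φ x * sh S h x]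
    refine integral_congr_ae (Eventually.of_forall fun x => ?_)
    simp only [sh, LinearEquiv.symm_apply_apply]
  have hcov1 : ∫ x, h x = J * M := by
    have := hcov' fun _ => 1
    simpa using this
  rw [hcov' fun x => Real.exp (κ * (g x - c)), hcov1] at h1
  rw [hcov' fun x => Real.exp (-(κ * (g x - c))), hcov1] at h2
  have h1' : ∫ x, Real.exp (κ * (g x - c)) * sh S h x ≤ E * M := by
    refine le_of_mul_le_mul_left ?_ hJ
    calc J * ∫ x, Real.exp (κ * (g x - c)) * sh S h x ≤ E * (J * M) := h1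
      _ = J * (E * M) := by ring
  have h2' : ∫ x, Real.exp (-(κ * (g x - c))) * sh S h x ≤ E * M := by
    refine le_of_mul_le_mul_left ?_ hJ
    calc J * ∫ x, Real.exp (-(κ * (g x - c))) * sh S h x ≤ E * (J * M) := h2
      _ = J * (E * M) := by ring
  -- integrability
  have hgm : Measurable g := hgl.continuous.measurable
  have hb : ∀ x, |κ * (g x - c)| ≤ κ * (r + 1 + |c|) := by
    intro x
    rw [abs_mul, abs_of_pos hκ0]
    refine mul_le_mul_of_nonneg_left ?_ hκ0.le
    exact (abs_sub _ _).trans (by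
      have := hg1 x
      linarith)
  set C : ℝ := Real.exp (κ * (r + 1 + |c|)) with hC
  have hC0 : 0 < C := Real.exp_pos _
  have hC1 : ∀ x : Vn m, C ≤ C * (1 + ‖x‖ ^ 2) := fun x =>
    le_mul_of_one_le_right hC0.le (by nlinarith [sq_nonneg ‖x‖])
  have i1 : Integrable fun x => Real.exp (κ * (g x - c)) * sh S h x := by
    refine H'.int_poly hδ' (Real.measurable_exp.comp ((hgm.sub_const c).const_mul κ)) (C := C)
      fun x => ?_
    rw [abs_of_pos (Real.exp_pos _)]
    exact (Real.exp_le_exp.mpr ((le_abs_self _).trans (hb x))).trans (hC1 x)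
  have i2 : Integrable fun x => Real.exp (-(κ * (g x - c))) * sh S h x := by
    refine H'.int_poly hδ' (Real.measurable_exp.comp ((hgm.sub_const c).const_mul κ).neg) (C := C)
      fun x => ?_
    rw [abs_of_pos (Real.exp_pos _)]
    exact (Real.exp_le_exp.mpr ((neg_le_abs _).trans (hb x))).trans (hC1 x)
  have i0 := H'.int hδ'
  -- the first bound
  have k1 : Real.exp (κ * c) * a ≤ E := by
    have e1 : Real.exp (κ * c) * (a * M) ≤ E * M := by
      calc Real.exp (κ * c) * (a * M) ≤ Real.exp (κ * c) * ∫ x in A, sh S h x :=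
            mul_le_mul_of_nonneg_left haA (Real.exp_pos _).le
        _ = ∫ x in A, Real.exp (κ * c) * sh S h x := by rw [integral_const_mul]
        _ = ∫ x in A, Real.exp (-(κ * (g x - c))) * sh S h x := by
            refine setIntegral_congr_fun hA fun x hx => ?_
            have : g x = 0 := by
              simp only [hg]
              rw [Metric.infDist_zero_of_mem hx]
              exact min_eq_left (by linarith)
            simp only [this]
            congr 2
            ring
        _ ≤ ∫ x, Real.exp (-(κ * (g x - c))) * sh S h x :=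
            setIntegral_le_integral i2 (Eventually.of_forall fun x =>
              mul_nonneg (Real.exp_pos _).le (H'.pos x).le)
        _ ≤ E * M := h2'
    have e2 : Real.exp (κ * c) * a * M ≤ E * M := by
      calc Real.exp (κ * c) * a * M = Real.exp (κ * c) * (a * M) := by ring
        _ ≤ E * M := e1
    exact le_of_mul_le_mul_right e2 hM0
  -- the second bound
  set B : Set (Vn m) := {x | r ≤ Metric.infDist x A} with hB
  have hBm : MeasurableSet B :=
    measurableSet_le measurable_const (Metric.continuous_infDist_pt A).measurable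
  have k2 : Real.exp (κ * (r - c)) * ∫ x in B, sh S h x ≤ E * M := by
    calc Real.exp (κ * (r - c)) * ∫ x in B, sh S h x
        = ∫ x in B, Real.exp (κ * (r - c)) * sh S h x := by rw [integral_const_mul]
      _ ≤ ∫ x in B, Real.exp (κ * (g x - c)) * sh S h x := by
          refine setIntegral_mono_on (i0.const_mul _).integrableOn i1.integrableOn hBm
            fun x hx => ?_
          refine mul_le_mul_of_nonneg_right ?_ (H'.pos x).le
          refine Real.exp_le_exp.mpr (mul_le_mul_of_nonneg_left ?_ hκ0.le)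
          have : r ≤ g x := le_min hx (by linarith)
          linarith
      _ ≤ ∫ x, Real.exp (κ * (g x - c)) * sh S h x :=
          setIntegral_le_integral i1 (Eventually.of_forall fun x =>
            mul_nonneg (Real.exp_pos _).le (H'.pos x).le)
      _ ≤ E * M := h1'
  set I : ℝ := ∫ x in B, sh S h x with hI
  have k3 : I ≤ Real.exp (-(κ * r)) * (Real.exp (κ * c) * (E * M)) := by
    have e1 : I = Real.exp (-(κ * r)) * (Real.exp (κ * c) * (Real.exp (κ * (r - c)) * I)) := by
      rw [← mul_assoc, ← mul_assoc, ← Real.exp_add, ← Real.exp_add]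
      have : -(κ * r) + κ * c + κ * (r - c) = 0 := by ring
      rw [this, Real.exp_zero, one_mul]
    rw [e1]
    exact mul_le_mul_of_nonneg_left (mul_le_mul_of_nonneg_left k2 (Real.exp_pos _).le)
      (Real.exp_pos _).le
  have k4 : Real.exp (-(κ * r)) ≤ a * Real.exp (-(35 * S.card)) := by
    have e1 : a * Real.exp (-(35 * (S.card : ℝ))) =
        Real.exp (-(Real.log (1 / a) + 35 * S.card)) := by
      rw [neg_add, Real.exp_add, one_div, Real.log_inv, neg_neg, Real.exp_log ha]
    rw [e1]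
    exact Real.exp_le_exp.mpr (neg_le_neg hlog)
  have k5 : Real.exp (-(35 * (S.card : ℝ))) * (E * E) ≤ 1 / 2 := by
    rw [hE, ← Real.exp_add, ← Real.exp_add]
    have e1 : -(35 * (S.card : ℝ)) + (17 * S.card + 17 * S.card) = -S.card := by ring
    rw [e1]
    have e2 : Real.exp (-(S.card : ℝ)) ≤ Real.exp (-1) := Real.exp_le_exp.mpr (by linarith)
    have e3 : Real.exp (-1) ≤ 1 / 2 := by
      rw [Real.exp_neg, one_div]
      refine inv_anti₀ (by norm_num) ?_
      have := Real.add_one_le_exp (1 : ℝ)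
      linarith
    exact e2.trans e3
  calc I ≤ Real.exp (-(κ * r)) * (Real.exp (κ * c) * (E * M)) := k3
    _ ≤ (a * Real.exp (-(35 * S.card))) * (Real.exp (κ * c) * (E * M)) :=
        mul_le_mul_of_nonneg_right k4 (by positivity)
    _ = (Real.exp (κ * c) * a) * (Real.exp (-(35 * S.card)) * (E * M)) := by ring
    _ ≤ E * (Real.exp (-(35 * S.card)) * (E * M)) :=
        mul_le_mul_of_nonneg_right k1 (by positivity)
    _ = (Real.exp (-(35 * (S.card : ℝ))) * (E * E)) * M := by ring
    _ ≤ (1 / 2) * M := mul_le_mul_of_nonneg_right k5 hM0.le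

end Pool.Agent.Lib.MP_8d00da_gt.h42u
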