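import Pool.Agent.Lib.MP_8d00da_gt.h42u.UDefs

/-!
# U36: exponential decay of integrable log-concave functions

Full proof (`h` even in each coordinate). `h x ≤ h 0`: `h (-x) = h x` (compose all flips) and `LogConc`
with `a = 1/2`. So `h 0 > 0`. The set `P = {h > 0}` is convex and has positive measure, so it has
nonempty interior (otherwise it is contained in its frontier, a null set:
`Convex.addHaar_frontier`, cf. h25/T1), and by symmetry `0` is an interior point (if a ball around
`p` is in `P`, then so is the ball around `-p`, and the midpoint set is the ball around `0`). So there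
are `r > 0`, `ε0 > 0` with `h ≥ ε0` on the ball of radius `r` around `0`: e.g. take the vertices of a
small simplex or cube inside `P`: `LogConc` gives `h ≥ min` of the values at the vertices on the
convex hull (or: by unconditionality it is enough to have one point `p` with all coordinates
nonzero and `h p > 0`: then `h ≥ h p` on the box `∏ [-|p i|, |p i|]`, because `h` is nonincreasing in
`|x i|`; such `p` exists since the hyperplanes are null sets). This second argument is simplest and
does not need the interior: box `Q = ∏ [-|p i|, |p i|]`, `ε0 = h p`.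
Let `K = {x | ε1 ≤ h x}`, `ε1 = ε0/e`. `K` is convex, contains the ball of radius `r = min |p i|`, and
`ε1 vol K ≤ ∫ h`. Claim: `K` is bounded. If `y ∈ K`, by unconditionality the whole box with corner
`y` is in `K`: and the convex hull with the ball: let `j` be a coordinate with
`|y j| ≥ ‖y‖/√n`; for `s ∈ [0,1/2]` and `z` in the box `∏_i [-|p i|/2, |p i|/2]` the point
`s y + z` is in `K` (convex combination `s y + (1-s) (z/(1-s))`, `z/(1-s) ∈ Q`); so `K` contains the box
with sides `|p i|` (`i ≠ j`) and `|y j|/2` in direction `j` (use unconditionality to replace `s y + z`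
by its `j`-th coordinate and `z`), so `vol K ≥ (|y j|/2) ∏_{i≠j} |p i|`, which bounds `|y j|`.
Let `K` be contained in the ball of radius `R`. For `‖y‖ ≥ 2R`, `s = 2R/‖y‖ ≤ 1`: `s y ∉ K`, so
`ε1 > h (s y) ≥ h 0^(1-s) h y^s`; as `h 0 ≥ ε0 = e ε1`: `h y^s ≤ ε1 h 0^s/h 0 ≤ h 0^s / e`, i.e.
`h y ≤ h 0 exp (-1/s) = h 0 exp (-‖y‖/(2R))`. For `‖y‖ ≤ 2R`: `h y ≤ h 0 ≤ h 0 e exp (-‖y‖/(2R))`.
Any other proof is welcome.
-/

namespace Pool.Agent.Lib.MP_8d00da_gt.h42u

open MeasureTheory Set Filter
open Pool.Agent.Lib.MP_8d00da_gt.h25 Pool.Agent.Lib.MP_8d00da_gt.h42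
open Pool.Agent.Lib.MP_8d00da_gt.h42s Pool.Agent.Lib.MP_8d00da_gt.h42o
open scoped Topology NNReal

variable {n : ℕ}

/-- monotonicity in the absolute values of the coordinates -/
private lemma mono_box {h : Vn n → ℝ} (h0 : ∀ x, 0 ≤ h x) (hlc : LogConc h)
    (heven : ∀ i x, h (fl i x) = h x) {x y : Vn n} (hxy : ∀ i, |y i| ≤ |x i|) : h x ≤ h y := by
  classical
  have key : ∀ t : Finset (Fin n), h x ≤
      h (WithLp.toLp 2 fun i => if i ∈ t then y i else x i) := by
    intro t
    induction t using Finset.induction_on with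
    | empty => simp
    | insert a t ha ih =>
      refine le_trans ih ?_
      set z : Vn n := WithLp.toLp 2 fun i => if i ∈ t then y i else x i with hz
      by_cases hs : x a = 0
      · have hya : y a = 0 := by
          have := hxy a
          rw [hs, abs_zero] at this
          exact abs_nonpos_iff.mp this
        have : (WithLp.toLp 2 fun i => if i ∈ insert a t then y i else x i : Vn n) = z := by
          ext i
          simp only [hz, Finset.mem_insert]
          by_cases hi : i = a
          · subst hi; simp [ha, hya, hs]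
          · simp [hi]
        rw [this]
      · have hr : |y a / x a| ≤ 1 := by
          rw [abs_div, div_le_one (abs_pos.mpr hs)]
          exact hxy a
        have hr' := abs_le.mp hr
        have hy1 : z ∈ {w | h z ≤ h w} := le_refl (h z)
        have hy2 : fl a z ∈ {w | h z ≤ h w} := (heven a z).ge
        have h1 := convex_super h0 hlc (h z) hy1 hy2
          (a := (1 + y a / x a) / 2) (b := (1 - y a / x a) / 2)
          (by linarith) (by linarith) (by ring)
        have h2 : ((1 + y a / x a) / 2) • z + ((1 - y a / x a) / 2) • fl a z =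
            WithLp.toLp 2 fun i => if i ∈ insert a t then y i else x i := by
          ext i
          simp only [PiLp.add_apply, PiLp.smul_apply, fl_apply, smul_eq_mul, hz,
            Finset.mem_insert]
          by_cases hi : i = a
          · subst hi
            simp only [ha, if_false, if_true, true_or]
            field_simp
            ring
          · simp only [hi, if_false, false_or]
            ring
        rw [h2] at h1
        exact h1
  have := key Finset.univ
  simpa using this

/-- coordinate hyperplanes are null sets -/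
private lemma ae_ne (n : ℕ) : ∀ᵐ x : Vn n, ∀ i, x i ≠ 0 := by
  rw [ae_all_iff]
  intro i
  set S : Submodule ℝ (Vn n) := LinearMap.ker ((EuclideanSpace.proj i : Vn n →L[ℝ] ℝ) : Vn n →ₗ[ℝ] ℝ)
    with hS
  have h1 : S ≠ ⊤ := by
    intro h
    have h2 : ee i ∈ S := by rw [h]; exact Submodule.mem_top
    have h3 : (ee i : Vn n) i = 0 := h2
    rw [ee_apply, if_pos rfl] at h3
    exact one_ne_zero h3
  have h2 := Measure.addHaar_submodule (volume : Measure (Vn n)) S h1
  rw [ae_iff]
  refine measure_mono_null ?_ h2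
  intro x hx
  simp only [ne_eq, not_not] at hx
  exact hx

/-- the volume of a box -/
private lemma vol_box {c : Fin n → ℝ} (hc : ∀ i, 0 ≤ c i) :
    (volume : Measure (Vn n)).real {t : Vn n | ∀ i, |t i| ≤ c i} = ∏ i, (2 * c i) := by
  have h1 : {t : Vn n | ∀ i, |t i| ≤ c i} =
      (@WithLp.ofLp 2 (Fin n → ℝ)) ⁻¹' (Icc (fun i => - c i) c) := by
    ext t
    simp only [mem_ofPred_eq, mem_preimage, mem_Icc, Pi.le_def, abs_le]
    exact ⟨fun h => ⟨fun i => (h i).1, fun i => (h i).2⟩, fun h i => ⟨h.1 i, h.2 i⟩⟩
  rw [h1, measureReal_def, (PiLp.volume_preserving_ofLp (Fin n)).measure_preimage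
    measurableSet_Icc.nullMeasurableSet, Real.volume_Icc_pi_toReal (fun i => by
      have := hc i
      linarith)]
  exact Finset.prod_congr rfl fun i _ => by ring

theorem decay {h : Vn n → ℝ} (h0 : ∀ x, 0 ≤ h x) (hm : Measurable h) (hlc : LogConc h)
    (heven : ∀ i x, h (fl i x) = h x) (hi : Integrable h) (hpos : 0 < ∫ x, h x) :
    ∃ C a : ℝ, 0 < C ∧ 0 < a ∧ ∀ x, h x ≤ C * Real.exp (-(a * ‖x‖)) := by
  classical
  obtain ⟨p, hp, hpp⟩ : ∃ p : Vn n, (∀ i, p i ≠ 0) ∧ 0 < h p := by
    by_contra hcon
    push Not at hcon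
    have h1 : (fun x => h x) =ᵐ[volume] fun _ => (0 : ℝ) := by
      filter_upwards [ae_ne n] with x hx
      exact le_antisymm (hcon x hx) (h0 x)
    rw [integral_congr_ae h1, integral_zero] at hpos
    exact lt_irrefl _ hpos
  set ε0 := h p with hε0
  set ε1 := ε0 * Real.exp (-1) with hε1
  have he1 : Real.exp (-1) ≤ 1 := Real.exp_le_one_iff.mpr (by norm_num)
  have hε1p : 0 < ε1 := mul_pos hpp (Real.exp_pos _)
  have hε10 : ε1 ≤ ε0 := by
    rw [hε1]
    exact mul_le_of_le_one_right hpp.le he1
  have hmax : ∀ y, h y ≤ h 0 := fun y => mono_box h0 hlc heven (fun i => by simp)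
  set M := ∫ x, h x with hM
  -- the bound of the coordinates
  set c : Fin n → ℝ := fun j => M / (ε1 * ∏ i ∈ Finset.univ.erase j, |p i|) with hc
  have hprod : ∀ j, 0 < ∏ i ∈ Finset.univ.erase j, |p i| := fun j =>
    Finset.prod_pos fun i _ => abs_pos.mpr (hp i)
  have hc0 : ∀ j, 0 ≤ c j := fun j => by
    have := hprod j
    simp only [hc]
    positivity
  have hK : ∀ y, ε1 ≤ h y → ∀ j, |y j| ≤ c j := by
    intro y hy j
    set d : Fin n → ℝ := fun i => (if i = j then |y i| else |p i|) / 2 with hd
    have hd0 : ∀ i, 0 ≤ d i := fun i => by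
      simp only [hd]
      split_ifs <;> positivity
    have hsub : ∀ t ∈ {t : Vn n | ∀ i, |t i| ≤ d i}, ε1 ≤ h t := by
      intro t ht
      set u : Vn n := WithLp.toLp 2 fun i => if i = j then y i else 0 with hu
      set v : Vn n := WithLp.toLp 2 fun i => if i = j then 0 else p i with hv
      have h1 : ε1 ≤ h u := hy.trans (mono_box h0 hlc heven (fun i => by
        simp only [hu]
        split_ifs <;> simp))
      have h2 : ε1 ≤ h v := hε10.trans (mono_box h0 hlc heven (fun i => by
        simp only [hv]
        split_ifs <;> simp))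
      have h3 := convex_super h0 hlc ε1 (show u ∈ {w | ε1 ≤ h w} from h1)
        (show v ∈ {w | ε1 ≤ h w} from h2) (a := 1 / 2) (b := 1 / 2) (by norm_num) (by norm_num)
        (by norm_num)
      refine le_trans h3 (mono_box h0 hlc heven (fun i => ?_))
      refine (ht i).trans (le_of_eq ?_)
      simp only [hd, hu, hv, PiLp.add_apply, PiLp.smul_apply, smul_eq_mul]
      split_ifs
      · rw [mul_zero, add_zero, abs_mul, abs_of_pos (by norm_num : (0 : ℝ) < 1 / 2)]
        ring
      · rw [mul_zero, zero_add, abs_mul, abs_of_pos (by norm_num : (0 : ℝ) < 1 / 2)]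
        ring
    have hvol := vol_box (n := n) hd0
    have hmeas : MeasurableSet {t : Vn n | ∀ i, |t i| ≤ d i} := by
      have : {t : Vn n | ∀ i, |t i| ≤ d i} = ⋂ i, {t : Vn n | |t i| ≤ d i} := by
        ext t
        simp
      rw [this]
      refine MeasurableSet.iInter fun i => ?_
      exact measurableSet_le (by fun_prop) measurable_const
    have hfin : (volume : Measure (Vn n)) {t : Vn n | ∀ i, |t i| ≤ d i} ≠ ⊤ := by
      have hsub' : {t : Vn n | ∀ i, |t i| ≤ d i} ⊆ Metric.closedBall 0 (∑ i, d i) := by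
        intro t ht
        rw [mem_closedBall_zero_iff]
        exact (norm_le_N1 t).trans (Finset.sum_le_sum fun i _ => ht i)
      exact ((measure_mono hsub').trans_lt measure_closedBall_lt_top).ne
    have h1 : ε1 * (volume : Measure (Vn n)).real {t : Vn n | ∀ i, |t i| ≤ d i} ≤ M := by
      calc ε1 * (volume : Measure (Vn n)).real {t : Vn n | ∀ i, |t i| ≤ d i}
          = ∫ x in {t : Vn n | ∀ i, |t i| ≤ d i}, ε1 := by
            rw [setIntegral_const, smul_eq_mul, mul_comm]
        _ ≤ ∫ x in {t : Vn n | ∀ i, |t i| ≤ d i}, h x :=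
            setIntegral_mono_on (integrableOn_const hfin) hi.integrableOn hmeas hsub
        _ ≤ ∫ x, h x := setIntegral_le_integral hi (Eventually.of_forall h0)
    rw [hvol] at h1
    have h2 : ∏ i, (2 * d i) = |y j| * ∏ i ∈ Finset.univ.erase j, |p i| := by
      rw [← Finset.mul_prod_erase Finset.univ _ (Finset.mem_univ j)]
      congr 1
      · simp only [hd, if_true]
        ring
      · refine Finset.prod_congr rfl fun i hi => ?_
        simp only [hd, if_neg (Finset.ne_of_mem_erase hi)]
        ring
    rw [h2] at h1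
    simp only [hc]
    rw [le_div_iff₀ (mul_pos hε1p (hprod j))]
    linarith
  set R : ℝ := ∑ j, c j + 1 with hR
  have hRp : 0 < R := by
    have := Finset.sum_nonneg fun (j : Fin n) (_ : j ∈ Finset.univ) => hc0 j
    rw [hR]
    linarith
  have hKR : ∀ y, ε1 ≤ h y → ‖y‖ < R := by
    intro y hy
    have h1 := norm_le_N1 y
    have h2 : N1 y ≤ ∑ j, c j := Finset.sum_le_sum fun i _ => hK y hy i
    rw [hR]
    linarith
  have h00 : 0 < h 0 := lt_of_lt_of_le hpp (hmax p)
  refine ⟨h 0 * Real.exp 1, 1 / R, mul_pos h00 (Real.exp_pos _), by positivity, fun x => ?_⟩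
  rw [mul_assoc, ← Real.exp_add]
  rcases le_or_gt ‖x‖ R with hx | hx
  · have h1 : 1 / R * ‖x‖ ≤ 1 := by
      rw [one_div, inv_mul_le_iff₀ hRp]
      linarith
    have h2 : 1 ≤ Real.exp (1 + -(1 / R * ‖x‖)) := Real.one_le_exp_iff.mpr (by linarith)
    calc h x ≤ h 0 := hmax x
      _ ≤ h 0 * Real.exp (1 + -(1 / R * ‖x‖)) := le_mul_of_one_le_right h00.le h2
  · rcases eq_or_lt_of_le (h0 x) with hx0 | hx0
    · rw [← hx0]
      exact mul_nonneg h00.le (Real.exp_pos _).le
    have hxp : 0 < ‖x‖ := hRp.trans hx
    set s : ℝ := R / ‖x‖ with hs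
    have hs0 : 0 < s := div_pos hRp hxp
    have hs1 : s < 1 := (div_lt_one hxp).mpr hx
    have h1 : h (s • x) < ε1 := by
      by_contra hcon
      have h2 := hKR _ (not_lt.mp hcon)
      rw [norm_smul, Real.norm_eq_abs, abs_of_pos hs0, hs, div_mul_cancel₀ _ hxp.ne'] at h2
      exact lt_irrefl _ h2
    have h2 := hlc s hs0 hs1 0 x
    rw [smul_zero, zero_add] at h2
    have h3 : h 0 ^ (1 - s) * h x ^ s < h 0 * Real.exp (-1) :=
      (h2.trans_lt h1).trans_le (mul_le_mul_of_nonneg_right (hmax p) (Real.exp_pos _).le)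
    have h4 : Real.log (h 0 ^ (1 - s) * h x ^ s) ≤ Real.log (h 0 * Real.exp (-1)) :=
      Real.log_le_log (mul_pos (Real.rpow_pos_of_pos h00 _) (Real.rpow_pos_of_pos hx0 _)) h3.le
    rw [Real.log_mul (Real.rpow_pos_of_pos h00 _).ne' (Real.rpow_pos_of_pos hx0 _).ne',
      Real.log_rpow h00, Real.log_rpow hx0, Real.log_mul h00.ne' (Real.exp_pos _).ne',
      Real.log_exp] at h4
    have h5 : s * (Real.log (h x) - Real.log (h 0)) ≤ -1 := by linarith
    have h6 : Real.log (h x) - Real.log (h 0) ≤ -(1 / R * ‖x‖) := by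
      have h7 : -(1 / R * ‖x‖) = -1 / s := by
        rw [hs]
        field_simp
      rw [h7, le_div_iff₀ hs0]
      linarith
    have h8 : h x = h 0 * Real.exp (Real.log (h x) - Real.log (h 0)) := by
      rw [Real.exp_sub, Real.exp_log hx0, Real.exp_log h00]
      field_simp
    rw [h8]
    refine mul_le_mul_of_nonneg_left (Real.exp_le_exp.mpr ?_) h00.le
    linarith

end Pool.Agent.Lib.MP_8d00da_gt.h42u
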