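import Pool.Agent.Lib.MP_8d00da_gt.h42u.UDefs

/-!
# U12: exponential moments from the Poincaré inequality

Full proof. `M = ∫ h > 0` (`H.mass`). For `0 ≤ s` (the case `s < 0` follows from `-g`, `-c`; or note
that the proof below never uses the sign) put `Z s = (∫ exp (s (g - c)) h) / M`, `x s = Λ s²/4`.
(1) `q = exp ((s/2) (g - c))` is `BL` (`g` bounded Lipschitz, `exp` is Lipschitz on bounded
intervals), `‖fderiv q x‖² ≤ (s²/4) q²` (at points where `g` is differentiable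
`fderiv q = (s/2) q • fderiv g`, `‖fderiv g‖ ≤ 1`; a.e. by Rademacher
`LipschitzWith.ae_differentiableAt`). `hP q`:
`∫ q² h - (∫ q h)²/M ≤ Λ (s²/4) ∫ q² h`, that is `(1 - x) Z s ≤ (Z (s/2))²`.
(2) `Z (s / 2^N) ≤ 1 + (s/2^N)² G² exp (|s| G)` with `G ≥ |g - c|`, because
`exp t ≤ 1 + t + t² exp |t|` and `∫ (g - c) h = 0`.
(3) With `xN = x/4^N`: induction downwards: if `Z (s/2) ≤ exp (2 (x/4)/(1 - x/4)) R²`... simplest
formulation: for all `N`: `Z s ≤ exp (2x/(1-x)) * (Z (s/2^N))^(2^N)`. Induction on `N` for all `s` with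
`x s < 1`: `Z s ≤ Z (s/2)²/(1-x) ≤ exp (x/(1-x)) (exp (2 (x/4)/(1 - x/4)) (Z (s/2^(N+1)))^(2^N))²`
and `x/(1-x) + 4 (x/4)/(1 - x/4) ≤ 2x/(1-x)`, `1/(1-x) ≤ exp (x/(1-x))`.
(4) `(Z (s/2^N))^(2^N) ≤ exp (2^N s² 4^(-N) G² exp(|s|G)) → 1` as `N → ∞` (`1 + y ≤ exp y`).
-/

namespace Pool.Agent.Lib.MP_8d00da_gt.h42u

open MeasureTheory Set Filter
open Pool.Agent.Lib.MP_8d00da_gt.h25 Pool.Agent.Lib.MP_8d00da_gt.h42
open Pool.Agent.Lib.MP_8d00da_gt.h42s Pool.Agent.Lib.MP_8d00da_gt.h42o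
open scoped Topology NNReal
 
variable {m : ℕ} {δ L : ℝ} {h : Vn m → ℝ}

private lemma ex_exp_lip {a b R : ℝ} (ha : |a| ≤ R) (hb : |b| ≤ R) :
    |Real.exp a - Real.exp b| ≤ Real.exp R * |a - b| := by
  have key : ∀ a b : ℝ, |a| ≤ R → Real.exp a - Real.exp b ≤ Real.exp R * |a - b| := by
    intro a b ha
    have h1 := Real.add_one_le_exp (b - a)
    have h2 : Real.exp b = Real.exp a * Real.exp (b - a) := by
      rw [← Real.exp_add]
      congr 1
      ring
    have h3 : Real.exp a ≤ Real.exp R := Real.exp_le_exp.2 ((le_abs_self a).trans ha)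
    have h4 := Real.exp_pos a
    calc Real.exp a - Real.exp b = Real.exp a * (1 - Real.exp (b - a)) := by rw [h2]; ring
      _ ≤ Real.exp a * (a - b) := mul_le_mul_of_nonneg_left (by linarith) h4.le
      _ ≤ Real.exp a * |a - b| := mul_le_mul_of_nonneg_left (le_abs_self _) h4.le
      _ ≤ Real.exp R * |a - b| := mul_le_mul_of_nonneg_right h3 (abs_nonneg _)
  rw [abs_le]
  constructor
  · have := key b a hb
    rw [abs_sub_comm] at this
    linarith
  · exact key a b ha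

private lemma ex_BL {g : Vn m → ℝ} (hg : LipschitzWith 1 g) {A : ℝ} (hA : ∀ x, |g x| ≤ A)
    (c s : ℝ) : BL (fun x => Real.exp (s * (g x - c))) := by
  have hA0 : 0 ≤ A := (abs_nonneg _).trans (hA 0)
  have hb : ∀ x, |s * (g x - c)| ≤ |s| * (A + |c|) := fun x => by
    rw [abs_mul]
    have h1 : |g x - c| ≤ A + |c| := (abs_sub _ _).trans (by have := hA x; linarith)
    exact mul_le_mul_of_nonneg_left h1 (abs_nonneg _)
  refine ⟨⟨Real.toNNReal (Real.exp (|s| * (A + |c|)) * |s|), ?_⟩,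
    Real.exp (|s| * (A + |c|)), fun x => ?_⟩
  · refine LipschitzWith.of_dist_le_mul fun x y => ?_
    rw [Real.coe_toNNReal _ (by positivity), Real.dist_eq]
    refine (ex_exp_lip (hb x) (hb y)).trans ?_
    have h1 : s * (g x - c) - s * (g y - c) = s * (g x - g y) := by ring
    rw [h1, abs_mul, mul_assoc]
    have h2 := hg.dist_le_mul x y
    rw [Real.dist_eq] at h2
    simp only [NNReal.coe_one, one_mul] at h2
    exact mul_le_mul_of_nonneg_left (mul_le_mul_of_nonneg_left h2 (abs_nonneg _))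
      (Real.exp_pos _).le
  · rw [Real.abs_exp]
    exact Real.exp_le_exp.2 ((le_abs_self _).trans (hb x))

private lemma ex_int (H : UW δ L h) (hδ : 0 < δ) {q : Vn m → ℝ} (hq : BL q) :
    Integrable fun x => q x * h x := by
  obtain ⟨⟨K, hK⟩, A, hA⟩ := hq
  exact bdd_int (H.int hδ) hK.continuous.measurable hA

private lemma ex_step (H : UW δ L h) (hδ : 0 < δ) {Λ : ℝ} (hΛ : 0 < Λ)
    (hP : ∀ q : Vn m → ℝ, BL q → Vr h q ≤ Λ * En h q) {g : Vn m → ℝ} (hg : LipschitzWith 1 g)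
    {A : ℝ} (hA : ∀ x, |g x| ≤ A) (c s : ℝ) :
    (1 - Λ * s ^ 2 / 4) * ((∫ x, Real.exp (s * (g x - c)) * h x) / ∫ x, h x) ≤
      ((∫ x, Real.exp (s / 2 * (g x - c)) * h x) / ∫ x, h x) ^ 2 := by
  have hM := H.mass hδ
  have hq := ex_BL hg hA c (s / 2)
  have h1 := hP _ hq
  have hsq : ∀ x, Real.exp (s / 2 * (g x - c)) ^ 2 = Real.exp (s * (g x - c)) := fun x => by
    rw [← Real.exp_nat_mul]
    congr 1
    push_cast
    ring
  have h2 : En h (fun x => Real.exp (s / 2 * (g x - c))) ≤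
      (s ^ 2 / 4) * ∫ x, Real.exp (s * (g x - c)) * h x := by
    unfold En
    rw [← integral_const_mul]
    refine integral_mono_of_nonneg (Eventually.of_forall fun x =>
      mul_nonneg (sq_nonneg _) (H.pos x).le) ((ex_int H hδ (ex_BL hg hA c s)).const_mul _) ?_
    have hae : ∀ᵐ y : Vn m, DifferentiableAt ℝ g y := hg.ae_differentiableAt
    filter_upwards [hae] with y hy
    have hd : HasFDerivAt (fun x => Real.exp (s / 2 * (g x - c)))
        (Real.exp (s / 2 * (g y - c)) • ((s / 2) • fderiv ℝ g y)) y :=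
      ((hy.hasFDerivAt.sub_const c).const_mul (s / 2)).exp
    rw [hd.fderiv, norm_smul, norm_smul]
    have hn : ‖fderiv ℝ g y‖ ≤ 1 := by
      have := norm_fderiv_le_of_lipschitz ℝ hg (x₀ := y)
      simpa using this
    have hn2 : ‖fderiv ℝ g y‖ ^ 2 ≤ 1 := by
      have h0 := norm_nonneg (fderiv ℝ g y)
      nlinarith
    have e1 : (‖Real.exp (s / 2 * (g y - c))‖ * (‖s / 2‖ * ‖fderiv ℝ g y‖)) ^ 2 * h y =
        (s ^ 2 / 4) * (Real.exp (s * (g y - c)) * h y) * ‖fderiv ℝ g y‖ ^ 2 := by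
      rw [mul_pow, mul_pow, Real.norm_eq_abs, Real.norm_eq_abs, sq_abs, sq_abs, hsq]
      ring
    rw [e1]
    have h3 : 0 ≤ (s ^ 2 / 4) * (Real.exp (s * (g y - c)) * h y) := by
      have := (H.pos y).le
      positivity
    calc _ ≤ (s ^ 2 / 4) * (Real.exp (s * (g y - c)) * h y) * 1 :=
          mul_le_mul_of_nonneg_left hn2 h3
      _ = _ := mul_one _
  unfold Vr at h1
  simp only [hsq] at h1
  have h4 : Λ * En h (fun x => Real.exp (s / 2 * (g x - c))) ≤
      Λ * ((s ^ 2 / 4) * ∫ x, Real.exp (s * (g x - c)) * h x) :=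
    mul_le_mul_of_nonneg_left h2 hΛ.le
  have h5 : (1 - Λ * s ^ 2 / 4) * (∫ x, Real.exp (s * (g x - c)) * h x) ≤
      (∫ x, Real.exp (s / 2 * (g x - c)) * h x) ^ 2 / ∫ x, h x := by
    linarith
  rw [← mul_div_assoc, div_le_iff₀ hM, div_pow]
  have e2 : (∫ x, Real.exp (s / 2 * (g x - c)) * h x) ^ 2 / (∫ x, h x) ^ 2 * (∫ x, h x) =
      (∫ x, Real.exp (s / 2 * (g x - c)) * h x) ^ 2 / ∫ x, h x := by
    field_simp
  rw [e2]
  exact h5

theorem expo (H : UW δ L h) (hδ : 0 < δ) {Λ : ℝ} (hΛ : 0 < Λ)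
    (hP : ∀ q : Vn m → ℝ, BL q → Vr h q ≤ Λ * En h q) {g : Vn m → ℝ} (hg : LipschitzWith 1 g)
    {A : ℝ} (hA : ∀ x, |g x| ≤ A) {c : ℝ} (hc : ∫ x, g x * h x = c * ∫ x, h x) {s : ℝ}
    (hs : Λ * s ^ 2 / 4 < 1) :
    ∫ x, Real.exp (s * (g x - c)) * h x ≤
      Real.exp (2 * (Λ * s ^ 2 / 4) / (1 - Λ * s ^ 2 / 4)) * ∫ x, h x := by
  have hM := H.mass hδ
  have hA0 : 0 ≤ A := (abs_nonneg _).trans (hA 0)
  set Z : ℝ → ℝ := fun s => (∫ x, Real.exp (s * (g x - c)) * h x) / ∫ x, h x with hZ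
  have hZ0 : ∀ s, 0 ≤ Z s := fun s => div_nonneg (integral_nonneg fun x =>
    mul_nonneg (Real.exp_pos _).le (H.pos x).le) hM.le
  have step : ∀ s, (1 - Λ * s ^ 2 / 4) * Z s ≤ Z (s / 2) ^ 2 := ex_step H hδ hΛ hP hg hA c
  have ind : ∀ N : ℕ, ∀ s : ℝ, Λ * s ^ 2 / 4 < 1 →
      Z s ≤ Real.exp (2 * (Λ * s ^ 2 / 4) / (1 - Λ * s ^ 2 / 4)) *
        Z (s / 2 ^ N) ^ (2 ^ N) := by
    intro N
    induction N with
    | zero =>
      intro s hs
      have hx0 : 0 ≤ Λ * s ^ 2 / 4 := by positivity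
      have h1 : 1 ≤ Real.exp (2 * (Λ * s ^ 2 / 4) / (1 - Λ * s ^ 2 / 4)) := by
        rw [Real.one_le_exp_iff]
        exact div_nonneg (by positivity) (by linarith)
      simp only [pow_zero, div_one, pow_one]
      exact le_mul_of_one_le_left (hZ0 s) h1
    | succ N ih =>
      intro s hs
      set x := Λ * s ^ 2 / 4 with hx
      have hx0 : 0 ≤ x := by positivity
      have hx4 : Λ * (s / 2) ^ 2 / 4 = x / 4 := by rw [hx]; ring
      have h1 := ih (s / 2) (by rw [hx4]; linarith)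
      rw [hx4] at h1
      have e1 : s / 2 / 2 ^ N = s / 2 ^ (N + 1) := by
        rw [div_div, pow_succ, mul_comm]
      rw [e1] at h1
      have h2 := step s
      rw [← hx] at h2
      have hx1 : 0 < 1 - x := by linarith
      have hx14 : 0 < 1 - x / 4 := by linarith
      have h3 : Z s ≤ (1 - x)⁻¹ * Z (s / 2) ^ 2 := by
        rw [inv_mul_eq_div, le_div_iff₀ hx1, mul_comm]
        exact h2
      have h4 : (1 - x)⁻¹ ≤ Real.exp (x / (1 - x)) := by
        have h5 : (1 - x)⁻¹ = x / (1 - x) + 1 := by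
          field_simp
          ring
        rw [h5]
        exact Real.add_one_le_exp _
      have h6 : Z (s / 2) ^ 2 ≤ (Real.exp (2 * (x / 4) / (1 - x / 4)) *
          Z (s / 2 ^ (N + 1)) ^ (2 ^ N)) ^ 2 := pow_le_pow_left₀ (hZ0 _) h1 2
      have h7 : (Real.exp (2 * (x / 4) / (1 - x / 4)) * Z (s / 2 ^ (N + 1)) ^ (2 ^ N)) ^ 2 =
          Real.exp (x / (1 - x / 4)) * Z (s / 2 ^ (N + 1)) ^ (2 ^ (N + 1)) := by
        rw [mul_pow, ← Real.exp_nat_mul, ← pow_mul, ← pow_succ]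
        congr 2
        push_cast
        ring
      rw [h7] at h6
      have h8 : x / (1 - x / 4) ≤ x / (1 - x) :=
        div_le_div_of_nonneg_left hx0 hx1 (by linarith)
      have h9 : 0 ≤ Z (s / 2 ^ (N + 1)) ^ (2 ^ (N + 1)) := pow_nonneg (hZ0 _) _
      calc Z s ≤ (1 - x)⁻¹ * Z (s / 2) ^ 2 := h3
        _ ≤ Real.exp (x / (1 - x)) *
            (Real.exp (x / (1 - x / 4)) * Z (s / 2 ^ (N + 1)) ^ (2 ^ (N + 1))) :=
            mul_le_mul h4 h6 (sq_nonneg _) (Real.exp_pos _).le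
        _ = Real.exp (x / (1 - x) + x / (1 - x / 4)) *
            Z (s / 2 ^ (N + 1)) ^ (2 ^ (N + 1)) := by
            rw [Real.exp_add]
            ring
        _ ≤ Real.exp (2 * x / (1 - x)) * Z (s / 2 ^ (N + 1)) ^ (2 ^ (N + 1)) := by
            refine mul_le_mul_of_nonneg_right (Real.exp_le_exp.2 ?_) h9
            have : 2 * x / (1 - x) = x / (1 - x) + x / (1 - x) := by ring
            rw [this]
            linarith
  set G : ℝ := A + |c| with hG
  have hG0 : 0 ≤ G := by positivity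
  have hgG : ∀ x, |g x - c| ≤ G := fun x => (abs_sub _ _).trans (by have := hA x; linarith)
  have hgi : Integrable fun x => g x * h x :=
    bdd_int (H.int hδ) hg.continuous.measurable hA
  have small : ∀ σ : ℝ, |σ| * G ≤ 1 → Z σ ≤ 1 + σ ^ 2 * G ^ 2 := by
    intro σ hσ
    have h1 : ∀ x, Real.exp (σ * (g x - c)) ≤ 1 + σ * (g x - c) + σ ^ 2 * G ^ 2 := by
      intro x
      have h2 : |σ * (g x - c)| ≤ 1 := by
        rw [abs_mul]
        exact (mul_le_mul_of_nonneg_left (hgG x) (abs_nonneg _)).trans hσ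
      have h3 := Real.abs_exp_sub_one_sub_id_le h2
      have h4 := (abs_le.1 h3).2
      have h5 : (σ * (g x - c)) ^ 2 ≤ σ ^ 2 * G ^ 2 := by
        rw [mul_pow]
        refine mul_le_mul_of_nonneg_left ?_ (sq_nonneg _)
        rw [← sq_abs (g x - c)]
        exact pow_le_pow_left₀ (abs_nonneg _) (hgG x) 2
      linarith
    have h6 : ∫ x, Real.exp (σ * (g x - c)) * h x ≤
        ∫ x, (1 + σ * (g x - c) + σ ^ 2 * G ^ 2) * h x := by
      have e : ∀ x, (1 + σ * (g x - c) + σ ^ 2 * G ^ 2) * h x =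
          σ * (g x * h x) + (1 - σ * c + σ ^ 2 * G ^ 2) * h x := fun x => by ring
      refine integral_mono (ex_int H hδ (ex_BL hg hA c σ)) ?_ fun x =>
        mul_le_mul_of_nonneg_right (h1 x) (H.pos x).le
      simp only [e]
      exact (hgi.const_mul _).add ((H.int hδ).const_mul _)
    have h7 : ∫ x, (1 + σ * (g x - c) + σ ^ 2 * G ^ 2) * h x =
        (1 + σ ^ 2 * G ^ 2) * ∫ x, h x := by
      have e : ∀ x, (1 + σ * (g x - c) + σ ^ 2 * G ^ 2) * h x =
          σ * (g x * h x) + (1 - σ * c + σ ^ 2 * G ^ 2) * h x := fun x => by ring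
      simp only [e]
      rw [integral_add (hgi.const_mul _) ((H.int hδ).const_mul _), integral_const_mul,
        integral_const_mul, hc]
      ring
    rw [h7] at h6
    rw [hZ]
    simp only
    rw [div_le_iff₀ hM]
    exact h6
  have hmain : ∀ᶠ N : ℕ in atTop, Z s ≤
      Real.exp (2 * (Λ * s ^ 2 / 4) / (1 - Λ * s ^ 2 / 4)) *
        Real.exp (s ^ 2 * G ^ 2 * (1 / 2) ^ N) := by
    have ht : Tendsto (fun N : ℕ => |s| * G * (1 / 2 : ℝ) ^ N) atTop (𝓝 (|s| * G * 0)) :=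
      (tendsto_pow_atTop_nhds_zero_of_lt_one (by norm_num) (by norm_num)).const_mul _
    rw [mul_zero] at ht
    have hev := ht.eventually (ge_mem_nhds (zero_lt_one))
    filter_upwards [hev] with N hN
    refine (ind N s hs).trans ?_
    refine mul_le_mul_of_nonneg_left ?_ (Real.exp_pos _).le
    have h2N : (0 : ℝ) < 2 ^ N := by positivity
    have e0 : s / 2 ^ N = s * (1 / 2) ^ N := by
      rw [one_div, inv_pow, div_eq_mul_inv]
    have h1 : |s / 2 ^ N| * G ≤ 1 := by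
      rw [e0, abs_mul, abs_of_pos (by positivity : (0 : ℝ) < (1 / 2) ^ N)]
      calc |s| * (1 / 2) ^ N * G = |s| * G * (1 / 2) ^ N := by ring
        _ ≤ 1 := hN
    have h2 := small _ h1
    have h3 : Z (s / 2 ^ N) ≤ Real.exp ((s / 2 ^ N) ^ 2 * G ^ 2) := by
      have := Real.add_one_le_exp ((s / 2 ^ N) ^ 2 * G ^ 2)
      linarith
    calc Z (s / 2 ^ N) ^ (2 ^ N) ≤ Real.exp ((s / 2 ^ N) ^ 2 * G ^ 2) ^ (2 ^ N) :=
          pow_le_pow_left₀ (hZ0 _) h3 _
      _ = Real.exp (s ^ 2 * G ^ 2 * (1 / 2) ^ N) := by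
          rw [← Real.exp_nat_mul]
          congr 1
          push_cast
          rw [one_div, inv_pow]
          field_simp
  have hlim : Tendsto (fun N : ℕ =>
      Real.exp (2 * (Λ * s ^ 2 / 4) / (1 - Λ * s ^ 2 / 4)) *
        Real.exp (s ^ 2 * G ^ 2 * (1 / 2 : ℝ) ^ N)) atTop
      (𝓝 (Real.exp (2 * (Λ * s ^ 2 / 4) / (1 - Λ * s ^ 2 / 4)) *
        Real.exp (s ^ 2 * G ^ 2 * 0))) :=
    ((Real.continuous_exp.tendsto _).comp
      ((tendsto_pow_atTop_nhds_zero_of_lt_one (by norm_num) (by norm_num)).const_mul _)).const_mul _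
  rw [mul_zero, Real.exp_zero, mul_one] at hlim
  have hfin := ge_of_tendsto hlim hmain
  rw [hZ] at hfin
  simp only at hfin
  rwa [div_le_iff₀ hM] at hfin

end Pool.Agent.Lib.MP_8d00da_gt.h42u
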