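import Pool.Agent.Lib.MP_8d00da_gt.h42u.UTail

/-!
# U17: exponential moments of the `ℓ₁` norm of some coordinates (Lemma E)

Full proof. `b = 1/12`. For `s ≥ 0`: `exp (b s) ≤ ∑_{k≥0} c_k 1{k ≤ s}` with `c_0 = exp b`,
`c_k = exp (b (k+1)) - exp (b k)` for `k ≥ 1` (for `s ∈ [K, K+1)` the sum is `exp (b (K+1))`).
And `∑_k c_k exp (-k/3) = e^b + (e^b - 1) ∑_{k≥1} exp (-k/4) =
e^b + (e^b-1) e^{-1/4}/(1-e^{-1/4}) ≤ 2` (value 1.393).
Claim: for disjoint `A, B` and `t ≥ 0`:
  `∫_{t j ≤ |x j|, j ∈ B} exp (b ∑_{i∈A} |x i|) h ≤ 2^|A| exp (-(1/3) ∑_{j∈B} t j) ∫ h`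
by induction on `A` (for all `B`, `t`): `A = ∅` is `prodTail`; `A = A' ∪ {i}`: expand
`exp (b |x i|) ≤ ∑_k c_k 1{k ≤ |x i|}`, exchange sum and integral (work with `∫⁻` and `ENNReal.ofReal`,
`lintegral_tsum`; or monotone convergence for finite partial sums plus dominated convergence), and
apply the induction hypothesis to `A'`, `B ∪ {i}`, `t` updated by `t i = k`:
`≤ ∑_k c_k 2^|A'| exp (-(1/3)(∑_B t + k)) ∫ h ≤ 2^|A| ...`. Take `B = ∅`.
Integrability: `exp (b ∑ |x i|) ≤ exp (√m ‖x‖)`-type bound against `H.toUW.gauss`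
(`h x ≤ h 0 exp (-δ‖x‖²/2)`, and `c‖x‖ ≤ c²/δ + δ‖x‖²/4`, `ker_integrable`).
-/

namespace Pool.Agent.Lib.MP_8d00da_gt.h42u

open MeasureTheory Set Filter
open Pool.Agent.Lib.MP_8d00da_gt.h25 Pool.Agent.Lib.MP_8d00da_gt.h42
open Pool.Agent.Lib.MP_8d00da_gt.h42s Pool.Agent.Lib.MP_8d00da_gt.h42o
open scoped Topology NNReal ENNReal
 
variable {m : ℕ} {δ L : ℝ} {h : Vn m → ℝ}

lemma exp_l1_integrable (H : UW δ L h) (hδ : 0 < δ) (S : Finset (Fin m)) (b : ℝ) :
    Integrable fun x => Real.exp (b * ∑ i ∈ S, |x i|) * h x := by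
  have hη : 0 < 2 / δ := by positivity
  set c : ℝ := |b| * S.card with hc
  have hc0 : 0 ≤ c := by positivity
  have hker : Integrable fun x : Vn m => (h 0 * Real.exp (c ^ 2 / δ)) * h25.ker (2 / δ) x :=
    (ker_integrable hη).const_mul _
  have hm : Measurable fun x : Vn m => Real.exp (b * ∑ i ∈ S, |x i|) :=
    (by fun_prop : Continuous fun x : Vn m => Real.exp (b * ∑ i ∈ S, |x i|)).measurable
  refine hker.mono' (hm.mul H.cont.measurable).aestronglyMeasurable
    (Eventually.of_forall fun x => ?_)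
  rw [Real.norm_eq_abs, abs_mul, Real.abs_exp, abs_of_pos (H.pos x)]
  have h1 := H.gauss x
  have h3 : h25.ker (2 / δ) x = Real.exp (-(δ * ‖x‖ ^ 2 / 4)) := by
    unfold h25.ker
    congr 2
    field_simp
    ring
  have h4 : b * ∑ i ∈ S, |x i| ≤ c * ‖x‖ := by
    have h5 : ∑ i ∈ S, |x i| ≤ S.card * ‖x‖ := by
      have h6 : ∀ i ∈ S, |x i| ≤ ‖x‖ := fun i _ => by
        have := PiLp.norm_apply_le x i
        rwa [Real.norm_eq_abs] at this
      have h7 := Finset.sum_le_card_nsmul S _ _ h6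
      rwa [nsmul_eq_mul] at h7
    have h8 : 0 ≤ ∑ i ∈ S, |x i| := Finset.sum_nonneg fun i _ => abs_nonneg _
    calc b * ∑ i ∈ S, |x i| ≤ |b| * ∑ i ∈ S, |x i| :=
          mul_le_mul_of_nonneg_right (le_abs_self b) h8
      _ ≤ |b| * (S.card * ‖x‖) := mul_le_mul_of_nonneg_left h5 (abs_nonneg b)
      _ = c * ‖x‖ := by rw [hc]; ring
  have h5 : c * ‖x‖ ≤ c ^ 2 / δ + δ * ‖x‖ ^ 2 / 4 := by
    have h6 : 0 ≤ (c - δ * ‖x‖ / 2) ^ 2 / δ := by positivity
    have h7 : (c - δ * ‖x‖ / 2) ^ 2 / δ = c ^ 2 / δ + δ * ‖x‖ ^ 2 / 4 - c * ‖x‖ := by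
      field_simp
      ring
    linarith
  have h00 := (H.pos 0).le
  calc Real.exp (b * ∑ i ∈ S, |x i|) * h x
      ≤ Real.exp (c ^ 2 / δ + δ * ‖x‖ ^ 2 / 4) * (h 0 * Real.exp (-(δ * ‖x‖ ^ 2 / 2))) :=
        mul_le_mul (Real.exp_le_exp.2 (h4.trans h5)) h1 (H.pos x).le (Real.exp_pos _).le
    _ = (h 0 * Real.exp (c ^ 2 / δ)) * Real.exp (-(δ * ‖x‖ ^ 2 / 4)) := by
        rw [Real.exp_add]
        have h8 : Real.exp (-(δ * ‖x‖ ^ 2 / 4)) =
            Real.exp (δ * ‖x‖ ^ 2 / 4) * Real.exp (-(δ * ‖x‖ ^ 2 / 2)) := by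
          rw [← Real.exp_add]
          congr 1
          ring
        rw [h8]
        ring
    _ = (h 0 * Real.exp (c ^ 2 / δ)) * h25.ker (2 / δ) x := by rw [h3]

private def Es (B : Finset (Fin m)) (t : Fin m → ℝ) : Set (Vn m) := {x | ∀ j ∈ B, t j ≤ |x j|}

private lemma Es_meas (B : Finset (Fin m)) (t : Fin m → ℝ) : MeasurableSet (Es B t) := by
  have h1 : Es B t = ⋂ j ∈ B, {x : Vn m | t j ≤ |x j|} := by
    ext x
    simp [Es]
  rw [h1]
  exact Finset.measurableSet_biInter _ fun j _ =>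
    measurableSet_le measurable_const (by fun_prop : Continuous fun x : Vn m => |x j|).measurable

private lemma geo_exp (b : ℝ) (n : ℕ) :
    ∑ k ∈ Finset.range n, (Real.exp b - 1) * Real.exp (b * k) = Real.exp (b * n) - 1 := by
  induction n with
  | zero => simp
  | succ n ih =>
    rw [Finset.sum_range_succ, ih]
    have : Real.exp (b * ((n + 1 : ℕ) : ℝ)) = Real.exp b * Real.exp (b * n) := by
      rw [← Real.exp_add]
      congr 1
      push_cast
      ring
    rw [this]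
    ring

private lemma exp_le_tsum {b : ℝ} (hb : 0 < b) {s : ℝ} (hs : 0 ≤ s) :
    ENNReal.ofReal (Real.exp (b * s)) ≤
      1 + ∑' k : ℕ, ENNReal.ofReal ((Real.exp b - 1) * Real.exp (b * k)) *
        (if (k : ℝ) ≤ s then 1 else 0) := by
  set K : ℕ := ⌊s⌋₊ with hK
  have h1 : (K : ℝ) ≤ s := Nat.floor_le hs
  have h2 : s < K + 1 := Nat.lt_floor_add_one s
  have hb1 : 0 ≤ Real.exp b - 1 := by
    have := Real.add_one_le_exp b
    linarith
  have h3 : ∀ k ∈ Finset.range (K + 1), 0 ≤ (Real.exp b - 1) * Real.exp (b * (k : ℝ)) :=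
    fun k _ => mul_nonneg hb1 (Real.exp_pos _).le
  calc ENNReal.ofReal (Real.exp (b * s))
      ≤ ENNReal.ofReal (1 + ∑ k ∈ Finset.range (K + 1), (Real.exp b - 1) * Real.exp (b * k)) := by
        apply ENNReal.ofReal_le_ofReal
        rw [geo_exp]
        have : Real.exp (b * s) ≤ Real.exp (b * ((K + 1 : ℕ) : ℝ)) := by
          rw [Real.exp_le_exp]
          push_cast
          exact mul_le_mul_of_nonneg_left h2.le hb.le
        linarith
    _ = 1 + ∑ k ∈ Finset.range (K + 1), ENNReal.ofReal ((Real.exp b - 1) * Real.exp (b * k)) := by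
        rw [ENNReal.ofReal_add zero_le_one (Finset.sum_nonneg h3), ENNReal.ofReal_one,
          ENNReal.ofReal_sum_of_nonneg h3]
    _ = 1 + ∑ k ∈ Finset.range (K + 1), ENNReal.ofReal ((Real.exp b - 1) * Real.exp (b * k)) *
        (if (k : ℝ) ≤ s then 1 else 0) := by
        congr 1
        refine Finset.sum_congr rfl fun k hk => ?_
        have h4 : (k : ℝ) ≤ s := by
          have : (k : ℝ) ≤ K := by
            exact_mod_cast Nat.lt_succ_iff.1 (Finset.mem_range.1 hk)
          linarith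
        rw [if_pos h4, mul_one]
    _ ≤ _ := by
        gcongr
        exact ENNReal.sum_le_tsum _

private lemma num_bound :
    1 + ∑' k : ℕ, ENNReal.ofReal ((Real.exp (1 / 12) - 1) * Real.exp (1 / 12 * k)) *
      ENNReal.ofReal (Real.exp (-(1 / 3 * (k : ℝ)))) ≤ 2 := by
  have hb1 : 0 ≤ Real.exp (1 / 12) - 1 := by
    have := Real.add_one_le_exp (1 / 12 : ℝ)
    linarith
  have h1 : ∀ k : ℕ, ENNReal.ofReal ((Real.exp (1 / 12) - 1) * Real.exp (1 / 12 * k)) *
      ENNReal.ofReal (Real.exp (-(1 / 3 * (k : ℝ)))) =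
      ENNReal.ofReal ((Real.exp (1 / 12) - 1) * Real.exp (-(1 / 4)) ^ k) := by
    intro k
    rw [← ENNReal.ofReal_mul (mul_nonneg hb1 (Real.exp_pos _).le), mul_assoc, ← Real.exp_add,
      ← Real.exp_nat_mul]
    congr 3
    ring
  simp only [h1]
  have hr0 : 0 ≤ Real.exp (-(1 / 4 : ℝ)) := (Real.exp_pos _).le
  have hr1 : Real.exp (-(1 / 4 : ℝ)) ≤ 4 / 5 := by
    rw [Real.exp_neg, inv_le_comm₀ (Real.exp_pos _) (by norm_num)]
    have := Real.add_one_le_exp (1 / 4 : ℝ)
    linarith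
  have hb2 : Real.exp (1 / 12 : ℝ) ≤ 12 / 11 := by
    have h2 := Real.add_one_le_exp (-(1 / 12) : ℝ)
    rw [Real.exp_neg] at h2
    have h3 := inv_anti₀ (by norm_num : (0 : ℝ) < -(1 / 12) + 1) h2
    rw [inv_inv] at h3
    linarith
  have hg := (hasSum_geometric_of_lt_one hr0 (by linarith)).mul_left (Real.exp (1 / 12 : ℝ) - 1)
  have h4 : ∑' k : ℕ, ENNReal.ofReal ((Real.exp (1 / 12) - 1) * Real.exp (-(1 / 4)) ^ k) =
      ENNReal.ofReal ((Real.exp (1 / 12) - 1) * (1 - Real.exp (-(1 / 4)))⁻¹) := by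
    rw [← ENNReal.ofReal_tsum_of_nonneg (fun k => mul_nonneg hb1 (pow_nonneg hr0 k)) hg.summable,
      hg.tsum_eq]
  rw [h4]
  have h5 : (Real.exp (1 / 12) - 1) * (1 - Real.exp (-(1 / 4)))⁻¹ ≤ (1 : ℝ) := by
    rw [← div_eq_mul_inv, div_le_one (by linarith)]
    linarith
  calc 1 + ENNReal.ofReal ((Real.exp (1 / 12) - 1) * (1 - Real.exp (-(1 / 4)))⁻¹)
      ≤ 1 + ENNReal.ofReal 1 := by gcongr
    _ = 2 := by rw [ENNReal.ofReal_one]; norm_num

private lemma prodExp_aux (H : SWt δ L h) (hδ : 0 < δ) (A : Finset (Fin m)) :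
    ∀ (B : Finset (Fin m)) (t : Fin m → ℝ), Disjoint A B → (∀ i, 0 ≤ t i) →
    ∫⁻ x in Es B t, ENNReal.ofReal (Real.exp ((1 / 12) * ∑ i ∈ A, |x i|) * h x) ≤
      2 ^ A.card * ENNReal.ofReal (Real.exp (-((1 / 3) * ∑ j ∈ B, t j)) * ∫ x, h x) := by
  induction A using Finset.induction_on with
  | empty =>
    intro B t _ ht
    simp only [Finset.sum_empty, mul_zero, Real.exp_zero, one_mul, Finset.card_empty, pow_zero]
    rw [← ofReal_integral_eq_lintegral_ofReal (H.toUW.int hδ).integrableOn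
      (Eventually.of_forall fun x => (H.toUW.pos x).le)]
    exact ENNReal.ofReal_le_ofReal (prodTail H hδ B ht)
  | insert i A hi ih =>
    intro B t hd ht
    have hAB : Disjoint A B := hd.mono_left (Finset.subset_insert i A)
    have hiB : i ∉ B := fun hiB =>
      Finset.disjoint_left.1 hd (Finset.mem_insert_self i A) hiB
    have hAB' : Disjoint A (insert i B) := by
      rw [Finset.disjoint_insert_right]
      exact ⟨hi, hAB⟩
    have hm0 : 0 ≤ ∫ x, h x := (H.toUW.mass hδ).le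
    set G : Vn m → ℝ≥0∞ := fun x => ENNReal.ofReal (Real.exp ((1 / 12) * ∑ i ∈ A, |x i|) * h x)
      with hG
    have hGm : Measurable G := by
      refine ENNReal.measurable_ofReal.comp ?_
      refine Measurable.mul ?_ H.toUW.cont.measurable
      exact (by fun_prop : Continuous fun x : Vn m =>
        Real.exp ((1 / 12) * ∑ i ∈ A, |x i|)).measurable
    set c : ℕ → ℝ≥0∞ := fun k => ENNReal.ofReal ((Real.exp (1 / 12) - 1) * Real.exp (1 / 12 * k))
      with hc
    have hFk : ∀ k : ℕ, MeasurableSet {x : Vn m | (k : ℝ) ≤ |x i|} := fun k =>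
      measurableSet_le measurable_const
        (by fun_prop : Continuous fun x : Vn m => |x i|).measurable
    -- pointwise bound
    have hpt : ∀ x : Vn m,
        ENNReal.ofReal (Real.exp ((1 / 12) * ∑ j ∈ insert i A, |x j|) * h x) ≤
          G x + ∑' k : ℕ, c k * {x : Vn m | (k : ℝ) ≤ |x i|}.indicator G x := by
      intro x
      have e1 : Real.exp ((1 / 12) * ∑ j ∈ insert i A, |x j|) * h x =
          Real.exp ((1 / 12) * |x i|) * (Real.exp ((1 / 12) * ∑ j ∈ A, |x j|) * h x) := by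
        rw [Finset.sum_insert hi, mul_add, Real.exp_add]
        ring
      rw [e1, ENNReal.ofReal_mul (Real.exp_pos _).le]
      refine (mul_le_mul_left (exp_le_tsum (by norm_num : (0 : ℝ) < 1 / 12)
        (abs_nonneg (x i))) _).trans ?_
      rw [add_mul, one_mul, ← ENNReal.tsum_mul_right]
      refine le_of_eq ?_
      congr 1
      refine tsum_congr fun k => ?_
      by_cases hk : (k : ℝ) ≤ |x i|
      · rw [if_pos hk, Set.indicator_of_mem (show x ∈ {x : Vn m | (k : ℝ) ≤ |x i|} from hk),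
          mul_one]
      · rw [if_neg hk, Set.indicator_of_notMem (show x ∉ {x : Vn m | (k : ℝ) ≤ |x i|} from hk),
          mul_zero, zero_mul]
    have hset : ∀ k : ℕ, {x : Vn m | (k : ℝ) ≤ |x i|} ∩ Es B t =
        Es (insert i B) (Function.update t i k) := by
      intro k
      ext x
      simp only [Es, mem_inter_iff, mem_ofPred_eq, Finset.mem_insert, forall_eq_or_imp,
        Function.update_self]
      refine and_congr_right fun _ => forall₂_congr fun j hj => ?_
      have : j ≠ i := fun h => hiB (h ▸ hj)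
      rw [Function.update_of_ne this]
    have hbd : ∀ k : ℕ, ∫⁻ x in Es B t, c k * {x : Vn m | (k : ℝ) ≤ |x i|}.indicator G x ≤
        c k * ENNReal.ofReal (Real.exp (-(1 / 3 * (k : ℝ)))) *
          (2 ^ A.card * ENNReal.ofReal (Real.exp (-((1 / 3) * ∑ j ∈ B, t j)) * ∫ x, h x)) := by
      intro k
      rw [lintegral_const_mul _ (hGm.indicator (hFk k)), lintegral_indicator (hFk k),
        Measure.restrict_restrict (hFk k), hset k, mul_assoc]
      refine mul_le_mul_right ?_ _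
      have h1 := ih (insert i B) (Function.update t i k) hAB' (fun j => by
        by_cases hj : j = i
        · subst hj
          rw [Function.update_self]
          positivity
        · rw [Function.update_of_ne hj]
          exact ht j)
      refine h1.trans (le_of_eq ?_)
      have h2 : ∑ j ∈ insert i B, Function.update t i (k : ℝ) j = k + ∑ j ∈ B, t j := by
        rw [Finset.sum_insert hiB, Function.update_self]
        congr 1
        refine Finset.sum_congr rfl fun j hj => ?_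
        have : j ≠ i := fun h => hiB (h ▸ hj)
        rw [Function.update_of_ne this]
      rw [h2, mul_add, neg_add, Real.exp_add, mul_assoc, ENNReal.ofReal_mul (Real.exp_pos _).le]
      ring
    calc ∫⁻ x in Es B t, ENNReal.ofReal (Real.exp ((1 / 12) * ∑ j ∈ insert i A, |x j|) * h x)
        ≤ ∫⁻ x in Es B t, (G x + ∑' k : ℕ, c k * {x : Vn m | (k : ℝ) ≤ |x i|}.indicator G x) :=
          lintegral_mono hpt
      _ = (∫⁻ x in Es B t, G x) +
            ∑' k : ℕ, ∫⁻ x in Es B t, c k * {x : Vn m | (k : ℝ) ≤ |x i|}.indicator G x := by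
          rw [lintegral_add_left hGm, lintegral_tsum]
          intro k
          exact (measurable_const.mul (hGm.indicator (hFk k))).aemeasurable
      _ ≤ (2 ^ A.card * ENNReal.ofReal (Real.exp (-((1 / 3) * ∑ j ∈ B, t j)) * ∫ x, h x)) +
            ∑' k : ℕ, c k * ENNReal.ofReal (Real.exp (-(1 / 3 * (k : ℝ)))) *
          (2 ^ A.card * ENNReal.ofReal (Real.exp (-((1 / 3) * ∑ j ∈ B, t j)) * ∫ x, h x)) :=
          add_le_add (ih B t hAB ht) (ENNReal.tsum_le_tsum hbd)
      _ = (1 + ∑' k : ℕ, c k * ENNReal.ofReal (Real.exp (-(1 / 3 * (k : ℝ))))) *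
          (2 ^ A.card * ENNReal.ofReal (Real.exp (-((1 / 3) * ∑ j ∈ B, t j)) * ∫ x, h x)) := by
          rw [ENNReal.tsum_mul_right, add_mul, one_mul]
      _ ≤ 2 * (2 ^ A.card * ENNReal.ofReal (Real.exp (-((1 / 3) * ∑ j ∈ B, t j)) * ∫ x, h x)) :=
          mul_le_mul_left num_bound _
      _ = _ := by
          rw [Finset.card_insert_of_notMem hi, pow_succ]
          ring

theorem prodExp (H : SWt δ L h) (hδ : 0 < δ) (S : Finset (Fin m)) :
    ∫ x, Real.exp ((1 / 12) * ∑ i ∈ S, |x i|) * h x ≤ 2 ^ S.card * ∫ x, h x := by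
  have h1 := prodExp_aux H hδ S ∅ (fun _ => 0) (Finset.disjoint_empty_right S) fun _ => le_rfl
  have h2 : Es (∅ : Finset (Fin m)) (fun _ => (0 : ℝ)) = univ := by
    ext x
    simp [Es]
  rw [h2, Measure.restrict_univ, Finset.sum_empty, mul_zero, neg_zero, Real.exp_zero, one_mul,
    ← ofReal_integral_eq_lintegral_ofReal (exp_l1_integrable H.toUW hδ S (1 / 12))
      (Eventually.of_forall fun x => mul_nonneg (Real.exp_pos _).le (H.toUW.pos x).le)] at h1
  have h3 : (2 : ℝ≥0∞) ^ S.card * ENNReal.ofReal (∫ x, h x) =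
      ENNReal.ofReal (2 ^ S.card * ∫ x, h x) := by
    rw [ENNReal.ofReal_mul (by positivity), ENNReal.ofReal_pow (by norm_num)]
    norm_num
  rw [h3] at h1
  exact (ENNReal.ofReal_le_ofReal_iff (mul_nonneg (by positivity)
    (H.toUW.mass hδ).le)).1 h1

end Pool.Agent.Lib.MP_8d00da_gt.h42u
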