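import Pool.Agent.Lib.MP_8d00da_gt.h42u.UDefs

/-!
# U18: the stretching map

Full proof. `str_cov`: change of variables for the linear automorphism `str S` (as in `os_cov` of
h42o/OScale: `Measure.map_linearMap_addHaar_eq_smul_addHaar`, copy that proof).
`str_norm`: coordinatewise (`EuclideanSpace.norm_sq_eq`).
`str_fl`, `str_symm_fl`: coordinatewise. `sh_par`: these commutations. `sh_BL`: `BL.comp` with
`(str S).toContinuousLinearEquiv`. `str_symm_ee`: coordinatewise.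
-/

namespace Pool.Agent.Lib.MP_8d00da_gt.h42u

open MeasureTheory Set Filter
open Pool.Agent.Lib.MP_8d00da_gt.h25 Pool.Agent.Lib.MP_8d00da_gt.h42
open Pool.Agent.Lib.MP_8d00da_gt.h42s Pool.Agent.Lib.MP_8d00da_gt.h42o
open scoped Topology NNReal

variable {m : ℕ} {δ L : ℝ} {h : Vn m → ℝ}

lemma str_cov (S : Finset (Fin m)) :
    ∃ J : ℝ, 0 < J ∧ ∀ Φ : Vn m → ℝ, ∫ x, Φ (str S x) = J * ∫ x, Φ x := by
  have hdet : LinearMap.det (str S : Vn m →ₗ[ℝ] Vn m) ≠ 0 := (str S).isUnit_det'.ne_zero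
  have hmap := Measure.map_linearMap_addHaar_eq_smul_addHaar (volume : Measure (Vn m)) hdet
  refine ⟨|(LinearMap.det (str S : Vn m →ₗ[ℝ] Vn m))⁻¹|, abs_pos.2 (inv_ne_zero hdet),
    fun Φ => ?_⟩
  have hemb : MeasurableEmbedding (str S : Vn m → Vn m) :=
    (str S).toContinuousLinearEquiv.toHomeomorph.toMeasurableEquiv.measurableEmbedding
  have h1 : ∫ x, Φ (str S x) = ∫ x, Φ x ∂(Measure.map (str S : Vn m → Vn m) volume) :=
    (hemb.integral_map Φ).symm
  have h2 : Measure.map (str S : Vn m → Vn m) volume =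
      ENNReal.ofReal |(LinearMap.det (str S : Vn m →ₗ[ℝ] Vn m))⁻¹| •
        (volume : Measure (Vn m)) := hmap
  rw [h1, h2, integral_smul_measure, ENNReal.toReal_ofReal (abs_nonneg _), smul_eq_mul]

lemma str_norm (S : Finset (Fin m)) (x : Vn m) :
    ‖(str S).symm x‖ ≤ ‖x‖ ∧ ‖x‖ ≤ 4 * ‖(str S).symm x‖ := by
  have h1 : ‖(str S).symm x‖ ^ 2 ≤ ‖x‖ ^ 2 := by
    rw [EuclideanSpace.norm_sq_eq, EuclideanSpace.norm_sq_eq]
    refine Finset.sum_le_sum fun i _ => ?_
    rw [str_symm_apply, Real.norm_eq_abs, Real.norm_eq_abs, sq_abs, sq_abs]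
    split_ifs
    · nlinarith [sq_nonneg (x i)]
    · nlinarith [sq_nonneg (x i)]
  have h2 : ‖x‖ ^ 2 ≤ (4 * ‖(str S).symm x‖) ^ 2 := by
    rw [mul_pow, EuclideanSpace.norm_sq_eq, EuclideanSpace.norm_sq_eq, Finset.mul_sum]
    refine Finset.sum_le_sum fun i _ => ?_
    rw [str_symm_apply, Real.norm_eq_abs, Real.norm_eq_abs, sq_abs, sq_abs]
    split_ifs
    · nlinarith [sq_nonneg (x i)]
    · nlinarith [sq_nonneg (x i)]
  exact ⟨(abs_le_of_sq_le_sq' h1 (norm_nonneg _)).2, (abs_le_of_sq_le_sq' h2 (by positivity)).2⟩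

lemma str_fl (S : Finset (Fin m)) (i : Fin m) (x : Vn m) : str S (fl i x) = fl i (str S x) := by
  ext j
  simp only [str_apply, fl_apply]
  split_ifs <;> ring

lemma str_symm_fl (S : Finset (Fin m)) (i : Fin m) (x : Vn m) :
    (str S).symm (fl i x) = fl i ((str S).symm x) := by
  ext j
  simp only [str_symm_apply, fl_apply]
  split_ifs <;> ring

lemma str_symm_ee (S : Finset (Fin m)) (i : Fin m) :
    (str S).symm (ee i) = (if i ∈ S then (1 / 4 : ℝ) else 1) • ee i := by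
  ext j
  rw [str_symm_apply, PiLp.smul_apply, ee_apply, smul_eq_mul]
  by_cases h : j = i
  · subst h; simp
  · simp [h]

lemma sh_par (S : Finset (Fin m)) {T : Finset (Fin m)} {u : Vn m → ℝ} (hu : Par T u) :
    Par T (fun x => u (str S x)) ∧ Par T (fun x => u ((str S).symm x)) := by
  refine ⟨⟨fun i hi x => ?_, fun i hi x => ?_⟩, ⟨fun i hi x => ?_, fun i hi x => ?_⟩⟩
  · simp only [str_fl]
    exact hu.1 i hi _
  · simp only [str_fl]
    exact hu.2 i hi _
  · simp only [str_symm_fl]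
    exact hu.1 i hi _
  · simp only [str_symm_fl]
    exact hu.2 i hi _

lemma sh_BL (S : Finset (Fin m)) {u : Vn m → ℝ} (hu : BL u) :
    BL (fun x => u (str S x)) ∧ BL (fun x => u ((str S).symm x)) := by
  have h1 : LipschitzWith ‖((str S).toContinuousLinearEquiv : Vn m →L[ℝ] Vn m)‖₊
      (str S : Vn m → Vn m) :=
    ((str S).toContinuousLinearEquiv : Vn m →L[ℝ] Vn m).lipschitz
  have h2 : LipschitzWith ‖((str S).symm.toContinuousLinearEquiv : Vn m →L[ℝ] Vn m)‖₊
      ((str S).symm : Vn m → Vn m) :=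
    ((str S).symm.toContinuousLinearEquiv : Vn m →L[ℝ] Vn m).lipschitz
  exact ⟨hu.comp h1, hu.comp h2⟩

end Pool.Agent.Lib.MP_8d00da_gt.h42u
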