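import Pool.Agent.Lib.MP_8d00da_gt.h42u.UExpo
import Pool.Agent.Lib.MP_8d00da_gt.h42u.UProdExp
import Pool.Agent.Lib.MP_8d00da_gt.h42u.UStr

/-!
# U21: exponential moments for the stretched weight

Full proof. `κ = (7/4)/√Λ`, `gbar x = g x₀`, where `x₀` is `x` with the coordinates in `S` replaced by
`0`; `gbar` is `1`-Lipschitz and `|gbar| ≤ A`. `c = (∫ gbar h)/∫ h`. Since `str S` does not change the
coordinates outside `S` and multiplies those in `S` by `4`:
`|g (str S x) - gbar x| ≤ ‖str S x - x₀‖ ≤ 4 ∑_{i∈S} |x i| =: 4 s(x)` (`norm_le_N1`). Young (`p = 15/14`,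
`q = 15`; convexity of exp: `convexOn_exp`): `exp (a + b) ≤ (14/15) exp (15 a/14) + (1/15) exp (15 b)`,
with `a = ±κ(gbar - c)`, `b = 4 κ s(x)`. By `expo` with `s = ±(15/14) κ = ±(15/8)/√Λ`:
`Λ s²/4 = 225/256`, `2 x/(1-x) = 450/31 ≤ 15`: `∫ exp(15a/14) h ≤ e^15 ∫ h`.
`15 b = 60 κ s(x) = (105/√Λ) s(x) ≤ (1/12) s(x)` as `√Λ ≥ 10^6`: `prodExp` gives `≤ 2^k ∫ h`,
`k = S.card ≥ 1`. Sum: `≤ ((14/15) e^15 + (1/15) 2^k) ∫ h ≤ e^(17 k) ∫ h`. Integrability of the
exponentials: bounded function times `h`, resp. `exp_l1_integrable`.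
-/

namespace Pool.Agent.Lib.MP_8d00da_gt.h42u

open MeasureTheory Set Filter
open Pool.Agent.Lib.MP_8d00da_gt.h25 Pool.Agent.Lib.MP_8d00da_gt.h42
open Pool.Agent.Lib.MP_8d00da_gt.h42s Pool.Agent.Lib.MP_8d00da_gt.h42o
open scoped Topology NNReal

variable {m : ℕ} {δ L : ℝ} {h : Vn m → ℝ}

/-- The point `x` with the coordinates in `S` replaced by `0`. -/
private noncomputable def pj (S : Finset (Fin m)) (x : Vn m) : Vn m :=
  WithLp.toLp 2 fun j => if j ∈ S then 0 else x j

private lemma pj_apply (S : Finset (Fin m)) (x : Vn m) (j : Fin m) :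
    pj S x j = if j ∈ S then 0 else x j := rfl

private lemma pj_lip (S : Finset (Fin m)) (x y : Vn m) : ‖pj S x - pj S y‖ ≤ ‖x - y‖ := by
  rw [EuclideanSpace.norm_eq, EuclideanSpace.norm_eq]
  apply Real.sqrt_le_sqrt
  refine Finset.sum_le_sum fun i _ => ?_
  rw [PiLp.sub_apply, PiLp.sub_apply, pj_apply, pj_apply]
  split_ifs
  · rw [sub_zero, norm_zero, zero_pow two_ne_zero]
    positivity
  · exact le_rfl

private lemma str_pj (S : Finset (Fin m)) (x : Vn m) :
    ‖str S x - pj S x‖ ≤ 4 * ∑ i ∈ S, |x i| := by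
  refine (norm_le_N1 _).trans (le_of_eq ?_)
  unfold N1
  rw [Finset.mul_sum, ← Finset.sum_subset (Finset.subset_univ S)]
  · refine Finset.sum_congr rfl fun i hi => ?_
    rw [PiLp.sub_apply, pj_apply, str_apply, if_pos hi, if_pos hi, sub_zero, abs_mul]
    norm_num
  · intro i _ hi
    rw [PiLp.sub_apply, pj_apply, str_apply, if_neg hi, if_neg hi]
    simp

private lemma young_exp (a b : ℝ) :
    Real.exp (a + b) ≤ 14 / 15 * Real.exp (15 / 14 * a) + 1 / 15 * Real.exp (15 * b) := by
  have h1 := convexOn_exp.2 (mem_univ (15 / 14 * a)) (mem_univ (15 * b))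
    (show (0 : ℝ) ≤ 14 / 15 by norm_num) (show (0 : ℝ) ≤ 1 / 15 by norm_num) (by norm_num)
  simp only [smul_eq_mul] at h1
  refine le_trans (le_of_eq ?_) h1
  congr 1
  ring

theorem expo_str (H : SWt δ L h) (hδ : 0 < δ) {Λ : ℝ} (hΛ : 10 ^ 12 ≤ Λ)
    (hP : ∀ q : Vn m → ℝ, BL q → Vr h q ≤ Λ * En h q) {S : Finset (Fin m)} (hS : S.Nonempty)
    {g : Vn m → ℝ} (hg : LipschitzWith 1 g) {A : ℝ} (hA : ∀ x, |g x| ≤ A) :
    ∃ c : ℝ,
      ∫ x, Real.exp (7 / 4 / Real.sqrt Λ * (g (str S x) - c)) * h x ≤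
        Real.exp (17 * S.card) * ∫ x, h x ∧
      ∫ x, Real.exp (-(7 / 4 / Real.sqrt Λ * (g (str S x) - c))) * h x ≤
        Real.exp (17 * S.card) * ∫ x, h x := by
  have HU : UW δ L h := H.toUW
  have hm : 0 < ∫ x, h x := HU.mass hδ
  have hΛ0 : 0 < Λ := lt_of_lt_of_le (by norm_num) hΛ
  set r : ℝ := Real.sqrt Λ with hr
  have hr6 : 10 ^ 6 ≤ r := by
    rw [hr]
    apply Real.le_sqrt_of_sq_le
    norm_num at hΛ ⊢
    exact hΛ
  have hr0 : 0 < r := lt_of_lt_of_le (by norm_num) hr6
  have hr2 : r ^ 2 = Λ := Real.sq_sqrt hΛ0.le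
  set gb : Vn m → ℝ := fun x => g (pj S x) with hgb
  have hgbL : LipschitzWith 1 gb := by
    refine LipschitzWith.of_dist_le_mul fun x y => ?_
    have h1 := hg.dist_le_mul (pj S x) (pj S y)
    refine h1.trans ?_
    gcongr
    rw [dist_eq_norm, dist_eq_norm]
    exact pj_lip S x y
  have hgbA : ∀ x, |gb x| ≤ A := fun x => hA _
  set c : ℝ := (∫ x, gb x * h x) / ∫ x, h x with hcdef
  have hc : ∫ x, gb x * h x = c * ∫ x, h x := by
    rw [hcdef, div_mul_cancel₀ _ hm.ne']
  have hdiff : ∀ x, |g (str S x) - gb x| ≤ 4 * ∑ i ∈ S, |x i| := fun x => by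
    have h1 := hg.dist_le_mul (str S x) (pj S x)
    rw [Real.dist_eq, dist_eq_norm, NNReal.coe_one, one_mul] at h1
    exact h1.trans (str_pj S x)
  have key : ∀ ε : ℝ, |ε| = 1 →
      ∫ x, Real.exp (ε * (7 / 4 / r * (g (str S x) - c))) * h x ≤
        Real.exp (17 * S.card) * ∫ x, h x := by
    intro ε hε
    have hε2 : ε ^ 2 = 1 := by rw [← sq_abs, hε, one_pow]
    set s : ℝ := ε * (15 / 8 / r) with hs
    have hs2 : Λ * s ^ 2 / 4 = 225 / 256 := by
      rw [hs, mul_pow, hε2, ← hr2]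
      field_simp
      norm_num
    have e1 := expo HU hδ hΛ0 hP hgbL hgbA hc (s := s) (by rw [hs2]; norm_num)
    rw [hs2] at e1
    have e2 := prodExp H hδ S
    have i1 : Integrable fun x => Real.exp (s * (gb x - c)) * h x := by
      refine HU.int_poly hδ (C := Real.exp (|s| * (A + |c|))) ?_ ?_
      · exact Real.measurable_exp.comp
          ((hgbL.continuous.measurable.sub_const c).const_mul s)
      · intro x
        rw [Real.abs_exp]
        have h1 : s * (gb x - c) ≤ |s| * (A + |c|) := by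
          refine (le_abs_self _).trans ?_
          rw [abs_mul]
          have h2 : |gb x - c| ≤ |gb x| + |c| := abs_sub _ _
          have h3 := hgbA x
          gcongr
          linarith
        have h4 := Real.exp_le_exp.2 h1
        have h5 : 0 ≤ Real.exp (|s| * (A + |c|)) := (Real.exp_pos _).le
        nlinarith [sq_nonneg ‖x‖, mul_nonneg h5 (sq_nonneg ‖x‖)]
    have i2 : Integrable fun x => Real.exp ((1 / 12) * ∑ i ∈ S, |x i|) * h x :=
      exp_l1_integrable HU hδ S (1 / 12)
    have hpt : ∀ x, Real.exp (ε * (7 / 4 / r * (g (str S x) - c))) * h x ≤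
        14 / 15 * (Real.exp (s * (gb x - c)) * h x) +
          1 / 15 * (Real.exp ((1 / 12) * ∑ i ∈ S, |x i|) * h x) := by
      intro x
      have h0 := (HU.pos x).le
      have hsum : 0 ≤ ∑ i ∈ S, |x i| := Finset.sum_nonneg fun i _ => abs_nonneg _
      have h1 : ε * (7 / 4 / r * (g (str S x) - c)) ≤
          ε * (7 / 4 / r) * (gb x - c) + 7 / r * ∑ i ∈ S, |x i| := by
        have h2 : ε * (7 / 4 / r * (g (str S x) - c)) =
            ε * (7 / 4 / r) * (gb x - c) + (7 / 4 / r) * (ε * (g (str S x) - gb x)) := by ring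
        have h3 : ε * (g (str S x) - gb x) ≤ 4 * ∑ i ∈ S, |x i| := by
          refine (le_abs_self _).trans ?_
          rw [abs_mul, hε, one_mul]
          exact hdiff x
        have h4 : (7 / 4 / r) * (ε * (g (str S x) - gb x)) ≤
            (7 / 4 / r) * (4 * ∑ i ∈ S, |x i|) := by gcongr
        rw [h2]
        refine add_le_add le_rfl (h4.trans (le_of_eq ?_))
        ring
      have h5 := (Real.exp_le_exp.2 h1).trans (young_exp _ _)
      have h6 : Real.exp (15 * (7 / r * ∑ i ∈ S, |x i|)) ≤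
          Real.exp ((1 / 12) * ∑ i ∈ S, |x i|) := by
        apply Real.exp_le_exp.2
        rw [← mul_assoc]
        apply mul_le_mul_of_nonneg_right _ hsum
        rw [← mul_div_assoc, div_le_iff₀ hr0]
        linarith
      have h7 : 15 / 14 * (ε * (7 / 4 / r) * (gb x - c)) = s * (gb x - c) := by
        rw [hs]
        ring
      rw [h7] at h5
      calc Real.exp (ε * (7 / 4 / r * (g (str S x) - c))) * h x
          ≤ (14 / 15 * Real.exp (s * (gb x - c)) +
            1 / 15 * Real.exp (15 * (7 / r * ∑ i ∈ S, |x i|))) * h x :=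
            mul_le_mul_of_nonneg_right h5 h0
        _ ≤ (14 / 15 * Real.exp (s * (gb x - c)) +
            1 / 15 * Real.exp ((1 / 12) * ∑ i ∈ S, |x i|)) * h x := by
            apply mul_le_mul_of_nonneg_right _ h0
            linarith
        _ = _ := by ring
    have hmono : ∫ x, Real.exp (ε * (7 / 4 / r * (g (str S x) - c))) * h x ≤
        ∫ x, (14 / 15 * (Real.exp (s * (gb x - c)) * h x) +
          1 / 15 * (Real.exp ((1 / 12) * ∑ i ∈ S, |x i|) * h x)) := by
      refine integral_mono_of_nonneg (Eventually.of_forall fun x => ?_)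
        ((i1.const_mul _).add (i2.const_mul _)) (Eventually.of_forall hpt)
      exact mul_nonneg (Real.exp_pos _).le (HU.pos x).le
    rw [integral_add (i1.const_mul _) (i2.const_mul _), integral_const_mul,
      integral_const_mul] at hmono
    have hk : (1 : ℝ) ≤ S.card := by exact_mod_cast hS.card_pos
    have b1 : Real.exp (2 * (225 / 256) / (1 - 225 / 256)) ≤ Real.exp (17 * S.card) := by
      apply Real.exp_le_exp.2
      norm_num
      linarith
    have b2 : (2 : ℝ) ^ S.card ≤ Real.exp (17 * S.card) := by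
      have h1 : (2 : ℝ) ≤ Real.exp 17 := by
        have := Real.add_one_le_exp (17 : ℝ)
        linarith
      calc (2 : ℝ) ^ S.card ≤ (Real.exp 17) ^ S.card := by gcongr
        _ = Real.exp (17 * S.card) := by
            rw [← Real.exp_nat_mul]
            congr 1
            ring
    have c1 := e1.trans (mul_le_mul_of_nonneg_right b1 hm.le)
    have c2 := e2.trans (mul_le_mul_of_nonneg_right b2 hm.le)
    linarith
  refine ⟨c, ?_, ?_⟩
  · have h1 := key 1 abs_one
    simpa only [one_mul] using h1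
  · have h1 := key (-1) (by rw [abs_neg, abs_one])
    simpa only [neg_one_mul] using h1

end Pool.Agent.Lib.MP_8d00da_gt.h42u
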