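import Pool.Agent.Lib.MP_8d00da_gt.h42u.UDefs

/-!
# U28: near-extremal functions have uniformly small tails

Full proof. Write `h = exp (-W)`. (1) `fderiv W x x ≥ δ ‖x‖²`: from `smid` with `x, -x`... precisely:
`w = W - (δ/2)‖·‖²` is differentiable and midpoint convex (`smid`, parallelogram law), even
(`H.abs_even`), continuous, hence convex, so `fderiv w x (x) ≥ w x - w 0 ≥ 0`
(or directly: the function `s ↦ w (s x)` is even and convex on `ℝ`, so its derivative at `1` is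
`≥ 0`); `fderiv w x x = fderiv W x x - δ‖x‖²`.
(2) Integration by parts (`integral_mul_fderiv_eq_neg_fderiv_mul_of_integrable`, as in `tilt_ibp`
of h42o/OTilt, which has the additional factor `ker η (y-x)`; here the weight is `h` itself) for each
coordinate `i` with `u = x i * f x ^ 2` and the direction `ee i`, and sum over `i` (`∑ x i ee i = x`):
`∫ (m f² + 2 f fderiv f x x) h = ∫ f² (fderiv W x x) h ≥ δ ∫ ‖x‖² f² h`.
All integrands are dominated by `C (1 + ‖x‖²) h` (`H.int_poly`; `‖fderiv W x‖ ≤ C(1+‖x‖)`).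
(3) `2 f fderiv f x x ≤ (δ/2)‖x‖² f² + (2/δ)‖fderiv f x‖²`. So
`(δ/2) ∫ ‖x‖² f² h ≤ m ∫ f² h + (2/δ) En h f ≤ (m + 2C/δ) ∫ f² h`.
(4) `∫_{ρ ≤ ‖x‖} f² h ≤ ρ^(-2) ∫ ‖x‖² f² h ≤ ρ^(-2) (2/δ)(m + 2C/δ) ∫ f² h`; choose `ρ` large.
-/

namespace Pool.Agent.Lib.MP_8d00da_gt.h42u

open MeasureTheory Set Filter
open Pool.Agent.Lib.MP_8d00da_gt.h25 Pool.Agent.Lib.MP_8d00da_gt.h42
open Pool.Agent.Lib.MP_8d00da_gt.h42s Pool.Agent.Lib.MP_8d00da_gt.h42o
open scoped Topology NNReal

variable {m : ℕ} {δ L : ℝ} {h : Vn m → ℝ}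

lemma radial_mono (H : UW δ L h) {W : Vn m → ℝ} (hW : ∀ x, h x = Real.exp (-W x))
    (hd : Differentiable ℝ W) (x : Vn m) : δ * ‖x‖ ^ 2 ≤ fderiv ℝ W x x := by
  have heven : ∀ y, W (-y) = W y := by
    intro y
    have h1 := H.abs_even y
    rw [hW, hW] at h1
    have h2 := Real.exp_injective h1
    linarith
  have hmid : ∀ y z, W ((1 / 2 : ℝ) • (y + z)) ≤ (W y + W z) / 2 - δ * ‖y - z‖ ^ 2 / 8 := by
    intro y z
    have h1 := H.smid y z
    rw [hW, hW, hW, ← Real.exp_add, ← Real.exp_add, ← Real.exp_nat_mul] at h1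
    have h2 := Real.exp_le_exp.mp h1
    push_cast at h2
    linarith
  set w : ℝ → ℝ := fun s => W (s • x) - δ * ‖x‖ ^ 2 / 2 * s ^ 2 with hw
  have hwm : ∀ s t, 2 * w ((s + t) / 2) ≤ w s + w t := by
    intro s t
    have h1 := hmid (s • x) (t • x)
    have e1 : (1 / 2 : ℝ) • (s • x + t • x) = ((s + t) / 2) • x := by
      rw [← add_smul, smul_smul]
      congr 1
      ring
    have e2 : ‖s • x - t • x‖ ^ 2 = (s - t) ^ 2 * ‖x‖ ^ 2 := by
      rw [← sub_smul, norm_smul, mul_pow, Real.norm_eq_abs, sq_abs]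
    rw [e1, e2] at h1
    simp only [hw]
    nlinarith
  have hwe : ∀ s, w (-s) = w s := by
    intro s
    simp only [hw]
    rw [neg_smul, heven]
    ring
  have hw0 : ∀ s, w 0 ≤ w s := by
    intro s
    have h1 := hwm s (-s)
    rw [hwe, add_neg_cancel, zero_div] at h1
    linarith
  have hinc : ∀ (e : ℝ) (k : ℕ), w (k * e) ≤ w ((k + 1) * e) := by
    intro e k
    induction k with
    | zero =>
      rw [Nat.cast_zero, zero_mul]
      exact hw0 _
    | succ k ih =>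
      have h1 := hwm (k * e) ((k + 2) * e)
      have e1 : ((k : ℝ) * e + (k + 2) * e) / 2 = (k + 1) * e := by ring
      rw [e1] at h1
      push_cast
      have e2 : ((k : ℝ) + 1 + 1) * e = (k + 2) * e := by ring
      rw [e2]
      linarith
  have hder : HasDerivAt w (fderiv ℝ W x x - δ * ‖x‖ ^ 2) 1 := by
    have h1 : HasDerivAt (fun s : ℝ => s • x) x 1 := by
      simpa using (hasDerivAt_id (1 : ℝ)).smul_const x
    have h2 : HasFDerivAt W (fderiv ℝ W x) ((1 : ℝ) • x) := by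
      rw [one_smul]
      exact (hd x).hasFDerivAt
    have h3 := h2.comp_hasDerivAt (1 : ℝ) h1
    have h4 : HasDerivAt (fun s : ℝ => δ * ‖x‖ ^ 2 / 2 * s ^ 2) (δ * ‖x‖ ^ 2) 1 := by
      have := ((hasDerivAt_pow 2 (1 : ℝ)).const_mul (δ * ‖x‖ ^ 2 / 2))
      refine this.congr_deriv ?_
      norm_num
    exact h3.sub h4
  have hslope := hasDerivAt_iff_tendsto_slope.mp hder
  have hseq : Tendsto (fun k : ℕ => 1 + 1 / ((k : ℝ) + 1)) atTop (𝓝[≠] 1) := by
    rw [tendsto_nhdsWithin_iff]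
    constructor
    · have := (tendsto_one_div_add_atTop_nhds_zero_nat (𝕜 := ℝ)).const_add 1
      simpa using this
    · refine Eventually.of_forall fun k => ?_
      simp only [mem_compl_iff, mem_singleton_iff, add_eq_left]
      positivity
  have hlim := hslope.comp hseq
  have hge : 0 ≤ fderiv ℝ W x x - δ * ‖x‖ ^ 2 := by
    refine ge_of_tendsto' hlim fun k => ?_
    simp only [Function.comp_apply, slope_def_field]
    have h1 := hinc (1 / ((k : ℝ) + 1)) (k + 1)
    have hk : (0 : ℝ) < (k : ℝ) + 1 := by positivity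
    have e1 : ((k + 1 : ℕ) : ℝ) * (1 / ((k : ℝ) + 1)) = 1 := by
      push_cast
      field_simp
    have e2 : (((k + 1 : ℕ) : ℝ) + 1) * (1 / ((k : ℝ) + 1)) = 1 + 1 / ((k : ℝ) + 1) := by
      push_cast
      field_simp
    rw [e1, e2] at h1
    refine div_nonneg (by linarith) ?_
    have : 0 < 1 / ((k : ℝ) + 1) := by positivity
    linarith
  linarith

private lemma sum_ee (x : Vn m) : ∑ i, x i • (ee i : Vn m) = x := by
  ext j
  simp [ee_apply, Finset.sum_apply]

theorem far (H : UW δ L h) (hδ : 0 < δ) {C τ : ℝ} (hC : 0 ≤ C) (hτ : 0 < τ) :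
    ∃ ρ : ℝ, 0 < ρ ∧ ∀ f : Vn m → ℝ, BL f → Differentiable ℝ f →
      En h f ≤ C * ∫ x, f x ^ 2 * h x →
        ∫ x in {x : Vn m | ρ ≤ ‖x‖}, f x ^ 2 * h x ≤ τ * ∫ x, f x ^ 2 * h x := by
  obtain ⟨W, hW, hWd, hWL⟩ := H.reg
  set Q : ℝ := (2 / δ) * (m + 2 * C / δ) with hQ
  have hQ0 : 0 ≤ Q := by positivity
  refine ⟨Real.sqrt (Q / τ + 1), Real.sqrt_pos.mpr (by positivity), fun f hf hfd hfE => ?_⟩
  obtain ⟨⟨K, hK⟩, A, hA⟩ := hf
  have hA0 : 0 ≤ A := (abs_nonneg _).trans (hA 0)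
  have hfm : Measurable f := hK.continuous.measurable
  have hfK : ∀ x, ‖fderiv ℝ f x‖ ≤ K := fun x => norm_fderiv_le_of_lipschitz ℝ hK
  have hK0 : (0 : ℝ) ≤ K := K.2
  have hf2 : ∀ x, f x ^ 2 ≤ A ^ 2 := fun x => by
    rw [← sq_abs]
    exact pow_le_pow_left₀ (abs_nonneg _) (hA x) 2
  have hgr1 : ∀ x : Vn m, 1 + ‖x‖ ≤ 2 * (1 + ‖x‖ ^ 2) := by
    intro x
    nlinarith [sq_nonneg (‖x‖ - 1), norm_nonneg x]
  have hgr2 : ∀ x : Vn m, (1 + ‖x‖) * ‖x‖ ≤ 2 * (1 + ‖x‖ ^ 2) := by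
    intro x
    nlinarith [sq_nonneg (‖x‖ - 1), norm_nonneg x]
  set D : ℝ := ‖fderiv ℝ W 0‖ + |L| with hD
  have hD0 : 0 ≤ D := by positivity
  have hgrW : ∀ x, ‖fderiv ℝ W x‖ ≤ D * (1 + ‖x‖) := by
    intro x
    have h2 : ‖fderiv ℝ W x‖ ≤ ‖fderiv ℝ W x - fderiv ℝ W 0‖ + ‖fderiv ℝ W 0‖ := by
      have := norm_add_le (fderiv ℝ W x - fderiv ℝ W 0) (fderiv ℝ W 0)
      rwa [sub_add_cancel] at this
    have h3 := hWL x 0
    rw [sub_zero] at h3
    have h4 : L * ‖x‖ ≤ |L| * ‖x‖ := mul_le_mul_of_nonneg_right (le_abs_self L) (norm_nonneg x)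
    have h5 := norm_nonneg x
    have h6 := norm_nonneg (fderiv ℝ W 0)
    have h7 := abs_nonneg L
    rw [hD]
    nlinarith
  have hcoord : ∀ (x : Vn m) (i : Fin m), |x i| ≤ ‖x‖ := fun x i => by
    simpa using PiLp.norm_apply_le x i
  have hee : ∀ i : Fin m, ‖(ee i : Vn m)‖ = 1 := fun i => by simp [ee]
  -- the derivative of the weight
  have hhd : ∀ x, HasFDerivAt h (Real.exp (-W x) • (-fderiv ℝ W x)) x := by
    intro x
    have h2 := ((hWd x).hasFDerivAt.neg).exp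
    exact h2.congr_of_eventuallyEq (Eventually.of_forall fun z => hW z)
  have hhf : ∀ x v, fderiv ℝ h x v = -(h x * fderiv ℝ W x v) := by
    intro x v
    rw [(hhd x).fderiv]
    simp only [smul_apply, neg_apply, smul_eq_mul]
    rw [hW x]
    ring
  -- integration by parts
  have hWm : ∀ v, Measurable fun x => fderiv ℝ W x v := fun v => measurable_fderiv_apply_const ℝ W v
  have hfdm : ∀ v, Measurable fun x => fderiv ℝ f x v := fun v => measurable_fderiv_apply_const ℝ f v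
  have hui : ∀ (i : Fin m) (x : Vn m), HasFDerivAt (fun z : Vn m => z i * f z ^ 2)
      ((x i) • ((2 * f x) • fderiv ℝ f x) + (f x ^ 2) • (EuclideanSpace.proj i : Vn m →L[ℝ] ℝ)) x := by
    intro i x
    have h1 : HasFDerivAt (fun z : Vn m => z i) (EuclideanSpace.proj i : Vn m →L[ℝ] ℝ) x :=
      (EuclideanSpace.proj i : Vn m →L[ℝ] ℝ).hasFDerivAt
    have h2 : HasFDerivAt (fun z : Vn m => f z ^ 2) ((2 * f x) • fderiv ℝ f x) x := by
      have := (hfd x).hasFDerivAt.pow 2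
      refine this.congr_fderiv ?_
      ext v
      simp
    exact h1.mul h2
  have hibp : ∀ i : Fin m, Integrable (fun x : Vn m => (x i * f x ^ 2 * fderiv ℝ W x (ee i)) * h x) ∧
      Integrable (fun x : Vn m => (2 * f x * (x i * fderiv ℝ f x (ee i)) + f x ^ 2) * h x) ∧
      ∫ x : Vn m, (x i * f x ^ 2 * fderiv ℝ W x (ee i)) * h x =
        ∫ x : Vn m, (2 * f x * (x i * fderiv ℝ f x (ee i)) + f x ^ 2) * h x := by
    intro i
    have hxm : Measurable fun x : Vn m => x i := by fun_prop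
    have j1 : Integrable (fun x : Vn m => (x i * f x ^ 2 * fderiv ℝ W x (ee i)) * h x) := by
      refine H.int_poly hδ ((hxm.mul (hfm.pow_const 2)).mul (hWm _)) (C := 2 * (A ^ 2 * D)) fun x => ?_
      have h1 : |fderiv ℝ W x (ee i)| ≤ D * (1 + ‖x‖) := by
        have := (fderiv ℝ W x).le_opNorm (ee i)
        rw [Real.norm_eq_abs, hee, mul_one] at this
        exact this.trans (hgrW x)
      rw [abs_mul, abs_mul, abs_of_nonneg (sq_nonneg (f x))]
      calc |x i| * f x ^ 2 * |fderiv ℝ W x (ee i)| ≤ ‖x‖ * A ^ 2 * (D * (1 + ‖x‖)) := by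
            have := hcoord x i
            have := hf2 x
            gcongr
        _ = (A ^ 2 * D) * ((1 + ‖x‖) * ‖x‖) := by ring
        _ ≤ (A ^ 2 * D) * (2 * (1 + ‖x‖ ^ 2)) :=
            mul_le_mul_of_nonneg_left (hgr2 x) (by positivity)
        _ = _ := by ring
    have j2 : Integrable (fun x : Vn m => (2 * f x * (x i * fderiv ℝ f x (ee i)) + f x ^ 2) * h x) := by
      refine H.int_poly hδ (((hfm.const_mul 2).mul (hxm.mul (hfdm _))).add (hfm.pow_const 2))
        (C := 2 * A * K * 2 + A ^ 2) fun x => ?_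
      have h1 : |fderiv ℝ f x (ee i)| ≤ K := by
        have := (fderiv ℝ f x).le_opNorm (ee i)
        rw [Real.norm_eq_abs, hee, mul_one] at this
        exact this.trans (hfK x)
      have h2 : |2 * f x * (x i * fderiv ℝ f x (ee i))| ≤ 2 * A * (‖x‖ * K) := by
        rw [abs_mul, abs_mul, abs_mul, abs_two]
        have := hcoord x i
        have := hA x
        gcongr
      have h3 : ‖x‖ ≤ 2 * (1 + ‖x‖ ^ 2) := by
        have := hgr1 x
        linarith
      calc |2 * f x * (x i * fderiv ℝ f x (ee i)) + f x ^ 2|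
          ≤ |2 * f x * (x i * fderiv ℝ f x (ee i))| + |f x ^ 2| := abs_add_le _ _
        _ ≤ 2 * A * (‖x‖ * K) + A ^ 2 := by
            rw [abs_of_nonneg (sq_nonneg (f x))]
            exact add_le_add h2 (hf2 x)
        _ ≤ 2 * A * ((2 * (1 + ‖x‖ ^ 2)) * K) + A ^ 2 * (1 + ‖x‖ ^ 2) := by
            have h4 : A ^ 2 ≤ A ^ 2 * (1 + ‖x‖ ^ 2) :=
              le_mul_of_one_le_right (by positivity) (by nlinarith [sq_nonneg ‖x‖])
            have h5 : 2 * A * (‖x‖ * K) ≤ 2 * A * ((2 * (1 + ‖x‖ ^ 2)) * K) := by gcongr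
            linarith
        _ = _ := by ring
    have j3 : Integrable (fun x : Vn m => (x i * f x ^ 2) * h x) := by
      refine H.int_poly hδ (hxm.mul (hfm.pow_const 2)) (C := 2 * A ^ 2) fun x => ?_
      rw [abs_mul, abs_of_nonneg (sq_nonneg (f x))]
      have h3 : ‖x‖ ≤ 2 * (1 + ‖x‖ ^ 2) := by
        have := hgr1 x
        linarith
      calc |x i| * f x ^ 2 ≤ (2 * (1 + ‖x‖ ^ 2)) * A ^ 2 := by
            have := (hcoord x i).trans h3
            have := hf2 x
            gcongr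
        _ = _ := by ring
    refine ⟨j1, j2, ?_⟩
    have hfdu : ∀ x : Vn m, fderiv ℝ (fun z : Vn m => z i * f z ^ 2) x (ee i) =
        2 * f x * (x i * fderiv ℝ f x (ee i)) + f x ^ 2 := by
      intro x
      rw [(hui i x).fderiv]
      simp only [add_apply, smul_apply, smul_eq_mul]
      have h1 : (EuclideanSpace.proj i : Vn m →L[ℝ] ℝ) (ee i) = 1 := by
        show (ee i : Vn m) i = 1
        rw [ee_apply, if_pos rfl]
      rw [h1]
      ring
    have i2 : Integrable fun x : Vn m =>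
        fderiv ℝ (fun z : Vn m => z i * f z ^ 2) x (ee i) * h x := by
      refine j2.congr (Eventually.of_forall fun x => ?_)
      simp only
      rw [hfdu x]
    have i4 : Integrable fun x : Vn m => (x i * f x ^ 2) * fderiv ℝ h x (ee i) := by
      refine j1.neg.congr (Eventually.of_forall fun x => ?_)
      simp only [Pi.neg_apply]
      rw [hhf x]
      ring
    have key := integral_mul_fderiv_eq_neg_fderiv_mul_of_integrable (μ := (volume : Measure (Vn m)))
      (f := fun z : Vn m => z i * f z ^ 2) (g := h) (v := ee i) i2 i4 j3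
      (fun x _ => (hui i x).differentiableAt) (fun x _ => (hhd x).differentiableAt)
    have e1 : ∫ x : Vn m, (x i * f x ^ 2) * fderiv ℝ h x (ee i) =
        -∫ x : Vn m, (x i * f x ^ 2 * fderiv ℝ W x (ee i)) * h x := by
      rw [← integral_neg]
      refine integral_congr_ae (Eventually.of_forall fun x => ?_)
      show (x i * f x ^ 2) * fderiv ℝ h x (ee i) = -((x i * f x ^ 2 * fderiv ℝ W x (ee i)) * h x)
      rw [hhf x]
      ring
    have e2 : ∫ x : Vn m, fderiv ℝ (fun z : Vn m => z i * f z ^ 2) x (ee i) * h x =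
        ∫ x : Vn m, (2 * f x * (x i * fderiv ℝ f x (ee i)) + f x ^ 2) * h x := by
      refine integral_congr_ae (Eventually.of_forall fun x => ?_)
      show fderiv ℝ (fun z : Vn m => z i * f z ^ 2) x (ee i) * h x = _
      rw [hfdu x]
    rw [e1, e2] at key
    linarith
  -- summation
  have hsumL : ∀ (G : Vn m →L[ℝ] ℝ) (x : Vn m), ∑ i, x i * G (ee i) = G x := by
    intro G x
    conv_rhs => rw [← sum_ee x, map_sum]
    refine Finset.sum_congr rfl fun i _ => ?_
    rw [map_smul, smul_eq_mul]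
  have k1 : Integrable fun x : Vn m => (f x ^ 2 * fderiv ℝ W x x) * h x := by
    have h1 := integrable_finsetSum Finset.univ (fun i (_ : i ∈ Finset.univ) => (hibp i).1)
    refine h1.congr (Eventually.of_forall fun x => ?_)
    simp only
    rw [← hsumL, Finset.mul_sum, Finset.sum_mul]
    exact Finset.sum_congr rfl fun i _ => by ring
  have k2 : Integrable fun x : Vn m => (2 * f x * fderiv ℝ f x x + m * f x ^ 2) * h x := by
    have h1 := integrable_finsetSum Finset.univ (fun i (_ : i ∈ Finset.univ) => (hibp i).2.1)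
    refine h1.congr (Eventually.of_forall fun x => ?_)
    simp only
    rw [← hsumL, ← Finset.sum_mul, Finset.sum_add_distrib, ← Finset.mul_sum, Finset.sum_const,
      Finset.card_univ, Fintype.card_fin, nsmul_eq_mul]
  have k3 : ∫ x : Vn m, (f x ^ 2 * fderiv ℝ W x x) * h x =
      ∫ x : Vn m, (2 * f x * fderiv ℝ f x x + m * f x ^ 2) * h x := by
    have e1 : ∫ x : Vn m, (f x ^ 2 * fderiv ℝ W x x) * h x =
        ∑ i, ∫ x : Vn m, (x i * f x ^ 2 * fderiv ℝ W x (ee i)) * h x := by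
      rw [← integral_finsetSum _ fun i _ => (hibp i).1]
      refine integral_congr_ae (Eventually.of_forall fun x => ?_)
      simp only
      rw [← hsumL, Finset.mul_sum, Finset.sum_mul]
      exact Finset.sum_congr rfl fun i _ => by ring
    have e2 : ∫ x : Vn m, (2 * f x * fderiv ℝ f x x + m * f x ^ 2) * h x =
        ∑ i, ∫ x : Vn m, (2 * f x * (x i * fderiv ℝ f x (ee i)) + f x ^ 2) * h x := by
      rw [← integral_finsetSum _ fun i _ => (hibp i).2.1]
      refine integral_congr_ae (Eventually.of_forall fun x => ?_)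
      simp only
      rw [← hsumL, ← Finset.sum_mul, Finset.sum_add_distrib, ← Finset.mul_sum, Finset.sum_const,
        Finset.card_univ, Fintype.card_fin, nsmul_eq_mul]
    rw [e1, e2]
    exact Finset.sum_congr rfl fun i _ => (hibp i).2.2
  have k4 : Integrable fun x : Vn m => (‖x‖ ^ 2 * f x ^ 2) * h x := by
    refine H.int_poly hδ ((measurable_norm.pow_const 2).mul (hfm.pow_const 2)) (C := A ^ 2) fun x => ?_
    rw [abs_of_nonneg (by positivity)]
    have := hf2 x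
    calc ‖x‖ ^ 2 * f x ^ 2 ≤ (1 + ‖x‖ ^ 2) * A ^ 2 := by gcongr; linarith
      _ = _ := by ring
  have k5 : Integrable fun x : Vn m => f x ^ 2 * h x := by
    refine H.int_poly hδ (hfm.pow_const 2) (C := A ^ 2) fun x => ?_
    rw [abs_of_nonneg (by positivity)]
    have := hf2 x
    calc f x ^ 2 ≤ A ^ 2 := this
      _ ≤ A ^ 2 * (1 + ‖x‖ ^ 2) :=
        le_mul_of_one_le_right (by positivity) (by nlinarith [sq_nonneg ‖x‖])
  have k6 : Integrable fun x : Vn m => ‖fderiv ℝ f x‖ ^ 2 * h x := by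
    refine H.int_poly hδ ((measurable_fderiv ℝ f).norm.pow_const 2) (C := (K : ℝ) ^ 2) fun x => ?_
    rw [abs_of_nonneg (by positivity)]
    calc ‖fderiv ℝ f x‖ ^ 2 ≤ (K : ℝ) ^ 2 := pow_le_pow_left₀ (norm_nonneg _) (hfK x) 2
      _ ≤ (K : ℝ) ^ 2 * (1 + ‖x‖ ^ 2) :=
        le_mul_of_one_le_right (by positivity) (by nlinarith [sq_nonneg ‖x‖])
  have m1 : δ * ∫ x : Vn m, (‖x‖ ^ 2 * f x ^ 2) * h x ≤ ∫ x : Vn m, (f x ^ 2 * fderiv ℝ W x x) * h x := by
    rw [← integral_const_mul]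
    refine integral_mono (k4.const_mul _) k1 fun x => ?_
    have h1 := radial_mono H hW hWd x
    have h2 := (H.pos x).le
    have h3 : f x ^ 2 * (δ * ‖x‖ ^ 2) ≤ f x ^ 2 * fderiv ℝ W x x :=
      mul_le_mul_of_nonneg_left h1 (sq_nonneg _)
    calc δ * (‖x‖ ^ 2 * f x ^ 2 * h x) = f x ^ 2 * (δ * ‖x‖ ^ 2) * h x := by ring
      _ ≤ f x ^ 2 * fderiv ℝ W x x * h x := mul_le_mul_of_nonneg_right h3 h2
  have m2 : ∫ x : Vn m, (2 * f x * fderiv ℝ f x x + m * f x ^ 2) * h x ≤
      (δ / 2) * (∫ x : Vn m, (‖x‖ ^ 2 * f x ^ 2) * h x) + (2 / δ) * En h f +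
        m * ∫ x, f x ^ 2 * h x := by
    unfold En
    have k46 : Integrable fun x : Vn m => δ / 2 * (‖x‖ ^ 2 * f x ^ 2 * h x) +
        2 / δ * (‖fderiv ℝ f x‖ ^ 2 * h x) := (k4.const_mul _).add (k6.const_mul _)
    have k7 : Integrable fun x : Vn m => (m : ℝ) * (f x ^ 2 * h x) := k5.const_mul _
    rw [← integral_const_mul, ← integral_const_mul, ← integral_const_mul,
      ← integral_add (k4.const_mul _) (k6.const_mul _), ← integral_add k46 k7]
    refine integral_mono k2 (k46.add k7) fun x => ?_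
    have h2 := (H.pos x).le
    have h3 : |fderiv ℝ f x x| ≤ ‖fderiv ℝ f x‖ * ‖x‖ := by
      have := (fderiv ℝ f x).le_opNorm x
      rwa [Real.norm_eq_abs] at this
    have h4 : 2 * f x * fderiv ℝ f x x ≤ 2 * (|f x| * (‖fderiv ℝ f x‖ * ‖x‖)) := by
      have h5 : f x * fderiv ℝ f x x ≤ |f x| * |fderiv ℝ f x x| := by
        rw [← abs_mul]
        exact le_abs_self _
      have h6 : |f x| * |fderiv ℝ f x x| ≤ |f x| * (‖fderiv ℝ f x‖ * ‖x‖) :=
        mul_le_mul_of_nonneg_left h3 (abs_nonneg _)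
      linarith
    have h7 : 2 * (|f x| * (‖fderiv ℝ f x‖ * ‖x‖)) ≤
        (δ / 2) * (‖x‖ ^ 2 * f x ^ 2) + (2 / δ) * ‖fderiv ℝ f x‖ ^ 2 := by
      have h8 : 0 ≤ (δ / 2) * (‖x‖ * |f x| - (2 / δ) * ‖fderiv ℝ f x‖) ^ 2 := by positivity
      have h9 : (δ / 2) * (‖x‖ * |f x| - (2 / δ) * ‖fderiv ℝ f x‖) ^ 2 =
          (δ / 2) * (‖x‖ ^ 2 * f x ^ 2) + (2 / δ) * ‖fderiv ℝ f x‖ ^ 2 -
            2 * (|f x| * (‖fderiv ℝ f x‖ * ‖x‖)) := by
        rw [← sq_abs (f x)]
        field_simp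
        ring
      linarith
    have h10 : 2 * f x * fderiv ℝ f x x + m * f x ^ 2 ≤
        (δ / 2) * (‖x‖ ^ 2 * f x ^ 2) + (2 / δ) * ‖fderiv ℝ f x‖ ^ 2 + m * f x ^ 2 := by linarith
    calc (2 * f x * fderiv ℝ f x x + m * f x ^ 2) * h x
        ≤ ((δ / 2) * (‖x‖ ^ 2 * f x ^ 2) + (2 / δ) * ‖fderiv ℝ f x‖ ^ 2 + m * f x ^ 2) * h x :=
          mul_le_mul_of_nonneg_right h10 h2
      _ = _ := by ring
  set V := ∫ x, f x ^ 2 * h x with hV
  have hV0 : 0 ≤ V := integral_nonneg fun x => mul_nonneg (sq_nonneg _) (H.pos x).le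
  set I := ∫ x : Vn m, (‖x‖ ^ 2 * f x ^ 2) * h x with hI
  have m3 : I ≤ Q * V := by
    have h1 : δ * I ≤ (δ / 2) * I + (2 / δ) * En h f + m * V := by
      rw [k3] at m1
      exact m1.trans m2
    have h2 : (2 / δ) * En h f ≤ (2 / δ) * (C * V) := mul_le_mul_of_nonneg_left hfE (by positivity)
    have h3 : (δ / 2) * I ≤ (m + 2 * C / δ) * V := by
      have : (m + 2 * C / δ) * V = m * V + (2 / δ) * (C * V) := by ring
      rw [this]
      linarith
    calc I = (2 / δ) * ((δ / 2) * I) := by field_simp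
      _ ≤ (2 / δ) * ((m + 2 * C / δ) * V) := mul_le_mul_of_nonneg_left h3 (by positivity)
      _ = Q * V := by rw [hQ]; ring
  set ρ := Real.sqrt (Q / τ + 1) with hρ
  have hρp : 0 < ρ := Real.sqrt_pos.mpr (by positivity)
  have hρ2 : ρ ^ 2 = Q / τ + 1 := Real.sq_sqrt (by positivity)
  have hms : MeasurableSet {x : Vn m | ρ ≤ ‖x‖} := measurableSet_le measurable_const measurable_norm
  have m4 : ρ ^ 2 * ∫ x in {x : Vn m | ρ ≤ ‖x‖}, f x ^ 2 * h x ≤ I := by
    rw [← integral_const_mul]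
    calc ∫ x in {x : Vn m | ρ ≤ ‖x‖}, ρ ^ 2 * (f x ^ 2 * h x)
        ≤ ∫ x in {x : Vn m | ρ ≤ ‖x‖}, (‖x‖ ^ 2 * f x ^ 2) * h x := by
          refine setIntegral_mono_on (k5.const_mul _).integrableOn k4.integrableOn hms fun x hx => ?_
          have hx' : ρ ≤ ‖x‖ := hx
          have h1 : ρ ^ 2 ≤ ‖x‖ ^ 2 := pow_le_pow_left₀ hρp.le hx' 2
          have h2 : 0 ≤ f x ^ 2 * h x := mul_nonneg (sq_nonneg _) (H.pos x).le
          calc ρ ^ 2 * (f x ^ 2 * h x) ≤ ‖x‖ ^ 2 * (f x ^ 2 * h x) :=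
                mul_le_mul_of_nonneg_right h1 h2
            _ = _ := by ring
      _ ≤ I := setIntegral_le_integral k4 (Eventually.of_forall fun x =>
          mul_nonneg (mul_nonneg (sq_nonneg _) (sq_nonneg _)) (H.pos x).le)
  set T := ∫ x in {x : Vn m | ρ ≤ ‖x‖}, f x ^ 2 * h x with hT
  have hT0 : 0 ≤ T := integral_nonneg fun x => mul_nonneg (sq_nonneg _) (H.pos x).le
  rw [hρ2] at m4
  have m5 : (Q / τ + 1) * T ≤ Q * V := m4.trans m3
  rcases eq_or_lt_of_le hQ0 with hq | hq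
  · rw [← hq] at m5
    have : T ≤ 0 := by
      have h1 : ((0 : ℝ) / τ + 1) * T = T := by ring
      rw [h1] at m5
      linarith
    exact this.trans (mul_nonneg hτ.le hV0)
  · have h1 : (Q / τ) * T ≤ Q * V := by
      have h2 : (Q / τ + 1) * T = (Q / τ) * T + T := by ring
      linarith
    have h3 : (Q / τ) * T = Q * (T / τ) := by ring
    rw [h3] at h1
    have h4 : T / τ ≤ V := le_of_mul_le_mul_left h1 hq
    rw [div_le_iff₀ hτ] at h4
    linarith

end Pool.Agent.Lib.MP_8d00da_gt.h42u
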