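import Pool.Agent.Lib.MP_8d00da_gt.h42u.UGen

/-!
# Unconditional log-concave measures
-/

namespace Pool.Agent.Lib.MP_8d00da_gt.h42u

open MeasureTheory Set Filter
open Pool.Agent.Lib.MP_8d00da_gt.h25 Pool.Agent.Lib.MP_8d00da_gt.h42
open Pool.Agent.Lib.MP_8d00da_gt.h42s Pool.Agent.Lib.MP_8d00da_gt.h42o
open scoped Topology NNReal

variable {n : ℕ} {E : Type*} [NormedAddCommGroup E] [InnerProductSpace ℝ E]
    [FiniteDimensional ℝ E] [MeasurableSpace E] [BorelSpace E]

theorem unconditional {h : Vn n → ℝ} (h0 : ∀ x, 0 ≤ h x) (hm : Measurable h) (hlc : LogConc h)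
    (heven : ∀ i x, h (fl i x) = h x) {μ : Measure (Vn n)}
    (hμ : μ = volume.withDensity fun x => ENNReal.ofReal (h x)) [IsProbabilityMeasure μ]
    (T : Vn n →L[ℝ] E) (hT : Function.Surjective T) (b : E) {D : ℝ}
    (hD : LinPoincareWith (μ.map fun x => T x + b) D) :
    PoincareWith (μ.map fun x => T x + b) (10 ^ 6 * D) := by
  have h1 : μ univ = 1 := measure_univ
  have h2 : ∫⁻ x, ENNReal.ofReal (h x) = 1 := by
    rw [hμ, withDensity_apply _ MeasurableSet.univ, Measure.restrict_univ] at h1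
    exact h1
  have hi : Integrable h := by
    refine ⟨hm.aestronglyMeasurable, ?_⟩
    rw [hasFiniteIntegral_iff_ofReal (Eventually.of_forall h0), h2]
    exact ENNReal.one_lt_top
  have hpos : 0 < ∫ x, h x := by
    rw [integral_eq_lintegral_of_nonneg_ae (Eventually.of_forall h0) hm.aestronglyMeasurable, h2]
    norm_num
  obtain ⟨C, a, hC, ha, hd⟩ := decay h0 hm hlc heven hi hpos
  have hi2 : Integrable fun x => ‖x‖ ^ 2 * h x := by
    have hb : 0 < a / ((n : ℝ) + 1) := by positivity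
    have h1 := (exp_l1_int (n := n) (a := a / ((n : ℝ) + 1)) (b := 0) hb).const_mul C
    refine h1.mono' ?_ (Eventually.of_forall fun x => ?_)
    · exact ((continuous_norm.pow 2).measurable.mul hm).aestronglyMeasurable
    · rw [Real.norm_eq_abs, abs_of_nonneg (mul_nonneg (sq_nonneg _) (h0 x))]
      have h2 : ∑ j, |x j| ≤ (n : ℝ) * ‖x‖ := by
        calc ∑ j, |x j| ≤ ∑ _j : Fin n, ‖x‖ := Finset.sum_le_sum fun j _ => by
              rw [← Real.norm_eq_abs]; exact PiLp.norm_apply_le x j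
          _ = (n : ℝ) * ‖x‖ := by simp
      have h3 : a / ((n : ℝ) + 1) * ∑ j, |x j| ≤ a * ‖x‖ := by
        have h4 : a / ((n : ℝ) + 1) * ∑ j, |x j| ≤ a / ((n : ℝ) + 1) * ((n : ℝ) * ‖x‖) :=
          mul_le_mul_of_nonneg_left h2 hb.le
        refine h4.trans ?_
        rw [div_mul_eq_mul_div, div_le_iff₀ (by positivity)]
        nlinarith [norm_nonneg x]
      have h5 : Real.exp (-(a * ‖x‖)) ≤ Real.exp (-(a / ((n : ℝ) + 1) * ∑ j, |x j| - 0)) := by
        apply Real.exp_le_exp.2; linarith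
      calc ‖x‖ ^ 2 * h x ≤ (1 + ‖x‖ ^ 2) * (C * Real.exp (-(a * ‖x‖))) :=
            mul_le_mul (by linarith) (hd x) (h0 x) (by positivity)
        _ = C * ((1 + ‖x‖ ^ 2) * Real.exp (-(a * ‖x‖))) := by ring
        _ ≤ C * ((1 + ‖x‖ ^ 2) * Real.exp (-(a / ((n : ℝ) + 1) * ∑ j, |x j| - 0))) := by
            gcongr
  exact final_of_QI (C := 10 ^ 12) (D' := 10 ^ 6) (by norm_num) h0 hm heven
    (QI_gen h0 hm hlc heven hi hpos) hμ hi2 T hT b hD (by norm_num) (by norm_num)

end Pool.Agent.Lib.MP_8d00da_gt.h42u
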