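import Pool.Agent.Lib.MP_8d00da_gt.h42u.UDefs

/-!
# U13: folding to an orthant

Full proof. Induction. More generally for disjoint `A, B` consider
`F A B = ∫_{t i ≤ x i (i ∈ A), t i ≤ |x i| (i ∈ B)} h`. Moving `j` from `B` to `A` halves the integral:
`{t j ≤ |x j|} = {t j ≤ x j} ∪ {t j ≤ - x j}` (as `t j ≥ 0`), the intersection lies in `{x j = 0}` (null
set: `ae_ne` of h42s/Hardy), and the reflection `fl j` (measure preserving,
`(fl j).measurePreserving`, it preserves `h` and the other conditions) maps one part onto the other.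
So `F A (insert j B) = 2 * F (insert j A) B` for `j ∉ A ∪ B`; by induction on the number of moved
elements `F ∅ A = 2^|A| F A ∅`.
-/

namespace Pool.Agent.Lib.MP_8d00da_gt.h42u

open MeasureTheory Set Filter
open Pool.Agent.Lib.MP_8d00da_gt.h25 Pool.Agent.Lib.MP_8d00da_gt.h42
open Pool.Agent.Lib.MP_8d00da_gt.h42s Pool.Agent.Lib.MP_8d00da_gt.h42o
open scoped Topology NNReal

variable {m : ℕ} {δ L : ℝ} {h : Vn m → ℝ}

/-- The mass of the set `{x | t i ≤ |x i| for i ∈ A}`. -/
noncomputable def NT (h : Vn m → ℝ) (A : Finset (Fin m)) (t : Fin m → ℝ) : ℝ :=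
  ∫ x in {x : Vn m | ∀ i ∈ A, t i ≤ |x i|}, h x

private lemma ufold_ae (i : Fin m) (c : ℝ) : ∀ᵐ x : Vn m, x i ≠ c := by
  have h1 : ∀ᵐ f : Fin m → ℝ, f i ≠ c := by
    rw [ae_iff]
    simp only [not_not, volume_pi]
    exact Measure.pi_hyperplane (fun _ => (volume : Measure ℝ)) i c
  exact (EuclideanSpace.volume_preserving_symm_measurableEquiv_toLp
    (Fin m)).quasiMeasurePreserving.ae h1

private def SF (t : Fin m → ℝ) (A B : Finset (Fin m)) : Set (Vn m) :=
  {x | (∀ i ∈ A, t i ≤ x i) ∧ ∀ i ∈ B, t i ≤ |x i|}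

private lemma SF_meas (t : Fin m → ℝ) (A B : Finset (Fin m)) : MeasurableSet (SF t A B) := by
  have hc : ∀ i : Fin m, Continuous fun x : Vn m => x i := fun i => by fun_prop
  have h1 : SF t A B = (⋂ i ∈ A, {x : Vn m | t i ≤ x i}) ∩ ⋂ i ∈ B, {x : Vn m | t i ≤ |x i|} := by
    ext x
    simp [SF]
  rw [h1]
  refine IsClosed.measurableSet (IsClosed.inter ?_ ?_)
  · exact isClosed_biInter fun i _ => isClosed_le continuous_const (hc i)
  · exact isClosed_biInter fun i _ => isClosed_le continuous_const (hc i).abs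

private lemma SF_step (hi : Integrable h) (heven : ∀ i x, h (fl i x) = h x)
    {t : Fin m → ℝ} (ht : ∀ i, 0 ≤ t i) (A B : Finset (Fin m)) (j : Fin m) (hA : j ∉ A)
    (hB : j ∉ B) : ∫ x in SF t A (insert j B), h x = 2 * ∫ x in SF t (insert j A) B, h x := by
  have h1 : SF t A (insert j B) = SF t (insert j A) B ∪ (fl j) ⁻¹' (SF t (insert j A) B) := by
    ext x
    have hAj : (∀ i ∈ A, t i ≤ fl j x i) ↔ ∀ i ∈ A, t i ≤ x i := by
      refine forall₂_congr fun i hiA => ?_
      have h0 : i ≠ j := fun h0 => hA (h0 ▸ hiA)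
      rw [fl_apply, if_neg h0]
    have hBj : (∀ i ∈ B, t i ≤ |fl j x i|) ↔ ∀ i ∈ B, t i ≤ |x i| := by
      refine forall₂_congr fun i hiB => ?_
      have h0 : i ≠ j := fun h0 => hB (h0 ▸ hiB)
      rw [fl_apply, if_neg h0]
    simp only [SF, mem_ofPred_eq, mem_union, mem_preimage, Finset.forall_mem_insert, hAj, hBj]
    rw [fl_apply, if_pos rfl, le_abs]
    tauto
  have hnull : AEDisjoint volume (SF t (insert j A) B) ((fl j) ⁻¹' (SF t (insert j A) B)) := by
    refine measure_mono_null ?_ (ae_iff.1 (ufold_ae j 0))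
    rintro x ⟨hx1, hx2⟩
    have e1 := hx1.1 j (Finset.mem_insert_self j A)
    have e2 := hx2.1 j (Finset.mem_insert_self j A)
    rw [fl_apply, if_pos rfl] at e2
    have e3 := ht j
    simp only [mem_ofPred_eq, not_not]
    linarith
  have hm : MeasurableSet ((fl j) ⁻¹' (SF t (insert j A) B)) :=
    (fl j).continuous.measurable (SF_meas t (insert j A) B)
  rw [h1, setIntegral_union₀ hnull hm.nullMeasurableSet hi.integrableOn hi.integrableOn]
  have h2 : ∫ x in (fl j) ⁻¹' (SF t (insert j A) B), h x = ∫ x in SF t (insert j A) B, h x := by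
    have h3 := (fl j).measurePreserving.setIntegral_preimage_emb
      (fl j).toHomeomorph.measurableEmbedding h (SF t (insert j A) B)
    rw [← h3]
    refine setIntegral_congr_fun hm fun x _ => ?_
    exact (heven j x).symm
  rw [h2]
  ring

private lemma SF_all (hi : Integrable h) (heven : ∀ i x, h (fl i x) = h x)
    {t : Fin m → ℝ} (ht : ∀ i, 0 ≤ t i) (A : Finset (Fin m)) : ∀ B : Finset (Fin m),
    Disjoint A B → ∫ x in SF t B A, h x = 2 ^ A.card * ∫ x in SF t (A ∪ B) ∅, h x := by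
  induction A using Finset.induction_on with
  | empty =>
    intro B _
    simp
  | insert j A hj ih =>
    intro B hd
    rw [Finset.disjoint_insert_left] at hd
    rw [SF_step hi heven ht B A j hd.1 hj, ih (insert j B)
      (Finset.disjoint_insert_right.2 ⟨hj, hd.2⟩), Finset.card_insert_of_notMem hj,
      Finset.insert_union, Finset.union_insert]
    ring

theorem fold (hi : Integrable h) (heven : ∀ i x, h (fl i x) = h x) (A : Finset (Fin m))
    {t : Fin m → ℝ} (ht : ∀ i, 0 ≤ t i) :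
    NT h A t = 2 ^ A.card * ∫ x in {x : Vn m | ∀ i ∈ A, t i ≤ x i}, h x := by
  have h1 := SF_all hi heven ht A ∅ (Finset.disjoint_empty_right A)
  have h2 : SF t ∅ A = {x : Vn m | ∀ i ∈ A, t i ≤ |x i|} := by
    ext x
    simp [SF]
  have h3 : SF t (A ∪ ∅) ∅ = {x : Vn m | ∀ i ∈ A, t i ≤ x i} := by
    ext x
    simp [SF]
  rw [h2, h3] at h1
  exact h1

end Pool.Agent.Lib.MP_8d00da_gt.h42u
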