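import Pool.Agent.Lib.MP_8d00da_gt.h42u.UStr

/-!
# U20: the quadratic forms of the stretched weight

Full proof. With `u' = fun x => u ((str S).symm x)`: `str_cov` (constant `J'`) applied to
`Φ x = u' x ^ 2 * sh S h x` gives `∫ u² h = J' ∫ Φ`, so `J = 1/J'`.
`fderiv u' x (ee j) = (if j ∈ S then 1/4 else 1) * fderiv u ((str S).symm x) (ee j)` (no
differentiability needed: `ContinuousLinearEquiv.comp_right_fderiv`, then `str_symm_ee`, `map_smul`).
`En (sh S h) u' = ∑ j, aE (sh S h) u' j` and `En h u = ∑ j, aE h u j` (`energy_sum` of h42o/OPar: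
it needs `Integrable (sh S h)` (from `str_cov`-type change of variables or `hs`) and `BL`). For each
`j`: `aE (sh S h) u' j = J * (if j ∈ S then 1/16 else 1) * aE h u j` by `str_cov`. Sum up:
`∑_j (if j ∈ S then 1/16 else 1) a_j = ∑_j a_j - (15/16) ∑_{j∈S} a_j`.
-/

namespace Pool.Agent.Lib.MP_8d00da_gt.h42u

open MeasureTheory Set Filter
open Pool.Agent.Lib.MP_8d00da_gt.h25 Pool.Agent.Lib.MP_8d00da_gt.h42
open Pool.Agent.Lib.MP_8d00da_gt.h42s Pool.Agent.Lib.MP_8d00da_gt.h42o
open scoped Topology NNReal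

variable {m : ℕ} {δ L : ℝ} {h : Vn m → ℝ}

private lemma uforms_fderiv (S : Finset (Fin m)) (u : Vn m → ℝ) (x : Vn m) (j : Fin m) :
    fderiv ℝ (fun x => u ((str S).symm x)) x (ee j) =
      (if j ∈ S then (1 / 4 : ℝ) else 1) * fderiv ℝ u ((str S).symm x) (ee j) := by
  have h1 := (str S).symm.toContinuousLinearEquiv.comp_right_fderiv (f := u) (x := x)
  have h2 : (u ∘ (str S).symm.toContinuousLinearEquiv) = fun x => u ((str S).symm x) := rfl
  rw [h2] at h1
  rw [h1]
  show fderiv ℝ u ((str S).symm x) ((str S).symm (ee j)) = _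
  rw [str_symm_ee, map_smul, smul_eq_mul]

theorem sh_forms {S : Finset (Fin m)} (H : UW δ L h) (hδ : 0 < δ) (hs : UW (δ / 16) L (sh S h)) :
    ∃ J : ℝ, 0 < J ∧ ∀ u : Vn m → ℝ, BL u →
      ∫ x, u ((str S).symm x) ^ 2 * sh S h x = J * ∫ x, u x ^ 2 * h x ∧
      En (sh S h) (fun x => u ((str S).symm x)) =
        J * (En h u - (15 / 16) * ∑ i ∈ S, aE h u i) := by
  obtain ⟨J', hJ', hcov⟩ := str_cov S
  refine ⟨J'⁻¹, inv_pos.mpr hJ', fun u hu => ⟨?_, ?_⟩⟩
  · have h1 := hcov fun x => u ((str S).symm x) ^ 2 * sh S h x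
    simp only [sh, LinearEquiv.symm_apply_apply] at h1
    rw [h1, ← mul_assoc, inv_mul_cancel₀ hJ'.ne', one_mul]
    rfl
  · have hu' : BL (fun x => u ((str S).symm x)) := (sh_BL S hu).2
    rw [energy_sum (hs.int (by positivity)) hu', energy_sum (H.int hδ) hu]
    have h2 : ∀ j, aE (sh S h) (fun x => u ((str S).symm x)) j =
        J'⁻¹ * ((if j ∈ S then (1 / 16 : ℝ) else 1) * aE h u j) := by
      intro j
      unfold aE
      have h1 := hcov fun x => (fderiv ℝ (fun x => u ((str S).symm x)) x (ee j)) ^ 2 * sh S h x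
      simp only [uforms_fderiv, sh, LinearEquiv.symm_apply_apply] at h1
      have h3 : ∀ x, ((if j ∈ S then (1 / 4 : ℝ) else 1) * fderiv ℝ u x (ee j)) ^ 2 * h x =
          (if j ∈ S then (1 / 16 : ℝ) else 1) * ((fderiv ℝ u x (ee j)) ^ 2 * h x) := by
        intro x
        split_ifs <;> ring
      simp only [h3, integral_const_mul] at h1
      rw [h1, ← mul_assoc, inv_mul_cancel₀ hJ'.ne', one_mul]
      simp only [uforms_fderiv, sh, h3, integral_const_mul]
    rw [Finset.sum_congr rfl fun j _ => h2 j, ← Finset.mul_sum]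
    congr 1
    have h4 : ∑ i ∈ S, aE h u i = ∑ i, if i ∈ S then aE h u i else 0 := by
      rw [Finset.sum_ite_mem, Finset.univ_inter]
    rw [h4, Finset.mul_sum, ← Finset.sum_sub_distrib]
    refine Finset.sum_congr rfl fun j _ => ?_
    split_ifs <;> ring

end Pool.Agent.Lib.MP_8d00da_gt.h42u
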