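import Pool.Agent.Lib.MP_8d00da_gt.h42u.UScale
import Pool.Agent.Lib.MP_8d00da_gt.h42u.UGauss
import Pool.Agent.Lib.MP_8d00da_gt.h42u.UDecay
import Pool.Agent.Lib.MP_8d00da_gt.h42u.ULim
import Pool.Agent.Lib.MP_8d00da_gt.h42o.OLim
import Pool.Agent.Lib.MP_8d00da_gt.h42o.OFinal

/-!
# General unconditional log-concave weights
-/

namespace Pool.Agent.Lib.MP_8d00da_gt.h42u

open MeasureTheory Set Filter
open Pool.Agent.Lib.MP_8d00da_gt.h25 Pool.Agent.Lib.MP_8d00da_gt.h42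
open Pool.Agent.Lib.MP_8d00da_gt.h42s Pool.Agent.Lib.MP_8d00da_gt.h42o
open scoped Topology NNReal

variable {n : ℕ}

lemma QI_smul {C c : ℝ} {h : Vn n → ℝ} (hQ : QI C h) : QI C fun x => c * h x := by
  intro f hf
  have h1 := hQ f hf
  have e : ∀ φ : Vn n → ℝ, ∫ x, φ x * (c * h x) = c * ∫ x, φ x * h x := by
    intro φ
    rw [← integral_const_mul]
    refine integral_congr_ae (Eventually.of_forall fun x => ?_)
    simp only
    ring
  have e0 : ∫ x, c * h x = c * ∫ x, h x := integral_const_mul _ _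
  rw [e, e, e0]
  have e1 : ∀ j : Fin n, (∫ x, (x j) ^ 2 * (c * h x)) *
      (∫ x, (fderiv ℝ f x (ee j)) ^ 2 * (c * h x)) =
      c ^ 2 * ((∫ x, (x j) ^ 2 * h x) * ∫ x, (fderiv ℝ f x (ee j)) ^ 2 * h x) := by
    intro j
    rw [e, e]; ring
  simp only [e1]
  rw [← Finset.mul_sum]
  have h2 := mul_le_mul_of_nonneg_left h1 (sq_nonneg c)
  calc c * (∫ x, f x ^ 2 * h x) * (c * ∫ x, h x) - (c * ∫ x, f x * h x) ^ 2
      = c ^ 2 * ((∫ x, f x ^ 2 * h x) * (∫ x, h x) - (∫ x, f x * h x) ^ 2) := by ring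
    _ ≤ _ := h2
    _ = _ := by ring

lemma even_neg {h : Vn n → ℝ} (heven : ∀ i x, h (fl i x) = h x) (s : Finset (Fin n)) :
    ∀ x : Vn n, h (WithLp.toLp 2 fun i => if i ∈ s then - x i else x i) = h x := by
  induction s using Finset.induction_on with
  | empty => intro x; simp
  | insert a s ha ih =>
    intro x
    have h1 : (WithLp.toLp 2 fun i => if i ∈ insert a s then - x i else x i : Vn n) =
        WithLp.toLp 2 fun i => if i ∈ s then - (fl a x) i else (fl a x) i := by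
      ext i
      simp only [Finset.mem_insert, fl_apply]
      by_cases hi : i = a
      · subst hi; simp [ha]
      · simp [hi]
    rw [h1, ih, heven]

lemma max_zero {h : Vn n → ℝ} (h0 : ∀ x, 0 ≤ h x) (hlc : LogConc h)
    (heven : ∀ i x, h (fl i x) = h x) (x : Vn n) : h x ≤ h 0 := by
  have h1 : h (-x) = h x := by
    rw [← even_neg heven Finset.univ x]
    congr 1
    ext i
    simp
  have h2 := hlc (1 / 2) (by norm_num) (by norm_num) x (-x)
  rw [h1, ← Real.rpow_add_of_nonneg (h0 x) (by norm_num) (by norm_num)] at h2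
  have h3 : (1 - 1 / 2 : ℝ) • x + (1 / 2 : ℝ) • (-x) = 0 := by
    rw [smul_neg]; norm_num
  rw [h3] at h2
  norm_num at h2
  exact h2

/-- a log-concave nonnegative even integrable function with positive integral is a weight -/
lemma wt_of {h : Vn n → ℝ} (h0 : ∀ x, 0 ≤ h x) (hm : Measurable h) (hlc : LogConc h)
    (heven : ∀ i x, h (fl i x) = h x) (hpos : 0 < ∫ x, h x) : Wt h (h 0) where
  meas := hm
  nonneg := h0
  bdd := max_zero h0 hlc heven
  mid := fun x y => by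
    have h2 := hlc (1 / 2) (by norm_num) (by norm_num) x y
    have e : (1 - 1 / 2 : ℝ) • x + (1 / 2 : ℝ) • y = (1 / 2 : ℝ) • (x + y) := by
      rw [smul_add]; norm_num
    rw [e, show (1 - 1 / 2 : ℝ) = 1 / 2 by norm_num, ← Real.mul_rpow (h0 x) (h0 y),
      ← Real.sqrt_eq_rpow] at h2
    have h3 := pow_le_pow_left₀ (Real.sqrt_nonneg _) h2 2
    rwa [Real.sq_sqrt (mul_nonneg (h0 x) (h0 y))] at h3
  ne := by
    intro he
    rw [integral_congr_ae he] at hpos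
    simp at hpos

theorem QI_gen {h : Vn n → ℝ} (h0 : ∀ x, 0 ≤ h x) (hm : Measurable h) (hlc : LogConc h)
    (heven : ∀ i x, h (fl i x) = h x) (hi : Integrable h) (hpos : 0 < ∫ x, h x) :
    QI (10 ^ 12) h := by
  have H := wt_of h0 hm hlc heven hpos
  obtain ⟨C, a, hC, ha, hd⟩ := decay h0 hm hlc heven hi hpos
  obtain ⟨C', hC', hmaj⟩ := cv_major h0 hm hC ha hd
  have hσ : ∀ k : ℕ, (0 : ℝ) < 1 / ((k : ℝ) + 1) := fun k => by positivity
  set c : ℕ → ℝ := fun k : ℕ => ∫ z : Vn n, h25.ker (1 / ((k : ℝ) + 1)) z with hc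
  have hc0 : ∀ k, 0 < c k := fun k => ker_int_pos (hσ k)
  set hk : ℕ → Vn n → ℝ := fun (k : ℕ) x => (1 / c k) * (cv (1 / ((k : ℝ) + 1)) h x *
    Real.exp (-(1 / ((k : ℝ) + 1) * ‖x‖ ^ 2))) with hhk
  have hU : ∀ k : ℕ, UW (2 * (1 / ((k : ℝ) + 1))) (1 / (1 / ((k : ℝ) + 1)) + 2 * (1 / ((k : ℝ) + 1)))
      fun y => cv (1 / ((k : ℝ) + 1)) h y * Real.exp (-(1 / ((k : ℝ) + 1) * ‖y‖ ^ 2)) := fun k =>
    gauss_UW H hlc heven (hσ k)
  have hQk : ∀ k, QI (10 ^ 12) (hk k) := fun k =>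
    QI_smul (QI_UW (hU k) (by positivity) (by positivity))
  have hcv0 : ∀ (k : ℕ) x, 0 ≤ cv (1 / ((k : ℝ) + 1)) h x := fun k x => (H.Z_pos (hσ k) x).le
  have hkc : ∀ k, Continuous (hk k) := by
    intro k
    have h1 := cv_cont (hσ k) H.meas H.abs_le
    have h2 : Continuous fun x : Vn n => Real.exp (-(1 / ((k : ℝ) + 1) * ‖x‖ ^ 2)) := by fun_prop
    exact continuous_const.mul (h1.mul h2)
  have hexp : ∀ (k : ℕ) (x : Vn n), Real.exp (-(1 / ((k : ℝ) + 1) * ‖x‖ ^ 2)) ≤ 1 := fun k x => by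
    rw [Real.exp_le_one_iff, neg_nonpos]; positivity
  have hle : ∀ k x, hk k x ≤ C' * Real.exp (-(a * ‖x‖)) := by
    intro k x
    have h1 := hmaj k x
    have h2 : hk k x = cv (1 / ((k : ℝ) + 1)) h x / c k *
        Real.exp (-(1 / ((k : ℝ) + 1) * ‖x‖ ^ 2)) := by
      simp only [hhk]; ring
    rw [h2]
    have h3 : 0 ≤ cv (1 / ((k : ℝ) + 1)) h x / c k := div_nonneg (hcv0 k x) (hc0 k).le
    calc cv (1 / ((k : ℝ) + 1)) h x / c k * Real.exp (-(1 / ((k : ℝ) + 1) * ‖x‖ ^ 2))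
        ≤ cv (1 / ((k : ℝ) + 1)) h x / c k * 1 := mul_le_mul_of_nonneg_left (hexp k x) h3
      _ ≤ _ := by rw [mul_one]; exact h1
  have hint : Integrable fun x : Vn n => (1 + ‖x‖ ^ 2) * (C' * Real.exp (-(a * ‖x‖))) := by
    have hb : 0 < a / ((n : ℝ) + 1) := by positivity
    have h1 := (exp_l1_int (n := n) (a := a / ((n : ℝ) + 1)) (b := 0) hb).const_mul C'
    refine h1.mono' ?_ (Eventually.of_forall fun x => ?_)
    · have : Continuous fun x : Vn n => (1 + ‖x‖ ^ 2) * (C' * Real.exp (-(a * ‖x‖))) := by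
        fun_prop
      exact this.aestronglyMeasurable
    · rw [Real.norm_eq_abs, abs_of_nonneg (by positivity)]
      have h2 : ∑ j, |x j| ≤ (n : ℝ) * ‖x‖ := by
        calc ∑ j, |x j| ≤ ∑ _j : Fin n, ‖x‖ := Finset.sum_le_sum fun j _ => by
              rw [← Real.norm_eq_abs]; exact PiLp.norm_apply_le x j
          _ = (n : ℝ) * ‖x‖ := by simp
      have h3 : a / ((n : ℝ) + 1) * ∑ j, |x j| ≤ a * ‖x‖ := by
        have h4 : a / ((n : ℝ) + 1) * ∑ j, |x j| ≤ a / ((n : ℝ) + 1) * ((n : ℝ) * ‖x‖) :=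
          mul_le_mul_of_nonneg_left h2 hb.le
        refine h4.trans ?_
        rw [div_mul_eq_mul_div, div_le_iff₀ (by positivity)]
        nlinarith [norm_nonneg x]
      have h5 : Real.exp (-(a * ‖x‖)) ≤ Real.exp (-(a / ((n : ℝ) + 1) * ∑ j, |x j| - 0)) := by
        apply Real.exp_le_exp.2; linarith
      calc (1 + ‖x‖ ^ 2) * (C' * Real.exp (-(a * ‖x‖)))
          = C' * ((1 + ‖x‖ ^ 2) * Real.exp (-(a * ‖x‖))) := by ring
        _ ≤ C' * ((1 + ‖x‖ ^ 2) * Real.exp (-(a / ((n : ℝ) + 1) * ∑ j, |x j| - 0))) := by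
            gcongr
  refine QI_limit (hk := hk) (H := fun x => C' * Real.exp (-(a * ‖x‖)))
    (fun k => (hkc k).measurable)
    (fun k x => mul_nonneg (one_div_nonneg.2 (hc0 k).le) (mul_nonneg (hcv0 k x) (Real.exp_pos _).le))
    hle hint ?_ hQk
  filter_upwards [cv_lim h0 hm hlc hC ha hd] with x hx
  have h1 : Tendsto (fun k : ℕ => Real.exp (-(1 / ((k : ℝ) + 1) * ‖x‖ ^ 2))) atTop (𝓝 1) := by
    have h2 : Tendsto (fun k : ℕ => -(1 / ((k : ℝ) + 1) * ‖x‖ ^ 2)) atTop (𝓝 0) := by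
      have := (tendsto_one_div_add_atTop_nhds_zero_nat (𝕜 := ℝ)).mul_const (‖x‖ ^ 2)
      simpa using this.neg
    have := (Real.continuous_exp.tendsto 0).comp h2
    rwa [Real.exp_zero] at this
  have h3 := hx.mul h1
  rw [mul_one] at h3
  refine h3.congr fun k => ?_
  simp only [hhk, hc]
  ring

end Pool.Agent.Lib.MP_8d00da_gt.h42u
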