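import Pool.Agent.Lib.MP_8d00da_gt.h42u.UDefs
import Pool.Agent.Lib.MP_8d00da_gt.h42s.Hardy

/-!
# U31: the Hardy inequality for functions odd in one coordinate

Full proof. Write `h = exp (-W)`. `f (x) = 0` if `x i = 0` (`fl i x = x`), so `|f x| ≤ Lf |x i|` (`Lf` a
Lipschitz constant; compare with the point with `i`-th coordinate `0`); hence `f²/(x i)² ≤ Lf²`
is bounded: integrability. `x i * fderiv W x (ee i) ≥ 0`: `s ↦ W (x + (s - x i) ee i)` is convex
(`H.lc`) and even in `s` (`H.even i`), differentiable, so its derivative at `s = x i` has the sign of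
`x i`. For `ε > 0` let `v x = x i/((x i)² + ε²)` (smooth, bounded, bounded derivative). Integration by
parts (`integral_mul_fderiv_eq_neg_fderiv_mul_of_integrable` with `g = h`, as in `tilt_ibp` of
h42o/OTilt) for `u = f² v` in the direction `ee i`:
`∫ (2 f (∂_i f) v + f² ∂_i v) h = ∫ f² v (fderiv W x (ee i)) h ≥ 0`,
`∂_i v = (ε² - (x i)²)/((x i)²+ε²)² = -v² + ε²/((x i)²+ε²)²`. So
`∫ f² v² h ≤ 2 ∫ |f v| |∂_i f| h + ∫ f² ε²/((x i)²+ε²)² h
         ≤ (1/2) ∫ f² v² h + 2 aE h f i + ∫ Lf² ε²/((x i)²+ε²) h`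
(`2ab ≤ a²/2 + 2b²`; `f² ≤ Lf² (x i)² ≤ Lf² ((x i)²+ε²)`), that is
`∫ f² v² h ≤ 4 aE h f i + 2 Lf² ∫ ε²/((x i)²+ε²) h`. As `ε = 1/n → 0`: the last integral tends to `0`
(dominated by `h`, pointwise limit `0` for `x i ≠ 0`, `ae_ne`), and `∫ f² v² h → ∫ f²/(x i)² h`
(dominated by `Lf² h`).
-/

namespace Pool.Agent.Lib.MP_8d00da_gt.h42u

open MeasureTheory Set Filter
open Pool.Agent.Lib.MP_8d00da_gt.h25 Pool.Agent.Lib.MP_8d00da_gt.h42
open Pool.Agent.Lib.MP_8d00da_gt.h42s Pool.Agent.Lib.MP_8d00da_gt.h42o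
open scoped Topology NNReal

variable {m : ℕ} {δ L : ℝ} {h : Vn m → ℝ}

/-- The potential grows away from the hyperplane `x i = 0`. -/
private lemma hardy_sign (H : UW δ L h) {W : Vn m → ℝ} (hW : ∀ x, h x = Real.exp (-W x))
    (hWd : Differentiable ℝ W) (i : Fin m) (x : Vn m) : 0 ≤ x i * fderiv ℝ W x (ee i) := by
  by_cases hx : x i = 0
  · rw [hx, zero_mul]
  have hT : ∀ y : Vn m, h (y - (((2 / x i : ℝ) • co i) y) • ((x i) • ee i)) = h y := by
    intro y
    rw [← H.even i y]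
    congr 1
    ext k
    rw [fl_apply]
    simp only [PiLp.sub_apply, PiLp.smul_apply, ee_apply, smul_apply, co_apply,
      smul_eq_mul]
    rcases eq_or_ne k i with rfl | hk
    · rw [if_pos rfl, if_pos rfl]
      field_simp
      ring
    · simp [hk]
  have h1 : ∀ t : ℝ, 0 ≤ t → t ≤ 2 → W (x - t • ((x i) • ee i)) ≤ W x := by
    intro t ht ht'
    have h2 := mono_refl (fun y => (H.pos y).le) H.lc hT x t ht (by
      simp only [smul_apply, co_apply, smul_eq_mul]
      rw [div_mul_cancel₀ _ hx]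
      exact ht')
    rw [hW, hW, Real.exp_le_exp] at h2
    linarith
  have h2 : HasDerivAt (fun t : ℝ => W (x - t • ((x i) • ee i)))
      (- (x i * fderiv ℝ W x (ee i))) 0 := by
    have h3 : HasDerivAt (fun t : ℝ => x - t • ((x i) • ee i)) (-((x i) • ee i)) 0 := by
      have := ((hasDerivAt_id (0 : ℝ)).smul_const ((x i) • ee i)).const_sub x
      simpa using this
    have h4 : HasFDerivAt W (fderiv ℝ W x) (x - (0 : ℝ) • ((x i) • ee i)) := by
      simpa using (hWd x).hasFDerivAt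
    have h5 := h4.comp_hasDerivAt (0 : ℝ) h3
    rw [map_neg, map_smul, smul_eq_mul] at h5
    exact h5
  have h3 := h2.tendsto_slope_zero_right
  have h4 : - (x i * fderiv ℝ W x (ee i)) ≤ 0 := by
    refine le_of_tendsto h3 ?_
    have h5 : Ioo (0 : ℝ) 2 ∈ 𝓝[>] (0 : ℝ) := Ioo_mem_nhdsGT (by norm_num)
    filter_upwards [h5] with t ht
    rw [smul_eq_mul, zero_add, zero_smul, sub_zero]
    have h6 := h1 t ht.1.le ht.2.le
    exact mul_nonpos_of_nonneg_of_nonpos (inv_nonneg.2 ht.1.le) (by linarith)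
  linarith

/-- The bound by the distance to the hyperplane. -/
private lemma hardy_lip {f : Vn m → ℝ} {K : ℝ≥0} (hK : LipschitzWith K f) {i : Fin m}
    (hodd : ∀ x, f (fl i x) = - f x) (x : Vn m) : |f x| ≤ K * |x i| := by
  have h0 : f (x - (x i) • ee i) = 0 := by
    have h1 : fl i (x - (x i) • ee i) = x - (x i) • ee i := by
      ext k
      rw [fl_apply]
      simp only [PiLp.sub_apply, PiLp.smul_apply, ee_apply, smul_eq_mul]
      rcases eq_or_ne k i with rfl | hk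
      · simp
      · simp [hk]
    have h2 := hodd (x - (x i) • ee i)
    rw [h1] at h2
    linarith
  have h1 := hK.dist_le_mul x (x - (x i) • ee i)
  rw [Real.dist_eq, h0, sub_zero, dist_eq_norm, sub_sub_cancel, norm_smul, Real.norm_eq_abs] at h1
  have h2 : ‖(ee i : Vn m)‖ = 1 := by
    unfold ee
    simp
  rwa [h2, mul_one] at h1

/-- The inequality with `ε`. -/
private lemma hardy_eps (H : UW δ L h) (hδ : 0 < δ) {f : Vn m → ℝ} (hf : BL f)
    (hd : Differentiable ℝ f) {i : Fin m} {K : ℝ≥0} (hK : LipschitzWith K f)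
    (hKi : ∀ x, |f x| ≤ K * |x i|) {ε : ℝ} (hε : 0 < ε) :
    ∫ x, (f x * (x i / (x i ^ 2 + ε ^ 2))) ^ 2 * h x ≤
      4 * aE h f i + 2 * K ^ 2 * ∫ x, ε ^ 2 / (x i ^ 2 + ε ^ 2) * h x := by
  obtain ⟨W, hW, hWd, hWL⟩ := H.reg
  obtain ⟨-, A, hA⟩ := hf
  have hA0 : 0 ≤ A := (abs_nonneg _).trans (hA 0)
  have hK0 : (0 : ℝ) ≤ K := K.2
  have hq : ∀ x : Vn m, 0 < x i ^ 2 + ε ^ 2 := fun x => by positivity
  have hcm : Measurable fun x : Vn m => x i := (co i).continuous.measurable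
  have hfm : Measurable f := hd.continuous.measurable
  -- bounds
  have hv : ∀ x : Vn m, |x i / (x i ^ 2 + ε ^ 2)| ≤ 1 / ε := by
    intro x
    rw [abs_div, abs_of_pos (hq x), div_le_div_iff₀ (hq x) hε]
    have h1 := sq_nonneg (|x i| - ε)
    have h2 : |x i| ^ 2 = x i ^ 2 := sq_abs _
    nlinarith [abs_nonneg (x i), mul_nonneg (abs_nonneg (x i)) hε.le]
  have hvm : Measurable fun x : Vn m => x i / (x i ^ 2 + ε ^ 2) :=
    hcm.div ((hcm.pow_const 2).add_const _)
  set u : Vn m → ℝ := fun x => f x ^ 2 * (x i / (x i ^ 2 + ε ^ 2)) with hu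
  set du : Vn m → ℝ := fun x => 2 * f x * fderiv ℝ f x (ee i) * (x i / (x i ^ 2 + ε ^ 2)) +
    f x ^ 2 * ((ε ^ 2 - x i ^ 2) / (x i ^ 2 + ε ^ 2) ^ 2) with hdu
  have hco : ∀ x : Vn m, HasFDerivAt (fun x : Vn m => x i) (co i) x := fun x => (co i).hasFDerivAt
  have hud : ∀ x, HasFDerivAt u (f x ^ 2 • ((1 / (x i ^ 2 + ε ^ 2)) • co i -
      (x i / (x i ^ 2 + ε ^ 2) ^ 2) • (2 * x i) • co i) +
      (x i / (x i ^ 2 + ε ^ 2)) • (2 * f x) • fderiv ℝ f x) x := by
    intro x
    have h1 : HasFDerivAt (fun x : Vn m => x i / (x i ^ 2 + ε ^ 2))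
        ((1 / (x i ^ 2 + ε ^ 2)) • co i - (x i / (x i ^ 2 + ε ^ 2) ^ 2) • (2 * x i) • co i) x := by
      have h2 : HasDerivAt (fun s : ℝ => s / (s ^ 2 + ε ^ 2))
          ((1 * (x i ^ 2 + ε ^ 2) - x i * (2 * x i)) / (x i ^ 2 + ε ^ 2) ^ 2) (x i) := by
        have h3 : HasDerivAt (fun s : ℝ => s ^ 2 + ε ^ 2) (2 * x i) (x i) := by
          have := (hasDerivAt_pow 2 (x i)).add_const (ε ^ 2)
          simpa using this
        exact (hasDerivAt_id (x i)).div h3 (hq x).ne'
      have h4 := h2.comp_hasFDerivAt x (hco x)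
      refine h4.congr_fderiv ?_
      ext w
      simp only [smul_apply, sub_apply, smul_eq_mul]
      have := (hq x).ne'
      field_simp
    have h5 : HasFDerivAt (fun x => f x ^ 2) ((2 * f x) • fderiv ℝ f x) x := by
      have := (hd x).hasFDerivAt.pow 2
      simpa using this
    have h6 := h5.mul h1
    exact h6
  have hudiff : Differentiable ℝ u := fun x => (hud x).differentiableAt
  have hufd : ∀ x, fderiv ℝ u x (ee i) = du x := by
    intro x
    rw [(hud x).fderiv]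
    simp only [add_apply, smul_apply, sub_apply, smul_eq_mul, co_apply, ee_apply, if_true, hdu]
    have := (hq x).ne'
    field_simp
    ring
  have hhd : ∀ x, HasFDerivAt h (Real.exp (-W x) • (-fderiv ℝ W x)) x := by
    intro x
    have h2 := ((hWd x).hasFDerivAt.neg).exp
    refine h2.congr_of_eventuallyEq (Eventually.of_forall fun z => ?_)
    exact hW z
  have hhdiff : Differentiable ℝ h := fun x => (hhd x).differentiableAt
  have hhfd : ∀ x, fderiv ℝ h x (ee i) = -(fderiv ℝ W x (ee i) * h x) := by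
    intro x
    rw [(hhd x).fderiv, hW x]
    simp only [smul_apply, neg_apply, smul_eq_mul]
    ring
  have hf2 : ∀ x, f x ^ 2 ≤ A ^ 2 := by
    intro x
    have h1 : |f x| ^ 2 ≤ A ^ 2 := by
      have := hA x
      gcongr
    rwa [sq_abs] at h1
  have hub : ∀ x, |u x| ≤ A ^ 2 / ε := by
    intro x
    simp only [hu]
    rw [abs_mul, abs_of_nonneg (sq_nonneg (f x)), div_eq_mul_one_div (A ^ 2) ε]
    exact mul_le_mul (hf2 x) (hv x) (abs_nonneg _) (sq_nonneg _)
  have hum : Measurable u := hudiff.continuous.measurable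
  have hee : ‖(ee i : Vn m)‖ = 1 := by
    unfold ee
    simp
  have hfK : ∀ x, |fderiv ℝ f x (ee i)| ≤ K := by
    intro x
    have h1 := (fderiv ℝ f x).le_opNorm (ee i)
    rw [hee, mul_one, Real.norm_eq_abs] at h1
    exact h1.trans (norm_fderiv_le_of_lipschitz ℝ hK)
  -- integrability
  have hconst : ∀ {φ : Vn m → ℝ}, Measurable φ → ∀ {C : ℝ}, (∀ x, |φ x| ≤ C) →
      Integrable fun x => φ x * h x := by
    intro φ hφ C hC
    refine H.int_poly hδ hφ (C := C) fun x => ?_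
    have h1 : 0 ≤ C := (abs_nonneg _).trans (hC x)
    have h2 : 0 ≤ C * ‖x‖ ^ 2 := by positivity
    linarith [hC x]
  have hdum : Measurable du := by
    have : du = fun x => fderiv ℝ u x (ee i) := by
      funext x
      exact (hufd x).symm
    rw [this]
    exact measurable_fderiv_apply_const ℝ u (ee i)
  have hdub : ∀ x, |du x| ≤ 2 * A * K * (1 / ε) + A ^ 2 * (1 / ε ^ 2) := by
    intro x
    simp only [hdu]
    refine (abs_add_le _ _).trans (add_le_add ?_ ?_)
    · rw [abs_mul, abs_mul, abs_mul, abs_two]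
      have h1 := hA x
      have h2 := hfK x
      have h3 := hv x
      gcongr
    · rw [abs_mul, abs_of_nonneg (sq_nonneg (f x))]
      refine mul_le_mul (hf2 x) ?_ (abs_nonneg _) (sq_nonneg _)
      rw [abs_div, abs_of_pos (pow_pos (hq x) 2), div_le_div_iff₀ (pow_pos (hq x) 2) (by positivity)]
      have h1 : |ε ^ 2 - x i ^ 2| ≤ x i ^ 2 + ε ^ 2 := by
        rw [abs_le]
        constructor <;> nlinarith [sq_nonneg ε, sq_nonneg (x i)]
      have h2 : ε ^ 2 ≤ x i ^ 2 + ε ^ 2 := by nlinarith [sq_nonneg (x i)]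
      calc |ε ^ 2 - x i ^ 2| * ε ^ 2 ≤ (x i ^ 2 + ε ^ 2) * (x i ^ 2 + ε ^ 2) :=
            mul_le_mul h1 h2 (sq_nonneg _) (hq x).le
        _ = 1 * (x i ^ 2 + ε ^ 2) ^ 2 := by ring
  have i1 : Integrable fun x => u x * h x := hconst hum hub
  have i2 : Integrable fun x => du x * h x := hconst hdum hdub
  have i3 : Integrable fun x => (u x * fderiv ℝ W x (ee i)) * h x := by
    refine H.int_poly hδ (hum.mul (measurable_fderiv_apply_const ℝ W (ee i)))
      (C := 2 * ((A ^ 2 / ε) * (‖fderiv ℝ W 0‖ + |L|))) fun x => ?_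
    rw [abs_mul]
    have h1 : |fderiv ℝ W x (ee i)| ≤ (‖fderiv ℝ W 0‖ + |L|) * (1 + ‖x‖) := by
      have h2 : ‖fderiv ℝ W x‖ ≤ ‖fderiv ℝ W x - fderiv ℝ W 0‖ + ‖fderiv ℝ W 0‖ := by
        have := norm_add_le (fderiv ℝ W x - fderiv ℝ W 0) (fderiv ℝ W 0)
        rwa [sub_add_cancel] at this
      have h3 := hWL x 0
      rw [sub_zero] at h3
      have h4 : L * ‖x‖ ≤ |L| * ‖x‖ := mul_le_mul_of_nonneg_right (le_abs_self L) (norm_nonneg x)
      have h5 := norm_nonneg x
      have h6 := norm_nonneg (fderiv ℝ W 0)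
      have h7 := abs_nonneg L
      have h8 := (fderiv ℝ W x).le_opNorm (ee i)
      rw [hee, mul_one, Real.norm_eq_abs] at h8
      nlinarith
    have hgr1 : 1 + ‖x‖ ≤ 2 * (1 + ‖x‖ ^ 2) := by
      nlinarith [sq_nonneg (‖x‖ - 1), norm_nonneg x]
    have hD : 0 ≤ (A ^ 2 / ε) * (‖fderiv ℝ W 0‖ + |L|) := by positivity
    calc |u x| * |fderiv ℝ W x (ee i)| ≤ (A ^ 2 / ε) * ((‖fderiv ℝ W 0‖ + |L|) * (1 + ‖x‖)) :=
          mul_le_mul (hub x) h1 (abs_nonneg _) (by positivity)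
      _ = ((A ^ 2 / ε) * (‖fderiv ℝ W 0‖ + |L|)) * (1 + ‖x‖) := by ring
      _ ≤ ((A ^ 2 / ε) * (‖fderiv ℝ W 0‖ + |L|)) * (2 * (1 + ‖x‖ ^ 2)) :=
          mul_le_mul_of_nonneg_left hgr1 hD
      _ = _ := by ring
  have i4 : Integrable fun x => u x * fderiv ℝ h x (ee i) := by
    refine i3.neg.congr (Eventually.of_forall fun x => ?_)
    simp only [Pi.neg_apply]
    rw [hhfd x]
    ring
  have i2' : Integrable fun x => fderiv ℝ u x (ee i) * h x := by
    refine i2.congr (Eventually.of_forall fun x => ?_)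
    simp only
    rw [hufd x]
  have key := integral_mul_fderiv_eq_neg_fderiv_mul_of_integrable (μ := (volume : Measure (Vn m)))
    (f := u) (g := h) (v := ee i) i2' i4 i1 (fun x _ => hudiff x) (fun x _ => hhdiff x)
  have e1 : ∫ x, u x * fderiv ℝ h x (ee i) = -∫ x, (u x * fderiv ℝ W x (ee i)) * h x := by
    rw [← integral_neg]
    refine integral_congr_ae (Eventually.of_forall fun x => ?_)
    change u x * fderiv ℝ h x (ee i) = -((u x * fderiv ℝ W x (ee i)) * h x)
    rw [hhfd x]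
    ring
  have e2 : ∫ x, fderiv ℝ u x (ee i) * h x = ∫ x, du x * h x := by
    refine integral_congr_ae (Eventually.of_forall fun x => ?_)
    simp only
    rw [hufd x]
  have hpos : 0 ≤ ∫ x, (u x * fderiv ℝ W x (ee i)) * h x := by
    refine integral_nonneg fun x => mul_nonneg ?_ (H.pos x).le
    have h1 := hardy_sign H hW hWd i x
    have h2 : u x * fderiv ℝ W x (ee i) =
        (f x ^ 2 / (x i ^ 2 + ε ^ 2)) * (x i * fderiv ℝ W x (ee i)) := by
      simp only [hu]
      ring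
    rw [h2]
    exact mul_nonneg (div_nonneg (sq_nonneg _) (hq x).le) h1
  have h0 : 0 ≤ ∫ x, du x * h x := by
    rw [e1, e2] at key
    linarith
  have j1 : Integrable fun x => (f x * (x i / (x i ^ 2 + ε ^ 2))) ^ 2 * h x := by
    refine hconst ((hfm.mul hvm).pow_const 2) (C := (A * (1 / ε)) ^ 2) fun x => ?_
    rw [abs_pow, abs_mul]
    have h1 := hA x
    have h2 := hv x
    gcongr
  have j2 : Integrable fun x => (fderiv ℝ f x (ee i)) ^ 2 * h x := by
    refine hconst ((measurable_fderiv_apply_const ℝ f (ee i)).pow_const 2) (C := (K : ℝ) ^ 2)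
      fun x => ?_
    rw [abs_pow]
    have h2 := hfK x
    gcongr
  have j3 : Integrable fun x : Vn m => ε ^ 2 / (x i ^ 2 + ε ^ 2) * h x := by
    refine hconst (measurable_const.div ((hcm.pow_const 2).add_const _)) (C := 1) fun x => ?_
    rw [abs_of_nonneg (div_nonneg (sq_nonneg _) (hq x).le), div_le_one (hq x)]
    nlinarith [sq_nonneg (x i)]
  have hpt : ∀ x, du x * h x ≤
      -(1 / 2) * ((f x * (x i / (x i ^ 2 + ε ^ 2))) ^ 2 * h x) +
        2 * ((fderiv ℝ f x (ee i)) ^ 2 * h x) + K ^ 2 * (ε ^ 2 / (x i ^ 2 + ε ^ 2) * h x) := by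
    intro x
    have h1 : du x ≤ -(1 / 2) * (f x * (x i / (x i ^ 2 + ε ^ 2))) ^ 2 +
        2 * (fderiv ℝ f x (ee i)) ^ 2 + K ^ 2 * (ε ^ 2 / (x i ^ 2 + ε ^ 2)) := by
      simp only [hdu]
      have e3 : (ε ^ 2 - x i ^ 2) / (x i ^ 2 + ε ^ 2) ^ 2 =
          - (x i / (x i ^ 2 + ε ^ 2)) ^ 2 + ε ^ 2 / (x i ^ 2 + ε ^ 2) ^ 2 := by
        have := (hq x).ne'
        field_simp
        ring
      rw [e3]
      have h2 : f x ^ 2 * (ε ^ 2 / (x i ^ 2 + ε ^ 2) ^ 2) ≤
          K ^ 2 * (ε ^ 2 / (x i ^ 2 + ε ^ 2)) := by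
        have h3 : f x ^ 2 ≤ K ^ 2 * (x i ^ 2 + ε ^ 2) := by
          have h4 : |f x| ^ 2 ≤ (K * |x i|) ^ 2 := by
            have := hKi x
            gcongr
          rw [sq_abs, mul_pow, sq_abs] at h4
          nlinarith [mul_nonneg (sq_nonneg (K : ℝ)) (sq_nonneg ε)]
        calc f x ^ 2 * (ε ^ 2 / (x i ^ 2 + ε ^ 2) ^ 2) ≤
            (K ^ 2 * (x i ^ 2 + ε ^ 2)) * (ε ^ 2 / (x i ^ 2 + ε ^ 2) ^ 2) := by
              refine mul_le_mul_of_nonneg_right h3 ?_
              positivity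
          _ = K ^ 2 * (ε ^ 2 / (x i ^ 2 + ε ^ 2)) := by
              have := (hq x).ne'
              field_simp
      set V : ℝ := x i / (x i ^ 2 + ε ^ 2) with hV
      set D : ℝ := fderiv ℝ f x (ee i) with hD
      nlinarith [sq_nonneg (f x * V - 2 * D)]
    have h2 := mul_le_mul_of_nonneg_right h1 (H.pos x).le
    refine h2.trans (le_of_eq ?_)
    ring
  have h1 : ∫ x, du x * h x ≤ ∫ x, (-(1 / 2) * ((f x * (x i / (x i ^ 2 + ε ^ 2))) ^ 2 * h x) +
        2 * ((fderiv ℝ f x (ee i)) ^ 2 * h x) + K ^ 2 * (ε ^ 2 / (x i ^ 2 + ε ^ 2) * h x)) := by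
    refine integral_mono i2 (((j1.const_mul _).add (j2.const_mul _)).add (j3.const_mul _)) hpt
  have k12 : Integrable fun x => -(1 / 2) * ((f x * (x i / (x i ^ 2 + ε ^ 2))) ^ 2 * h x) +
      2 * ((fderiv ℝ f x (ee i)) ^ 2 * h x) := (j1.const_mul _).add (j2.const_mul _)
  rw [integral_add k12 (j3.const_mul _),
    integral_add (j1.const_mul _) (j2.const_mul _), integral_const_mul, integral_const_mul,
    integral_const_mul] at h1
  unfold aE
  linarith

theorem hardy_odd (H : UW δ L h) (hδ : 0 < δ) {f : Vn m → ℝ} (hf : BL f)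
    (hd : Differentiable ℝ f) {i : Fin m} (hodd : ∀ x, f (fl i x) = - f x) :
    Integrable (fun x => f x ^ 2 / (x i) ^ 2 * h x) ∧
      ∫ x, f x ^ 2 / (x i) ^ 2 * h x ≤ 4 * aE h f i := by
  obtain ⟨K, hK⟩ := hf.1
  have hKi := hardy_lip hK hodd
  have hcm : Measurable fun x : Vn m => x i := (co i).continuous.measurable
  have hfm : Measurable f := hd.continuous.measurable
  have hK0 : (0 : ℝ) ≤ K := K.2
  have hint : Integrable (fun x => f x ^ 2 / (x i) ^ 2 * h x) := by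
    refine H.int_poly hδ ((hfm.pow_const 2).div (hcm.pow_const 2)) (C := (K : ℝ) ^ 2) fun x => ?_
    have h1 : |f x ^ 2 / (x i) ^ 2| ≤ K ^ 2 := by
      rw [abs_of_nonneg (div_nonneg (sq_nonneg _) (sq_nonneg _)), ← sq_abs (f x), ← sq_abs (x i)]
      have h2 : |f x| ^ 2 ≤ (K * |x i|) ^ 2 := by
        have := hKi x
        gcongr
      rw [mul_pow] at h2
      exact div_le_of_le_mul₀ (sq_nonneg _) (sq_nonneg _) h2
    have h2 : 0 ≤ (K : ℝ) ^ 2 * ‖x‖ ^ 2 := by positivity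
    linarith
  refine ⟨hint, ?_⟩
  set e : ℕ → ℝ := fun n => 1 / ((n : ℝ) + 1) with he
  have he0 : ∀ n, 0 < e n := fun n => by simp only [he]; positivity
  have het : Tendsto e atTop (𝓝 0) := tendsto_one_div_add_atTop_nhds_zero_nat
  have hn : ∀ n, ∫ x, (f x * (x i / (x i ^ 2 + e n ^ 2))) ^ 2 * h x ≤
      4 * aE h f i + 2 * K ^ 2 * ∫ x, e n ^ 2 / (x i ^ 2 + e n ^ 2) * h x :=
    fun n => hardy_eps H hδ hf hd hK hKi (he0 n)
  have hq : ∀ (n : ℕ) (x : Vn m), 0 < x i ^ 2 + e n ^ 2 := fun n x => by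
    have := he0 n
    positivity
  have he2 : ∀ x : Vn m, Tendsto (fun n => x i ^ 2 + e n ^ 2) atTop (𝓝 (x i ^ 2)) := by
    intro x
    have h1 := (het.pow 2).const_add (x i ^ 2)
    simpa using h1
  have t1 : Tendsto (fun n => ∫ x, (f x * (x i / (x i ^ 2 + e n ^ 2))) ^ 2 * h x) atTop
      (𝓝 (∫ x, f x ^ 2 / (x i) ^ 2 * h x)) := by
    refine tendsto_integral_of_dominated_convergence (fun x => (K : ℝ) ^ 2 * h x) ?_
      ((H.int hδ).const_mul _) ?_ ?_
    · intro n
      exact (((hfm.mul (hcm.div ((hcm.pow_const 2).add_const _))).pow_const 2).mul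
        H.cont.measurable).aestronglyMeasurable
    · intro n
      refine Eventually.of_forall fun x => ?_
      rw [Real.norm_eq_abs, abs_mul, abs_of_pos (H.pos x), abs_pow, abs_mul]
      refine mul_le_mul_of_nonneg_right ?_ (H.pos x).le
      have h1 : |f x| * |x i / (x i ^ 2 + e n ^ 2)| ≤ K := by
        rw [abs_div, abs_of_pos (hq n x), mul_div_assoc', div_le_iff₀ (hq n x)]
        have h2 := mul_le_mul_of_nonneg_right (hKi x) (abs_nonneg (x i))
        have h3 : |x i| * |x i| = x i ^ 2 := by rw [← sq, sq_abs]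
        nlinarith [mul_nonneg hK0 (sq_nonneg (e n))]
      have h2 : 0 ≤ |f x| * |x i / (x i ^ 2 + e n ^ 2)| := by positivity
      gcongr
    · filter_upwards [ae_ne i 0] with x hx
      have h1 : Tendsto (fun n => (f x * (x i / (x i ^ 2 + e n ^ 2))) ^ 2 * h x) atTop
          (𝓝 ((f x * (x i / x i ^ 2)) ^ 2 * h x)) := by
        have h2 := (tendsto_const_nhds (x := x i)).div (he2 x) (pow_ne_zero 2 hx)
        exact ((h2.const_mul (f x)).pow 2).mul_const (h x)
      have h2 : (f x * (x i / x i ^ 2)) ^ 2 * h x = f x ^ 2 / (x i) ^ 2 * h x := by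
        field_simp
      rwa [h2] at h1
  have t2 : Tendsto (fun n => ∫ x : Vn m, e n ^ 2 / (x i ^ 2 + e n ^ 2) * h x) atTop (𝓝 0) := by
    have h0 : (0 : ℝ) = ∫ x : Vn m, (0 : ℝ) := by simp
    rw [h0]
    refine tendsto_integral_of_dominated_convergence (fun x => h x) ?_ (H.int hδ) ?_ ?_
    · intro n
      exact ((measurable_const.div ((hcm.pow_const 2).add_const _)).mul
        H.cont.measurable).aestronglyMeasurable
    · intro n
      refine Eventually.of_forall fun x => ?_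
      rw [Real.norm_eq_abs, abs_mul, abs_of_pos (H.pos x),
        abs_of_nonneg (div_nonneg (sq_nonneg _) (hq n x).le)]
      have h1 : e n ^ 2 / (x i ^ 2 + e n ^ 2) ≤ 1 := by
        rw [div_le_one (hq n x)]
        nlinarith [sq_nonneg (x i)]
      have := (H.pos x).le
      nlinarith
    · filter_upwards [ae_ne i 0] with x hx
      have h1 : Tendsto (fun n => e n ^ 2 / (x i ^ 2 + e n ^ 2) * h x) atTop
          (𝓝 (0 ^ 2 / x i ^ 2 * h x)) :=
        ((het.pow 2).div (he2 x) (pow_ne_zero 2 hx)).mul_const (h x)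
      have h2 : (0 : ℝ) ^ 2 / x i ^ 2 * h x = 0 := by simp
      rwa [h2] at h1
  have t3 : Tendsto (fun n => 4 * aE h f i +
      2 * K ^ 2 * ∫ x : Vn m, e n ^ 2 / (x i ^ 2 + e n ^ 2) * h x) atTop (𝓝 (4 * aE h f i)) := by
    have h1 := (t2.const_mul (2 * (K : ℝ) ^ 2)).const_add (4 * aE h f i)
    simpa using h1
  exact le_of_tendsto_of_tendsto' t1 t3 hn

end Pool.Agent.Lib.MP_8d00da_gt.h42u
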