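import Pool.Agent.Lib.MP_8d00da_gt.h42u.UTstep

/-!
# U11: the sharp Harnack inequality for the iterated round trip

Full proof. First let `f ≥ e > 0`. Claim (induction on `m ≥ 1`): with `u = (RT h η)^[m] f`,
`w = (RT h η)^[m] (f²)`: `u`, `w` are `BL`, `u ≥ e`, `w ≥ e²` and `u z ^ 2 ≤ w z' exp (c ‖z-z'‖²)`
with `c = 1/(2 m η)`. One round trip `RT = SS ∘ AA` consists of two half steps. Given
`u z ^2 ≤ w z' exp (c ‖z-z'‖²)` put `v = √w` (`BL` since `w ≥ e²`), then
`u z ≤ v z' exp (c ‖z-z'‖²/2)`, and `tstep H` gives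
`(AA u y)² ≤ AA w y' exp (c' ‖y-y'‖²)`, `c' = c/(1+cη)`, that is `1/c' = 1/c + η`; then `tstep pw_one`
(`SS η = AA (fun _ => 1) η`) gives `1/c'' = 1/c' + η`; for `c = 1/(2mη)`: `c'' = 1/(2(m+1)η)`. Start
`m = 1`: `renyi` for the `AA` step (`c = 1/η`), then `tstep pw_one`. Iterates: `RT_props`,
`Wt.AA_abs_le`, `Wt.AA_lip`; lower bound: `AA` and `SS` are monotone and preserve constants.
`Function.iterate_succ_apply'`.
General `f ≥ 0`: apply this to `f + e`: `(RT^m f x)² ≤ (RT^m (f+e) x)²` (monotone, nonnegative) and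
`RT^m ((f+e)²) y = RT^m (f²) y + 2 e RT^m f y + e²` (linearity, `RT 1 = 1`), let `e → 0`.
-/

namespace Pool.Agent.Lib.MP_8d00da_gt.h42u

open MeasureTheory Set Filter
open Pool.Agent.Lib.MP_8d00da_gt.h25 Pool.Agent.Lib.MP_8d00da_gt.h42
open Pool.Agent.Lib.MP_8d00da_gt.h42s Pool.Agent.Lib.MP_8d00da_gt.h42o
open scoped Topology NNReal
 
variable {F : Type*} [NormedAddCommGroup F] [InnerProductSpace ℝ F]
    [FiniteDimensional ℝ F] [MeasurableSpace F] [BorelSpace F]

variable {h W : F → ℝ} {B L η : ℝ}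

private lemma bl_meas {f : F → ℝ} (hf : BL f) : Measurable f := by
  obtain ⟨⟨K, hK⟩, -⟩ := hf
  exact hK.continuous.measurable

private lemma aa_BL (H : Wt h B) (hη : 0 < η) {f : F → ℝ} (hf : BL f) : BL (AA h η f) := by
  have hm := bl_meas hf
  obtain ⟨-, A, hA⟩ := hf
  have hA0 : 0 ≤ A := (abs_nonneg _).trans (hA 0)
  exact ⟨⟨_, H.AA_lip hη hm hA0 hA⟩, A, H.AA_abs_le hη hm hA⟩

private lemma aa_int (H : Wt h B) (hη : 0 < η) {f : F → ℝ} (hf : BL f) (y : F) :
    Integrable fun x => f x * h x * ker η (y - x) := by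
  have hm := bl_meas hf
  obtain ⟨-, A, hA⟩ := hf
  exact cv_integrable hη (hm.mul H.meas) (H.mul_bdd hA) y

private lemma aa_mono (H : Wt h B) (hη : 0 < η) {f g : F → ℝ} (hf : BL f) (hg : BL g)
    (hfg : ∀ x, f x ≤ g x) (y : F) : AA h η f y ≤ AA h η g y := by
  unfold AA
  refine div_le_div_of_nonneg_right ?_ (H.Z_pos hη y).le
  unfold cv
  refine integral_mono (aa_int H hη hf y) (aa_int H hη hg y) fun x => ?_
  exact mul_le_mul_of_nonneg_right (mul_le_mul_of_nonneg_right (hfg x) (H.nonneg x))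
    (ker_pos _).le

private lemma aa_smul (k : ℝ) (f : F → ℝ) (y : F) :
    AA h η (fun x => k * f x) y = k * AA h η f y := by
  unfold AA
  rw [← mul_div_assoc]
  congr 1
  unfold cv
  rw [← integral_const_mul]
  refine integral_congr_ae (Eventually.of_forall fun x => ?_)
  simp only
  ring

private lemma aa_add (H : Wt h B) (hη : 0 < η) {f g : F → ℝ} (hf : BL f) (hg : BL g) (y : F) :
    AA h η (fun x => f x + g x) y = AA h η f y + AA h η g y := by
  unfold AA
  rw [← add_div]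
  congr 1
  unfold cv
  rw [← integral_add (aa_int H hη hf y) (aa_int H hη hg y)]
  refine integral_congr_ae (Eventually.of_forall fun x => ?_)
  simp only
  ring

private lemma aa_one (H : Wt h B) (hη : 0 < η) (y : F) : AA h η (fun _ => (1:ℝ)) y = 1 := by
  unfold AA
  simp only [one_mul]
  exact div_self (H.Z_pos hη y).ne'

private lemma aa_const (H : Wt h B) (hη : 0 < η) (k : ℝ) (y : F) :
    AA h η (fun _ => k) y = k := by
  have h1 := aa_smul (h := h) (η := η) k (fun _ => 1) y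
  simp only [mul_one] at h1
  rw [h1, aa_one H hη, mul_one]

/-- the conclusion of one half step for `w = v ^ 2` -/
private lemma half (H : PW L B h W) (hL : 0 ≤ L) (hη : 0 < η) {u w : F → ℝ} (hu : BL u)
    (hw : BL w) {e : ℝ} (he : 0 < e) (hue : ∀ x, e ≤ u x) (hwe : ∀ x, e ^ 2 ≤ w x) {c : ℝ}
    (hc : 0 < c) (huw : ∀ z z', u z ^ 2 ≤ w z' * Real.exp (c * ‖z - z'‖ ^ 2)) :
    BL (AA h η u) ∧ BL (AA h η w) ∧ (∀ x, e ≤ AA h η u x) ∧ (∀ x, e ^ 2 ≤ AA h η w x) ∧
      ∀ z z', AA h η u z ^ 2 ≤ AA h η w z' * Real.exp (c / (1 + c * η) * ‖z - z'‖ ^ 2) := by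
  refine ⟨aa_BL H.wt hη hu, aa_BL H.wt hη hw, fun x => ?_, fun x => ?_, fun z z' => ?_⟩
  · have h1 := aa_mono H.wt hη (BL.const e) hu hue x
    rwa [aa_const H.wt hη] at h1
  · have h1 := aa_mono H.wt hη (BL.const (e ^ 2)) hw hwe x
    rwa [aa_const H.wt hη] at h1
  · have hw0 : ∀ x, 0 ≤ w x := fun x => (sq_nonneg e).trans (hwe x)
    have hvs : ∀ x, √(w x) ^ 2 = w x := fun x => Real.sq_sqrt (hw0 x)
    have hve : ∀ x, e ≤ √(w x) := fun x => Real.le_sqrt_of_sq_le (hwe x)
    have hv : BL (fun x => √(w x)) := by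
      obtain ⟨⟨K, hK⟩, A, hA⟩ := hw
      refine ⟨⟨Real.toNNReal (K / e), ?_⟩, √A, fun x => ?_⟩
      · refine LipschitzWith.of_dist_le_mul fun x y => ?_
        rw [Real.coe_toNNReal _ (by positivity), Real.dist_eq]
        have h1 := hK.dist_le_mul x y
        rw [Real.dist_eq] at h1
        have h2 : w x - w y = (√(w x) - √(w y)) * (√(w x) + √(w y)) := by
          have e1 := hvs x
          have e2 := hvs y
          linear_combination e2 - e1
        have h3 : |√(w x) - √(w y)| * e ≤ |w x - w y| := by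
          rw [h2, abs_mul]
          refine mul_le_mul_of_nonneg_left ?_ (abs_nonneg _)
          have h4 := hve x
          have h5 := Real.sqrt_nonneg (w y)
          exact (by linarith : e ≤ √(w x) + √(w y)).trans (le_abs_self _)
        rw [div_mul_eq_mul_div, le_div_iff₀ he]
        exact h3.trans h1
      · rw [abs_of_nonneg (Real.sqrt_nonneg _)]
        exact Real.sqrt_le_sqrt ((le_abs_self _).trans (hA x))
    have h1 := tstep H hL hη hu hv (fun x => he.le.trans (hue x)) (fun x => Real.sqrt_nonneg _) hc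
      (fun x y => by
        have h2 := huw x y
        have h3 : w y * Real.exp (c * ‖x - y‖ ^ 2) =
            (√(w y) * Real.exp (c * ‖x - y‖ ^ 2 / 2)) ^ 2 := by
          rw [mul_pow, hvs, ← Real.exp_nat_mul]
          congr 2
          push_cast
          ring
        rw [h3] at h2
        exact (abs_le_of_sq_le_sq' h2 (by positivity)).2) z z'
    simp only [hvs] at h1
    exact h1

private lemma harnack_pos (H : PW L B h W) (hL : 0 ≤ L) (hη : 0 < η) {f : F → ℝ} (hf : BL f)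
    {e : ℝ} (he : 0 < e) (hfe : ∀ x, e ≤ f x) (m : ℕ) :
    BL ((RT h η)^[m + 1] f) ∧ BL ((RT h η)^[m + 1] (fun z => f z ^ 2)) ∧
      (∀ x, e ≤ (RT h η)^[m + 1] f x) ∧ (∀ x, e ^ 2 ≤ (RT h η)^[m + 1] (fun z => f z ^ 2) x) ∧
      ∀ z z', (RT h η)^[m + 1] f z ^ 2 ≤ (RT h η)^[m + 1] (fun z => f z ^ 2) z' *
        Real.exp (1 / (2 * ((m + 1 : ℕ) : ℝ) * η) * ‖z - z'‖ ^ 2) := by
  induction m with
  | zero =>
    have hf2 : BL (fun z => f z ^ 2) := by
      have h1 := hf.mul hf
      have h2 : (fun x => f x * f x) = fun z => f z ^ 2 := by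
        funext x
        ring
      rwa [h2] at h1
    have hfe2 : ∀ x, e ^ 2 ≤ f x ^ 2 := fun x => pow_le_pow_left₀ he.le (hfe x) 2
    have h1 : ∀ z z', AA h η f z ^ 2 ≤ AA h η (fun z => f z ^ 2) z' *
        Real.exp (1 / η * ‖z - z'‖ ^ 2) := by
      intro z z'
      have hm := bl_meas hf
      obtain ⟨-, A, hA⟩ := hf
      have h2 := renyi H.wt hη hm hA z z'
      rwa [div_eq_mul_one_div, mul_comm (‖z - z'‖ ^ 2)] at h2
    have h2 : ∀ x, e ≤ AA h η f x := fun x => by
      have h1 := aa_mono H.wt hη (BL.const e) hf hfe x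
      rwa [aa_const H.wt hη] at h1
    have h3 : ∀ x, e ^ 2 ≤ AA h η (fun z => f z ^ 2) x := fun x => by
      have h1 := aa_mono H.wt hη (BL.const (e ^ 2)) hf2 hfe2 x
      rwa [aa_const H.wt hη] at h1
    have h4 := half (pw_one (F := F)) le_rfl hη (aa_BL H.wt hη hf) (aa_BL H.wt hη hf2) he h2 h3
      (one_div_pos.mpr hη) h1
    have h5 : 1 / η / (1 + 1 / η * η) = 1 / (2 * ((0 + 1 : ℕ) : ℝ) * η) := by
      have : η ≠ 0 := hη.ne'
      field_simp
      push_cast
      ring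
    rw [h5] at h4
    exact h4
  | succ m ih =>
    obtain ⟨i1, i2, i3, i4, i5⟩ := ih
    have hm0 : (0:ℝ) < ((m + 1 : ℕ) : ℝ) := by positivity
    have hc : 0 < 1 / (2 * ((m + 1 : ℕ) : ℝ) * η) := by positivity
    obtain ⟨j1, j2, j3, j4, j5⟩ := half H hL hη i1 i2 he i3 i4 hc i5
    have hc1 : 0 < 1 / (2 * ((m + 1 : ℕ) : ℝ) * η) / (1 + 1 / (2 * ((m + 1 : ℕ) : ℝ) * η) * η) := by
      positivity
    have h4 := half (pw_one (F := F)) le_rfl hη j1 j2 he j3 j4 hc1 j5
    have h5 : 1 / (2 * ((m + 1 : ℕ) : ℝ) * η) / (1 + 1 / (2 * ((m + 1 : ℕ) : ℝ) * η) * η) /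
        (1 + 1 / (2 * ((m + 1 : ℕ) : ℝ) * η) / (1 + 1 / (2 * ((m + 1 : ℕ) : ℝ) * η) * η) * η) =
        1 / (2 * ((m + 1 + 1 : ℕ) : ℝ) * η) := by
      have h6 : η ≠ 0 := hη.ne'
      have h7 : ((m + 1 + 1 : ℕ) : ℝ) = ((m + 1 : ℕ) : ℝ) + 1 := by push_cast; ring
      rw [h7]
      generalize ((m + 1 : ℕ) : ℝ) = k at hm0 ⊢
      have h8 : k ≠ 0 := hm0.ne'
      field_simp
      ring
    rw [h5] at h4
    simp only [Function.iterate_succ_apply'] at i1 i2 i3 i4 i5 h4 ⊢
    exact h4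

private lemma iter_BL (H : Wt h B) (hη : 0 < η) {f : F → ℝ} (hf : BL f) (m : ℕ) :
    BL ((RT h η)^[m] f) := by
  induction m with
  | zero => exact hf
  | succ m ih =>
    rw [Function.iterate_succ_apply']
    exact aa_BL wt_one hη (aa_BL H hη ih)

private lemma iter_add (H : Wt h B) (hη : 0 < η) {f g : F → ℝ} (hf : BL f) (hg : BL g) (m : ℕ) :
    (RT h η)^[m] (fun x => f x + g x) = fun x => (RT h η)^[m] f x + (RT h η)^[m] g x := by
  induction m with
  | zero => rfl
  | succ m ih =>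
    rw [Function.iterate_succ_apply', Function.iterate_succ_apply', Function.iterate_succ_apply',
      ih]
    have hf' := iter_BL H hη hf m
    have hg' := iter_BL H hη hg m
    funext x
    have h1 : AA h η (fun x => (RT h η)^[m] f x + (RT h η)^[m] g x) =
        fun y => AA h η ((RT h η)^[m] f) y + AA h η ((RT h η)^[m] g) y := by
      funext y
      exact aa_add H hη hf' hg' y
    unfold RT SS at h1 ⊢
    rw [h1]
    exact aa_add wt_one hη (aa_BL H hη hf') (aa_BL H hη hg') x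

private lemma iter_smul (k : ℝ) (f : F → ℝ) (m : ℕ) :
    (RT h η)^[m] (fun x => k * f x) = fun x => k * (RT h η)^[m] f x := by
  induction m with
  | zero => rfl
  | succ m ih =>
    rw [Function.iterate_succ_apply', Function.iterate_succ_apply', ih]
    funext x
    have h1 : AA h η (fun x => k * (RT h η)^[m] f x) =
        fun y => k * AA h η ((RT h η)^[m] f) y := by
      funext y
      exact aa_smul k _ y
    unfold RT SS at h1 ⊢
    rw [h1]
    exact aa_smul k _ x

private lemma iter_const (H : Wt h B) (hη : 0 < η) (k : ℝ) (m : ℕ) :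
    (RT h η)^[m] (fun _ => k) = fun _ => k := by
  induction m with
  | zero => rfl
  | succ m ih =>
    rw [Function.iterate_succ_apply', ih]
    funext x
    have h1 : AA h η (fun _ => k) = fun _ => k := by
      funext y
      exact aa_const H hη k y
    unfold RT SS
    rw [h1]
    exact aa_const wt_one hη k x

private lemma iter_nonneg (H : Wt h B) (hη : 0 < η) {f : F → ℝ} (hf : BL f)
    (hf0 : ∀ x, 0 ≤ f x) (m : ℕ) : ∀ x, 0 ≤ (RT h η)^[m] f x := by
  induction m with
  | zero => exact hf0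
  | succ m ih =>
    intro x
    rw [Function.iterate_succ_apply']
    have hf' := iter_BL H hη hf m
    have h1 : ∀ y, 0 ≤ AA h η ((RT h η)^[m] f) y := fun y => by
      have h1 := aa_mono H hη (BL.const 0) hf' ih y
      rwa [aa_const H hη] at h1
    have h2 := aa_mono wt_one hη (BL.const 0) (aa_BL H hη hf') h1 x
    rwa [aa_const wt_one hη] at h2

theorem harnack (H : PW L B h W) (hL : 0 ≤ L) (hη : 0 < η) {f : F → ℝ} (hf : BL f)
    (hf0 : ∀ x, 0 ≤ f x) {m : ℕ} (hm : 1 ≤ m) (x y : F) :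
    ((RT h η)^[m] f x) ^ 2 ≤ (RT h η)^[m] (fun z => f z ^ 2) y *
      Real.exp (‖x - y‖ ^ 2 / (2 * (m * η))) := by
  obtain ⟨m, rfl⟩ : ∃ k, m = k + 1 := ⟨m - 1, by omega⟩
  have hf2 : BL (fun z => f z ^ 2) := by
    have h1 := hf.mul hf
    have h2 : (fun x => f x * f x) = fun z => f z ^ 2 := by
      funext x
      ring
    rwa [h2] at h1
  have hn := iter_nonneg H.wt hη hf hf0 (m + 1) x
  have key : ∀ e : ℝ, 0 < e → ((RT h η)^[m + 1] f x) ^ 2 ≤
      ((RT h η)^[m + 1] (fun z => f z ^ 2) y + (2 * e) * (RT h η)^[m + 1] f y + e ^ 2) *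
        Real.exp (‖x - y‖ ^ 2 / (2 * (((m + 1 : ℕ) : ℝ) * η))) := by
    intro e he
    have hfe : BL (fun z => f z + e) := hf.add (BL.const e)
    obtain ⟨-, -, -, -, h1⟩ := harnack_pos H hL hη hfe he (fun x => by
      have := hf0 x
      linarith) m
    have h2 := h1 x y
    have e1 : (RT h η)^[m + 1] (fun z => f z + e) = fun x => (RT h η)^[m + 1] f x + e := by
      rw [iter_add H.wt hη hf (BL.const e), iter_const H.wt hη]
    have hk : BL (fun z => (2 * e) * f z) := (BL.const (2 * e)).mul hf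
    have e2 : (RT h η)^[m + 1] (fun z => (f z + e) ^ 2) = fun x =>
        (RT h η)^[m + 1] (fun z => f z ^ 2) x + (2 * e) * (RT h η)^[m + 1] f x + e ^ 2 := by
      have e3 : (fun z => (f z + e) ^ 2) = fun z => (f z ^ 2 + (2 * e) * f z) + e ^ 2 := by
        funext z
        ring
      rw [e3, iter_add H.wt hη (hf2.add hk) (BL.const (e ^ 2)), iter_const H.wt hη,
        iter_add H.wt hη hf2 hk, iter_smul]
    rw [e1, e2] at h2
    have e4 : 1 / (2 * ((m + 1 : ℕ) : ℝ) * η) * ‖x - y‖ ^ 2 =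
        ‖x - y‖ ^ 2 / (2 * (((m + 1 : ℕ) : ℝ) * η)) := by
      rw [one_div, mul_comm, ← div_eq_mul_inv, mul_assoc]
    rw [e4] at h2
    refine le_trans ?_ h2
    exact pow_le_pow_left₀ hn (by linarith) 2
  have hcont : Continuous fun e : ℝ =>
      ((RT h η)^[m + 1] (fun z => f z ^ 2) y + (2 * e) * (RT h η)^[m + 1] f y + e ^ 2) *
        Real.exp (‖x - y‖ ^ 2 / (2 * (((m + 1 : ℕ) : ℝ) * η))) := by
    fun_prop
  have ht := (hcont.tendsto 0).mono_left (nhdsWithin_le_nhds (s := Ioi (0:ℝ)))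
  have h5 := ge_of_tendsto ht (by
    filter_upwards [self_mem_nhdsWithin] with e he
    exact key e he)
  simpa using h5

end Pool.Agent.Lib.MP_8d00da_gt.h42u
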