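import Pool.Agent.Lib.MP_8d00da_gt.h42u.UHarnack
import Pool.Agent.Lib.MP_8d00da_gt.h42u.URTalg
import Pool.Agent.Lib.MP_8d00da_gt.h42u.URTalg

/-!
# U27: level sets of the averaged function

Full proof. `P = RT h (t/k)`, `F = P^k g`, `M = ∫ h > 0`. `harnack` (with `H.pw hδ`, `η = t/k`,
`k * (t/k) = t`): `F x ^2 ≤ (P^k g²) y * exp (‖x-y‖²/(2t))`. Mean: `∫ (P^k g²) h = ∫ g² h ≤ v M`
(`round_mean`, iterated). Markov: `3 v ∫_{P^k g² > 3v} h ≤ v M`, so `∫_{P^k g² > 3 v} h ≤ M/3`.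
`level`: let `G` be the set, suppose `∫_G h > a M`. By `hC`: `∫_{r ≤ infDist x G} h ≤ M/2`. If
`infDist y G < r` there is `x ∈ G` with `‖x-y‖ < r` (`Metric.infDist_lt_iff`, `G` is nonempty as
`∫_G h > 0`), so `3 v exp (r²/(2t)) < F x^2 ≤ (P^k g²) y exp (r²/(2t))`, i.e. `3v < (P^k g²) y`. So
`∫_{P^k g² > 3v} h ≥ M/2 > M/3`: contradiction.
`level_ball`: if `‖x‖ < ρ`, then `‖x-y‖ ≤ r` for all `y` in the ball of radius `ρ1`, so
`(P^k g²) y > 3v` on that ball, contradiction again.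
-/

namespace Pool.Agent.Lib.MP_8d00da_gt.h42u

open MeasureTheory Set Filter
open Pool.Agent.Lib.MP_8d00da_gt.h25 Pool.Agent.Lib.MP_8d00da_gt.h42
open Pool.Agent.Lib.MP_8d00da_gt.h42s Pool.Agent.Lib.MP_8d00da_gt.h42o
open scoped Topology NNReal

variable {m : ℕ} {δ L : ℝ} {h : Vn m → ℝ}

private lemma lev_mean (H : UW δ L h) (hδ : 0 < δ) {η : ℝ} (hη : 0 < η) {u : Vn m → ℝ}
    (hu : BL u) (k : ℕ) : ∫ x, (RT h η)^[k] u x * h x = ∫ x, u x * h x := by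
  induction k with
  | zero => rfl
  | succ k ih =>
    obtain ⟨⟨K, hK⟩, A, hA⟩ := RT_iter_BL (H.wt hδ) hη hu k
    rw [← ih]
    simp only [Function.iterate_succ_apply']
    exact round_mean (H.wt hδ) (H.int hδ) hη hK hA

private lemma lev_har (H : UW δ L h) (hδ : 0 < δ) (hL : 0 ≤ L) {t : ℝ} (ht : 0 < t) {k : ℕ}
    (hk : 1 ≤ k) {g : Vn m → ℝ} (hg : BL g) (hg0 : ∀ x, 0 ≤ g x) (x y : Vn m) :
    ((RT h (t / k))^[k] g x) ^ 2 ≤ (RT h (t / k))^[k] (fun z => g z ^ 2) y *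
      Real.exp (‖x - y‖ ^ 2 / (2 * t)) := by
  obtain ⟨W, hW⟩ := H.pw hδ
  have hk0 : (0 : ℝ) < k := by exact_mod_cast hk
  have h1 := harnack hW hL (div_pos ht hk0) hg hg0 hk x y
  rwa [mul_div_cancel₀ _ hk0.ne'] at h1

private lemma lev_nonneg (H : UW δ L h) (hδ : 0 < δ) (hL : 0 ≤ L) {t : ℝ} (ht : 0 < t) {k : ℕ}
    (hk : 1 ≤ k) {g : Vn m → ℝ} (hg : BL g) (hg0 : ∀ x, 0 ≤ g x) (y : Vn m) :
    0 ≤ (RT h (t / k))^[k] (fun z => g z ^ 2) y := by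
  have h1 := lev_har H hδ hL ht hk hg hg0 y y
  simp only [sub_self, norm_zero, ne_eq, OfNat.ofNat_ne_zero, not_false_eq_true, zero_pow,
    zero_div, Real.exp_zero, mul_one] at h1
  exact (sq_nonneg _).trans h1

private lemma lev_sq {g : Vn m → ℝ} (hg : BL g) : BL (fun z => g z ^ 2) := by
  have := hg.mul hg
  simpa [sq] using this

private lemma lev_markov (H : UW δ L h) (hδ : 0 < δ) (hL : 0 ≤ L) {t : ℝ} (ht : 0 < t) {k : ℕ}
    (hk : 1 ≤ k) {g : Vn m → ℝ} (hg : BL g) (hg0 : ∀ x, 0 ≤ g x) {v : ℝ} (hv : 0 < v)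
    (hgv : ∫ x, g x ^ 2 * h x ≤ v * ∫ x, h x) {S : Set (Vn m)}
    (hS : ∀ y ∈ S, 3 * v < (RT h (t / k))^[k] (fun z => g z ^ 2) y) (hSm : MeasurableSet S) :
    ∫ x in S, h x ≤ (1 / 3) * ∫ x, h x := by
  have hk0 : (0 : ℝ) < k := by exact_mod_cast hk
  have hη : 0 < t / k := div_pos ht hk0
  have hQ := RT_iter_BL (H.wt hδ) hη (lev_sq hg) k
  set Q := (RT h (t / k))^[k] (fun z => g z ^ 2) with hQd
  obtain ⟨⟨K, hK⟩, A, hA⟩ := hQ
  have hQi : Integrable fun x => Q x * h x :=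
    bdd_int (H.int hδ) hK.continuous.measurable hA
  have hQ0 : ∀ y, 0 ≤ Q y := lev_nonneg H hδ hL ht hk hg hg0
  have h1 : ∫ x, Q x * h x = ∫ x, g x ^ 2 * h x := lev_mean H hδ hη (lev_sq hg) k
  have h2 : ∫ x in S, (3 * v) * h x ≤ ∫ x in S, Q x * h x :=
    setIntegral_mono_on ((H.int hδ).const_mul _).integrableOn hQi.integrableOn hSm
      (fun x hx => mul_le_mul_of_nonneg_right (hS x hx).le (H.pos x).le)
  have h3 : ∫ x in S, Q x * h x ≤ ∫ x, Q x * h x :=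
    setIntegral_le_integral hQi (Eventually.of_forall fun x => mul_nonneg (hQ0 x) (H.pos x).le)
  rw [integral_const_mul] at h2
  have h4 : (3 * v) * ∫ x in S, h x ≤ v * ∫ x, h x := by linarith
  have h5 : v * (3 * ∫ x in S, h x) ≤ v * ∫ x, h x := by linarith
  have h6 := le_of_mul_le_mul_left h5 hv
  linarith

private lemma lev_cont (H : UW δ L h) (hδ : 0 < δ) {t : ℝ} (ht : 0 < t) {k : ℕ}
    (hk : 1 ≤ k) {g : Vn m → ℝ} (hg : BL g) : Continuous ((RT h (t / k))^[k] g) := by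
  have hk0 : (0 : ℝ) < k := by exact_mod_cast hk
  obtain ⟨⟨K, hK⟩, -⟩ := RT_iter_BL (H.wt hδ) (div_pos ht hk0) hg k
  exact hK.continuous

private lemma lev_key (H : UW δ L h) (hδ : 0 < δ) (hL : 0 ≤ L) {t r : ℝ} (ht : 0 < t) {k : ℕ}
    (hk : 1 ≤ k) {g : Vn m → ℝ} (hg : BL g) (hg0 : ∀ x, 0 ≤ g x) {v : ℝ} {x y : Vn m}
    (hx : 3 * v * Real.exp (r ^ 2 / (2 * t)) < ((RT h (t / k))^[k] g x) ^ 2)
    (hxy : ‖x - y‖ ≤ r) : 3 * v < (RT h (t / k))^[k] (fun z => g z ^ 2) y := by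
  have h1 := lev_har H hδ hL ht hk hg hg0 x y
  have h2 := lev_nonneg H hδ hL ht hk hg hg0 y
  have h3 : Real.exp (‖x - y‖ ^ 2 / (2 * t)) ≤ Real.exp (r ^ 2 / (2 * t)) := by
    have := norm_nonneg (x - y)
    gcongr
  have h4 : 3 * v * Real.exp (r ^ 2 / (2 * t)) <
      (RT h (t / k))^[k] (fun z => g z ^ 2) y * Real.exp (r ^ 2 / (2 * t)) :=
    (hx.trans_le h1).trans_le (mul_le_mul_of_nonneg_left h3 h2)
  exact lt_of_mul_lt_mul_right h4 (Real.exp_pos _).le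

theorem level (H : UW δ L h) (hδ : 0 < δ) (hL : 0 ≤ L) {κ c : ℝ} (hC : Conc κ c h) {t r : ℝ}
    (ht : 0 < t) (hr : 0 ≤ r) {k : ℕ} (hk : 1 ≤ k) {g : Vn m → ℝ} (hg : BL g)
    (hg0 : ∀ x, 0 ≤ g x) {v a : ℝ} (hv : 0 < v) (ha : 0 < a)
    (hgv : ∫ x, g x ^ 2 * h x ≤ v * ∫ x, h x) (hκ : Real.log (1 / a) + c ≤ κ * r) :
    ∫ x in {x : Vn m | 3 * v * Real.exp (r ^ 2 / (2 * t)) < ((RT h (t / k))^[k] g x) ^ 2}, h x ≤
      a * ∫ x, h x := by
  by_contra hcon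
  push Not at hcon
  set G := {x : Vn m | 3 * v * Real.exp (r ^ 2 / (2 * t)) < ((RT h (t / k))^[k] g x) ^ 2} with hG
  have hGm : MeasurableSet G :=
    (isOpen_lt continuous_const ((lev_cont H hδ ht hk hg).pow 2)).measurableSet
  have hM := H.mass hδ
  have h1 := hC G hGm a ha r hr hcon.le hκ
  have hGne : G.Nonempty := by
    by_contra hne
    rw [not_nonempty_iff_eq_empty] at hne
    rw [hne] at hcon
    simp only [Measure.restrict_empty, integral_zero_measure] at hcon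
    have := mul_pos ha hM
    linarith
  have hTm : MeasurableSet {x : Vn m | r ≤ Metric.infDist x G} :=
    (isClosed_le continuous_const (Metric.continuous_infDist_pt G)).measurableSet
  have h2 : (∫ x in {x : Vn m | r ≤ Metric.infDist x G}, h x) +
      ∫ x in {x : Vn m | r ≤ Metric.infDist x G}ᶜ, h x = ∫ x, h x :=
    integral_add_compl hTm (H.int hδ)
  have h3 : ∫ x in {x : Vn m | r ≤ Metric.infDist x G}ᶜ, h x ≤ (1 / 3) * ∫ x, h x := by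
    refine lev_markov H hδ hL ht hk hg hg0 hv hgv ?_ hTm.compl
    intro y hy
    have hy' : Metric.infDist y G < r := by
      simpa using hy
    obtain ⟨x, hx, hxy⟩ := (Metric.infDist_lt_iff hGne).1 hy'
    refine lev_key H hδ hL ht hk hg hg0 hx ?_
    rw [← dist_eq_norm, dist_comm]
    exact hxy.le
  linarith

theorem level_ball (H : UW δ L h) (hδ : 0 < δ) (hL : 0 ≤ L) {t r : ℝ} (ht : 0 < t)
    (hr : 0 ≤ r) {k : ℕ} (hk : 1 ≤ k) {g : Vn m → ℝ} (hg : BL g) (hg0 : ∀ x, 0 ≤ g x) {v : ℝ}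
    (hv : 0 < v) (hgv : ∫ x, g x ^ 2 * h x ≤ v * ∫ x, h x) {ρ ρ1 : ℝ}
    (hρ1 : (1 / 2) * ∫ x, h x ≤ ∫ x in Metric.ball (0 : Vn m) ρ1, h x) (hρ : ρ + ρ1 ≤ r)
    {x : Vn m} (hx : 3 * v * Real.exp (r ^ 2 / (2 * t)) < ((RT h (t / k))^[k] g x) ^ 2) :
    ρ ≤ ‖x‖ := by
  by_contra hcon
  push Not at hcon
  have hM := H.mass hδ
  have h3 : ∫ x in Metric.ball (0 : Vn m) ρ1, h x ≤ (1 / 3) * ∫ x, h x := by
    refine lev_markov H hδ hL ht hk hg hg0 hv hgv ?_ measurableSet_ball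
    intro y hy
    rw [mem_ball_zero_iff] at hy
    refine lev_key H hδ hL ht hk hg hg0 hx ?_
    have := norm_sub_le x y
    linarith
  linarith

end Pool.Agent.Lib.MP_8d00da_gt.h42u
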