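import Pool.Agent.Lib.MP_8d00da_gt.h42u.UProdExp
import Pool.Agent.Lib.MP_8d00da_gt.h42u.UStr

/-!
# U23: the mass of the region where `f²` has to live

Full proof. `k = S.card ≥ 1`, `h' = sh S h`, `D = {k √Λ/4 ≤ ∑_S |x i|}`. By `str_cov` (constant `J > 0`,
`h' (str S y) = h y`, `(str S y) i = 4 y i` for `i ∈ S`):
`J ∫_D h' = ∫_{k √Λ/16 ≤ ∑_S |y i|} h ≤ exp (-(1/12) k √Λ/16) ∫ exp ((1/12) ∑_S |y i|) h ≤
exp (-k √Λ/192) 2^k ∫ h` (Chebyshev, `prodExp`, `exp_l1_integrable`), and `∫ h = J ∫ h'`.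
`√Λ ≥ 10^6`, so `√Λ/192 ≥ 5208` and `2^k ≤ exp k`: `exp (-k √Λ/192) 2^k ≤ exp (-5207 k) ≤ exp (-5000 k)`.
-/

namespace Pool.Agent.Lib.MP_8d00da_gt.h42u

open MeasureTheory Set Filter
open Pool.Agent.Lib.MP_8d00da_gt.h25 Pool.Agent.Lib.MP_8d00da_gt.h42
open Pool.Agent.Lib.MP_8d00da_gt.h42s Pool.Agent.Lib.MP_8d00da_gt.h42o
open scoped Topology NNReal

variable {m : ℕ} {δ L : ℝ} {h : Vn m → ℝ}

theorem massD (H : SWt δ L h) (hδ : 0 < δ) {Λ : ℝ} (hΛ : 10 ^ 12 ≤ Λ) {S : Finset (Fin m)}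
    (hS : S.Nonempty) :
    ∫ x in {x : Vn m | S.card * (Real.sqrt Λ / 4) ≤ ∑ i ∈ S, |x i|}, sh S h x ≤
      Real.exp (-(5000 * S.card)) * ∫ x, sh S h x := by
  obtain ⟨J, hJ, hcov⟩ := str_cov (m := m) S
  have hk : (1 : ℝ) ≤ S.card := by exact_mod_cast hS.card_pos
  have hsq : (10 ^ 6 : ℝ) ≤ Real.sqrt Λ := by
    apply Real.le_sqrt_of_sq_le
    norm_num at hΛ ⊢
    exact hΛ
  set D : Set (Vn m) := {x : Vn m | S.card * (Real.sqrt Λ / 4) ≤ ∑ i ∈ S, |x i|} with hD
  have hDm : MeasurableSet D := by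
    have hc : Continuous fun x : Vn m => ∑ i ∈ S, |x i| := by fun_prop
    exact measurableSet_le measurable_const hc.measurable
  have hpos : ∀ x, 0 < h x := fun x => H.toUW.pos x
  have hsh : ∀ y, sh S h (str S y) = h y := fun y => by
    unfold sh
    rw [LinearEquiv.symm_apply_apply]
  have hmass : ∫ y, h y = J * ∫ x, sh S h x := by
    rw [← hcov (sh S h)]
    exact integral_congr_ae (Eventually.of_forall fun y => (hsh y).symm)
  rw [← integral_indicator hDm]
  have h1 : J * ∫ x, D.indicator (fun x => sh S h x) x ≤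
      ∫ y, Real.exp (-(S.card * Real.sqrt Λ / 192)) *
        (Real.exp ((1 / 12) * ∑ i ∈ S, |y i|) * h y) := by
    rw [← hcov]
    refine integral_mono_of_nonneg (Eventually.of_forall fun y => ?_)
      ((exp_l1_integrable H.toUW hδ S (1 / 12)).const_mul _) (Eventually.of_forall fun y => ?_)
    · exact indicator_nonneg (fun x _ => (hpos _).le) _
    · show D.indicator (fun x => sh S h x) (str S y) ≤
        Real.exp (-(S.card * Real.sqrt Λ / 192)) * (Real.exp ((1 / 12) * ∑ i ∈ S, |y i|) * h y)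
      by_cases hy : str S y ∈ D
      · rw [indicator_of_mem hy, hsh]
        have h2 : S.card * (Real.sqrt Λ / 4) ≤ ∑ i ∈ S, |(str S y) i| := hy
        have h3 : ∑ i ∈ S, |(str S y) i| = 4 * ∑ i ∈ S, |y i| := by
          rw [Finset.mul_sum]
          refine Finset.sum_congr rfl fun i hi => ?_
          rw [str_apply, if_pos hi, abs_mul]
          norm_num
        rw [h3] at h2
        have h4 : 1 ≤ Real.exp (-(S.card * Real.sqrt Λ / 192)) *
            Real.exp ((1 / 12) * ∑ i ∈ S, |y i|) := by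
          rw [← Real.exp_add, Real.one_le_exp_iff]
          linarith
        rw [← mul_assoc]
        have := (hpos y).le
        nlinarith
      · rw [indicator_of_notMem hy]
        have := (hpos y).le
        positivity
  rw [integral_const_mul] at h1
  have h2 := prodExp H hδ S
  have h3 : (2 : ℝ) ^ S.card ≤ Real.exp S.card := by
    have h4 : (2 : ℝ) ≤ Real.exp 1 := by
      have := Real.add_one_le_exp (1 : ℝ)
      linarith
    calc (2 : ℝ) ^ S.card ≤ (Real.exp 1) ^ S.card := by gcongr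
      _ = Real.exp S.card := by rw [← Real.exp_nat_mul, mul_one]
  have hI : 0 ≤ ∫ x, sh S h x := integral_nonneg fun x => (hpos _).le
  have h5 : J * ∫ x, D.indicator (fun x => sh S h x) x ≤
      J * (Real.exp (-(5000 * S.card)) * ∫ x, sh S h x) := by
    calc J * ∫ x, D.indicator (fun x => sh S h x) x ≤
          Real.exp (-(S.card * Real.sqrt Λ / 192)) * (2 ^ S.card * ∫ x, h x) :=
          h1.trans (mul_le_mul_of_nonneg_left h2 (Real.exp_pos _).le)
      _ ≤ Real.exp (-(S.card * Real.sqrt Λ / 192)) * (Real.exp S.card * ∫ x, h x) := by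
          have h6 : 0 ≤ ∫ x, h x := integral_nonneg fun x => (hpos _).le
          gcongr
      _ = Real.exp (-(S.card * Real.sqrt Λ / 192) + S.card) * (J * ∫ x, sh S h x) := by
          rw [Real.exp_add, hmass]; ring
      _ ≤ Real.exp (-(5000 * S.card)) * (J * ∫ x, sh S h x) := by
          have h7 : 0 ≤ J * ∫ x, sh S h x := by positivity
          have h8 : -(S.card * Real.sqrt Λ / 192) + S.card ≤ -(5000 * (S.card : ℝ)) := by
            nlinarith
          gcongr
      _ = _ := by ring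
  exact le_of_mul_le_mul_left h5 hJ

end Pool.Agent.Lib.MP_8d00da_gt.h42u
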