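import Pool.Agent.Lib.MP_8d00da_gt.h42u.UFold

/-!
# U14: log-concavity of the product tails

Full proof. By `fold` (for `0`, `t`, `τ t`; `NT h A 0 = ∫ h` since `0 ≤ |x i|` always) it suffices to
show `(∫_{x_A ≥ 0} h)^(1-τ) (∫_{x_A ≥ t} h)^τ ≤ ∫_{x_A ≥ τ t} h` (the factors `2^|A|` cancel:
`(2^k)^(1-τ) (2^k)^τ = 2^k`, `Real.mul_rpow`). This is `pl_integral` (h42/PLReal) with `a = τ`,
`u = 1_{x_A ≥ 0} h`, `v = 1_{x_A ≥ t} h`, `w = 1_{x_A ≥ τ t} h` (indicators; measurable sets: finite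
intersections of closed half spaces): if `x i ≥ 0` and `y i ≥ t i` then
`(1-τ) x i + τ y i ≥ τ t i`, and `h x^(1-τ) h y^τ ≤ h (..)` is `H.lc` (if one of the indicators
vanishes the left side is `0` since `0^r = 0` for `r > 0`). `H.cont`, `H.int`, `H.pos`.
-/

namespace Pool.Agent.Lib.MP_8d00da_gt.h42u

open MeasureTheory Set Filter
open Pool.Agent.Lib.MP_8d00da_gt.h25 Pool.Agent.Lib.MP_8d00da_gt.h42
open Pool.Agent.Lib.MP_8d00da_gt.h42s Pool.Agent.Lib.MP_8d00da_gt.h42o
open scoped Topology NNReal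

variable {m : ℕ} {δ L : ℝ} {h : Vn m → ℝ}

private lemma hs_meas (A : Finset (Fin m)) (t : Fin m → ℝ) :
    MeasurableSet {x : Vn m | ∀ i ∈ A, t i ≤ x i} := by
  have : {x : Vn m | ∀ i ∈ A, t i ≤ x i} = ⋂ i ∈ A, {x : Vn m | t i ≤ x i} := by
    ext x
    simp
  rw [this]
  refine Finset.measurableSet_biInter A fun i _ => ?_
  exact (isClosed_le continuous_const (by fun_prop : Continuous fun x : Vn m => x i)).measurableSet

theorem NT_lc (H : UW δ L h) (hδ : 0 < δ) (A : Finset (Fin m)) {t : Fin m → ℝ}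
    (ht : ∀ i, 0 ≤ t i) {τ : ℝ} (h0 : 0 < τ) (h1 : τ < 1) :
    (∫ x, h x) ^ (1 - τ) * NT h A t ^ τ ≤ NT h A fun i => τ * t i := by
  have hi := H.int hδ
  have h1a : 0 < 1 - τ := by linarith
  have e0 : (∫ x, h x) = NT h A (fun _ => 0) := by
    unfold NT
    have : {x : Vn m | ∀ i ∈ A, (0 : ℝ) ≤ |x i|} = univ := by
      ext x
      simp
    rw [this, setIntegral_univ]
  have f0 := fold (h := h) hi H.even A (t := fun _ => 0) (fun _ => le_rfl)
  have f1 := fold (h := h) hi H.even A (t := t) ht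
  have f2 := fold (h := h) hi H.even A (t := fun i => τ * t i) (fun i => mul_nonneg h0.le (ht i))
  rw [e0, f0, f1, f2]
  set S : (Fin m → ℝ) → Set (Vn m) := fun t => {x : Vn m | ∀ i ∈ A, t i ≤ x i} with hS
  have hSm : ∀ t, MeasurableSet (S t) := fun t => hs_meas A t
  have nn : ∀ t, 0 ≤ ∫ x in S t, h x := fun t => setIntegral_nonneg (hSm t) fun x _ => (H.pos x).le
  have key : (∫ x in S (fun _ => 0), h x) ^ (1 - τ) * (∫ x in S t, h x) ^ τ ≤
      ∫ x in S (fun i => τ * t i), h x := by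
    rw [← integral_indicator (hSm _), ← integral_indicator (hSm _), ← integral_indicator (hSm _)]
    have hn : ∀ t x, 0 ≤ (S t).indicator h x := fun t x =>
      indicator_nonneg (fun x _ => (H.pos x).le) x
    refine pl_integral h0 h1 (hn _) (hn _) (hn _)
      (H.cont.measurable.indicator (hSm _)) (H.cont.measurable.indicator (hSm _))
      (H.cont.measurable.indicator (hSm _)) (hi.indicator (hSm _)) (hi.indicator (hSm _))
      (hi.indicator (hSm _)) fun x y => ?_
    by_cases hx : x ∈ S (fun _ => 0)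
    · by_cases hy : y ∈ S t
      · have hz : (1 - τ) • x + τ • y ∈ S (fun i => τ * t i) := by
          intro i hi'
          have a1 := hx i hi'
          have a2 := hy i hi'
          simp only [PiLp.add_apply, PiLp.smul_apply, smul_eq_mul]
          have a3 := mul_nonneg h1a.le a1
          have a4 := mul_le_mul_of_nonneg_left a2 h0.le
          linarith
        rw [indicator_of_mem hx, indicator_of_mem hy, indicator_of_mem hz]
        exact H.lc τ h0 h1 x y
      · rw [indicator_of_notMem hy, Real.zero_rpow h0.ne', mul_zero]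
        exact hn _ _
    · rw [indicator_of_notMem hx, Real.zero_rpow h1a.ne', zero_mul]
      exact hn _ _
  have h2 : (0 : ℝ) ≤ 2 ^ A.card := by positivity
  have h2' : (0 : ℝ) < 2 ^ A.card := by positivity
  rw [Real.mul_rpow h2 (nn _), Real.mul_rpow h2 (nn _)]
  have h3 : ((2 : ℝ) ^ A.card) ^ (1 - τ) * ((2 : ℝ) ^ A.card) ^ τ = 2 ^ A.card := by
    rw [← Real.rpow_add h2', sub_add_cancel, Real.rpow_one]
  calc _ = (((2 : ℝ) ^ A.card) ^ (1 - τ) * ((2 : ℝ) ^ A.card) ^ τ) *
        ((∫ x in S (fun _ => 0), h x) ^ (1 - τ) * (∫ x in S t, h x) ^ τ) := by ring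
    _ ≤ 2 ^ A.card * ∫ x in S (fun i => τ * t i), h x := by
      rw [h3]
      exact mul_le_mul_of_nonneg_left key h2

end Pool.Agent.Lib.MP_8d00da_gt.h42u
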