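import Pool.Agent.Lib.MP_8d00da_gt.h42u.UApprox
import Pool.Agent.Lib.MP_8d00da_gt.h42u.ULevel

/-!
# U29: one level of the iteration

Full proof. `r = ((13/12) b + 35 K)/κ > 0`, `t = r/(2 √lam) > 0`. Take `ε`, `k` from `approx` for
`t`, `τ`. Let `f` be given, `V = ∫ f² h > 0`, `M = ∫ h > 0`, `v = V/M > 0`, `e` from `approx`,
`F = (RT h (t/k))^[k] |f|` (`|f|` is `BL`, `≥ 0`), `G = {3 v exp (r²/(2t)) < F²}` (measurable, `F` is
continuous by `RT_iter_BL`).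
(i) `level` with `g = |f|`, `a = exp (-(13/12) b)`: `log (1/a) + 35 K = κ r`.
(ii) For `x ∉ G`: `f² ≤ (exp (lam t) F + |e|)² ≤ 2 exp (2 lam t) F² + 2 e² ≤
6 v exp (2 lam t + r²/(2t)) + 2 e²`; `2 lam t = √lam r`, `r²/(2t) = √lam r`, and
`2 √lam r ≤ (6/7) κ r = (13/14) b + 30 K`. Integrate over `A \ G` (with `∫_A h ≤ exp (-b) M`):
`≤ 6 v exp ((13/14) b + 30 K) exp (-b) M + 2 ∫ e² h ≤ (6 exp (30 K - b/14) + 2 τ) V`.
(iii) `level_ball`.
-/

namespace Pool.Agent.Lib.MP_8d00da_gt.h42u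

open MeasureTheory Set Filter
open Pool.Agent.Lib.MP_8d00da_gt.h25 Pool.Agent.Lib.MP_8d00da_gt.h42
open Pool.Agent.Lib.MP_8d00da_gt.h42s Pool.Agent.Lib.MP_8d00da_gt.h42o
open scoped Topology NNReal

variable {m : ℕ} {δ L : ℝ} {h : Vn m → ℝ}

private lemma uone_int (H : UW δ L h) (hδ : 0 < δ) {f : Vn m → ℝ} (hf : BL f) :
    Integrable fun x => f x ^ 2 * h x := by
  obtain ⟨⟨K, hK⟩, A, hA⟩ := hf
  refine H.int_poly hδ (hK.continuous.measurable.pow_const 2) (C := A ^ 2) fun x => ?_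
  have h1 : |f x ^ 2| ≤ A ^ 2 := by
    rw [abs_pow]
    exact pow_le_pow_left₀ (abs_nonneg _) (hA x) 2
  refine h1.trans (le_mul_of_one_le_right (sq_nonneg A) ?_)
  exact le_add_of_nonneg_right (sq_nonneg _)

private lemma uone_abs {f : Vn m → ℝ} (hf : BL f) : BL fun x => |f x| := by
  obtain ⟨⟨K, hK⟩, A, hA⟩ := hf
  refine ⟨⟨K, LipschitzWith.of_dist_le_mul fun x y => ?_⟩, A, fun x => ?_⟩
  · refine le_trans ?_ (hK.dist_le_mul x y)
    rw [Real.dist_eq, Real.dist_eq]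
    exact abs_abs_sub_abs_le_abs_sub _ _
  · rw [abs_abs]; exact hA x

private lemma uone_sq {f F e E c T : ℝ} (h1 : |f| ≤ E * F + |e|) (h2 : F ^ 2 ≤ c)
    (hT : E ^ 2 * c ≤ T) : f ^ 2 ≤ 2 * T + 2 * e ^ 2 := by
  have h3 : f ^ 2 ≤ (E * F + |e|) ^ 2 := by
    rw [← sq_abs f]
    exact pow_le_pow_left₀ (abs_nonneg _) h1 2
  have h4 : (E * F + |e|) ^ 2 ≤ 2 * (E * F) ^ 2 + 2 * |e| ^ 2 := by
    have := sq_nonneg (E * F - |e|)
    have e1 : 2 * (E * F) ^ 2 + 2 * |e| ^ 2 - (E * F + |e|) ^ 2 = (E * F - |e|) ^ 2 := by ring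
    rw [← sub_nonneg, e1]
    exact this
  have h5 : (E * F) ^ 2 ≤ T := by
    rw [mul_pow]
    exact (mul_le_mul_of_nonneg_left h2 (sq_nonneg E)).trans hT
  rw [sq_abs] at h4
  linarith only [h3, h4, h5]

theorem one_level (H : UW δ L h) (hδ : 0 < δ) (hL : 0 ≤ L) {S : Finset (Fin m)} (hS : S ≠ ∅)
    {κ K lam : ℝ} (hκ : 0 < κ) (hK : 0 ≤ K) (hC : Conc κ (35 * K) h) (hl : 0 < lam)
    (hlow : Low S h lam) (hlκ : 2 * Real.sqrt lam ≤ (6 / 7) * κ) {b τ : ℝ} (hb : 0 < b)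
    (hτ : 0 < τ) :
    ∃ ε : ℝ, 0 < ε ∧ ∀ f : Vn m → ℝ, Par S f → BL f → 0 < ∫ x, f x ^ 2 * h x →
      En h f ≤ (1 + ε) * lam * ∫ x, f x ^ 2 * h x →
      ∃ G : Set (Vn m), MeasurableSet G ∧
        ∫ x in G, h x ≤ Real.exp (-(13 / 12 * b)) * ∫ x, h x ∧
        (∀ A : Set (Vn m), MeasurableSet A → ∫ x in A, h x ≤ Real.exp (-b) * ∫ x, h x →
          ∫ x in A \ G, f x ^ 2 * h x ≤
            (6 * Real.exp (30 * K - b / 14) + 2 * τ) * ∫ x, f x ^ 2 * h x) ∧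
        ∀ ρ ρ1 : ℝ, (1 / 2) * ∫ x, h x ≤ ∫ x in Metric.ball (0 : Vn m) ρ1, h x →
          ρ + ρ1 ≤ (13 / 12 * b + 35 * K) / κ → ∀ x ∈ G, ρ ≤ ‖x‖ := by
  obtain ⟨r, hr⟩ : ∃ r : ℝ, r = (13 / 12 * b + 35 * K) / κ := ⟨_, rfl⟩
  obtain ⟨s, hs⟩ : ∃ s : ℝ, s = Real.sqrt lam := ⟨_, rfl⟩
  have hs0 : 0 < s := by rw [hs]; exact Real.sqrt_pos.2 hl
  have hsl : s * s = lam := by rw [hs]; exact Real.mul_self_sqrt hl.le
  have hr0 : 0 < r := by
    rw [hr]
    exact div_pos (by linarith) hκ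
  have hκr : κ * r = 13 / 12 * b + 35 * K := by
    rw [hr, mul_div_cancel₀ _ hκ.ne']
  obtain ⟨t, htd⟩ : ∃ t : ℝ, t = r / (2 * s) := ⟨_, rfl⟩
  have ht : 0 < t := by rw [htd]; exact div_pos hr0 (by linarith)
  have hlt : lam * t = s * r / 2 := by
    rw [htd, ← hsl]
    field_simp
  have hrt : r ^ 2 / (2 * t) = s * r := by
    rw [htd]
    field_simp
  have hsr : 2 * (s * r) ≤ 13 / 14 * b + 30 * K := by
    have h1 : 2 * s * r ≤ 6 / 7 * κ * r := mul_le_mul_of_nonneg_right (by rw [hs]; exact hlκ) hr0.le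
    have h2 : 6 / 7 * κ * r = 13 / 14 * b + 30 * K := by
      rw [mul_assoc, hκr]; ring
    linarith
  obtain ⟨ε, hε, k, hk, happ⟩ := approx H hδ hS hl hlow ht hτ
  refine ⟨ε, hε, fun f hpar hf hV hEn => ?_⟩
  obtain ⟨e, he, hfe, heV⟩ := happ f hpar hf hEn
  have hM : 0 < ∫ x, h x := H.mass hδ
  obtain ⟨M, hMd⟩ : ∃ M : ℝ, M = ∫ x, h x := ⟨_, rfl⟩
  obtain ⟨V, hVd⟩ : ∃ V : ℝ, V = ∫ x, f x ^ 2 * h x := ⟨_, rfl⟩
  rw [← hVd] at hV heV ⊢
  rw [← hMd] at hM ⊢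
  obtain ⟨v, hv⟩ : ∃ v : ℝ, v = V / M := ⟨_, rfl⟩
  have hv0 : 0 < v := by rw [hv]; exact div_pos hV hM
  have hvM : v * M = V := by rw [hv, div_mul_cancel₀ _ hM.ne']
  obtain ⟨g, hg⟩ : ∃ g : Vn m → ℝ, g = fun z => |f z| := ⟨_, rfl⟩
  have hgBL : BL g := by rw [hg]; exact uone_abs hf
  have hg0 : ∀ x, 0 ≤ g x := fun x => by rw [hg]; exact abs_nonneg _
  have hgv : ∫ x, g x ^ 2 * h x ≤ v * ∫ x, h x := by
    rw [← hMd, hvM, hVd, hg]
    simp only [sq_abs]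
    exact le_rfl
  obtain ⟨F, hF⟩ : ∃ F : Vn m → ℝ, F = (RT h (t / k))^[k] g := ⟨_, rfl⟩
  have hk0 : (0 : ℝ) < k := by exact_mod_cast hk
  have hFBL : BL F := by
    rw [hF]
    exact RT_iter_BL (H.wt hδ) (div_pos ht hk0) hgBL k
  have hFc : Continuous F := by
    obtain ⟨⟨K', hK'⟩, -⟩ := hFBL
    exact hK'.continuous
  rw [← hg, ← hF] at hfe
  refine ⟨{x | 3 * v * Real.exp (r ^ 2 / (2 * t)) < F x ^ 2}, ?_, ?_, ?_, ?_⟩
  · exact measurableSet_lt measurable_const (hFc.measurable.pow_const 2)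
  · rw [hF, hMd]
    refine level H hδ hL hC ht hr0.le hk hgBL hg0 hv0 (Real.exp_pos _) hgv ?_
    rw [one_div, ← Real.exp_neg, Real.log_exp, neg_neg, hκr]
  · intro A hA hAb
    have hGm : MeasurableSet {x | 3 * v * Real.exp (r ^ 2 / (2 * t)) < F x ^ 2} :=
      measurableSet_lt measurable_const (hFc.measurable.pow_const 2)
    have hAG : MeasurableSet (A \ {x | 3 * v * Real.exp (r ^ 2 / (2 * t)) < F x ^ 2}) :=
      hA.diff hGm
    have ih := H.int hδ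
    have ie := uone_int H hδ he
    have i_f := uone_int H hδ hf
    obtain ⟨T, hT⟩ : ∃ T : ℝ, T = 3 * v * Real.exp (2 * (s * r)) := ⟨_, rfl⟩
    have hT0 : 0 ≤ T := by
      rw [hT]
      exact mul_nonneg (mul_nonneg (by norm_num) hv0.le) (Real.exp_pos _).le
    have hET : Real.exp (lam * t) ^ 2 * (3 * v * Real.exp (r ^ 2 / (2 * t))) ≤ T := by
      rw [hT, hrt, hlt]
      refine le_of_eq ?_
      have : Real.exp (2 * (s * r)) = Real.exp (s * r / 2) ^ 2 * Real.exp (s * r) := by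
        rw [← Real.exp_nat_mul, ← Real.exp_add]
        congr 1
        push_cast
        ring
      rw [this]
      ring
    have hpt : ∀ x ∈ A \ {x | 3 * v * Real.exp (r ^ 2 / (2 * t)) < F x ^ 2},
        f x ^ 2 * h x ≤ 2 * T * h x + 2 * (e x ^ 2 * h x) := by
      intro x hx
      have h1 : F x ^ 2 ≤ 3 * v * Real.exp (r ^ 2 / (2 * t)) := not_lt.1 hx.2
      have h2 := uone_sq (hfe x) h1 hET
      have h3 := mul_le_mul_of_nonneg_right h2 (H.pos x).le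
      refine h3.trans (le_of_eq ?_)
      ring
    have i1 : Integrable fun x => 2 * T * h x + 2 * (e x ^ 2 * h x) :=
      (ih.const_mul _).add (ie.const_mul _)
    have h1 : ∫ x in A \ {x | 3 * v * Real.exp (r ^ 2 / (2 * t)) < F x ^ 2}, f x ^ 2 * h x ≤
        ∫ x in A \ {x | 3 * v * Real.exp (r ^ 2 / (2 * t)) < F x ^ 2},
          (2 * T * h x + 2 * (e x ^ 2 * h x)) :=
      setIntegral_mono_on i_f.integrableOn i1.integrableOn hAG hpt
    have h2 : ∫ x in A \ {x | 3 * v * Real.exp (r ^ 2 / (2 * t)) < F x ^ 2},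
          (2 * T * h x + 2 * (e x ^ 2 * h x)) ≤
        ∫ x in A, (2 * T * h x + 2 * (e x ^ 2 * h x)) := by
      refine setIntegral_mono_set i1.integrableOn (Eventually.of_forall fun x => ?_)
        sdiff_subset.eventuallyLE
      exact add_nonneg (mul_nonneg (mul_nonneg (by norm_num) hT0) (H.pos x).le)
        (mul_nonneg (by norm_num) (mul_nonneg (sq_nonneg _) (H.pos x).le))
    have h3 : ∫ x in A, (2 * T * h x + 2 * (e x ^ 2 * h x)) =
        (2 * T * ∫ x in A, h x) + 2 * ∫ x in A, e x ^ 2 * h x := by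
      rw [integral_add (ih.const_mul _).integrableOn (ie.const_mul _).integrableOn,
        integral_const_mul, integral_const_mul]
    have h4 : ∫ x in A, e x ^ 2 * h x ≤ ∫ x, e x ^ 2 * h x :=
      setIntegral_le_integral ie (Eventually.of_forall fun x =>
        mul_nonneg (sq_nonneg _) (H.pos x).le)
    have h5 : 2 * T * ∫ x in A, h x ≤ 2 * T * (Real.exp (-b) * M) :=
      mul_le_mul_of_nonneg_left hAb (mul_nonneg (by norm_num) hT0)
    have h6 : 2 * T * (Real.exp (-b) * M) = 6 * Real.exp (2 * (s * r) - b) * V := by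
      rw [hT, ← hvM, sub_eq_add_neg, Real.exp_add]
      ring
    have h7 : 6 * Real.exp (2 * (s * r) - b) * V ≤ 6 * Real.exp (30 * K - b / 14) * V := by
      refine mul_le_mul_of_nonneg_right (mul_le_mul_of_nonneg_left
        (Real.exp_le_exp.2 ?_) (by norm_num)) hV.le
      linarith
    have h8 : (6 * Real.exp (30 * K - b / 14) + 2 * τ) * V =
        6 * Real.exp (30 * K - b / 14) * V + 2 * (τ * V) := by ring
    rw [h8]
    linarith only [h1, h2, h3, h4, h5, h6, h7, heV]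
  · intro ρ ρ1 h1 h2 x hx
    rw [← hr] at h2
    rw [hMd] at h1
    have hx' : 3 * v * Real.exp (r ^ 2 / (2 * t)) < F x ^ 2 := hx
    rw [hF] at hx'
    exact level_ball H hδ hL ht hr0.le hk hgBL hg0 hv0 hgv h1 h2 hx'

end Pool.Agent.Lib.MP_8d00da_gt.h42u
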