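import Pool.Agent.Lib.MP_8d00da_gt.h42u.URTalg

/-!
# U25a: lower bound for the powers of the round trip operator on near-extremal functions

Full proof. `P = RT h η`, `x = η lam`, `V = ∫ f² h`, `a j = ∫ f (P^j f) h` (the iterates are `BL`:
`RT_iter_BL`). Write `⟨u,v⟩ = ∫ u v h`, `⟨u,v⟩_P = ∫ u (P v) h`. By `RT_sym` repeatedly
`a (i+j) = ⟨P^i f, P^j f⟩`, `a (i+j+1) = ⟨P^i f, P^j f⟩_P` (`Function.iterate_succ_apply'`).
(1) `a (j+1)² ≤ a j a (j+2)`: if `j + 1 = 2 i + 1`: Cauchy-Schwarz for `⟨P^i f, P^(i+1) f⟩` (`cs_int` with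
the factors `√h`); if `j + 1 = 2 i + 2`:
`⟨P^i f, P^(i+1) f⟩_P² ≤ ⟨P^i f,P^i f⟩_P ⟨P^(i+1) f,P^(i+1) f⟩_P` (`RT_cs`),
i.e. `a (2i+2)² ≤ a (2i+1) a (2i+3)`. All `a j ≥ 0` (squares or `RT_nonneg`).
(2) `a 1 ≥ a 0 - η En h f ≥ (1 - x (1+ε)) a 0` (`RT_defect`, `hE`). Put `q = 1 - x(1+ε) ≥ 0`.
If `q = 0` or `V = 0` the bound is trivial (`a k ≥ 0`; `k = 0` is an equality). Otherwise
`a 0 > 0`, `a 1 ≥ q a 0 > 0`, and by induction `a (j+1) ≥ q a j`, `a j > 0`:
`a (j+1)² ≤ a j a (j+2)` and `a (j+1) ≥ q a j` give `a (j+2) ≥ a (j+1)²/a j ≥ q a (j+1)`.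
Hence `a k ≥ q^k a 0`.
-/

namespace Pool.Agent.Lib.MP_8d00da_gt.h42u

open MeasureTheory Set Filter
open Pool.Agent.Lib.MP_8d00da_gt.h25 Pool.Agent.Lib.MP_8d00da_gt.h42
open Pool.Agent.Lib.MP_8d00da_gt.h42s Pool.Agent.Lib.MP_8d00da_gt.h42o
open scoped Topology NNReal

variable {m : ℕ} {δ L : ℝ} {h : Vn m → ℝ}

/-- The abstract induction. -/
private lemma seq_lower {a : ℕ → ℝ} {q : ℝ} (h0 : ∀ j, 0 ≤ a j)
    (h1 : ∀ j, a (j + 1) ^ 2 ≤ a j * a (j + 2)) (h2 : q * a 0 ≤ a 1) (hq : 0 ≤ q) (k : ℕ) :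
    q ^ k * a 0 ≤ a k := by
  rcases hq.eq_or_lt with hq0 | hq0
  · subst hq0
    rcases Nat.eq_zero_or_pos k with rfl | hk
    · simp
    · rw [zero_pow hk.ne', zero_mul]; exact h0 k
  rcases (h0 0).eq_or_lt with ha0 | ha0
  · rw [← ha0, mul_zero]; exact h0 k
  have key : ∀ j, 0 < a j ∧ q * a j ≤ a (j + 1) := by
    intro j
    induction j with
    | zero => exact ⟨ha0, h2⟩
    | succ j ih =>
      obtain ⟨ih1, ih2⟩ := ih
      have h3 : 0 < a (j + 1) := lt_of_lt_of_le (mul_pos hq0 ih1) ih2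
      refine ⟨h3, ?_⟩
      have h4 : a j * (q * a (j + 1)) ≤ a j * a (j + 2) := by
        refine le_trans ?_ (h1 j)
        have h5 := mul_le_mul_of_nonneg_right ih2 h3.le
        calc a j * (q * a (j + 1)) = q * a j * a (j + 1) := by ring
          _ ≤ a (j + 1) * a (j + 1) := h5
          _ = a (j + 1) ^ 2 := by ring
      exact le_of_mul_le_mul_left h4 ih1
  induction k with
  | zero => simp
  | succ k ih =>
    calc q ^ (k + 1) * a 0 = q * (q ^ k * a 0) := by ring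
      _ ≤ q * a k := mul_le_mul_of_nonneg_left ih hq
      _ ≤ a (k + 1) := (key k).2

/-- Cauchy-Schwarz for two bounded functions. -/
private lemma cs_BL (H : UW δ L h) (hδ : 0 < δ) {u v : Vn m → ℝ} (hu : BL u) (hv : BL v) :
    (∫ x, u x * v x * h x) ^ 2 ≤ (∫ x, u x * u x * h x) * ∫ x, v x * v x * h x := by
  have hi := H.int hδ
  have key : ∀ {u v : Vn m → ℝ}, BL u → BL v → Integrable fun x => u x * v x * h x := by
    intro u v hu hv
    obtain ⟨⟨K, hK⟩, A, hA⟩ := hu.mul hv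
    exact bdd_int hi hK.continuous.measurable hA
  have e : ∀ (u v : Vn m → ℝ) x, (u x * Real.sqrt (h x)) * (v x * Real.sqrt (h x)) =
      u x * v x * h x := by
    intro u v x
    have h1 := Real.mul_self_sqrt (H.pos x).le
    calc _ = u x * v x * (Real.sqrt (h x) * Real.sqrt (h x)) := by ring
      _ = _ := by rw [h1]
  have e2 : ∀ (u : Vn m → ℝ) x, (u x * Real.sqrt (h x)) ^ 2 = u x * u x * h x := by
    intro u x
    rw [sq, e]
  have h1 := cs_int (μ := volume) (a := fun x => u x * Real.sqrt (h x))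
    (b := fun x => v x * Real.sqrt (h x)) (by simp only [e2]; exact key hu hu)
    (by simp only [e2]; exact key hv hv) (by simp only [e]; exact key hu hv)
  simp only [e, e2] at h1
  exact h1

theorem RT_pow_lower (H : UW δ L h) (hδ : 0 < δ) {η : ℝ} (hη : 0 < η) {lam ε : ℝ}
    {f : Vn m → ℝ} (hf : BL f) (hE : En h f ≤ (1 + ε) * lam * ∫ x, f x ^ 2 * h x)
    (hx : η * lam * (1 + ε) ≤ 1) (k : ℕ) :
    (1 - η * lam * (1 + ε)) ^ k * ∫ x, f x ^ 2 * h x ≤
      ∫ x, f x * (RT h η)^[k] f x * h x := by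
  have hw := H.wt hδ
  have hi := H.int hδ
  set F : ℕ → Vn m → ℝ := fun i => (RT h η)^[i] f with hF
  have hF0 : F 0 = f := rfl
  have hFs : ∀ i, F (i + 1) = RT h η (F i) := fun i => Function.iterate_succ_apply' _ _ _
  have hFB : ∀ i, BL (F i) := fun i => RT_iter_BL hw hη hf i
  set a : ℕ → ℝ := fun k => ∫ x, f x * F k x * h x with ha
  have hA : ∀ i j, a (i + j) = ∫ x, F i x * F j x * h x := by
    intro i
    induction i with
    | zero => intro j; rw [Nat.zero_add, hF0]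
    | succ i ih =>
      intro j
      rw [show i + 1 + j = i + (j + 1) by omega, ih (j + 1), hFs j, hFs i]
      exact RT_sym hw hi hη (hFB i) (hFB j)
  have hA' : ∀ i j, a (i + j + 1) = ∫ x, F i x * RT h η (F j) x * h x := by
    intro i j
    rw [show i + j + 1 = i + (j + 1) by omega, hA i (j + 1), hFs j]
  have h0 : ∀ j, 0 ≤ a j := by
    intro j
    rcases Nat.even_or_odd' j with ⟨i, rfl | rfl⟩
    · rw [show 2 * i = i + i by omega, hA i i]
      exact integral_nonneg fun x => mul_nonneg (mul_self_nonneg _) (H.pos x).le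
    · rw [show 2 * i + 1 = i + i + 1 by omega, hA' i i]
      exact RT_nonneg hw hi hη (hFB i)
  have h1 : ∀ j, a (j + 1) ^ 2 ≤ a j * a (j + 2) := by
    intro j
    rcases Nat.even_or_odd' j with ⟨i, rfl | rfl⟩
    · rw [show 2 * i + 1 = i + (i + 1) by omega, hA i (i + 1),
        show 2 * i = i + i by omega, hA i i,
        show i + i + 2 = (i + 1) + (i + 1) by omega, hA (i + 1) (i + 1)]
      exact cs_BL H hδ (hFB i) (hFB (i + 1))
    · rw [show 2 * i + 1 + 1 = i + (i + 1) + 1 by omega, hA' i (i + 1),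
        show 2 * i + 1 = i + i + 1 by omega, hA' i i,
        show i + i + 1 + 2 = (i + 1) + (i + 1) + 1 by omega, hA' (i + 1) (i + 1)]
      exact RT_cs hw hi hη (hFB i) (hFB (i + 1))
  have e0 : ∫ x, f x ^ 2 * h x = a 0 := by
    rw [ha]
    refine integral_congr_ae (Eventually.of_forall fun x => ?_)
    simp only [hF0]
    ring
  have e1 : ∫ x, f x * RT h η f x * h x = a 1 := rfl
  have h2 : (1 - η * lam * (1 + ε)) * a 0 ≤ a 1 := by
    have h3 := (RT_defect hw hi hη hf).2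
    rw [e0, e1] at h3
    rw [e0] at hE
    have h4 := mul_le_mul_of_nonneg_left hE hη.le
    have h5 : η * ((1 + ε) * lam * a 0) = η * lam * (1 + ε) * a 0 := by ring
    rw [h5] at h4
    linarith
  rw [e0]
  exact seq_lower h0 h1 h2 (by linarith) k

end Pool.Agent.Lib.MP_8d00da_gt.h42u
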