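import Pool.Agent.Lib.MP_8d00da_gt.h42u.UDefs

/-!
# U01: log-concavity of the smoothed weight and the Rényi type inequality

Full proof. `cv_mid`: apply `pl_mid` (h42/PLReal) to `u x = h x * ker η (y - x)`,
`v x = h x * ker η (y + 2 v - x)`, `w x = h x * ker η (y + v - x)`. The pointwise hypothesis
`u x * v x' ≤ w ((x+x')/2)^2` is `H.mid x x'` times
`ker (a) * ker (b) ≤ ker ((a+b)/2)^2` for `a = y - x`, `b = y + 2v - x'` (parallelogram law:
`‖a‖² + ‖b‖² ≥ 2 ‖(a+b)/2‖²`). Integrability: `cv_integrable`, nonnegativity clear.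

`renyi`: put `v = y - y'`, so `y = y' + v`. Pointwise identity (expand the norms)
  `ker η (y - x) ^ 2 = ker η (y' - x) * (exp (‖v‖²/η) * ker η (y' + 2 v - x))`,
because `2‖y-x‖² = ‖y'-x‖² + ‖y'+2v-x‖² - 2‖v‖²` (parallelogram law for `a = y-x-v`, `b = y-x+v`:
`‖a‖²+‖b‖² = 2‖y-x‖²+2‖v‖²`).
Cauchy-Schwarz (`cs_int` of h25/Ker with `a x = |u x| * sqrt (h x * ker (y'-x))`,
`b x = sqrt (h x) * ker (y - x) / sqrt (ker (y'-x)) = exp(‖v‖²/(2η)) * sqrt (h x * ker (y'+2v-x))`;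
the product is `|u x| * h x * ker (y-x)`):
  `(∫ u h ker(y-·))² ≤ (∫ u² h ker(y'-·)) * exp(‖v‖²/η) * cv η h (y'+2v)`.
Divide by `(cv η h y)²` and use `cv_mid`: `cv h y' * cv h (y'+2v) ≤ (cv h (y'+v))² = (cv h y)²`.
With `AA h η (u²) y' * cv η h y' = ∫ u² h ker(y'-·)` (`Wt.AA_mul`) the claim follows.
-/

namespace Pool.Agent.Lib.MP_8d00da_gt.h42u

open MeasureTheory Set Filter
open Pool.Agent.Lib.MP_8d00da_gt.h25 Pool.Agent.Lib.MP_8d00da_gt.h42
open Pool.Agent.Lib.MP_8d00da_gt.h42s Pool.Agent.Lib.MP_8d00da_gt.h42o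
open scoped Topology NNReal
 
variable {F : Type*} [NormedAddCommGroup F] [InnerProductSpace ℝ F]
    [FiniteDimensional ℝ F] [MeasurableSpace F] [BorelSpace F]

variable {h : F → ℝ} {B η : ℝ}

lemma cv_mid (H : Wt h B) (hη : 0 < η) (y v : F) :
    cv η h y * cv η h (y + (2 : ℝ) • v) ≤ cv η h (y + v) ^ 2 := by
  have hm : ∀ z : F, Measurable fun x => h x * ker η (z - x) := fun z =>
    H.meas.mul (ker_cont.measurable.comp (measurable_const.sub measurable_id))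
  have hn : ∀ z x : F, 0 ≤ h x * ker η (z - x) := fun z x =>
    mul_nonneg (H.nonneg x) (ker_pos _).le
  have hi : ∀ z : F, Integrable fun x => h x * ker η (z - x) := fun z =>
    cv_integrable hη H.meas H.abs_le z
  refine pl_mid (u := fun x => h x * ker η (y - x))
    (v := fun x => h x * ker η (y + (2 : ℝ) • v - x))
    (w := fun x => h x * ker η (y + v - x)) (hn _) (hn _) (hn _) (hm _) (hm _) (hm _)
    (hi _) (hi _) (hi _) ?_
  intro x x'
  have h1 := H.mid x x'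
  have h2 : ker η (y - x) * ker η (y + (2 : ℝ) • v - x') ≤
      ker η (y + v - (1 / 2 : ℝ) • (x + x')) ^ 2 := by
    obtain ⟨a, ha⟩ : ∃ a : F, a = y - x := ⟨_, rfl⟩
    obtain ⟨b, hb⟩ : ∃ b : F, b = y + (2 : ℝ) • v - x' := ⟨_, rfl⟩
    have e : y + v - (1 / 2 : ℝ) • (x + x') = (1 / 2 : ℝ) • (a + b) := by
      rw [ha, hb]
      module
    rw [e, ← ha, ← hb]
    unfold h25.ker
    rw [← Real.exp_add, ← Real.exp_nat_mul]
    apply Real.exp_le_exp.2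
    rw [norm_smul, mul_pow]
    have h3 : ‖a + b‖ ^ 2 = ‖a‖ ^ 2 + 2 * inner ℝ a b + ‖b‖ ^ 2 := norm_add_sq_real a b
    have h4 : ‖a - b‖ ^ 2 = ‖a‖ ^ 2 - 2 * inner ℝ a b + ‖b‖ ^ 2 := norm_sub_sq_real a b
    have h5 : ‖a + b‖ ^ 2 ≤ 2 * ‖a‖ ^ 2 + 2 * ‖b‖ ^ 2 := by
      linarith [sq_nonneg ‖a - b‖]
    have h6 : ‖(1 / 2 : ℝ)‖ ^ 2 = 1 / 4 := by norm_num
    rw [h6]
    have h7 : 1 / 4 * ‖a + b‖ ^ 2 / (2 * η) ≤ 1 / 4 * (2 * ‖a‖ ^ 2 + 2 * ‖b‖ ^ 2) / (2 * η) := by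
      gcongr
    have h8 : 1 / 4 * (2 * ‖a‖ ^ 2 + 2 * ‖b‖ ^ 2) / (2 * η) =
        1 / 2 * (‖a‖ ^ 2 / (2 * η) + ‖b‖ ^ 2 / (2 * η)) := by ring
    push_cast
    linarith
  calc h x * ker η (y - x) * (h x' * ker η (y + (2 : ℝ) • v - x'))
      = (h x * h x') * (ker η (y - x) * ker η (y + (2 : ℝ) • v - x')) := by ring
    _ ≤ h ((1 / 2 : ℝ) • (x + x')) ^ 2 * ker η (y + v - (1 / 2 : ℝ) • (x + x')) ^ 2 :=
        mul_le_mul h1 h2 (mul_nonneg (ker_pos _).le (ker_pos _).le) (sq_nonneg _)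
    _ = (h ((1 / 2 : ℝ) • (x + x')) * ker η (y + v - (1 / 2 : ℝ) • (x + x'))) ^ 2 := by ring

theorem renyi (H : Wt h B) (hη : 0 < η) {u : F → ℝ} (hu : Measurable u) {A : ℝ}
    (hA : ∀ x, |u x| ≤ A) (y y' : F) :
    AA h η u y ^ 2 ≤ AA h η (fun x => u x ^ 2) y' * Real.exp (‖y - y'‖ ^ 2 / η) := by
  obtain ⟨v, hv⟩ : ∃ v : F, v = y - y' := ⟨_, rfl⟩
  have hy : y = y' + v := by rw [hv]; abel
  obtain ⟨c, hc⟩ : ∃ c : ℝ, c = Real.exp (‖v‖ ^ 2 / (2 * η)) := ⟨_, rfl⟩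
  have hc0 : 0 < c := by rw [hc]; exact Real.exp_pos _
  have hc2 : c ^ 2 = Real.exp (‖v‖ ^ 2 / η) := by
    rw [hc, ← Real.exp_nat_mul]
    congr 1
    push_cast
    field_simp
  have hker : ∀ x : F, ker η (y - x) ^ 2 =
      ker η (y' - x) * (c ^ 2 * ker η (y' + (2 : ℝ) • v - x)) := by
    intro x
    rw [hc2]
    unfold h25.ker
    rw [← Real.exp_add, ← Real.exp_add, ← Real.exp_nat_mul]
    congr 1
    obtain ⟨z, hz⟩ : ∃ z : F, z = y - x := ⟨_, rfl⟩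
    have e1 : y' - x = z - v := by rw [hz, hy]; abel
    have e2 : y' + (2 : ℝ) • v - x = z + v := by rw [hz, hy]; module
    rw [← hz, e1, e2]
    have h3 : ‖z + v‖ ^ 2 = ‖z‖ ^ 2 + 2 * inner ℝ z v + ‖v‖ ^ 2 := norm_add_sq_real z v
    have h4 : ‖z - v‖ ^ 2 = ‖z‖ ^ 2 - 2 * inner ℝ z v + ‖v‖ ^ 2 := norm_sub_sq_real z v
    rw [h3, h4]
    push_cast
    field_simp
    ring
  have hsq : ∀ z x : F, 0 ≤ h x * ker η (z - x) := fun z x =>
    mul_nonneg (H.nonneg x) (ker_pos _).le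
  have key : ∀ x : F, Real.sqrt (h x * ker η (y' - x)) *
      (c * Real.sqrt (h x * ker η (y' + (2 : ℝ) • v - x))) = h x * ker η (y - x) := by
    intro x
    have h1 : 0 ≤ Real.sqrt (h x * ker η (y' - x)) *
      (c * Real.sqrt (h x * ker η (y' + (2 : ℝ) • v - x))) := by positivity
    rw [← sq_eq_sq₀ h1 (hsq y x), mul_pow, mul_pow, mul_pow, Real.sq_sqrt (hsq _ _),
      Real.sq_sqrt (hsq _ _), hker]
    ring
  have ea : ∀ x : F, (u x * Real.sqrt (h x * ker η (y' - x))) ^ 2 =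
      u x ^ 2 * (h x * ker η (y' - x)) := by
    intro x
    rw [mul_pow, Real.sq_sqrt (hsq _ _)]
  have eb : ∀ x : F, (c * Real.sqrt (h x * ker η (y' + (2 : ℝ) • v - x))) ^ 2 =
      c ^ 2 * (h x * ker η (y' + (2 : ℝ) • v - x)) := by
    intro x
    rw [mul_pow, Real.sq_sqrt (hsq _ _)]
  have eab : ∀ x : F, (u x * Real.sqrt (h x * ker η (y' - x))) *
      (c * Real.sqrt (h x * ker η (y' + (2 : ℝ) • v - x))) = u x * (h x * ker η (y - x)) := by
    intro x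
    rw [mul_assoc, key]
  have CS := cs_int (μ := (volume : Measure F))
    (a := fun x => u x * Real.sqrt (h x * ker η (y' - x)))
    (b := fun x => c * Real.sqrt (h x * ker η (y' + (2 : ℝ) • v - x)))
    (by
      simp only [ea]
      exact H.tilt_integrable hη (hu.pow_const 2) (Wt.sq_bdd hA) y')
    (by
      simp only [eb]
      exact (cv_integrable hη H.meas H.abs_le _).const_mul _)
    (by
      simp only [eab]
      exact H.tilt_integrable hη hu hA y)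
  simp only [ea, eb, eab] at CS
  rw [Wt.tilt_eq, Wt.tilt_eq, integral_const_mul] at CS
  have hcv : ∫ x, h x * ker η (y' + (2 : ℝ) • v - x) = cv η h (y' + (2 : ℝ) • v) := rfl
  rw [hcv] at CS
  have hmid := cv_mid H hη y' v
  rw [← hy] at hmid
  have hZ := H.Z_pos hη y
  have hZ' := H.Z_pos hη y'
  have hN' : 0 ≤ cv η (fun x => u x ^ 2 * h x) y' := by
    unfold cv
    exact integral_nonneg fun x => mul_nonneg (mul_nonneg (sq_nonneg _) (H.nonneg x)) (ker_pos _).le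
  rw [← hv, ← hc2]
  unfold AA
  rw [div_pow, div_mul_eq_mul_div, div_le_div_iff₀ (by positivity) hZ']
  calc cv η (fun x => u x * h x) y ^ 2 * cv η h y'
      ≤ (cv η (fun x => u x ^ 2 * h x) y' * (c ^ 2 * cv η h (y' + (2 : ℝ) • v))) * cv η h y' :=
        mul_le_mul_of_nonneg_right CS hZ'.le
    _ = cv η (fun x => u x ^ 2 * h x) y' * c ^ 2 *
        (cv η h y' * cv η h (y' + (2 : ℝ) • v)) := by ring
    _ ≤ cv η (fun x => u x ^ 2 * h x) y' * c ^ 2 * cv η h y ^ 2 :=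
        mul_le_mul_of_nonneg_left hmid (by positivity)

end Pool.Agent.Lib.MP_8d00da_gt.h42u
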