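import Pool.Agent.Lib.MP_8d00da_gt.h42u.UStep

/-!
# U38: the homogeneous inequality for smooth unconditional weights

Full proof. Follow `smooth_QI` of h42o/OScale line by line (it treats a special class of weights).
`N = ∫ h > 0`, `Aj j = ∫ (x j)² h > 0` (`UW.int_poly`, `UW.pos`), `s j = √(Aj j / N) > 0`, `D x j = s j * x j`
(linear automorphism `osD`, change of variables `os_cov`: both are private there, copy them),
`ht x = h (D x)`. `ht` is an `SWt δ' L'` weight with `δ' = δ min_j (s j)²`, `L' = L max_j (s j)²` or any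
larger constant, e.g. `L (∑_j (s j)²)`... careful: `‖D x‖² ≤ (∑ s j²) ‖x‖²` gives
`L' = L ∑_j (s j)²` (the derivative of `W ∘ D` at `x` is `fderiv W (D x) ∘ D`, `‖D‖² ≤ ∑ s j²`);
`‖D x - D y‖² ≥ (min s j²) ‖x-y‖²`; choose `ε > 0` with `ε ≤ s j²` for all `j`. `mom`:
`∫ (x i)² ht = J Aj i/(s i)² = J N = ∫ ht`. `uncond_SWt` for `ht` and `ft = f ∘ D` (`BL`):
`Vr ht ft ≤ 10^12 En ht ft`; `Vr ht ft = J Vr h f`, `En ht ft = J ∑_j (s j)² aE h f j` (`energy_sum`),
so `N Vr h f ≤ 10^12 ∑_j Aj j aE h f j`, which is `QI (10^12) h`.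
-/

namespace Pool.Agent.Lib.MP_8d00da_gt.h42u

open MeasureTheory Set Filter
open Pool.Agent.Lib.MP_8d00da_gt.h25 Pool.Agent.Lib.MP_8d00da_gt.h42
open Pool.Agent.Lib.MP_8d00da_gt.h42s Pool.Agent.Lib.MP_8d00da_gt.h42o
open scoped Topology NNReal

variable {n : ℕ}

/-- Scaling of the coordinates. -/
private noncomputable def usD (s : Fin n → ℝ) (hs : ∀ j, s j ≠ 0) : Vn n ≃ₗ[ℝ] Vn n where
  toFun x := WithLp.toLp 2 fun j => s j * x j
  invFun x := WithLp.toLp 2 fun j => (s j)⁻¹ * x j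
  map_add' x y := by
    ext j
    simp [mul_add]
  map_smul' a x := by
    ext j
    simp
    ring
  left_inv x := by
    ext j
    simp [← mul_assoc, inv_mul_cancel₀ (hs j)]
  right_inv x := by
    ext j
    simp [← mul_assoc, mul_inv_cancel₀ (hs j)]

private lemma usD_apply (s : Fin n → ℝ) (hs : ∀ j, s j ≠ 0) (x : Vn n) (j : Fin n) :
    usD s hs x j = s j * x j := rfl

private lemma usD_ee (s : Fin n → ℝ) (hs : ∀ j, s j ≠ 0) (j : Fin n) :
    usD s hs (ee j) = s j • ee j := by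
  ext k
  rw [usD_apply, PiLp.smul_apply, ee_apply, smul_eq_mul]
  split_ifs with h
  · rw [h]
  · simp

private lemma us_cov (D : Vn n ≃ₗ[ℝ] Vn n) :
    ∃ J : ℝ, 0 < J ∧ ∀ Φ : Vn n → ℝ, ∫ x, Φ (D x) = J * ∫ x, Φ x := by
  have hdet : LinearMap.det (D : Vn n →ₗ[ℝ] Vn n) ≠ 0 := D.isUnit_det'.ne_zero
  have hmap := Measure.map_linearMap_addHaar_eq_smul_addHaar (volume : Measure (Vn n)) hdet
  refine ⟨|(LinearMap.det (D : Vn n →ₗ[ℝ] Vn n))⁻¹|, abs_pos.2 (inv_ne_zero hdet), fun Φ => ?_⟩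
  have hemb : MeasurableEmbedding (D : Vn n → Vn n) :=
    D.toContinuousLinearEquiv.toHomeomorph.toMeasurableEquiv.measurableEmbedding
  have h1 : ∫ x, Φ (D x) = ∫ x, Φ x ∂(Measure.map (D : Vn n → Vn n) volume) :=
    (hemb.integral_map Φ).symm
  have h2 : Measure.map (D : Vn n → Vn n) volume =
      ENNReal.ofReal |(LinearMap.det (D : Vn n →ₗ[ℝ] Vn n))⁻¹| • (volume : Measure (Vn n)) := hmap
  rw [h1, h2, integral_smul_measure, ENNReal.toReal_ofReal (abs_nonneg _), smul_eq_mul]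

theorem QI_UW {δ L : ℝ} {h : Vn n → ℝ} (H : UW δ L h) (hδ : 0 < δ) (hL : 0 ≤ L) :
    QI (10 ^ 12) h := by
  intro f hf
  have hpos : ∀ x, 0 < h x := H.pos
  -- integrability
  have hcoord : ∀ (j : Fin n) (x : Vn n), |(x j) ^ 2| ≤ 1 * (1 + ‖x‖ ^ 2) := by
    intro j x
    rw [abs_of_nonneg (sq_nonneg _), EuclideanSpace.norm_sq_eq]
    have : (x j) ^ 2 ≤ ∑ i, ‖x i‖ ^ 2 := by
      have := Finset.single_le_sum (f := fun i => ‖x i‖ ^ 2) (fun i _ => sq_nonneg _)
        (Finset.mem_univ j)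
      simpa using this
    linarith
  have hmc : ∀ j : Fin n, Measurable fun x : Vn n => x j := fun j => by fun_prop
  have hint : Integrable h := H.int hδ
  have hint2 : ∀ j : Fin n, Integrable fun x => (x j) ^ 2 * h x := fun j =>
    H.int_poly hδ (φ := fun x : Vn n => (x j) ^ 2) ((hmc j).pow_const 2) (C := 1) (hcoord j)
  set N : ℝ := ∫ x, h x with hN
  set Aj : Fin n → ℝ := fun j => ∫ x, (x j) ^ 2 * h x with hAj
  have hNpos : 0 < N := H.mass hδ
  have hAjpos : ∀ j, 0 < Aj j := by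
    intro j
    rw [hAj]
    simp only
    rw [integral_pos_iff_support_of_nonneg
      (fun x => mul_nonneg (sq_nonneg _) (hpos x).le) (hint2 j)]
    have : Function.support (fun x : Vn n => (x j) ^ 2 * h x) = {x | x j ≠ 0} := by
      ext x
      simp [(hpos x).ne']
    rw [this]
    have hcont : Continuous fun x : Vn n => x j := by fun_prop
    refine (isOpen_ne_fun hcont continuous_const).measure_pos _ ⟨ee j, ?_⟩
    simp [ee_apply]
  -- the scaling
  set s : Fin n → ℝ := fun j => Real.sqrt (Aj j / N) with hs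
  have hspos : ∀ j, 0 < s j := fun j => Real.sqrt_pos.2 (by have := hAjpos j; positivity)
  have hsq : ∀ j, s j ^ 2 = Aj j / N := fun j =>
    Real.sq_sqrt (by have := hAjpos j; positivity)
  obtain ⟨ε, hε, hεs⟩ : ∃ ε : ℝ, 0 < ε ∧ ∀ j, ε ≤ s j ^ 2 := by
    have h1 : ∀ᶠ ε : ℝ in 𝓝[>] 0, 0 < ε := eventually_mem_nhdsWithin
    have h2 : ∀ᶠ ε : ℝ in 𝓝[>] 0, ∀ j, ε ≤ s j ^ 2 := by
      rw [eventually_all]
      intro j
      have : (0 : ℝ) < s j ^ 2 := by have := hspos j; positivity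
      exact eventually_nhdsWithin_of_eventually_nhds (eventually_le_nhds this)
    obtain ⟨ε, h3, h4⟩ := (h1.and h2).exists
    exact ⟨ε, h3, h4⟩
  have hs0 : ∀ j, s j ≠ 0 := fun j => (hspos j).ne'
  set D := usD s hs0 with hD
  obtain ⟨J, hJ, hcov⟩ := us_cov D
  have hD_apply : ∀ x j, D x j = s j * x j := fun x j => rfl
  set ht : Vn n → ℝ := fun x => h (D x) with hhtdef
  have hht : ∀ x, ht x = h (D x) := fun x => rfl
  have hNt : ∫ x, ht x = J * N := hcov h
  set Dc : Vn n →L[ℝ] Vn n := (D.toContinuousLinearEquiv : Vn n →L[ℝ] Vn n) with hDcdef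
  have hDc_apply : ∀ x, Dc x = D x := fun x => rfl
  have hHt : SWt (δ * ε) (L * ‖Dc‖ ^ 2) ht := by
    refine ⟨?_, ?_, ?_, ?_, ?_⟩
    · obtain ⟨W, hW, hWd, hWL⟩ := H.reg
      refine ⟨fun x => W (Dc x), fun x => hW _, hWd.comp Dc.differentiable, fun x y => ?_⟩
      have e : ∀ x, fderiv ℝ (fun x => W (Dc x)) x = (fderiv ℝ W (Dc x)).comp Dc := by
        intro x
        have h1 := ((hWd (Dc x)).hasFDerivAt.comp x Dc.hasFDerivAt).fderiv
        exact h1
      rw [e, e, ← ContinuousLinearMap.sub_comp]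
      calc ‖(fderiv ℝ W (Dc x) - fderiv ℝ W (Dc y)).comp Dc‖
          ≤ ‖fderiv ℝ W (Dc x) - fderiv ℝ W (Dc y)‖ * ‖Dc‖ := ContinuousLinearMap.opNorm_comp_le _ _
        _ ≤ (L * ‖Dc x - Dc y‖) * ‖Dc‖ :=
            mul_le_mul_of_nonneg_right (hWL _ _) (norm_nonneg _)
        _ ≤ (L * (‖Dc‖ * ‖x - y‖)) * ‖Dc‖ := by
            refine mul_le_mul_of_nonneg_right (mul_le_mul_of_nonneg_left ?_ hL) (norm_nonneg _)
            rw [← map_sub]
            exact Dc.le_opNorm _
        _ = L * ‖Dc‖ ^ 2 * ‖x - y‖ := by ring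
    · intro a ha0 ha1 x y
      have h1 := H.lc a ha0 ha1 (D x) (D y)
      simp only [hht, map_add, map_smul]
      exact h1
    · intro x y
      have h1 := H.smid (D x) (D y)
      have h2 : D ((1 / 2 : ℝ) • (x + y)) = (1 / 2 : ℝ) • (D x + D y) := by
        rw [map_smul, map_add]
      simp only [hht]
      rw [h2]
      refine le_trans ?_ h1
      have h3 : ε * ‖x - y‖ ^ 2 ≤ ‖D x - D y‖ ^ 2 := by
        rw [← map_sub, EuclideanSpace.norm_sq_eq, EuclideanSpace.norm_sq_eq, Finset.mul_sum]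
        refine Finset.sum_le_sum fun j _ => ?_
        rw [hD_apply, norm_mul, mul_pow, Real.norm_eq_abs (s j), sq_abs]
        exact mul_le_mul_of_nonneg_right (hεs j) (sq_nonneg _)
      refine mul_le_mul_of_nonneg_left ?_ (mul_nonneg (hpos _).le (hpos _).le)
      rw [Real.exp_le_exp]
      have h4 : δ * (ε * ‖x - y‖ ^ 2) ≤ δ * ‖D x - D y‖ ^ 2 := mul_le_mul_of_nonneg_left h3 hδ.le
      linarith
    · intro i x
      have h1 : D (fl i x) = fl i (D x) := by
        ext j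
        rw [hD_apply, fl_apply, fl_apply, hD_apply]
        split_ifs <;> ring
      rw [hht, h1, H.even]
    · intro i
      rw [hNt]
      have e1 : ∀ x : Vn n, (x i) ^ 2 * ht x =
          (fun y : Vn n => (s i ^ 2)⁻¹ * ((y i) ^ 2 * h y)) (D x) := by
        intro x
        simp only
        rw [hht, hD_apply]
        have := hs0 i
        field_simp
      have e0 : ∫ x, (x i) ^ 2 * ht x = J * ∫ y : Vn n, (s i ^ 2)⁻¹ * ((y i) ^ 2 * h y) :=
        (integral_congr_ae (Eventually.of_forall e1)).trans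
          (hcov fun y => (s i ^ 2)⁻¹ * ((y i) ^ 2 * h y))
      rw [e0, integral_const_mul]
      have e2 : (s i ^ 2)⁻¹ * (∫ y : Vn n, (y i) ^ 2 * h y) = N := by
        change (s i ^ 2)⁻¹ * Aj i = N
        rw [hsq]
        have h1 := hAjpos i
        field_simp
      rw [e2]
  set ft : Vn n → ℝ := fun x => f (D x) with hft
  have hftBL : BL ft := hf.comp Dc.lipschitz
  have key := uncond_SWt hHt (mul_pos hδ hε) (by positivity) hftBL
  -- the variance
  have hV : Vr ht ft = J * Vr h f := by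
    unfold Vr
    have e1 : ∫ x, ft x ^ 2 * ht x = J * ∫ x, f x ^ 2 * h x :=
      hcov fun x => f x ^ 2 * h x
    have e2 : ∫ x, ft x * ht x = J * ∫ x, f x * h x :=
      hcov fun x => f x * h x
    rw [e1, e2, hNt]
    change J * (∫ x, f x ^ 2 * h x) - (J * ∫ x, f x * h x) ^ 2 / (J * N) =
      J * ((∫ x, f x ^ 2 * h x) - (∫ x, f x * h x) ^ 2 / N)
    field_simp
  -- the energy
  have hE : En ht ft = J * ∑ j, s j ^ 2 * aE h f j := by
    have hintt : Integrable ht := hHt.int (mul_pos hδ hε)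
    rw [energy_sum hintt hftBL, Finset.mul_sum]
    refine Finset.sum_congr rfl fun j _ => ?_
    unfold aE
    have e1 : ∀ x, fderiv ℝ ft x (ee j) = s j * fderiv ℝ f (D x) (ee j) := by
      intro x
      have e2 : fderiv ℝ ft x = (fderiv ℝ f (D.toContinuousLinearEquiv x)).comp
          (D.toContinuousLinearEquiv : Vn n →L[ℝ] Vn n) := by
        have := D.toContinuousLinearEquiv.comp_right_fderiv (f := f) (x := x)
        exact this
      rw [e2]
      change fderiv ℝ f (D x) (D (ee j)) = _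
      rw [hD, usD_ee, map_smul, smul_eq_mul]
    have e3 : ∀ x, (fderiv ℝ ft x (ee j)) ^ 2 * ht x =
        (fun y => s j ^ 2 * ((fderiv ℝ f y (ee j)) ^ 2 * h y)) (D x) := by
      intro x
      simp only
      rw [e1, hht]
      ring
    have e4 : ∫ x, (fderiv ℝ ft x (ee j)) ^ 2 * ht x =
        J * ∫ y, s j ^ 2 * ((fderiv ℝ f y (ee j)) ^ 2 * h y) :=
      (integral_congr_ae (Eventually.of_forall e3)).trans
        (hcov fun y => s j ^ 2 * ((fderiv ℝ f y (ee j)) ^ 2 * h y))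
    rw [e4, integral_const_mul]
  rw [hV, hE] at key
  have key2 : Vr h f ≤ 10 ^ 12 * ∑ j, s j ^ 2 * aE h f j := by
    have : J * Vr h f ≤ J * (10 ^ 12 * ∑ j, s j ^ 2 * aE h f j) := by linarith
    exact le_of_mul_le_mul_left this hJ
  have key3 : N * Vr h f = (∫ x, f x ^ 2 * h x) * N - (∫ x, f x * h x) ^ 2 := by
    unfold Vr
    change N * ((∫ x, f x ^ 2 * h x) - (∫ x, f x * h x) ^ 2 / N) = _
    field_simp
  rw [← key3]
  calc N * Vr h f ≤ N * (10 ^ 12 * ∑ j, s j ^ 2 * aE h f j) :=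
        mul_le_mul_of_nonneg_left key2 hNpos.le
    _ = 10 ^ 12 * ∑ j, Aj j * aE h f j := by
        rw [Finset.mul_sum, Finset.mul_sum, Finset.mul_sum]
        refine Finset.sum_congr rfl fun j _ => ?_
        rw [hsq]
        field_simp
    _ = _ := rfl

end Pool.Agent.Lib.MP_8d00da_gt.h42u
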