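import Pool.Agent.Lib.MP_8d00da_gt.h42u.UShareCore
import Pool.Agent.Lib.MP_8d00da_gt.h42u.UForms

/-!
# U33: the share bound

Full proof. Let `T = {u // Par S u ∧ BL u}`, `h' = sh S h` (`UW (δ/16) L` by `sh_UW`). `opt_const`
(h42s/OptDir) with `V u = ∫ u² h'`, `E u = En h' u`, `C0 = (16/9) Λ`, `C1 = 1/(δ/16)` (`UW.apriori` for
`h'`; `Vr = ∫ u² h'` as `∫ u h' = 0`: `Par.mean_zero` with `S ≠ ∅`, `Vr_of_mean`). Step: let
`Λ' > (16/9) Λ` with `∫ u² h' ≤ Λ' En h' u` for all `u ∈ T`; `lam = 1/Λ' ≤ (9/16)/Λ`, `Low S h' lam`. Let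
`ε` be as in `share_core`; w.l.o.g. `ε ≤ 1` (replace by `min ε 1`). Claim: with `ε' = ε/8` one has
`∫ u² h' ≤ (1 - ε') Λ' En h' u` for all `u ∈ T`. Otherwise
`(1-ε') Λ' E < V` for some `u`, `E = En h' u ≥ 0`, so `V > 0`, and `E > 0` (`V ≤ Λ' E`). Smoothing:
`f = RT h' s u` with `s > 0`, `2 s ≤ ε' Λ'`: `f` is `BL`, differentiable (`RT_dir`), in `Par S` (`Par.RT`),
`V ≤ 2 s E + ∫ f² h'` (`round_var`), `En h' f ≤ E` (`hess_bound`, as in `valid_const` of h42o/OStep). So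
`∫ f² h' ≥ (1 - 2 ε') Λ' E > 0` and `En h' f ≤ E ≤ lam ∫ f² h'/(1-2ε') ≤ (1+ε) lam ∫ f² h'`
(`1/(1-ε/4) ≤ 1+ε`): contradiction to `share_core`.
Result: `∫ u'² h' ≤ (16/9) Λ En h' u'` for all `u' ∈ T`. For `u ∈ Par S`, `BL`, apply it to
`u' = u ∘ (str S).symm` (`sh_par`, `sh_BL`) and use `sh_forms` (divide by `J`).
-/

namespace Pool.Agent.Lib.MP_8d00da_gt.h42u

open MeasureTheory Set Filter
open Pool.Agent.Lib.MP_8d00da_gt.h25 Pool.Agent.Lib.MP_8d00da_gt.h42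
open Pool.Agent.Lib.MP_8d00da_gt.h42s Pool.Agent.Lib.MP_8d00da_gt.h42o
open scoped Topology NNReal

variable {m : ℕ} {δ L : ℝ} {h : Vn m → ℝ}

private lemma share_aux (H : SWt δ L h) (hδ : 0 < δ) (hL : 0 ≤ L) {Λ : ℝ} (hΛ : 10 ^ 12 ≤ Λ)
    (hP : ∀ q : Vn m → ℝ, BL q → Vr h q ≤ Λ * En h q) {S : Finset (Fin m)} (hS : S.Nonempty) :
    ∀ t : {u : Vn m → ℝ // Par S u ∧ BL u},
      ∫ x, t.1 x ^ 2 * sh S h x ≤ 16 / 9 * Λ * En (sh S h) t.1 := by
  have hδ' : 0 < δ / 16 := by positivity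
  have H' : UW (δ / 16) L (sh S h) := sh_UW H.toUW hδ.le hL S
  have hwt := H'.wt hδ'
  have hi := H'.int hδ'
  have hmass := H'.mass hδ'
  have hΛ0 : (0 : ℝ) < Λ := by linarith [show (0 : ℝ) < 10 ^ 12 by norm_num]
  refine opt_const (T := {u : Vn m → ℝ // Par S u ∧ BL u})
    (fun t => ∫ x, t.1 x ^ 2 * sh S h x) (fun t => En (sh S h) t.1)
    (fun t => En_nonneg hwt) (C0 := 16 / 9 * Λ) (C1 := 1 / (δ / 16)) (by positivity)
    (fun t => ?_) ?_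
  · have h1 := H'.apriori hδ' t.2.2
    rwa [Vr_of_mean (t.2.1.mean_zero H'.even hS.ne_empty)] at h1
  intro Λ' hΛ' hval
  have hΛ'0 : 0 < Λ' := by linarith [show (0 : ℝ) < 16 / 9 * Λ by positivity]
  obtain ⟨lam, hlam⟩ : ∃ lam, lam = 1 / Λ' := ⟨_, rfl⟩
  have hlam0 : 0 < lam := by rw [hlam]; positivity
  have hlam2 : lam ≤ 9 / 16 / Λ := by
    rw [hlam, div_le_div_iff₀ hΛ'0 hΛ0]
    linarith
  have hlL : lam * Λ' = 1 := by rw [hlam]; field_simp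
  have hlow : Low S (sh S h) lam := by
    intro u hu hB
    have h1 := hval ⟨u, hu, hB⟩
    simp only at h1
    have h2 := mul_le_mul_of_nonneg_left h1 hlam0.le
    rw [← mul_assoc, hlL, one_mul] at h2
    exact h2
  obtain ⟨ε0, hε0, hcore⟩ := share_core H hδ hL hΛ hP hS hlam0 hlam2 hlow
  obtain ⟨ε, hε⟩ : ∃ ε, ε = min ε0 1 := ⟨_, rfl⟩
  have hεp : 0 < ε := by rw [hε]; positivity
  have hε1 : ε ≤ 1 := by rw [hε]; exact min_le_right _ _
  have hεε : ε ≤ ε0 := by rw [hε]; exact min_le_left _ _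
  refine ⟨ε / 8, by positivity, ?_⟩
  rintro ⟨u, hu, hB⟩
  simp only
  by_contra hcon
  rw [not_le] at hcon
  have hV := hval ⟨u, hu, hB⟩
  simp only at hV
  have hE0 : 0 ≤ En (sh S h) u := En_nonneg hwt
  have hE : 0 < En (sh S h) u := by
    rcases hE0.eq_or_lt with h1 | h1
    · exfalso
      rw [← h1] at hV hcon
      linarith
    · exact h1
  set E := En (sh S h) u with hEdef
  obtain ⟨s, hs⟩ : ∃ s, s = ε / 16 * Λ' := ⟨_, rfl⟩
  have hs0 : 0 < s := by rw [hs]; positivity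
  obtain ⟨⟨L0, hL0⟩, A0, hA0⟩ := id hB
  set f : Vn m → ℝ := RT (sh S h) s u with hf
  have hsm := RT_dir hwt hs0 hL0 hA0
  have hfd : Differentiable ℝ f := (hsm 0).1
  have hfB : BL f := (hsm 0).2.1
  have hfP : Par S f := hu.RT H'.even
  have hvar : ∫ x, u x ^ 2 * sh S h x ≤ 2 * s * E + ∫ x, f x ^ 2 * sh S h x :=
    round_var hwt hi hs0 hL0 hA0
  have hE1 : En (sh S h) f ≤ E := by
    have h1 := hess_bound hwt hi hs0 hL0 hA0 (fun i : Fin m => ee i) (c := 1) one_pos (by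
      intro D
      rw [one_mul, norm_sq_fderiv (EuclideanSpace.basisFun (Fin m) ℝ)]
      refine Finset.sum_congr rfl fun i _ => ?_
      rw [EuclideanSpace.basisFun_apply]; rfl)
    have h2 : 0 ≤ ∑ i : Fin m, En (sh S h) (fun x => fderiv ℝ (RT (sh S h) s u) x (ee i)) :=
      Finset.sum_nonneg fun i _ => En_nonneg hwt
    have h3 := h2.trans h1
    have h4 : 0 < 1 / s := by positivity
    have h5 := nonneg_of_mul_nonneg_right h3 h4
    linarith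
  set F2 := ∫ x, f x ^ 2 * sh S h x with hF2
  have h6 : (1 - ε / 4) * (Λ' * E) ≤ F2 := by
    have h7 : 2 * s * E = ε / 8 * (Λ' * E) := by rw [hs]; ring
    have h8 : (1 - ε / 8) * Λ' * E = (1 - ε / 8) * (Λ' * E) := by ring
    rw [h7] at hvar
    rw [h8] at hcon
    nlinarith
  have hLE : 0 < Λ' * E := by positivity
  have hF2p : 0 < F2 := lt_of_lt_of_le (by nlinarith) h6
  refine hcore f hfP hfB hfd hF2p ?_
  have h9 : lam * F2 ≥ (1 - ε / 4) * E := by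
    have := mul_le_mul_of_nonneg_left h6 hlam0.le
    calc (1 - ε / 4) * E = (lam * Λ') * ((1 - ε / 4) * E) := by rw [hlL, one_mul]
      _ = lam * ((1 - ε / 4) * (Λ' * E)) := by ring
      _ ≤ lam * F2 := this
  have h10 : E ≤ (1 + ε) * ((1 - ε / 4) * E) := by
    have : 1 ≤ (1 + ε) * (1 - ε / 4) := by nlinarith
    calc E = 1 * E := (one_mul _).symm
      _ ≤ ((1 + ε) * (1 - ε / 4)) * E := mul_le_mul_of_nonneg_right this hE0
      _ = _ := by ring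
  calc En (sh S h) f ≤ E := hE1
    _ ≤ (1 + ε) * ((1 - ε / 4) * E) := h10
    _ ≤ (1 + ε) * (lam * F2) := mul_le_mul_of_nonneg_left h9 (by linarith)
    _ ≤ (1 + ε0) * (lam * F2) := mul_le_mul_of_nonneg_right (by linarith) (by positivity)
    _ = (1 + ε0) * lam * F2 := by ring

theorem share (H : SWt δ L h) (hδ : 0 < δ) (hL : 0 ≤ L) {Λ : ℝ} (hΛ : 10 ^ 12 ≤ Λ)
    (hP : ∀ q : Vn m → ℝ, BL q → Vr h q ≤ Λ * En h q) {S : Finset (Fin m)} (hS : S.Nonempty)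
    {u : Vn m → ℝ} (hp : Par S u) (hu : BL u) :
    ∫ x, u x ^ 2 * h x ≤ 16 / 9 * Λ * (En h u - 15 / 16 * ∑ i ∈ S, aE h u i) := by
  have H' : UW (δ / 16) L (sh S h) := sh_UW H.toUW hδ.le hL S
  obtain ⟨J, hJ, hforms⟩ := sh_forms H.toUW hδ H'
  obtain ⟨h1, h2⟩ := hforms u hu
  have key := share_aux H hδ hL hΛ hP hS ⟨fun x => u ((str S).symm x), (sh_par S hp).2,
    (sh_BL S hu).2⟩
  simp only at key
  rw [h1, h2] at key
  have e : 16 / 9 * Λ * (J * (En h u - 15 / 16 * ∑ i ∈ S, aE h u i)) =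
      J * (16 / 9 * Λ * (En h u - 15 / 16 * ∑ i ∈ S, aE h u i)) := by ring
  rw [e] at key
  exact le_of_mul_le_mul_left key hJ

end Pool.Agent.Lib.MP_8d00da_gt.h42u
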