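import Pool.Agent.Lib.MP_8d00da_gt.h42u.USmall
import Pool.Agent.Lib.MP_8d00da_gt.h42u.UHardy
import Pool.Agent.Lib.MP_8d00da_gt.h42u.UMassD
import Pool.Agent.Lib.MP_8d00da_gt.h42u.UConc
import Pool.Agent.Lib.MP_8d00da_gt.h42u.UShUW

/-!
# U32: no near-extremal functions below `(9/16) λ` for the stretched weight

Full proof. `h' = sh S h` is `UW (δ/16) L` (`sh_UW`), `κ = (7/4)/√Λ`, `K = S.card ≥ 1`,
`conc_str` gives `Conc κ (35 K) h'`. `2 √lam ≤ 2 √(9/16/Λ) = (3/2)/√Λ = (6/7) κ`. `small_sets`: `ε ≤ 1`.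
Let `f` be as in the statement and suppose `En h' f ≤ (1+ε) lam V`, `V = ∫ f² h' > 0`.
`D = {K √Λ/4 ≤ ∑_S |x i|}` (closed); `massD` and `small_sets`: `∫_D f² h' ≤ V/4`. On `Dᶜ`:
`∑_S |x i| < K √Λ/4`, so some `i ∈ S` has `|x i| < √Λ/4`, and if `x i ≠ 0` then `1/(x i)² ≥ 16/Λ`; so for
a.e. `x ∈ Dᶜ` (`ae_ne` for all `i ∈ S`): `f² ≤ (Λ/16) ∑_{i∈S} f²/(x i)²`. By `hardy_odd`
(`f` is odd in `x i` for `i ∈ S`):
`∫_{Dᶜ} f² h' ≤ (Λ/16) ∑_S 4 aE h' f i ≤ (Λ/4) En h' f ≤ (Λ/4)(1+ε)(9/16)/Λ V ≤ (9/32) V`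
(`energy_sum` of h42o/OPar: `∑_S aE ≤ En`, `aE_nonneg`). So `V ≤ V/4 + (9/32) V < V`: contradiction.
-/

namespace Pool.Agent.Lib.MP_8d00da_gt.h42u

open MeasureTheory Set Filter
open Pool.Agent.Lib.MP_8d00da_gt.h25 Pool.Agent.Lib.MP_8d00da_gt.h42
open Pool.Agent.Lib.MP_8d00da_gt.h42s Pool.Agent.Lib.MP_8d00da_gt.h42o
open scoped Topology NNReal

variable {m : ℕ} {δ L : ℝ} {h : Vn m → ℝ}

private lemma share_ae_ne (i : Fin m) (c : ℝ) : ∀ᵐ x : Vn m, x i ≠ c := by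
  have h1 : ∀ᵐ f : Fin m → ℝ, f i ≠ c := by
    rw [ae_iff]
    simp only [not_not, volume_pi]
    exact Measure.pi_hyperplane (fun _ => (volume : Measure ℝ)) i c
  exact (EuclideanSpace.volume_preserving_symm_measurableEquiv_toLp
    (Fin m)).quasiMeasurePreserving.ae h1

theorem share_core (H : SWt δ L h) (hδ : 0 < δ) (hL : 0 ≤ L) {Λ : ℝ} (hΛ : 10 ^ 12 ≤ Λ)
    (hP : ∀ q : Vn m → ℝ, BL q → Vr h q ≤ Λ * En h q) {S : Finset (Fin m)} (hS : S.Nonempty)
    {lam : ℝ} (hl : 0 < lam) (hl2 : lam ≤ 9 / 16 / Λ) (hlow : Low S (sh S h) lam) :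
    ∃ ε : ℝ, 0 < ε ∧ ∀ f : Vn m → ℝ, Par S f → BL f → Differentiable ℝ f →
      0 < ∫ x, f x ^ 2 * sh S h x →
      ¬ (En (sh S h) f ≤ (1 + ε) * lam * ∫ x, f x ^ 2 * sh S h x) := by
  have hW : UW (δ / 16) L (sh S h) := sh_UW H.toUW hδ.le hL S
  have hδ' : 0 < δ / 16 := by positivity
  have hΛ0 : 0 < Λ := lt_of_lt_of_le (by norm_num) hΛ
  have hsΛ : 0 < Real.sqrt Λ := Real.sqrt_pos.2 hΛ0
  have hκ : 0 < 7 / 4 / Real.sqrt Λ := by positivity
  have hK : (1 : ℝ) ≤ S.card := by exact_mod_cast hS.card_pos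
  have hlκ : 2 * Real.sqrt lam ≤ (6 / 7) * (7 / 4 / Real.sqrt Λ) := by
    have h1 : Real.sqrt lam ≤ 3 / 4 / Real.sqrt Λ := by
      rw [Real.sqrt_le_left (by positivity), div_pow, Real.sq_sqrt hΛ0.le]
      refine hl2.trans (le_of_eq ?_)
      norm_num
    calc 2 * Real.sqrt lam ≤ 2 * (3 / 4 / Real.sqrt Λ) := by linarith
      _ = (6 / 7) * (7 / 4 / Real.sqrt Λ) := by ring
  obtain ⟨ε, hε, hε1, hsm⟩ := small_sets hW hδ' hL hS.ne_empty hκ hK
    (conc_str H hδ hL hΛ hP hS) hl hlow hlκ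
  refine ⟨ε, hε, fun f hPar hf hd hV hEn => ?_⟩
  have hDc : IsClosed {x : Vn m | S.card * (Real.sqrt Λ / 4) ≤ ∑ i ∈ S, |x i|} := by
    refine isClosed_le continuous_const (continuous_finsetSum _ fun i _ => ?_)
    exact (continuous_apply i |>.comp (PiLp.continuous_ofLp 2 _)).abs
  have hDm := hDc.measurableSet
  have hD := hsm f hPar hf hd hEn _ hDm (massD H hδ hΛ hS)
  set D : Set (Vn m) := {x : Vn m | S.card * (Real.sqrt Λ / 4) ≤ ∑ i ∈ S, |x i|} with hDdef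
  set V : ℝ := ∫ x, f x ^ 2 * sh S h x with hVdef
  obtain ⟨⟨K, hLip⟩, A, hA⟩ := id hf
  have hfm : Measurable f := hLip.continuous.measurable
  have hint : Integrable fun x => f x ^ 2 * sh S h x := by
    refine hW.int_poly hδ' (hfm.pow_const 2) (C := A ^ 2) (fun x => ?_)
    rw [abs_pow]
    have h1 : |f x| ^ 2 ≤ A ^ 2 := by
      have := hA x
      gcongr
    have := sq_nonneg ‖x‖
    nlinarith [sq_nonneg A]
  have hsplit : (∫ x in D, f x ^ 2 * sh S h x) + ∫ x in Dᶜ, f x ^ 2 * sh S h x = V :=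
    integral_add_compl hDm hint
  have hhar : ∀ i ∈ S, Integrable (fun x => f x ^ 2 / (x i) ^ 2 * sh S h x) ∧
      ∫ x, f x ^ 2 / (x i) ^ 2 * sh S h x ≤ 4 * aE (sh S h) f i :=
    fun i hi => hardy_odd hW hδ' hf hd (hPar.1 i hi)
  have hcomp : ∫ x in Dᶜ, f x ^ 2 * sh S h x ≤
      ∫ x, (Λ / 16) * ∑ i ∈ S, f x ^ 2 / (x i) ^ 2 * sh S h x := by
    rw [← integral_indicator hDm.compl]
    refine integral_mono_ae (hint.indicator hDm.compl)
      ((integrable_finsetSum S fun i hi => (hhar i hi).1).const_mul _) ?_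
    have hne : ∀ᵐ x : Vn m, ∀ i, x i ≠ 0 := ae_all_iff.2 fun i => share_ae_ne i 0
    filter_upwards [hne] with x hx
    have hpos : ∀ i ∈ S, 0 ≤ f x ^ 2 / (x i) ^ 2 * sh S h x := fun i _ =>
      mul_nonneg (by positivity) (hW.pos x).le
    by_cases hxD : x ∈ Dᶜ
    · rw [indicator_of_mem hxD]
      have hlt : ∑ i ∈ S, |x i| < S.card * (Real.sqrt Λ / 4) := by
        simpa [hDdef] using hxD
      have hex : ∃ i ∈ S, |x i| < Real.sqrt Λ / 4 := by
        by_contra hcon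
        push Not at hcon
        have h1 : ∑ i ∈ S, Real.sqrt Λ / 4 ≤ ∑ i ∈ S, |x i| := Finset.sum_le_sum hcon
        rw [Finset.sum_const, nsmul_eq_mul] at h1
        linarith
      obtain ⟨i, hi, hix⟩ := hex
      have hxi : 0 < (x i) ^ 2 := by
        have := hx i
        positivity
      have hx2 : (x i) ^ 2 ≤ Λ / 16 := by
        have h1 : |x i| ^ 2 ≤ (Real.sqrt Λ / 4) ^ 2 := by gcongr
        rw [sq_abs, div_pow, Real.sq_sqrt hΛ0.le] at h1
        linarith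
      have h2 : f x ^ 2 * sh S h x ≤ (Λ / 16) * (f x ^ 2 / (x i) ^ 2 * sh S h x) := by
        have h3 : f x ^ 2 ≤ (Λ / 16) * (f x ^ 2 / (x i) ^ 2) := by
          rw [mul_div_assoc', le_div_iff₀ hxi, mul_comm (Λ / 16)]
          exact mul_le_mul_of_nonneg_left hx2 (sq_nonneg _)
        calc f x ^ 2 * sh S h x ≤ ((Λ / 16) * (f x ^ 2 / (x i) ^ 2)) * sh S h x :=
              mul_le_mul_of_nonneg_right h3 (hW.pos x).le
          _ = _ := by ring
      refine h2.trans (mul_le_mul_of_nonneg_left ?_ (by positivity))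
      exact Finset.single_le_sum hpos hi
    · rw [indicator_of_notMem hxD]
      exact mul_nonneg (by positivity) (Finset.sum_nonneg hpos)
  have hsum : ∫ x, (Λ / 16) * ∑ i ∈ S, f x ^ 2 / (x i) ^ 2 * sh S h x ≤
      (Λ / 16) * (4 * En (sh S h) f) := by
    rw [integral_const_mul, integral_finsetSum S fun i hi => (hhar i hi).1]
    refine mul_le_mul_of_nonneg_left ?_ (by positivity)
    calc ∑ i ∈ S, ∫ x, f x ^ 2 / (x i) ^ 2 * sh S h x ≤ ∑ i ∈ S, 4 * aE (sh S h) f i :=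
          Finset.sum_le_sum fun i hi => (hhar i hi).2
      _ = 4 * ∑ i ∈ S, aE (sh S h) f i := by rw [Finset.mul_sum]
      _ ≤ 4 * ∑ i, aE (sh S h) f i := by
          refine mul_le_mul_of_nonneg_left ?_ (by norm_num)
          exact Finset.sum_le_sum_of_subset_of_nonneg (Finset.subset_univ _)
            fun i _ _ => aE_nonneg (fun x => (hW.pos x).le) i
      _ = 4 * En (sh S h) f := by rw [energy_sum (hW.int hδ') hf]
  have hlV : lam * V ≤ 9 / 16 / Λ * V := mul_le_mul_of_nonneg_right hl2 hV.le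
  have hE2 : En (sh S h) f ≤ 2 * (9 / 16 / Λ * V) := by
    refine hEn.trans ?_
    have h1 : 0 ≤ lam * V := mul_nonneg hl.le hV.le
    calc (1 + ε) * lam * V = (1 + ε) * (lam * V) := by ring
      _ ≤ 2 * (lam * V) := mul_le_mul_of_nonneg_right (by linarith) h1
      _ ≤ 2 * (9 / 16 / Λ * V) := by linarith
  have hfin : (Λ / 16) * (4 * En (sh S h) f) ≤ 9 / 32 * V := by
    calc (Λ / 16) * (4 * En (sh S h) f) ≤ (Λ / 16) * (4 * (2 * (9 / 16 / Λ * V))) := by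
          refine mul_le_mul_of_nonneg_left ?_ (by positivity)
          linarith
      _ = 9 / 32 * V := by
          field_simp
          ring
  linarith [hcomp.trans (hsum.trans hfin)]

end Pool.Agent.Lib.MP_8d00da_gt.h42u
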