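import Pool.Agent.Lib.MP_8d00da_gt.h42u.UDefs

/-!
# U15: shrinking one coordinate

Full proof. `σ = a/b ∈ (0,1]`. Let `T` multiply the coordinate `i` by `σ`. `h x ≤ h (T x)`: `T x` is the
convex combination `((1+σ)/2) x + ((1-σ)/2) fl i x`, so by `H.lc` (`σ < 1`; `σ = 1` trivial)
`h x = h x^((1+σ)/2) h (fl i x)^((1-σ)/2) ≤ h (T x)`. Change of variables (`T` is a linear
automorphism with determinant `σ`, `Measure.addHaar_preimage_linearMap` or
`integral_comp..`; or Fubini in the coordinate `i`):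
`∫_{|x i| < a, ...} h = σ ∫_{|(T x) i| < a, ...} h (T x) dx = σ ∫_{|x i| < b, ...} h (T x) dx
≥ σ ∫_{|x i| < b, ...} h x dx` (the conditions on the coordinates `j ∈ A` do not change as `i ∉ A`).
-/

namespace Pool.Agent.Lib.MP_8d00da_gt.h42u

open MeasureTheory Set Filter
open Pool.Agent.Lib.MP_8d00da_gt.h25 Pool.Agent.Lib.MP_8d00da_gt.h42
open Pool.Agent.Lib.MP_8d00da_gt.h42s Pool.Agent.Lib.MP_8d00da_gt.h42o
open scoped Topology NNReal
 
variable {m : ℕ} {δ L : ℝ} {h : Vn m → ℝ}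

lemma uni (H : UW δ L h) (i : Fin m) {σ : ℝ} (hσ : |σ| ≤ 1) (x : Vn m) :
    h x ≤ h (WithLp.toLp 2 fun j => if j = i then σ * x j else x j) := by
  rw [abs_le] at hσ
  rcases eq_or_lt_of_le hσ.1 with h1 | h1
  · have h2 : (WithLp.toLp 2 fun j => if j = i then σ * x j else x j : Vn m) = fl i x := by
      ext j
      simp only [fl_apply, ← h1, neg_one_mul]
    rw [h2, H.even]
  rcases eq_or_lt_of_le hσ.2 with h2 | h2
  · have h3 : (WithLp.toLp 2 fun j => if j = i then σ * x j else x j : Vn m) = x := by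
      ext j
      simp only [h2, one_mul, ite_self]
    rw [h3]
  have h3 : (WithLp.toLp 2 fun j => if j = i then σ * x j else x j : Vn m) =
      (1 - (1 - σ) / 2) • x + ((1 - σ) / 2) • fl i x := by
    ext j
    simp only [PiLp.add_apply, PiLp.smul_apply, fl_apply, smul_eq_mul]
    split_ifs
    · ring
    · ring
  have h4 := H.lc ((1 - σ) / 2) (by linarith) (by linarith) x (fl i x)
  rw [H.even, ← Real.rpow_add (H.pos x)] at h4
  rw [h3]
  refine le_trans (le_of_eq ?_) h4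
  rw [sub_add_cancel, Real.rpow_one]

private noncomputable def shT (i : Fin m) {σ : ℝ} (hσ : σ ≠ 0) : Vn m ≃ₗ[ℝ] Vn m where
  toFun x := WithLp.toLp 2 fun j => if j = i then σ * x j else x j
  invFun x := WithLp.toLp 2 fun j => if j = i then σ⁻¹ * x j else x j
  map_add' x y := by
    ext j
    simp only [PiLp.add_apply]
    split_ifs <;> ring
  map_smul' a x := by
    ext j
    simp only [PiLp.smul_apply, smul_eq_mul, RingHom.id_apply]
    split_ifs <;> ring
  left_inv x := by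
    ext j
    simp only
    split_ifs with hj
    · rw [← mul_assoc, inv_mul_cancel₀ hσ, one_mul]
    · rfl
  right_inv x := by
    ext j
    simp only
    split_ifs with hj
    · rw [← mul_assoc, mul_inv_cancel₀ hσ, one_mul]
    · rfl

private lemma shT_apply (i : Fin m) {σ : ℝ} (hσ : σ ≠ 0) (x : Vn m) (j : Fin m) :
    shT i hσ x j = if j = i then σ * x j else x j := rfl

private lemma shT_det (i : Fin m) {σ : ℝ} (hσ : σ ≠ 0) :
    LinearMap.det (shT i hσ : Vn m →ₗ[ℝ] Vn m) = σ := by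
  have h1 : LinearMap.toMatrix (EuclideanSpace.basisFun (Fin m) ℝ).toBasis
      (EuclideanSpace.basisFun (Fin m) ℝ).toBasis (shT i hσ : Vn m →ₗ[ℝ] Vn m) =
      Matrix.diagonal fun j => if j = i then σ else 1 := by
    ext k l
    rw [LinearMap.toMatrix_apply, Matrix.diagonal_apply]
    simp only [OrthonormalBasis.coe_toBasis, EuclideanSpace.basisFun_apply, LinearEquiv.coe_coe,
      OrthonormalBasis.coe_toBasis_repr_apply, EuclideanSpace.basisFun_repr, shT_apply]
    by_cases hkl : k = l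
    · subst hkl
      simp
    · simp [hkl]
  rw [← LinearMap.det_toMatrix (EuclideanSpace.basisFun (Fin m) ℝ).toBasis, h1,
    Matrix.det_diagonal]
  simp

private lemma shT_map (i : Fin m) {σ : ℝ} (hσ : 0 < σ) :
    Measure.map (shT i hσ.ne' : Vn m → Vn m) volume =
      ENNReal.ofReal σ⁻¹ • (volume : Measure (Vn m)) := by
  have hdet : LinearMap.det (shT i hσ.ne' : Vn m →ₗ[ℝ] Vn m) ≠ 0 := by
    rw [shT_det]
    exact hσ.ne'
  have hmap := Measure.map_linearMap_addHaar_eq_smul_addHaar (volume : Measure (Vn m)) hdet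
  rw [shT_det, abs_of_pos (inv_pos.mpr hσ)] at hmap
  exact hmap

private lemma shT_emb (i : Fin m) {σ : ℝ} (hσ : σ ≠ 0) :
    MeasurableEmbedding (shT i hσ : Vn m → Vn m) :=
  (shT i hσ).toContinuousLinearEquiv.toHomeomorph.toMeasurableEquiv.measurableEmbedding

theorem slab_shrink (H : UW δ L h) (hδ : 0 < δ) {i : Fin m} {A : Finset (Fin m)} (hi : i ∉ A)
    (t : Fin m → ℝ) {a b : ℝ} (ha : 0 < a) (hab : a ≤ b) :
    (a / b) * ∫ x in {x : Vn m | |x i| < b ∧ ∀ j ∈ A, t j ≤ |x j|}, h x ≤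
      ∫ x in {x : Vn m | |x i| < a ∧ ∀ j ∈ A, t j ≤ |x j|}, h x := by
  have hb : 0 < b := ha.trans_le hab
  set σ := a / b with hσdef
  have hσ : 0 < σ := div_pos ha hb
  have hσ1 : |σ| ≤ 1 := by
    rw [abs_of_pos hσ]
    exact (div_le_one hb).mpr hab
  have hmeas : ∀ c : ℝ, MeasurableSet {x : Vn m | |x i| < c ∧ ∀ j ∈ A, t j ≤ |x j|} := by
    intro c
    have hx : ∀ j, Measurable fun x : Vn m => |x j| := by
      intro j
      have : Continuous fun x : Vn m => |x j| := by fun_prop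
      exact this.measurable
    have h1 : {x : Vn m | |x i| < c ∧ ∀ j ∈ A, t j ≤ |x j|} =
        {x : Vn m | |x i| < c} ∩ ⋂ j ∈ A, {x : Vn m | t j ≤ |x j|} := by
      ext x
      simp
    rw [h1]
    exact (measurableSet_lt (hx i) measurable_const).inter
      (Finset.measurableSet_biInter _ fun j _ => measurableSet_le measurable_const (hx j))
  have hint := H.int hδ
  have hintT : Integrable (fun x => h (shT i hσ.ne' x)) := by
    have h2 : Integrable h (Measure.map (shT i hσ.ne' : Vn m → Vn m) volume) := by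
      rw [shT_map i hσ]
      exact hint.smul_measure ENNReal.ofReal_ne_top
    exact (shT_emb i hσ.ne').integrable_map_iff.mp h2
  have hle : ∫ x in {x : Vn m | |x i| < b ∧ ∀ j ∈ A, t j ≤ |x j|}, h x ≤
      ∫ x in {x : Vn m | |x i| < b ∧ ∀ j ∈ A, t j ≤ |x j|}, h (shT i hσ.ne' x) :=
    integral_mono hint.integrableOn hintT.integrableOn fun x => uni H i hσ1 x
  have hset : (shT i hσ.ne' : Vn m → Vn m) ⁻¹' {x : Vn m | |x i| < a ∧ ∀ j ∈ A, t j ≤ |x j|} =
      {x : Vn m | |x i| < b ∧ ∀ j ∈ A, t j ≤ |x j|} := by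
    ext x
    simp only [mem_preimage, Set.mem_ofPred_eq, shT_apply, if_true]
    have h1 : |σ * x i| < a ↔ |x i| < b := by
      rw [abs_mul, abs_of_pos hσ, hσdef, div_mul_eq_mul_div, div_lt_iff₀ hb]
      exact mul_lt_mul_iff_right₀ ha
    rw [h1]
    refine and_congr_right fun _ => forall₂_congr fun j hj => ?_
    have hji : j ≠ i := fun h0 => hi (h0 ▸ hj)
    rw [if_neg hji]
  have hcov : ∫ x in {x : Vn m | |x i| < b ∧ ∀ j ∈ A, t j ≤ |x j|}, h (shT i hσ.ne' x) =
      σ⁻¹ * ∫ x in {x : Vn m | |x i| < a ∧ ∀ j ∈ A, t j ≤ |x j|}, h x := by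
    rw [← hset, ← (shT_emb i hσ.ne').setIntegral_map, shT_map i hσ, Measure.restrict_smul,
      integral_smul_measure, ENNReal.toReal_ofReal (inv_pos.mpr hσ).le, smul_eq_mul]
  calc σ * ∫ x in {x : Vn m | |x i| < b ∧ ∀ j ∈ A, t j ≤ |x j|}, h x
      ≤ σ * ∫ x in {x : Vn m | |x i| < b ∧ ∀ j ∈ A, t j ≤ |x j|}, h (shT i hσ.ne' x) :=
        mul_le_mul_of_nonneg_left hle hσ.le
    _ = ∫ x in {x : Vn m | |x i| < a ∧ ∀ j ∈ A, t j ≤ |x j|}, h x := by
        rw [hcov, ← mul_assoc, mul_inv_cancel₀ hσ.ne', one_mul]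

end Pool.Agent.Lib.MP_8d00da_gt.h42u
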