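import Pool.Agent.Lib.MP_8d00da_gt.h42u.UOne
import Pool.Agent.Lib.MP_8d00da_gt.h42u.UFar

/-!
# U30: small sets carry little mass of near-extremal functions

Full proof. `b j = 5000 K (13/12)^j`; `b j ≥ 5000 K (1 + j/12)` (Bernoulli), `b (j+1) = (13/12) b j`.
`ρ` from `far` for `C = 2 lam`, `τ = 1/16`. `ρ1` with `(1/2)∫ h ≤ ∫_{ball 0 ρ1} h` (exists: monotone
limit of balls, `∫ h > 0`; e.g. `MeasureTheory.tendsto_setIntegral_of_monotone`). `J` with
`(13/12 b J + 35 K)/κ ≥ ρ + ρ1` (`b j → ∞`). `τ' = 1/(100 (J+1))`. For `j = 0..J` let `ε j` be the number of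
`one_level` for `b j`, `τ'`; `ε = min 1 (min_j ε j) > 0`. Let `f` be given, `V = ∫ f² h`; if `V = 0` all
integrals vanish (`f² h = 0` a.e.), trivial; so `V > 0`. `En h f ≤ (1+ε) lam V ≤ (1 + ε j) lam V`, sets
`G j`. With `A 0 = D`, `A (j+1) = G j`: `∫_{A j} h ≤ exp (-b j) ∫ h`, and
`∫_{A j} f² h ≤ ∫_{A j \ G j} f² h + ∫_{G j} f² h ≤ (6 exp (30K - b j/14) + 2 τ') V + ∫_{A (j+1)} f² h`.
Induction: `∫_D f² h ≤ ∑_{j≤J} (6 exp (30 K - b j/14) + 2τ') V + ∫_{G J} f² h`. The last term: all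
points of `G J` have norm `≥ ρ`, so it is `≤ V/16`. `∑_{j≤J} 2 τ' = 1/50`. `30 K - b j/14 ≤ 30 K - 357 K
- 29 K j ≤ -300 - 29 j` (`K ≥ 1`), so `∑_j 6 exp (..) ≤ 6 exp (-300) ∑ 2^(-j) ≤ 1/16`. Total
`≤ 1/16 + 1/50 + 1/16 ≤ 1/4`.
-/

namespace Pool.Agent.Lib.MP_8d00da_gt.h42u

open MeasureTheory Set Filter
open Pool.Agent.Lib.MP_8d00da_gt.h25 Pool.Agent.Lib.MP_8d00da_gt.h42
open Pool.Agent.Lib.MP_8d00da_gt.h42s Pool.Agent.Lib.MP_8d00da_gt.h42o
open scoped Topology NNReal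

variable {m : ℕ} {δ L : ℝ} {h : Vn m → ℝ}

private lemma us_pow (K : ℝ) (hK : 1 ≤ K) (j : ℕ) :
    6 * Real.exp (30 * K - (5000 * K * (13 / 12) ^ j) / 14) ≤ (1 / 64) * (1 / 2) ^ j := by
  have h1 : (1 : ℝ) + (j : ℝ) * (1 / 12) ≤ (13 / 12) ^ j := by
    have := one_add_mul_le_pow (a := (1 / 12 : ℝ)) (by norm_num) j
    norm_num at this ⊢
    linarith
  have h2 : 30 * K - (5000 * K * (13 / 12) ^ j) / 14 ≤ -327 + (j : ℝ) * (-29) := by
    have h3 : 5000 * K * (1 + (j : ℝ) * (1 / 12)) ≤ 5000 * K * (13 / 12) ^ j := by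
      gcongr
    have h4 : (0 : ℝ) ≤ j := Nat.cast_nonneg j
    nlinarith [mul_le_mul_of_nonneg_right hK h4]
  have h5 : Real.exp (30 * K - (5000 * K * (13 / 12) ^ j) / 14) ≤
      Real.exp (-327) * Real.exp (-29) ^ j := by
    rw [← Real.exp_nat_mul, ← Real.exp_add]
    exact Real.exp_le_exp.mpr h2
  have h6 : Real.exp (-29) ≤ 1 / 2 := by
    rw [Real.exp_neg, inv_eq_one_div]
    have := Real.add_one_le_exp (29 : ℝ)
    apply one_div_le_one_div_of_le (by norm_num)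
    linarith
  have h7 : Real.exp (-327) ≤ 1 / 384 := by
    rw [Real.exp_neg, inv_eq_one_div]
    have h8 := Real.add_one_le_exp (327 / 2 : ℝ)
    apply one_div_le_one_div_of_le (by norm_num)
    have h9 : Real.exp 327 = Real.exp (327 / 2) * Real.exp (327 / 2) := by
      rw [← Real.exp_add]; norm_num
    rw [h9]
    nlinarith
  calc 6 * Real.exp (30 * K - (5000 * K * (13 / 12) ^ j) / 14)
      ≤ 6 * (Real.exp (-327) * Real.exp (-29) ^ j) := by gcongr
    _ ≤ 6 * (1 / 384 * (1 / 2) ^ j) := by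
        have := Real.exp_pos (-29)
        gcongr
    _ = (1 / 64) * (1 / 2) ^ j := by ring

private lemma us_min (e : ℕ → ℝ) (he : ∀ j, 0 < e j) (J : ℕ) :
    ∃ ε : ℝ, 0 < ε ∧ ε ≤ 1 ∧ ∀ j ≤ J, ε ≤ e j := by
  induction J with
  | zero =>
    refine ⟨min 1 (e 0), lt_min one_pos (he 0), min_le_left _ _, fun j hj => ?_⟩
    obtain rfl : j = 0 := by omega
    exact min_le_right _ _
  | succ J ih =>
    obtain ⟨ε, h1, h2, h3⟩ := ih
    refine ⟨min ε (e (J + 1)), lt_min h1 (he _), (min_le_left _ _).trans h2, fun j hj => ?_⟩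
    rcases Nat.lt_or_ge j (J + 1) with h | h
    · exact (min_le_left _ _).trans (h3 j (by omega))
    · obtain rfl : j = J + 1 := by omega
      exact min_le_right _ _

private lemma us_ball (hi : Integrable h) (hm : 0 < ∫ x, h x) :
    ∃ ρ1 : ℝ, (1 / 2) * ∫ x, h x ≤ ∫ x in Metric.ball (0 : Vn m) ρ1, h x := by
  have h1 : Tendsto (fun n : ℕ => ∫ x in Metric.ball (0 : Vn m) n, h x) atTop
      (𝓝 (∫ x in ⋃ n : ℕ, Metric.ball (0 : Vn m) n, h x)) := by
    apply tendsto_setIntegral_of_monotone (fun n => measurableSet_ball)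
    · intro a b hab
      exact Metric.ball_subset_ball (by exact_mod_cast hab)
    · exact hi.integrableOn
  rw [Metric.iUnion_ball_nat, setIntegral_univ] at h1
  have h2 := (h1.eventually (lt_mem_nhds (show (1 / 2) * ∫ x, h x < ∫ x, h x by linarith))).exists
  obtain ⟨n, hn⟩ := h2
  exact ⟨n, hn.le⟩

private lemma us_split {g : Vn m → ℝ} (hg : Integrable g) {G : Set (Vn m)} (hG : MeasurableSet G)
    (B : Set (Vn m)) :
    (∫ x in B \ G, g x) + ∫ x in B ∩ G, g x = ∫ x in B, g x := by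
  have := integral_inter_add_diff (s := B) (f := g) (μ := volume) hG hg.integrableOn
  rw [add_comm]
  exact this

theorem small_sets (H : UW δ L h) (hδ : 0 < δ) (hL : 0 ≤ L) {S : Finset (Fin m)} (hS : S ≠ ∅)
    {κ K lam : ℝ} (hκ : 0 < κ) (hK : 1 ≤ K) (hC : Conc κ (35 * K) h) (hl : 0 < lam)
    (hlow : Low S h lam) (hlκ : 2 * Real.sqrt lam ≤ (6 / 7) * κ) :
    ∃ ε : ℝ, 0 < ε ∧ ε ≤ 1 ∧ ∀ f : Vn m → ℝ, Par S f → BL f → Differentiable ℝ f →
      En h f ≤ (1 + ε) * lam * ∫ x, f x ^ 2 * h x →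
      ∀ D : Set (Vn m), MeasurableSet D →
        ∫ x in D, h x ≤ Real.exp (-(5000 * K)) * ∫ x, h x →
        ∫ x in D, f x ^ 2 * h x ≤ (1 / 4) * ∫ x, f x ^ 2 * h x := by
  have hM := H.mass hδ
  have hi := H.int hδ
  obtain ⟨ρ, hρ, hfar⟩ := far H hδ (C := 2 * lam) (τ := 1 / 16) (by positivity) (by norm_num)
  obtain ⟨ρ1, hρ1⟩ := us_ball hi hM
  have hJ : ∃ J : ℕ, ρ + ρ1 ≤ (13 / 12 * (5000 * K * (13 / 12) ^ J) + 35 * K) / κ := by
    obtain ⟨J, hJ⟩ := pow_unbounded_of_one_lt (κ * (ρ + ρ1)) (show (1 : ℝ) < 13 / 12 by norm_num)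
    refine ⟨J, ?_⟩
    rw [le_div_iff₀ hκ, mul_comm]
    have h0 : (0 : ℝ) < (13 / 12) ^ J := by positivity
    have h1 : 1 * (13 / 12 : ℝ) ^ J ≤ 13 / 12 * (5000 * K * (13 / 12) ^ J) := by
      rw [← mul_assoc]
      apply mul_le_mul_of_nonneg_right _ h0.le
      nlinarith
    nlinarith
  obtain ⟨J, hJ⟩ := hJ
  set τ : ℝ := 1 / (100 * ((J : ℝ) + 1)) with hτ
  have hJ0 : (0 : ℝ) ≤ J := Nat.cast_nonneg J
  have hτ0 : 0 < τ := by positivity
  have hb : ∀ j : ℕ, 0 < 5000 * K * (13 / 12 : ℝ) ^ j := fun j => by positivity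
  choose e he hG using fun j : ℕ => one_level H hδ hL hS hκ (by linarith : (0 : ℝ) ≤ K) hC hl hlow
    hlκ (hb j) hτ0
  obtain ⟨ε, hε, hε1, hεe⟩ := us_min e he J
  refine ⟨ε, hε, hε1, fun f hP hBL hd hEn D hD hDm => ?_⟩
  set V : ℝ := ∫ x, f x ^ 2 * h x with hV
  obtain ⟨⟨Lf, hLf⟩, A, hA⟩ := id hBL
  have hA0 : 0 ≤ A := (abs_nonneg _).trans (hA 0)
  have hf2 : Integrable fun x => f x ^ 2 * h x :=
    H.int_poly hδ (hLf.continuous.measurable.pow_const 2) (C := A ^ 2) (fun x => by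
      rw [abs_pow]
      have h1 : |f x| ^ 2 ≤ A ^ 2 := by
        have := hA x
        gcongr
      have := sq_nonneg ‖x‖
      nlinarith [sq_nonneg A])
  have hf0 : ∀ x, 0 ≤ f x ^ 2 * h x := fun x => mul_nonneg (sq_nonneg _) (H.pos x).le
  have hV0 : 0 ≤ V := integral_nonneg hf0
  have hsub : ∀ s t : Set (Vn m), s ⊆ t → ∫ x in s, f x ^ 2 * h x ≤ ∫ x in t, f x ^ 2 * h x := by
    intro s t hst
    exact setIntegral_mono_set hf2.integrableOn (Eventually.of_forall hf0)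
      (Eventually.of_forall hst)
  rcases hV0.eq_or_lt with h0 | hVp
  · have h1 := hsub D univ (subset_univ _)
    rw [setIntegral_univ, ← hV, ← h0] at h1
    rw [← h0]
    linarith
  have hEn2 : En h f ≤ 2 * lam * V := by
    refine hEn.trans ?_
    have : (1 + ε) * lam ≤ 2 * lam := by nlinarith
    exact mul_le_mul_of_nonneg_right this hV0
  have hfar' := hfar f hBL hd hEn2
  have key : ∀ n j : ℕ, j + n = J → ∀ B : Set (Vn m), MeasurableSet B →
      ∫ x in B, h x ≤ Real.exp (-(5000 * K * (13 / 12) ^ j)) * ∫ x, h x →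
      ∫ x in B, f x ^ 2 * h x ≤
        ((1 / 32) * (1 / 2) ^ j + 2 * τ * ((n : ℝ) + 1) + 1 / 16) * V := by
    intro n
    induction n with
    | zero =>
      intro j hj B hB hBm
      obtain rfl : j = J := by omega
      have hEj : En h f ≤ (1 + e j) * lam * ∫ x, f x ^ 2 * h x := by
        refine hEn.trans ?_
        have := hεe j le_rfl
        rw [← hV]
        gcongr
      obtain ⟨G, hGm, -, hG2, hG3⟩ := hG j f hP hBL hVp hEj
      have h1 := hG2 B hB hBm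
      have h2 : G ⊆ {x : Vn m | ρ ≤ ‖x‖} := fun x hx => hG3 ρ ρ1 hρ1 hJ x hx
      have h3 := (hsub G _ h2).trans hfar'
      have h4 : ∫ x in B, f x ^ 2 * h x ≤ (∫ x in B \ G, f x ^ 2 * h x) +
          ∫ x in G, f x ^ 2 * h x := by
        rw [← us_split hf2 hGm B]
        have := hsub (B ∩ G) G inter_subset_right
        linarith
      have h5 := us_pow K hK j
      rw [← hV] at h1
      have h6 : (6 * Real.exp (30 * K - 5000 * K * (13 / 12) ^ j / 14) + 2 * τ) * V ≤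
          ((1 / 64) * (1 / 2) ^ j + 2 * τ) * V := by gcongr
      have h7 : (0 : ℝ) < (1 / 2) ^ j := by positivity
      have h8 : 0 < (1 / 2 : ℝ) ^ j * V := by positivity
      push_cast
      nlinarith
    | succ n ih =>
      intro j hj B hB hBm
      have hEj : En h f ≤ (1 + e j) * lam * ∫ x, f x ^ 2 * h x := by
        refine hEn.trans ?_
        have := hεe j (by omega)
        rw [← hV]
        gcongr
      obtain ⟨G, hGm, hG1, hG2, -⟩ := hG j f hP hBL hVp hEj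
      have h1 := hG2 B hB hBm
      have hG1' : ∫ x in G, h x ≤ Real.exp (-(5000 * K * (13 / 12) ^ (j + 1))) * ∫ x, h x := by
        refine hG1.trans (le_of_eq ?_)
        congr 3
        ring
      have h3 := ih (j + 1) (by omega) G hGm hG1'
      have h4 : ∫ x in B, f x ^ 2 * h x ≤ (∫ x in B \ G, f x ^ 2 * h x) +
          ∫ x in G, f x ^ 2 * h x := by
        rw [← us_split hf2 hGm B]
        have := hsub (B ∩ G) G inter_subset_right
        linarith
      have h5 := us_pow K hK j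
      rw [← hV] at h1
      have h6 : (6 * Real.exp (30 * K - 5000 * K * (13 / 12) ^ j / 14) + 2 * τ) * V ≤
          ((1 / 64) * (1 / 2) ^ j + 2 * τ) * V := by gcongr
      have h7 : (1 / 2 : ℝ) ^ (j + 1) = (1 / 2) ^ j * (1 / 2) := pow_succ _ _
      rw [h7] at h3
      push_cast
      refine h4.trans (le_trans (add_le_add (h1.trans h6) h3) (le_of_eq ?_))
      ring
  have h1 := key J 0 (by omega) D hD (by simpa using hDm)
  refine h1.trans ?_
  apply mul_le_mul_of_nonneg_right _ hV0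
  have h2 : 2 * τ * ((J : ℝ) + 1) = 1 / 50 := by
    rw [hτ]
    field_simp
    norm_num
  rw [h2]
  norm_num

end Pool.Agent.Lib.MP_8d00da_gt.h42u
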