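import Pool.Agent.Lib.MP_8d00da_gt.h42u.UShare

/-!
# The extremal argument
-/

namespace Pool.Agent.Lib.MP_8d00da_gt.h42u

open MeasureTheory Set Filter
open Pool.Agent.Lib.MP_8d00da_gt.h25 Pool.Agent.Lib.MP_8d00da_gt.h42
open Pool.Agent.Lib.MP_8d00da_gt.h42s Pool.Agent.Lib.MP_8d00da_gt.h42o
open scoped Topology NNReal

variable {m : ℕ} {δ L Λ : ℝ} {h : Vn m → ℝ}

lemma pz_zero : pz 0 = 1 := by simp [pz]

lemma pz_ge (k : ℕ) : 1 ≤ pz k := by
  unfold pz
  have h1 : (19 / 20 : ℝ) ^ k ≤ 1 := pow_le_one₀ (by norm_num) (by norm_num)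
  linarith

lemma pz_le (k : ℕ) : pz k ≤ 101 / 100 := by
  unfold pz
  have h1 : 0 ≤ (19 / 20 : ℝ) ^ k := by positivity
  linarith

lemma pz_inc (k : ℕ) : pz (k + 1) = pz k + (1 / 2000) * (19 / 20 : ℝ) ^ k := by
  unfold pz
  rw [pow_succ]
  ring

/-- The hypothesis of validity of a constant. -/
def VU (h : Vn m → ℝ) (Λ : ℝ) : Prop :=
  ∀ (S : Finset (Fin m)) (u : Vn m → ℝ), Par S u → BL u → pz S.card * Vr h u ≤ Λ * En h u

lemma Vr_par (H : SWt δ L h) {S : Finset (Fin m)} {u : Vn m → ℝ} (hu : Par S u) (hS : S ≠ ∅) :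
    Vr h u = ∫ x, u x ^ 2 * h x :=
  Vr_of_mean (hu.mean_zero H.even hS)

/-- The consequence of the sharp Bochner inequality. -/
lemma bochner_sumU (H : SWt δ L h) (hδ : 0 < δ) (hL : 0 ≤ L)
    (hΛ : 0 < Λ) (hval : VU h Λ) {η d : ℝ} (hη : 0 < η) (hη1 : η < 1)
    (hcond : (11 / 10) * (4 * η) / Λ + (4 * η + Λ) * (η ^ 3 + η + Real.sqrt η * L ^ 2 / 2) +
        (Real.sqrt η / 2) * (11 / 10 + d) < d)
    {S : Finset (Fin m)} {q : Vn m → ℝ} (hq : Par S q) (hB : BL q)
    (hd : Differentiable ℝ q) (hdv : ∀ v, BL fun x => fderiv ℝ q x v)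
    (hmean : ∫ x, q x * h x = 0)
    (hnear : (1 - η ^ 4) * Λ * En h q ≤ pz S.card * ∫ x, q x ^ 2 * h x) :
    ∑ i, pz (tog S i).card * Vr h (fun x => fderiv ℝ q x (ee i)) ≤
      (pz S.card + d) * En h q := by
  have hwt := H.wt hδ
  have hi := H.int hδ
  have hmass := H.mass hδ
  obtain ⟨W, hW, hWd, hWL⟩ := H.reg
  set φ := pz S.card with hφ
  have hφ1 : 1 ≤ φ := pz_ge _
  have hφ2 : φ ≤ 11 / 10 := (pz_le _).trans (by norm_num)
  have hE0 : 0 ≤ En h q := En_nonneg hwt
  set b := EuclideanSpace.basisFun (Fin m) ℝ with hb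
  have hbi : ∀ i, b i = ee i := fun i => by rw [hb, EuclideanSpace.basisFun_apply]; rfl
  set lam := φ / Λ with hlam
  have hlam0 : 0 < lam := by positivity
  obtain ⟨⟨Lq, hLq⟩, A, hA⟩ := id hB
  have hsm := RT_dir hwt hη hLq hA
  have hRB : BL (RT h η q) := (hsm 0).2.1
  have hRmean : ∫ x, RT h η q x * h x = 0 := by
    rw [round_mean hwt hi hη hLq hA]; exact hmean
  have hRP : Par S (RT h η q) := hq.RT H.even
  have hP : ∀ s : ℝ, lam * ∫ x, (q x + s * RT h η q x) ^ 2 * h x ≤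
      En h (fun x => q x + s * RT h η q x) := by
    intro s
    have h1 : BL fun x => q x + s * RT h η q x := hB.add ((BL.const s).mul hRB)
    have h2 := hval S _ (hq.add_smul hRP s) h1
    have h3 : ∫ x, (q x + s * RT h η q x) * h x = 0 := by
      obtain ⟨⟨LR, hLR⟩, AR, hAR⟩ := id hRB
      have i1 : Integrable fun x => q x * h x := bdd_int hi hLq.continuous.measurable hA
      have i2 : Integrable fun x => RT h η q x * h x := bdd_int hi hLR.continuous.measurable hAR
      have e : (fun x => (q x + s * RT h η q x) * h x) =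
          fun x => q x * h x + s * (RT h η q x * h x) := by funext x; ring
      rw [e, integral_add i1 (i2.const_mul s), integral_const_mul, hmean, hRmean]
      simp
    rw [Vr_of_mean h3] at h2
    rw [hlam, div_mul_eq_mul_div, div_le_iff₀ hΛ, mul_comm (En h _)]
    exact h2
  have hnear' : (1 - η ^ 4) * En h q ≤ lam * ∫ x, q x ^ 2 * h x := by
    rw [hlam, div_mul_eq_mul_div, le_div_iff₀ hΛ]
    linarith
  have hsq : Real.sqrt (η ^ 4) = η ^ 2 := by
    rw [show η ^ 4 = (η ^ 2) ^ 2 by ring, Real.sqrt_sq (by positivity)]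
  have hsη : 0 < Real.sqrt η := Real.sqrt_pos.2 hη
  have hboch := bochner hwt hi hη hW hWd hL hWL hB hd hdv b (θ := Real.sqrt η) hsη hlam0.le
    (ε := η ^ 4) (by positivity) hP hnear'
  set c0 : ℝ := ∫ z : Vn m, h25.ker η z with hc0
  have hc0p : 0 < c0 := ker_int_pos hη
  rw [hsq] at hboch
  simp only [hbi] at hboch
  set VVs : ℝ := ∑ i, ∫ y, VV h η (fun x => fderiv ℝ q x (ee i)) y with hVVs
  -- the lower bounds
  have hlow : ∀ i, c0 * (η * (pz (tog S i).card * Vr h (fun x => fderiv ℝ q x (ee i)))) ≤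
      (4 * η + Λ) * ∫ y, VV h η (fun x => fderiv ℝ q x (ee i)) y := by
    intro i
    set g : Vn m → ℝ := fun x => fderiv ℝ q x (ee i) with hg
    have hgB : BL g := hdv (ee i)
    obtain ⟨⟨Lg, hLg⟩, Ag, hAg⟩ := id hgB
    have hgP : Par (tog S i) g := hq.deriv hd i
    have hRgB : BL (RT h η g) := (RT_dir hwt hη hLg hAg 0).2.1
    have hRgP : Par (tog S i) (RT h η g) := hgP.RT H.even
    set φi := pz (tog S i).card with hφi
    have hφi1 : 1 ≤ φi := pz_ge _
    have hφi2 : φi ≤ 11 / 10 := (pz_le _).trans (by norm_num)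
    have h1 := hval _ _ hRgP hRgB
    have h2 : Vr h (RT h η g) ≤ (Λ / φi) * En h (RT h η g) := by
      rw [div_mul_eq_mul_div, le_div_iff₀ (by linarith), mul_comm]
      exact h1
    have h3 := VV_lower hwt hi hmass hη hgB (K := Λ / φi) (by positivity) h2
    have hVV0 : 0 ≤ ∫ y, VV h η g y := integral_nonneg fun y => hwt.VV_nonneg
    have h4 := mul_le_mul_of_nonneg_left h3 (by linarith : (0 : ℝ) ≤ φi)
    have h5 : φi * ((2 * η + Λ / φi) * ∫ y, VV h η g y) = (2 * η * φi + Λ) * ∫ y, VV h η g y := by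
      have : φi ≠ 0 := by linarith
      field_simp
    rw [h5] at h4
    calc c0 * (η * (φi * Vr h g)) = φi * (c0 * (η * Vr h g)) := by ring
      _ ≤ (2 * η * φi + Λ) * ∫ y, VV h η g y := h4
      _ ≤ _ := by
        refine mul_le_mul_of_nonneg_right ?_ hVV0
        nlinarith
  have hsum : c0 * (η * ∑ i, pz (tog S i).card * Vr h (fun x => fderiv ℝ q x (ee i))) ≤
      (4 * η + Λ) * VVs := by
    rw [hVVs, Finset.mul_sum, Finset.mul_sum, Finset.mul_sum]
    exact Finset.sum_le_sum fun i _ => hlow i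
  set X : ℝ := ∑ i, pz (tog S i).card * Vr h (fun x => fderiv ℝ q x (ee i)) with hX
  set sη := Real.sqrt η with hsηdef
  have hs2 : sη ^ 2 = η := Real.sq_sqrt hη.le
  have hs1 : sη < 1 := by nlinarith
  have hh1 : 0 < 1 - sη / 2 := by linarith
  -- combine
  have h6 : (1 - sη / 2) * (c0 * (η * X)) ≤ (4 * η + Λ) *
      (c0 * ((η ^ 4 + η ^ 2 + lam * η + (η * L) ^ 2 / (2 * sη)) * En h q)) := by
    calc (1 - sη / 2) * (c0 * (η * X)) ≤ (1 - sη / 2) * ((4 * η + Λ) * VVs) :=
          mul_le_mul_of_nonneg_left hsum hh1.le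
      _ = (4 * η + Λ) * ((1 - sη / 2) * VVs) := by ring
      _ ≤ _ := mul_le_mul_of_nonneg_left hboch (by positivity)
  have h7 : (η * L) ^ 2 / (2 * sη) = η * (sη * L ^ 2 / 2) := by
    rw [div_eq_iff (by positivity)]
    have : η * (sη * L ^ 2 / 2) * (2 * sη) = η * L ^ 2 * sη ^ 2 := by ring
    rw [this, hs2]; ring
  rw [h7] at h6
  have h8 : (1 - sη / 2) * X ≤ (4 * η + Λ) *
      ((η ^ 3 + η + lam + sη * L ^ 2 / 2) * En h q) := by
    refine le_of_mul_le_mul_left (a := c0 * η) ?_ (by positivity)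
    calc c0 * η * ((1 - sη / 2) * X) = (1 - sη / 2) * (c0 * (η * X)) := by ring
      _ ≤ _ := h6
      _ = _ := by ring
  have h9 : (4 * η + Λ) * (η ^ 3 + η + lam + sη * L ^ 2 / 2) ≤ (1 - sη / 2) * (φ + d) := by
    have e1 : (4 * η + Λ) * lam = φ + φ * (4 * η) / Λ := by
      rw [hlam]; field_simp; ring
    have e2 : φ * (4 * η) / Λ ≤ (11 / 10) * (4 * η) / Λ := by gcongr
    have e3 : (sη / 2) * (φ + d) ≤ (sη / 2) * (11 / 10 + d) := by gcongr
    nlinarith
  have h10 : (1 - sη / 2) * X ≤ (1 - sη / 2) * ((φ + d) * En h q) := by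
    calc (1 - sη / 2) * X ≤ (4 * η + Λ) * ((η ^ 3 + η + lam + sη * L ^ 2 / 2) * En h q) := h8
      _ = ((4 * η + Λ) * (η ^ 3 + η + lam + sη * L ^ 2 / 2)) * En h q := by ring
      _ ≤ ((1 - sη / 2) * (φ + d)) * En h q := mul_le_mul_of_nonneg_right h9 hE0
      _ = _ := by ring
  exact le_of_mul_le_mul_left h10 hh1

/-- Valid constants are Poincaré constants. -/
lemma VU.poincare (hval : VU h Λ) (H : SWt δ L h) (hδ : 0 < δ) (hΛ : 0 < Λ) {q : Vn m → ℝ}
    (hq : BL q) : Vr h q ≤ Λ * En h q := by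
  have hwt := H.wt hδ
  refine all_of_par hwt.meas hwt.nonneg (H.int hδ) H.even hΛ.le (fun S q hq hB => ?_) hq
  have h1 := hval S q hq hB
  have h2 : 0 ≤ Vr h q := Vr_nonneg hwt (H.int hδ) (H.mass hδ) hB
  have h3 : 1 * Vr h q ≤ pz S.card * Vr h q := mul_le_mul_of_nonneg_right (pz_ge _) h2
  linarith

/-- The bound of the energy share of the odd directions. -/
lemma share_bound (H : SWt δ L h) (hδ : 0 < δ) (hL : 0 ≤ L) (hΛ : 10 ^ 12 ≤ Λ)
    (hval : VU h Λ) {ε : ℝ} (hε1 : ε ≤ 1 / 10 ^ 6) {S : Finset (Fin m)}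
    (hS : S.Nonempty) {q : Vn m → ℝ} (hq : Par S q) (hB : BL q)
    (hnear : (1 - ε) * Λ * En h q ≤ pz S.card * ∫ x, q x ^ 2 * h x) :
    ∑ i ∈ S, aE h q i ≤ (473 / 1000) * En h q := by
  have hΛ0 : 0 < Λ := by linarith [show (0 : ℝ) < 10 ^ 12 by norm_num]
  have hE0 : 0 ≤ En h q := En_nonneg (H.wt hδ)
  have key := share H hδ hL hΛ (fun q hq => hval.poincare H hδ hΛ0 hq) hS hq hB
  have hφ1 : 1 ≤ pz S.card := pz_ge _
  have hφ2 : pz S.card ≤ 101 / 100 := pz_le _
  set E := En h q with hE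
  set As := ∑ i ∈ S, aE h q i with hAs
  set V := ∫ x, q x ^ 2 * h x with hV
  have hV0 : 0 ≤ V := integral_nonneg fun x => mul_nonneg (sq_nonneg _) (H.pos x).le
  have h1 : (1 - ε) * Λ * E ≤ 101 / 100 * V :=
    hnear.trans (mul_le_mul_of_nonneg_right hφ2 hV0)
  have h2 : (1 - 1 / 10 ^ 6) * (Λ * E) ≤ (1 - ε) * (Λ * E) :=
    mul_le_mul_of_nonneg_right (by linarith) (by positivity)
  have h3 : (1 - 1 / 10 ^ 6) * (Λ * E) ≤ 101 / 100 * (16 / 9 * Λ * (E - 15 / 16 * As)) := by
    nlinarith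
  have h4 : Λ * ((1 - 1 / 10 ^ 6) * E) ≤ Λ * (101 / 100 * (16 / 9 * (E - 15 / 16 * As))) := by
    nlinarith
  have h5 := le_of_mul_le_mul_left h4 hΛ0
  norm_num at h5 ⊢
  linarith

lemma core_stepU (H : SWt δ L h) (hδ : 0 < δ) (hL : 0 ≤ L) (hΛ : 10 ^ 12 ≤ Λ) (hval : VU h Λ)
    {η d : ℝ} (hη : 0 < η) (hη1 : η < 1)
    (hd0 : 0 < d) (hdn : d ≤ (1 / 10 ^ 6) * (19 / 20 : ℝ) ^ m)
    (hcond : (11 / 10) * (4 * η) / Λ + (4 * η + Λ) * (η ^ 3 + η + Real.sqrt η * L ^ 2 / 2) +
        (Real.sqrt η / 2) * (11 / 10 + d) < d) (hηn : η ^ 4 ≤ 1 / 10 ^ 6)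
    {S : Finset (Fin m)} {q : Vn m → ℝ} (hq : Par S q) (hB : BL q)
    (hd : Differentiable ℝ q) (hdv : ∀ v, BL fun x => fderiv ℝ q x v)
    (hmean : ∫ x, q x * h x = 0) (hE : 0 < En h q)
    (hnear : (1 - η ^ 4) * Λ * En h q ≤ pz S.card * ∫ x, q x ^ 2 * h x) : False := by
  have hwt := H.wt hδ
  have hi := H.int hδ
  have hmass := H.mass hδ
  have hΛ0 : 0 < Λ := by linarith [show (0 : ℝ) < 10 ^ 12 by norm_num]
  have hb := bochner_sumU H hδ hL hΛ0 hval hη hη1 hcond hq hB hd hdv hmean hnear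
  set ε := η ^ 4 with hε
  have hε0 : 0 ≤ ε := by positivity
  have hes := energy_sum hi hB
  have ha0 : ∀ i, 0 ≤ aE h q i := fun i => aE_nonneg (fun x => (H.pos x).le) i
  have hpow1 : (19 / 20 : ℝ) ^ m ≤ 1 := pow_le_one₀ (by norm_num) (by norm_num)
  have hvd : ∀ i, tog S i ≠ ∅ → Vr h (fun x => fderiv ℝ q x (ee i)) = aE h q i := fun i hi' =>
    Vr_of_mean ((hq.deriv hd i).mean_zero H.even hi')
  rcases hc : S.card with _ | k
  · -- the even class
    have hS : S = ∅ := Finset.card_eq_zero.1 hc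
    subst hS
    have h1 : ∀ i, pz (tog (∅ : Finset (Fin m)) i).card *
        Vr h (fun x => fderiv ℝ q x (ee i)) = (1 + 1 / 2000) * aE h q i := by
      intro i
      have hi' : i ∉ (∅ : Finset (Fin m)) := Finset.notMem_empty i
      have hne : tog (∅ : Finset (Fin m)) i ≠ ∅ := by
        intro he
        have := tog_card_notMem hi'
        rw [he] at this
        simp at this
      rw [hvd i hne, tog_card_notMem hi', Finset.card_empty, pz_inc, pz_zero]
      norm_num
    simp only [h1] at hb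
    rw [← Finset.mul_sum, ← hes, Finset.card_empty, pz_zero] at hb
    have : (1 / 2000) * En h q ≤ d * En h q := by linarith
    have h2 := le_of_mul_le_mul_right this hE
    have h3 : d ≤ 1 / 10 ^ 6 := hdn.trans (by nlinarith)
    norm_num at h3
    linarith
  have hSne : S.Nonempty := by
    rw [← Finset.card_pos, hc]; omega
  have hAs := share_bound H hδ hL hΛ hval hηn hSne hq hB hnear
  set As : ℝ := ∑ i ∈ S, aE h q i with hAsd
  set E := En h q with hEd
  have hkm : k + 1 ≤ m := by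
    have := S.card_le_univ
    rw [Fintype.card_fin, hc] at this
    omega
  set p : ℝ := (19 / 20 : ℝ) ^ k with hp
  have hp0 : 0 < p := by positivity
  have hp1 : p ≤ 1 := pow_le_one₀ (by norm_num) (by norm_num)
  have hdp : d ≤ (1 / 10 ^ 6) * p := by
    refine hdn.trans (mul_le_mul_of_nonneg_left ?_ (by norm_num))
    exact pow_le_pow_of_le_one (by norm_num) (by norm_num) (by omega)
  have hinc1 : pz (k + 1) = pz k + (1 / 2000) * p := pz_inc k
  have hinc2 : pz (k + 2) = pz (k + 1) + (1 / 2000) * ((19 / 20) * p) := by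
    have := pz_inc (k + 1)
    rw [pow_succ, ← hp] at this
    rw [show k + 2 = k + 1 + 1 by ring, this]
    ring
  rcases k with _ | k
  · -- one odd coordinate
    obtain ⟨i, rfl⟩ := Finset.card_eq_one.1 hc
    have hAs' : As = aE h q i := by rw [hAsd, Finset.sum_singleton]
    have h1 : ∀ j, pz (tog {i} j).card * Vr h (fun x => fderiv ℝ q x (ee j)) =
        (if j = i then 0 else pz 2 * aE h q j) +
          (if j = i then Vr h (fun x => fderiv ℝ q x (ee i)) else 0) := by
      intro j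
      by_cases hj : j = i
      · subst hj
        rw [tog_card_mem (Finset.mem_singleton_self j), Finset.card_singleton, if_pos rfl,
          if_pos rfl]
        rw [show 1 - 1 = 0 by norm_num, pz_zero]
        ring
      · have hj' : j ∉ ({i} : Finset (Fin m)) := by simpa using hj
        have hne : tog ({i} : Finset (Fin m)) j ≠ ∅ := by
          intro he
          have := tog_card_notMem hj'
          rw [he] at this
          simp at this
        rw [hvd j hne, tog_card_notMem hj', Finset.card_singleton, if_neg hj, if_neg hj,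
          show 1 + 1 = 2 by norm_num]
        ring
    simp only [h1] at hb
    rw [Finset.sum_add_distrib, Finset.sum_ite_eq' Finset.univ i, if_pos (Finset.mem_univ i),
      Finset.card_singleton] at hb
    have h2 : ∑ j, (if j = i then 0 else pz 2 * aE h q j) = pz 2 * (E - As) := by
      rw [hAs', hes]
      have e : ∀ j, (if j = i then 0 else pz 2 * aE h q j) =
          pz 2 * aE h q j - (if j = i then pz 2 * aE h q i else 0) := by
        intro j
        by_cases hj : j = i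
        · subst hj; simp
        · simp [hj]
      simp only [e]
      rw [Finset.sum_sub_distrib, Finset.sum_ite_eq' Finset.univ i, if_pos (Finset.mem_univ i),
        ← Finset.mul_sum]
      ring
    rw [h2] at hb
    have hpe : p = 1 := by rw [hp]; simp
    rw [hpe] at hinc1 hinc2 hdp
    simp only [zero_add] at hinc1 hinc2
    rw [pz_zero] at hinc1
    have hn1 : (1 - ε) * Λ * E ≤ pz 1 * ∫ x, q x ^ 2 * h x := by
      have := hnear
      rwa [Finset.card_singleton] at this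
    set lam : ℝ := pz 1 / Λ with hlam
    have hlam0 : 0 < lam := div_pos (by linarith [pz_ge 1]) hΛ0
    have hlam1 : lam ≤ 2 / 10 ^ 12 := by
      rw [hlam, div_le_iff₀ hΛ0]
      have := pz_le 1
      have h5 : 2 / 10 ^ 12 * 10 ^ 12 ≤ 2 / 10 ^ 12 * Λ :=
        mul_le_mul_of_nonneg_left hΛ (by norm_num)
      norm_num at h5 ⊢
      linarith
    have hmb := mean_bound H hδ i hB hd (fun x => hq.1 i (Finset.mem_singleton_self i) x)
      (fun j hj x => hq.2 j (by simpa using hj) x) hlam0 hε0 (fun u hu hup => by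
        have h3 := hval {i} u hup hu
        have h4 : Vr h u = ∫ x, u x ^ 2 * h x :=
          Vr_of_mean (hup.mean_zero H.even (by simp))
        rw [h4, Finset.card_singleton] at h3
        rw [hlam, div_mul_eq_mul_div, div_le_iff₀ hΛ0, mul_comm (En h u)]
        exact h3) (by
        rw [hlam, div_mul_eq_mul_div, le_div_iff₀ hΛ0]
        linarith)
    have hV : Vr h (fun x => fderiv ℝ q x (ee i)) =
        aE h q i - (∫ x, fderiv ℝ q x (ee i) * h x) ^ 2 / ∫ x, h x := rfl
    have hM : (∫ x, fderiv ℝ q x (ee i) * h x) ^ 2 / ∫ x, h x ≤ 2 * (lam + ε) * E := by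
      rw [div_le_iff₀ hmass]
      exact hmb
    rw [hV, ← hAs'] at hb
    have h5 : 2 * (lam + ε) * E ≤ (3 / 10 ^ 6) * E := by
      refine mul_le_mul_of_nonneg_right ?_ hE.le
      norm_num at hlam1 hηn ⊢
      linarith
    have h6 : d * E ≤ (1 / 10 ^ 6) * E := by
      refine mul_le_mul_of_nonneg_right ?_ hE.le
      linarith
    norm_num at h5 h6
    nlinarith
  · -- at least two odd coordinates
    have h1 : ∀ i, pz (tog S i).card * Vr h (fun x => fderiv ℝ q x (ee i)) =
        pz (k + 3) * aE h q i - (if i ∈ S then (pz (k + 3) - pz (k + 1)) * aE h q i else 0) := by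
      intro i
      by_cases hiS : i ∈ S
      · have hcard := tog_card_mem hiS
        rw [hc] at hcard
        have hne : tog S i ≠ ∅ := by
          intro he
          rw [he, Finset.card_empty] at hcard
          omega
        rw [hvd i hne, hcard, if_pos hiS, show k + 1 + 1 - 1 = k + 1 by omega]
        ring
      · have hcard := tog_card_notMem hiS
        rw [hc] at hcard
        have hne : tog S i ≠ ∅ := by
          intro he
          rw [he, Finset.card_empty] at hcard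
          omega
        rw [hvd i hne, hcard, if_neg hiS, show k + 1 + 1 + 1 = k + 3 by omega]
        ring
    simp only [h1] at hb
    rw [Finset.sum_sub_distrib, ← Finset.mul_sum, ← hes, ← Finset.sum_filter,
      Finset.filter_mem_eq_inter, Finset.univ_inter, ← Finset.mul_sum, ← hAsd, hc,
      show k + 1 + 1 = k + 2 by ring] at hb
    have e1 : pz (k + 2) = pz (k + 1) + (1 / 2000) * p := hinc1
    have e2 : pz (k + 3) = pz (k + 2) + (1 / 2000) * ((19 / 20) * p) := hinc2
    have h3 : (1 / 2000) * p * ((19 / 20) * E - (39 / 20) * As) ≤ d * E := by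
      rw [e2, e1] at hb
      nlinarith
    have h4 : (1 / 2000) * p * ((19 / 20) * E - (39 / 20) * (473 / 1000 * E)) ≤
        (1 / 2000) * p * ((19 / 20) * E - (39 / 20) * As) :=
      mul_le_mul_of_nonneg_left (by linarith) (by positivity)
    have h6 : d * E ≤ (1 / 10 ^ 6) * p * E := mul_le_mul_of_nonneg_right hdp hE.le
    have h7 : 0 < p * E := by positivity
    norm_num at h6
    nlinarith

lemma choose_parU {Λ L d : ℝ} (hd : 0 < d) :
    ∃ η : ℝ, 0 < η ∧ η < 1 ∧
      (11 / 10) * (4 * η) / Λ + (4 * η + Λ) * (η ^ 3 + η + Real.sqrt η * L ^ 2 / 2) +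
        (Real.sqrt η / 2) * (11 / 10 + d) < d ∧ η ^ 4 ≤ 1 / 10 ^ 6 := by
  set g : ℝ → ℝ := fun η => (11 / 10) * (4 * η) / Λ +
    (4 * η + Λ) * (η ^ 3 + η + Real.sqrt η * L ^ 2 / 2) + (Real.sqrt η / 2) * (11 / 10 + d) with hg
  have hgc : Continuous g := by
    rw [hg]; fun_prop
  have h0 : g 0 < d := by
    rw [hg]
    simpa using hd
  have hg2c : Continuous fun η : ℝ => η ^ 4 := by fun_prop
  have h1 : ∀ᶠ η in 𝓝 (0 : ℝ), g η < d := hgc.continuousAt.eventually (gt_mem_nhds h0)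
  have h1' : ∀ᶠ η in 𝓝 (0 : ℝ), η ^ 4 < 1 / 10 ^ 6 :=
    hg2c.continuousAt.eventually (gt_mem_nhds (by norm_num))
  have h2 : ∀ᶠ η in 𝓝[>] (0 : ℝ), g η < d := h1.filter_mono nhdsWithin_le_nhds
  have h2' : ∀ᶠ η in 𝓝[>] (0 : ℝ), η ^ 4 < 1 / 10 ^ 6 := h1'.filter_mono nhdsWithin_le_nhds
  have h3 : ∀ᶠ η in 𝓝[>] (0 : ℝ), η < 1 :=
    (gt_mem_nhds one_pos).filter_mono nhdsWithin_le_nhds
  obtain ⟨η, ⟨⟨hη1, hη4⟩, hη3⟩, hη2⟩ :=
    (((h2.and h2').and h3).and self_mem_nhdsWithin).exists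
  exact ⟨η, hη2, hη3, hη1, hη4.le⟩

theorem valid_constU (H : SWt δ L h) (hδ : 0 < δ) (hL : 0 ≤ L) : VU h (10 ^ 12) := by
  have hwt := H.wt hδ
  have hi := H.int hδ
  have hmass := H.mass hδ
  let T : Type _ := {t : Finset (Fin m) × (Vn m → ℝ) // Par t.1 t.2 ∧ BL t.2}
  have key := opt_const (T := T) (fun t => pz t.1.1.card * Vr h t.1.2) (fun t => En h t.1.2)
    (fun t => En_nonneg hwt) (C0 := 10 ^ 12) (C1 := 2 * (1 / δ))
    (by norm_num) (fun t => ?_) ?_
  · intro S u hu hB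
    exact key ⟨(S, u), hu, hB⟩
  · have h1 := H.apriori hδ t.2.2
    have h2 := pz_le t.1.1.card
    have h3 := pz_ge t.1.1.card
    have h4 : 0 ≤ (1 / δ) * En h t.1.2 := mul_nonneg (by positivity) (En_nonneg hwt)
    calc pz t.1.1.card * Vr h t.1.2 ≤ pz t.1.1.card * ((1 / δ) * En h t.1.2) :=
          mul_le_mul_of_nonneg_left h1 (by linarith)
      _ ≤ 2 * ((1 / δ) * En h t.1.2) := mul_le_mul_of_nonneg_right (by linarith) h4
      _ = _ := by ring
  intro Λ hΛ hval'
  have hΛ0 : 0 < Λ := by linarith [show (0 : ℝ) < 10 ^ 12 by norm_num]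
  have hval : VU h Λ := fun S u hu hB => hval' ⟨(S, u), hu, hB⟩
  have hd0 : 0 < (1 / 10 ^ 6) * (19 / 20 : ℝ) ^ m := by positivity
  obtain ⟨d, hd⟩ : ∃ d, d = (1 / 10 ^ 6) * (19 / 20 : ℝ) ^ m := ⟨_, rfl⟩
  rw [← hd] at hd0
  obtain ⟨η, hη, hη1, hcond, hηn⟩ := choose_parU (Λ := Λ) (L := L) hd0
  refine ⟨η ^ 4 / 2, by positivity, ?_⟩
  rintro ⟨⟨S, q⟩, hq', hB'⟩
  have hq : Par S q := hq'
  have hB : BL q := hB'
  simp only
  by_contra hcon
  rw [not_le] at hcon
  have hE0 : 0 ≤ En h q := En_nonneg hwt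
  have hφ1 : 1 ≤ pz S.card := pz_ge _
  have hφ2 : pz S.card ≤ 11 / 10 := (pz_le _).trans (by norm_num)
  have hε1 : η ^ 4 < 1 := pow_lt_one₀ hη.le hη1 (by norm_num)
  have hE : 0 < En h q := by
    rcases hE0.eq_or_lt with h1 | h1
    · exfalso
      have h2 := hval S q hq hB
      rw [← h1] at h2 hcon
      linarith
    · exact h1
  -- subtract the mean
  obtain ⟨c, hc⟩ : ∃ c, c = (∫ x, q x * h x) / ∫ x, h x := ⟨_, rfl⟩
  obtain ⟨⟨Lq, hLq⟩, A, hA⟩ := id hB
  have hqm : Measurable q := hLq.continuous.measurable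
  have i1 : Integrable fun x => q x * h x := bdd_int hi hqm hA
  have i2 : Integrable fun x => q x ^ 2 * h x := bdd_int hi (hqm.pow_const 2) (Wt.sq_bdd hA)
  have hc1 : ∫ x, q x * h x = c * ∫ x, h x := by
    rw [hc, div_mul_cancel₀ _ hmass.ne']
  set q0 : Vn m → ℝ := fun x => q x - c with hq0
  have hq0B : BL q0 := hB.sub (BL.const c)
  have hq0P : Par S q0 := by
    rcases S.eq_empty_or_nonempty with hS | hS
    · subst hS
      exact ⟨fun i hi => absurd hi (Finset.notMem_empty i), fun i hi x => by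
        simp only [hq0]; rw [hq.2 i hi x]⟩
    · have hc0 : c = 0 := by
        rw [hc, hq.mean_zero H.even hS.ne_empty, zero_div]
      have : q0 = q := by funext x; simp [hq0, hc0]
      rw [this]; exact hq
  have hq0mean : ∫ x, q0 x * h x = 0 := by
    have e : (fun x => q0 x * h x) = fun x => q x * h x - c * h x := by
      funext x; simp only [hq0]; ring
    rw [e, integral_sub i1 (hi.const_mul c), integral_const_mul, hc1, sub_self]
  have hq0V : ∫ x, q0 x ^ 2 * h x = Vr h q := by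
    have e : (fun x => q0 x ^ 2 * h x) = fun x => q x ^ 2 * h x - 2 * c * (q x * h x) + c ^ 2 * h x := by
      funext x; simp only [hq0]; ring
    have i3 : Integrable fun x => q x ^ 2 * h x - 2 * c * (q x * h x) := i2.sub (i1.const_mul _)
    rw [e, integral_add i3 (hi.const_mul _), integral_sub i2 (i1.const_mul _),
      integral_const_mul, integral_const_mul]
    unfold Vr
    rw [hc1]
    field_simp
    ring
  have hq0E : En h q0 = En h q := by
    unfold En
    refine integral_congr_ae (Eventually.of_forall fun x => ?_)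
    simp only [hq0]
    rw [fderiv_sub_const]
  -- smoothing
  obtain ⟨⟨L0, hL0⟩, A0, hA0⟩ := id hq0B
  obtain ⟨τ, hτ⟩ : ∃ τ, τ = η ^ 4 / 2 := ⟨_, rfl⟩
  have hτ0 : 0 < τ := by rw [hτ]; positivity
  set q1 : Vn m → ℝ := RT h τ q0 with hq1
  have hsm := RT_dir hwt hτ0 hL0 hA0
  have hq1d : Differentiable ℝ q1 := (hsm 0).1
  have hq1B : BL q1 := (hsm 0).2.1
  have hq1v : ∀ v, BL fun x => fderiv ℝ q1 x v := fun v => (hsm v).2.2.1
  have hq1P : Par S q1 := hq0P.RT H.even
  have hq1mean : ∫ x, q1 x * h x = 0 := by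
    rw [hq1, round_mean hwt hi hτ0 hL0 hA0]; exact hq0mean
  have hvar : ∫ x, q0 x ^ 2 * h x ≤ 2 * τ * En h q0 + ∫ x, q1 x ^ 2 * h x :=
    round_var hwt hi hτ0 hL0 hA0
  have hE1 : En h q1 ≤ En h q := by
    have h1 := hess_bound hwt hi hτ0 hL0 hA0 (fun i : Fin m => ee i) (c := 1) one_pos (by
      intro D
      rw [one_mul, norm_sq_fderiv (EuclideanSpace.basisFun (Fin m) ℝ)]
      refine Finset.sum_congr rfl fun i _ => ?_
      rw [EuclideanSpace.basisFun_apply]; rfl)
    have h2 : 0 ≤ ∑ i : Fin m, En h (fun x => fderiv ℝ (RT h τ q0) x (ee i)) :=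
      Finset.sum_nonneg fun i _ => En_nonneg hwt
    have h3 := h2.trans h1
    have h4 : 0 < 1 / τ := by positivity
    have h5 := nonneg_of_mul_nonneg_right h3 h4
    rw [hq0E] at h5
    linarith
  rw [hq0V, hq0E] at hvar
  have hn1 : (1 - η ^ 4) * Λ * En h q ≤ pz S.card * ∫ x, q1 x ^ 2 * h x := by
    have h1 : pz S.card * Vr h q ≤ pz S.card * (2 * τ * En h q + ∫ x, q1 x ^ 2 * h x) :=
      mul_le_mul_of_nonneg_left hvar (by linarith)
    have h2 : pz S.card * (2 * τ * En h q) ≤ τ * Λ * En h q := by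
      have h3 : pz S.card * (2 * τ) ≤ τ * Λ := by nlinarith
      calc pz S.card * (2 * τ * En h q) = (pz S.card * (2 * τ)) * En h q := by ring
        _ ≤ (τ * Λ) * En h q := mul_le_mul_of_nonneg_right h3 hE0
    have h3 : (1 - η ^ 4 / 2) * Λ * En h q - τ * Λ * En h q = (1 - η ^ 4) * Λ * En h q := by
      rw [hτ]; ring
    linarith
  have hE1p : 0 < En h q1 := by
    have h1 := hval S q1 hq1P hq1B
    rw [Vr_of_mean hq1mean] at h1
    have h2 : 0 < (1 - η ^ 4) * Λ * En h q := by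
      have : 0 < 1 - η ^ 4 := by linarith
      positivity
    have h3 : 0 < Λ * En h q1 := by linarith
    exact (mul_pos_iff_of_pos_left hΛ0).1 h3
  refine core_stepU H hδ hL hΛ.le hval hη hη1 hd0 hd.le hcond hηn hq1P hq1B hq1d hq1v
    hq1mean hE1p ?_
  refine le_trans ?_ hn1
  refine mul_le_mul_of_nonneg_left hE1 ?_
  have : 0 < 1 - η ^ 4 := by linarith
  positivity

/-- **The Poincaré inequality for normalised smooth unconditional weights.** -/
theorem uncond_SWt (H : SWt δ L h) (hδ : 0 < δ) (hL : 0 ≤ L) {f : Vn m → ℝ} (hf : BL f) :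
    Vr h f ≤ 10 ^ 12 * En h f :=
  (valid_constU H hδ hL).poincare H hδ (by norm_num) hf

end Pool.Agent.Lib.MP_8d00da_gt.h42u
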