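import Pool.Agent.Lib.MP_8d00da_gt.h42u.UNTlc
import Pool.Agent.Lib.MP_8d00da_gt.h42u.UShrink

/-!
# U16: product bound for the tails (Lemma N)

Full proof. `M = ∫ h > 0`, `N τ = NT h A (τ t)`, `T = ∑_{i∈A} t i`. If `N 1 = 0` or `T = 0` trivial
(`N 1 ≤ M`). For `0 < τ` so small that `τ t i ≤ √2` for all `i ∈ A`:
the sets `E_i = {|x i| < τ t i, τ t j ≤ |x j| for j ∈ A \ {i}}`, `i ∈ A`, are pairwise disjoint and
disjoint from `{τ t i ≤ |x i| for all i ∈ A}`, so `M - N τ ≥ ∑_{i∈A} ∫_{E_i} h`.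
If `t i > 0`: `slab_shrink` with `a = τ t i`, `b = √2`:
`∫_{E_i} h ≥ (τ t i/√2) ∫_{|x i| < √2, ...} h ≥ (τ t i/√2) (N τ - M/2)`, because
`∫_{τ t j ≤ |x j|, j ∈ A\{i}} h ≥ N τ` and `∫_{|x i| ≥ √2} h ≤ (1/2) ∫ (x i)² h ≤ M/2` (`H.mom`).
(For `t i = 0` the inequality `∫_{E_i} h ≥ 0 = (τ t i/√2)(..)` is trivial.) So with `p τ = N τ/M`:
  `1 - p τ ≥ (τ T/√2) (p τ - 1/2)`.                                                 (*)
`NT_lc`: `p τ ≥ (p 1)^τ` for `0 < τ < 1`. Hence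
`log (p 1) ≤ (1/τ) log (p τ) ≤ (1/τ)(p τ - 1) ≤ -(T/√2)(p τ - 1/2) ≤ -(T/√2)((p 1)^τ - 1/2)`;
let `τ → 0+`: `(p 1)^τ → 1`, `log (p 1) ≤ -T/(2√2) ≤ -T/3`.
-/

namespace Pool.Agent.Lib.MP_8d00da_gt.h42u

open MeasureTheory Set Filter
open Pool.Agent.Lib.MP_8d00da_gt.h25 Pool.Agent.Lib.MP_8d00da_gt.h42
open Pool.Agent.Lib.MP_8d00da_gt.h42s Pool.Agent.Lib.MP_8d00da_gt.h42o
open scoped Topology NNReal
 
variable {m : ℕ} {δ L : ℝ} {h : Vn m → ℝ}

private lemma meas_ge (t : Fin m → ℝ) (A : Finset (Fin m)) :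
    MeasurableSet {x : Vn m | ∀ i ∈ A, t i ≤ |x i|} := by
  have h1 : {x : Vn m | ∀ i ∈ A, t i ≤ |x i|} = ⋂ i ∈ A, {x : Vn m | t i ≤ |x i|} := by
    ext x; simp
  rw [h1]
  refine Finset.measurableSet_biInter _ fun i _ => ?_
  exact (isClosed_le continuous_const (by fun_prop)).measurableSet

private lemma meas_lt (i : Fin m) (a : ℝ) : MeasurableSet {x : Vn m | |x i| < a} :=
  (isOpen_lt (by fun_prop) continuous_const).measurableSet

private lemma meas_slab (t : Fin m → ℝ) (A : Finset (Fin m)) (i : Fin m) (a : ℝ) :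
    MeasurableSet {x : Vn m | |x i| < a ∧ ∀ j ∈ A, t j ≤ |x j|} :=
  (meas_lt i a).inter (meas_ge t A)

/-- the disjoint slabs -/
private lemma disj_sum (hpos : ∀ x, 0 < h x) (hi : Integrable h) (A : Finset (Fin m))
    (t : Fin m → ℝ) :
    NT h A t + ∑ i ∈ A, ∫ x in {x : Vn m | |x i| < t i ∧ ∀ j ∈ A.erase i, t j ≤ |x j|}, h x ≤
      ∫ x, h x := by
  classical
  have e1 : NT h A t = ∫ x, ({x : Vn m | ∀ i ∈ A, t i ≤ |x i|}).indicator h x := by
    rw [NT, integral_indicator (meas_ge t A)]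
  have e2 : ∀ i, ∫ x in {x : Vn m | |x i| < t i ∧ ∀ j ∈ A.erase i, t j ≤ |x j|}, h x =
      ∫ x, ({x : Vn m | |x i| < t i ∧ ∀ j ∈ A.erase i, t j ≤ |x j|}).indicator h x := by
    intro i
    rw [integral_indicator (meas_slab t (A.erase i) i (t i))]
  simp only [e1, e2]
  rw [← integral_finsetSum _ fun i _ => hi.indicator (meas_slab t (A.erase i) i (t i)),
    ← integral_add (hi.indicator (meas_ge t A))
      (integrable_finsetSum _ fun i _ => hi.indicator (meas_slab t (A.erase i) i (t i)))]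
  refine integral_mono ((hi.indicator (meas_ge t A)).add
      (integrable_finsetSum _ fun i _ => hi.indicator (meas_slab t (A.erase i) i (t i)))) hi
      fun x => ?_
  change ({x : Vn m | ∀ i ∈ A, t i ≤ |x i|}).indicator h x +
    ∑ i ∈ A, ({x : Vn m | |x i| < t i ∧ ∀ j ∈ A.erase i, t j ≤ |x j|}).indicator h x ≤ h x
  by_cases hS : ∀ i ∈ A, t i ≤ |x i|
  · rw [indicator_of_mem (show x ∈ {x : Vn m | ∀ i ∈ A, t i ≤ |x i|} from hS),
      Finset.sum_eq_zero, add_zero]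
    intro i hiA
    refine indicator_of_notMem (fun hx => ?_) _
    exact absurd (hS i hiA) (not_le.2 hx.1)
  · rw [indicator_of_notMem (show x ∉ {x : Vn m | ∀ i ∈ A, t i ≤ |x i|} from hS), zero_add]
    by_cases hE : ∃ i ∈ A, x ∈ {x : Vn m | |x i| < t i ∧ ∀ j ∈ A.erase i, t j ≤ |x j|}
    · obtain ⟨i, hiA, hxi⟩ := hE
      rw [Finset.sum_eq_single i, indicator_of_mem hxi]
      · intro j hjA hji
        refine indicator_of_notMem (fun hx => ?_) _
        exact absurd (hxi.2 j (Finset.mem_erase.2 ⟨hji, hjA⟩)) (not_le.2 hx.1)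
      · intro h'; exact absurd hiA h'
    · rw [Finset.sum_eq_zero]
      · exact (hpos x).le
      · intro i hiA
        exact indicator_of_notMem (fun hx => hE ⟨i, hiA, hx⟩) _

/-- the part with `|x i| < √2` -/
private lemma part_ge (H : SWt δ L h) (hδ : 0 < δ) (A : Finset (Fin m)) (t : Fin m → ℝ)
    (i : Fin m) :
    NT h A t - (1 / 2) * ∫ x, h x ≤
      ∫ x in {x : Vn m | |x i| < √2 ∧ ∀ j ∈ A.erase i, t j ≤ |x j|}, h x := by
  classical
  have hi : Integrable h := H.toUW.int hδ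
  have hpos : ∀ x, 0 < h x := H.toUW.pos
  have hi2 : Integrable fun x : Vn m => (x i) ^ 2 * h x := by
    refine H.toUW.int_poly hδ (φ := fun x : Vn m => (x i) ^ 2) (C := 1) ?_ fun x => ?_
    · exact (by fun_prop : Continuous fun x : Vn m => (x i) ^ 2).measurable
    · rw [abs_pow, one_mul]
      have h1 : |x i| ≤ ‖x‖ := by
        have := PiLp.norm_apply_le x i
        simpa using this
      have h2 : |x i| ^ 2 ≤ ‖x‖ ^ 2 := by gcongr
      linarith
  have e1 : NT h A t = ∫ x, ({x : Vn m | ∀ i ∈ A, t i ≤ |x i|}).indicator h x := by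
    rw [NT, integral_indicator (meas_ge t A)]
  rw [e1, ← integral_indicator (meas_slab t (A.erase i) i (√2))]
  have key : ∫ x, ({x : Vn m | ∀ i ∈ A, t i ≤ |x i|}).indicator h x ≤
      ∫ x, (({x : Vn m | |x i| < √2 ∧ ∀ j ∈ A.erase i, t j ≤ |x j|}).indicator h x +
        (1 / 2) * ((x i) ^ 2 * h x)) := by
    refine integral_mono (hi.indicator (meas_ge t A))
      ((hi.indicator (meas_slab t (A.erase i) i (√2))).add (hi2.const_mul _)) fun x => ?_
    change ({x : Vn m | ∀ i ∈ A, t i ≤ |x i|}).indicator h x ≤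
      ({x : Vn m | |x i| < √2 ∧ ∀ j ∈ A.erase i, t j ≤ |x j|}).indicator h x +
        (1 / 2) * ((x i) ^ 2 * h x)
    have hp := hpos x
    by_cases hS : ∀ i ∈ A, t i ≤ |x i|
    · rw [indicator_of_mem (show x ∈ {x : Vn m | ∀ i ∈ A, t i ≤ |x i|} from hS)]
      by_cases hx : |x i| < √2
      · rw [indicator_of_mem (show x ∈ {x : Vn m | |x i| < √2 ∧
          ∀ j ∈ A.erase i, t j ≤ |x j|} from ⟨hx, fun j hj => hS j (Finset.mem_of_mem_erase hj)⟩)]
        have : 0 ≤ (1 / 2) * ((x i) ^ 2 * h x) := by positivity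
        linarith
      · rw [indicator_of_notMem (show x ∉ {x : Vn m | |x i| < √2 ∧
          ∀ j ∈ A.erase i, t j ≤ |x j|} from fun h' => hx h'.1), zero_add]
        have h2 : (2 : ℝ) ≤ (x i) ^ 2 := by
          have h3 : √2 ≤ |x i| := not_lt.1 hx
          have h4 : (√2) ^ 2 ≤ |x i| ^ 2 := by gcongr
          rwa [Real.sq_sqrt (by norm_num), sq_abs] at h4
        nlinarith
    · rw [indicator_of_notMem (show x ∉ {x : Vn m | ∀ i ∈ A, t i ≤ |x i|} from hS)]
      have h1 : 0 ≤ ({x : Vn m | |x i| < √2 ∧ ∀ j ∈ A.erase i, t j ≤ |x j|}).indicator h x :=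
        indicator_nonneg (fun y _ => (hpos y).le) x
      have : 0 ≤ (1 / 2) * ((x i) ^ 2 * h x) := by positivity
      linarith
  rw [integral_add (hi.indicator (meas_slab t (A.erase i) i (√2))) (hi2.const_mul _),
    integral_const_mul] at key
  have hm := H.mom i
  linarith

/-- the inequality (*) -/
private lemma star (H : SWt δ L h) (hδ : 0 < δ) (A : Finset (Fin m)) {t : Fin m → ℝ}
    (ht : ∀ i, 0 ≤ t i) (hs : ∀ i ∈ A, t i ≤ √2) :
    ((∑ i ∈ A, t i) / √2) * (NT h A t - (1 / 2) * ∫ x, h x) ≤ (∫ x, h x) - NT h A t := by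
  classical
  have hi : Integrable h := H.toUW.int hδ
  have hpos : ∀ x, 0 < h x := H.toUW.pos
  have h1 := disj_sum hpos hi A t
  have h2 : ∀ i ∈ A, (t i / √2) * (NT h A t - (1 / 2) * ∫ x, h x) ≤
      ∫ x in {x : Vn m | |x i| < t i ∧ ∀ j ∈ A.erase i, t j ≤ |x j|}, h x := by
    intro i hiA
    rcases (ht i).eq_or_lt with h0 | h0
    · rw [← h0, zero_div, zero_mul]
      exact setIntegral_nonneg (h0 ▸ meas_slab t (A.erase i) i (t i)) fun x _ => (hpos x).le
    · refine le_trans ?_ (slab_shrink H.toUW hδ (Finset.notMem_erase i A) t h0 (hs i hiA))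
      exact mul_le_mul_of_nonneg_left (part_ge H hδ A t i) (by positivity)
  have h3 := Finset.sum_le_sum h2
  rw [← Finset.sum_mul, ← Finset.sum_div] at h3
  linarith

theorem prodTail (H : SWt δ L h) (hδ : 0 < δ) (A : Finset (Fin m)) {t : Fin m → ℝ}
    (ht : ∀ i, 0 ≤ t i) :
    NT h A t ≤ Real.exp (-((1 / 3) * ∑ i ∈ A, t i)) * ∫ x, h x := by
  have hi : Integrable h := H.toUW.int hδ
  have hpos : ∀ x, 0 < h x := H.toUW.pos
  have hM : 0 < ∫ x, h x := H.toUW.mass hδ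
  have hNT0 : ∀ s : Fin m → ℝ, 0 ≤ NT h A s := fun s =>
    setIntegral_nonneg (meas_ge s A) fun x _ => (hpos x).le
  rcases (hNT0 t).eq_or_lt with hN | hN
  · rw [← hN]; positivity
  set M : ℝ := ∫ x, h x with hMdef
  set T : ℝ := ∑ i ∈ A, t i with hT
  set q : ℝ := NT h A t / M with hq
  have hq0 : 0 < q := div_pos hN hM
  have hNq : NT h A t = q * M := by rw [hq]; field_simp
  -- the key inequality for small `τ`
  have hT0 : 0 ≤ T := Finset.sum_nonneg fun i _ => ht i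
  have hsmall : ∀ τ : ℝ, 0 < τ → τ < 1 → τ * T ≤ √2 →
      (T / √2) * (q ^ τ - 1 / 2) ≤ - Real.log q := by
    intro τ h0 h1 hτT
    have hst := star H hδ A (t := fun i => τ * t i) (fun i => mul_nonneg h0.le (ht i)) (by
      intro i hiA
      refine le_trans ?_ hτT
      exact mul_le_mul_of_nonneg_left (Finset.single_le_sum (fun j _ => ht j) hiA) h0.le)
    rw [← Finset.mul_sum, ← hT, ← hMdef] at hst
    have hlc := NT_lc H.toUW hδ A ht h0 h1
    rw [← hMdef, hNq, Real.mul_rpow hq0.le hM.le] at hlc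
    have h2 : M ^ (1 - τ) * (q ^ τ * M ^ τ) = q ^ τ * M := by
      have h3 : M ^ (1 - τ) * M ^ τ = M := by
        rw [← Real.rpow_add hM]; simp
      calc M ^ (1 - τ) * (q ^ τ * M ^ τ) = q ^ τ * (M ^ (1 - τ) * M ^ τ) := by ring
        _ = _ := by rw [h3]
    rw [h2] at hlc
    set N : ℝ := NT h A fun i => τ * t i with hNdef
    have h4 : (τ * T / √2) * (q ^ τ * M - (1 / 2) * M) ≤ M - q ^ τ * M := by
      calc (τ * T / √2) * (q ^ τ * M - (1 / 2) * M)
          ≤ (τ * T / √2) * (N - (1 / 2) * M) := by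
            refine mul_le_mul_of_nonneg_left (by linarith) (by positivity)
        _ ≤ M - N := hst
        _ ≤ M - q ^ τ * M := by linarith
    have h5 : 1 + τ * Real.log q ≤ q ^ τ := by
      rw [Real.rpow_def_of_pos hq0]
      have := Real.add_one_le_exp (Real.log q * τ)
      linarith
    have h6 : τ * ((T / √2) * (q ^ τ - 1 / 2)) ≤ τ * (- Real.log q) := by
      have h7 : (τ * T / √2) * (q ^ τ * M - (1 / 2) * M) =
          (τ * ((T / √2) * (q ^ τ - 1 / 2))) * M := by ring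
      have h8 : M - q ^ τ * M = (1 - q ^ τ) * M := by ring
      rw [h7, h8] at h4
      have h9 := le_of_mul_le_mul_right h4 hM
      linarith
    exact le_of_mul_le_mul_left h6 h0
  have hlim : Tendsto (fun τ : ℝ => (T / √2) * (q ^ τ - 1 / 2)) (𝓝[>] 0)
      (𝓝 ((T / √2) * (1 - 1 / 2))) := by
    have h1 : Tendsto (fun τ : ℝ => q ^ τ) (𝓝[>] 0) (𝓝 1) := by
      have h2 : Tendsto (fun τ : ℝ => q ^ τ) (𝓝 0) (𝓝 (q ^ (0 : ℝ))) :=
        (Real.continuous_const_rpow hq0.ne').tendsto 0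
      rw [Real.rpow_zero] at h2
      exact h2.mono_left nhdsWithin_le_nhds
    exact (h1.sub_const _).const_mul _
  have hev : ∀ᶠ τ : ℝ in 𝓝[>] 0, (T / √2) * (q ^ τ - 1 / 2) ≤ - Real.log q := by
    have e1 : ∀ᶠ τ : ℝ in 𝓝[>] 0, τ < 1 :=
      (eventually_lt_nhds (zero_lt_one : (0 : ℝ) < 1)).filter_mono nhdsWithin_le_nhds
    have e2 : ∀ᶠ τ : ℝ in 𝓝[>] 0, τ * T ≤ √2 := by
      have h1 : Tendsto (fun τ : ℝ => τ * T) (𝓝 0) (𝓝 (0 * T)) :=
        (continuous_id.mul continuous_const).tendsto 0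
      rw [zero_mul] at h1
      have h2 : ∀ᶠ τ : ℝ in 𝓝 0, τ * T < √2 := h1.eventually_lt_const (by positivity)
      exact (h2.filter_mono nhdsWithin_le_nhds).mono fun τ hτ => hτ.le
    filter_upwards [self_mem_nhdsWithin, e1, e2] with τ h0 h1 h2 using hsmall τ h0 h1 h2
  have hfin : (T / √2) * (1 - 1 / 2) ≤ - Real.log q := le_of_tendsto hlim hev
  have h3 : (1 / 3) * T ≤ (T / √2) * (1 - 1 / 2) := by
    have h4 : √2 ≤ 3 / 2 := by
      rw [Real.sqrt_le_left (by norm_num)]; norm_num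
    have h5 : (2 / 3 : ℝ) ≤ 1 / √2 := by
      rw [le_div_iff₀ (by positivity)]; linarith
    have h6 : (T / √2) * (1 - 1 / 2) = (1 / 2) * T * (1 / √2) := by ring
    rw [h6]
    nlinarith
  have h7 : Real.log q ≤ -((1 / 3) * T) := by linarith
  have h8 : q ≤ Real.exp (-((1 / 3) * T)) := by
    rw [← Real.exp_log hq0]
    exact Real.exp_le_exp.2 h7
  rw [hNq]
  exact mul_le_mul_of_nonneg_right h8 hM.le

end Pool.Agent.Lib.MP_8d00da_gt.h42u
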