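import Pool.Agent.Lib.MP_8d00da_gt.h42u.UContr
import Pool.Agent.Lib.MP_8d00da_gt.h42u.URenyi

/-!
# U10: one half step of the Harnack inequality

Full proof. Let `r = ‖y - y'‖`, `θ = 1/(1 + c η) ∈ (0,1)`, `y1 = y + θ (y' - y)`, so
`‖y - y1‖ = θ r`, `‖y1 - y'‖ = (1-θ) r`. For every `b > θ r`: `u z ≤ v z' exp (c b²/2)` for
`‖z - z'‖ ≤ b`, so `contr` with `v` replaced by `exp(c b²/2) v` gives
`AA u y ≤ exp (c b²/2) AA v y1` (linearity of `AA` under constants: `AA h η (fun x => k * v x) y =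
k * AA h η v y`, unfold `AA`, `cv`, `integral_const_mul`). Let `b ↓ θ r` (continuity, `ge_of_tendsto`
or `le_of_forall_gt_imp_ge_of_dense`): `AA u y ≤ exp (c θ² r²/2) AA v y1`. By `renyi`:
`(AA v y1)² ≤ AA v² y' exp ((1-θ)² r²/η)`. Both sides are nonnegative, so
`(AA u y)² ≤ AA v² y' exp ((c θ² + (1-θ)²/η) r²)` and `c θ² + (1-θ)²/η = c/(1 + c η)`.
-/

namespace Pool.Agent.Lib.MP_8d00da_gt.h42u

open MeasureTheory Set Filter
open Pool.Agent.Lib.MP_8d00da_gt.h25 Pool.Agent.Lib.MP_8d00da_gt.h42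
open Pool.Agent.Lib.MP_8d00da_gt.h42s Pool.Agent.Lib.MP_8d00da_gt.h42o
open scoped Topology NNReal
 
variable {F : Type*} [NormedAddCommGroup F] [InnerProductSpace ℝ F]
    [FiniteDimensional ℝ F] [MeasurableSpace F] [BorelSpace F]

variable {h W : F → ℝ} {B L η : ℝ}

private lemma AA_const_mul_ts (η : ℝ) (h v : F → ℝ) (k : ℝ) (y : F) :
    AA h η (fun x => k * v x) y = k * AA h η v y := by
  unfold AA cv
  have h1 : ∀ x, k * v x * h x * ker η (y - x) = k * (v x * h x * ker η (y - x)) := by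
    intro x
    ring
  simp only [h1]
  rw [integral_const_mul, mul_div_assoc]

private lemma AA_nonneg_ts (H : Wt h B) {u : F → ℝ} (hu : ∀ x, 0 ≤ u x) (y : F) :
    0 ≤ AA h η u y := by
  unfold AA cv
  refine div_nonneg (integral_nonneg fun x => ?_) (integral_nonneg fun x => ?_)
  · exact mul_nonneg (mul_nonneg (hu x) (H.nonneg x)) (ker_pos _).le
  · exact mul_nonneg (H.nonneg x) (ker_pos _).le

theorem tstep (H : PW L B h W) (hL : 0 ≤ L) (hη : 0 < η) {u v : F → ℝ} (hu : BL u) (hv : BL v)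
    (hu0 : ∀ x, 0 ≤ u x) (hv0 : ∀ x, 0 ≤ v x) {c : ℝ} (hc : 0 < c)
    (huv : ∀ z z', u z ≤ v z' * Real.exp (c * ‖z - z'‖ ^ 2 / 2)) (y y' : F) :
    AA h η u y ^ 2 ≤ AA h η (fun x => v x ^ 2) y' *
      Real.exp (c / (1 + c * η) * ‖y - y'‖ ^ 2) := by
  set r := ‖y - y'‖ with hr
  set θ := 1 / (1 + c * η) with hθ
  have hcη : 0 < 1 + c * η := by positivity
  have hθ0 : 0 < θ := by positivity
  have hθ1 : θ ≤ 1 := by
    rw [hθ, div_le_one hcη]
    have := mul_pos hc hη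
    linarith
  set y1 := y + θ • (y' - y) with hy1
  have n1 : ‖y - y1‖ = θ * r := by
    have : y - y1 = θ • (y - y') := by
      rw [hy1, smul_sub, smul_sub]
      abel
    rw [this, norm_smul, Real.norm_eq_abs, abs_of_pos hθ0]
  have n2 : ‖y1 - y'‖ = (1 - θ) * r := by
    have : y1 - y' = (1 - θ) • (y - y') := by
      rw [hy1, sub_smul, one_smul, smul_sub, smul_sub]
      abel
    rw [this, norm_smul, Real.norm_eq_abs, abs_of_nonneg (by linarith)]
  have hA : ∀ b : ℝ, θ * r < b → AA h η u y ≤ Real.exp (c * b ^ 2 / 2) * AA h η v y1 := by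
    intro b hb
    have hk : BL (fun x => Real.exp (c * b ^ 2 / 2) * v x) := (BL.const _).mul hv
    have h1 := contr H hL hη hu hk (b := b) (fun z z' hz => ?_) (y := y) (y' := y1)
      (by rw [n1]; exact hb)
    · rwa [AA_const_mul_ts] at h1
    · refine (huv z z').trans ?_
      rw [mul_comm]
      refine mul_le_mul_of_nonneg_right ?_ (hv0 z')
      apply Real.exp_le_exp.mpr
      have h2 : ‖z - z'‖ ^ 2 ≤ b ^ 2 := pow_le_pow_left₀ (norm_nonneg _) hz 2
      have h3 := mul_le_mul_of_nonneg_left h2 hc.le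
      linarith
  have hB : AA h η u y ≤ Real.exp (c * (θ * r) ^ 2 / 2) * AA h η v y1 := by
    have hcont : Continuous fun b : ℝ => Real.exp (c * b ^ 2 / 2) * AA h η v y1 := by fun_prop
    have h1 : Tendsto (fun b : ℝ => Real.exp (c * b ^ 2 / 2) * AA h η v y1) (𝓝[>] (θ * r))
        (𝓝 (Real.exp (c * (θ * r) ^ 2 / 2) * AA h η v y1)) :=
      (hcont.tendsto (θ * r)).mono_left nhdsWithin_le_nhds
    refine ge_of_tendsto h1 ?_
    filter_upwards [self_mem_nhdsWithin] with b hb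
    exact hA b hb
  have hu1 := AA_nonneg_ts (η := η) H.wt hu0 y
  have hsq := pow_le_pow_left₀ hu1 hB 2
  obtain ⟨⟨K, hK⟩, A, hAv⟩ := hv
  have hren := renyi H.wt hη hK.continuous.measurable hAv y1 y'
  refine hsq.trans ?_
  rw [mul_pow, ← Real.exp_nat_mul]
  have h3 := mul_le_mul_of_nonneg_left hren
    (Real.exp_pos ((2 : ℕ) * (c * (θ * r) ^ 2 / 2))).le
  refine h3.trans (le_of_eq ?_)
  rw [mul_left_comm, ← Real.exp_add, n2]
  congr 2
  rw [hθ]
  push_cast
  field_simp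
  ring

end Pool.Agent.Lib.MP_8d00da_gt.h42u
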